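import Mathlib
import Pool.Agent.H65.Dom.Dual
import Pool.Agent.H75.TwoArm.Decay
import Pool.Agent.H75.TwoArm.Strand

set_option autoImplicit false
open Finset

/-! LEMMA OPEN (Q1, module M5). `E` random labels, `W` wired labels, `e0` the root edge between `x` and
`t`, `f1`, `f2` its two faces, `O ⊆ E` a set of labels which are opened. If `x` and `t` are connected in
`ω ∪ O ∪ W` but not in `ω ∪ W` then there is a fresh dual arm from the exit vertex `v ω` of the path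
next to the dual cluster of `f1` to the faces on the side of `f2`. -/

namespace Pool.Agent.H77.Q1

open Pool.Agent.H75.Perc Pool.Agent.H75.TwoArm Pool.Agent.H75.Four

lemma mem_du' {E ω : Finset (ℤ × ℤ)} {e : ℤ × ℤ} :
    e ∈ du E ω ↔ e - (1, 1) ∈ E ∧ e - (1, 1) ∉ ω := by
  unfold du
  rw [mem_map]
  constructor
  · rintro ⟨x, hx, rfl⟩
    have : sh1 x - (1, 1) = x := by
      unfold sh1
      simp
    rw [this]
    exact mem_sdiff.1 hx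
  · intro h
    refine ⟨e - (1, 1), mem_sdiff.2 h, ?_⟩
    unfold sh1
    simp

/-- dual connection by labels of the box `BB M` which are closed in `η`, off the root edge -/
def Dc (M : ℤ) (e0 : ℤ × ℤ) (η : Finset (ℤ × ℤ)) (f g : ℤ × ℤ) : Prop :=
  Co (du (H75.TwoArm.BB M) (insert e0 η)) f g

/-- `f1`, `f2` are the two faces of `e0` -/
def Fac (e0 f1 f2 : ℤ × ℤ) : Prop :=
  (f1 = fi (zu e0) ∧ f2 = fi (zv e0)) ∨ (f2 = fi (zu e0) ∧ f1 = fi (zv e0))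

/-- `x`, `t` are the two ends of `e0` -/
def Ends (e0 x t : ℤ × ℤ) : Prop := (x = eu e0 ∧ t = ev e0) ∨ (t = eu e0 ∧ x = ev e0)

/-- the label between the faces `g`, `g'` -/
def lbf (g g' : ℤ × ℤ) : ℤ × ℤ := g + g' - (1, 1)

lemma ad_dc {M : ℤ} {e0 : ℤ × ℤ} {η : Finset (ℤ × ℤ)} {g g' : ℤ × ℤ} :
    Ad (du (H75.TwoArm.BB M) (insert e0 η)) g g' ↔
      IsUnit4 (g' - g) ∧ lbf g g' ∈ H75.TwoArm.BB M ∧ lbf g g' ≠ e0 ∧ lbf g g' ∉ η := by
  unfold Ad lbf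
  rw [mem_du', mem_insert, not_or]

lemma Dc.refl {M : ℤ} {e0 : ℤ × ℤ} {η : Finset (ℤ × ℤ)} (g : ℤ × ℤ) : Dc M e0 η g g :=
  Co.refl _ _

lemma Dc.symm {M : ℤ} {e0 : ℤ × ℤ} {η : Finset (ℤ × ℤ)} {f g : ℤ × ℤ} (h : Dc M e0 η f g) :
    Dc M e0 η g f := Co.symm h

lemma Dc.trans {M : ℤ} {e0 : ℤ × ℤ} {η : Finset (ℤ × ℤ)} {f g h : ℤ × ℤ} (h1 : Dc M e0 η f g)
    (h2 : Dc M e0 η g h) : Dc M e0 η f h := Co.trans h1 h2

lemma du_anti {E η η' : Finset (ℤ × ℤ)} (h : η ⊆ η') : du E η' ⊆ du E η := by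
  intro l hl
  rw [mem_du'] at hl ⊢
  exact ⟨hl.1, fun h' => hl.2 (h h')⟩

lemma Dc.anti {M : ℤ} {e0 : ℤ × ℤ} {η η' : Finset (ℤ × ℤ)} (h : η ⊆ η') {f g : ℤ × ℤ}
    (h1 : Dc M e0 η' f g) : Dc M e0 η f g :=
  Co.mono (du_anti (insert_subset_insert _ h)) h1

lemma Fac.symm {e0 f1 f2 : ℤ × ℤ} (h : Fac e0 f1 f2) : Fac e0 f2 f1 := by
  unfold Fac at h ⊢
  tauto

/-- exact duality -/
theorem dual_iff' {M : ℤ} {e0 : ℤ × ℤ} {η : Finset (ℤ × ℤ)} {f1 f2 x t : ℤ × ℤ}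
    (he0 : (e0.1 + e0.2) % 2 = 1) (he0M : e0 ∈ H75.TwoArm.BB (M - 1))
    (hη : η ⊆ H75.TwoArm.BB (M - 1)) (he : e0 ∉ η) (hf : Fac e0 f1 f2) (hx : Ends e0 x t) :
    ¬ Co η x t ↔ Dc M e0 η f1 f2 := by
  have h := H65.Dom.sep_iff_dual he0 he0M hη
  rw [erase_eq_of_notMem he] at h
  have h1 : Co η x t ↔ Co η (eu e0) (ev e0) := by
    rcases hx with ⟨rfl, rfl⟩ | ⟨rfl, rfl⟩
    · exact Iff.rfl
    · exact ⟨Co.symm, Co.symm⟩
  have h2 : Dc M e0 η f1 f2 ↔ Dc M e0 η (fi (zu e0)) (fi (zv e0)) := by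
    rcases hf with ⟨rfl, rfl⟩ | ⟨rfl, rfl⟩
    · exact Iff.rfl
    · exact ⟨Dc.symm, Dc.symm⟩
  rw [h1, h2]
  exact h

/-- `l` has a face with property `P` -/
def Tou (P : ℤ × ℤ → Prop) (l : ℤ × ℤ) : Prop := ∃ g g' : ℤ × ℤ, IsUnit4 (g' - g) ∧ lbf g g' = l ∧ P g

/-- `l` has one face with property `P` and one without -/
def Bdy (P : ℤ × ℤ → Prop) (l : ℤ × ℤ) : Prop :=
  ∃ g g' : ℤ × ℤ, IsUnit4 (g' - g) ∧ lbf g g' = l ∧ P g ∧ ¬ P g'

lemma Bdy.tou {P : ℤ × ℤ → Prop} {l : ℤ × ℤ} (h : Bdy P l) : Tou P l := by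
  obtain ⟨g, g', h1, h2, h3, -⟩ := h
  exact ⟨g, g', h1, h2, h3⟩

lemma lbf_comm (g g' : ℤ × ℤ) : lbf g g' = lbf g' g := by
  unfold lbf; rw [add_comm g g']

lemma unit4_neg {g g' : ℤ × ℤ} (h : IsUnit4 (g' - g)) : IsUnit4 (g - g') := by
  have := isUnit4_neg h
  rwa [neg_sub] at this

open Classical in
/-- explored labels: labels of `E` not in `O` with a face in the dual cluster of `f1` -/
noncomputable def Ex (M : ℤ) (e0 : ℤ × ℤ) (E W O : Finset (ℤ × ℤ)) (f1 : ℤ × ℤ)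
    (ω : Finset (ℤ × ℤ)) : Finset (ℤ × ℤ) :=
  (E \ O).filter (Tou (Dc M e0 (ω ∪ O ∪ W) f1))

open Classical in
/-- open boundary of the dual cluster of `f1` -/
noncomputable def Kb (M : ℤ) (e0 : ℤ × ℤ) (W O : Finset (ℤ × ℤ)) (f1 : ℤ × ℤ)
    (ω : Finset (ℤ × ℤ)) : Finset (ℤ × ℤ) :=
  (ω ∪ O ∪ W).filter (Bdy (Dc M e0 (ω ∪ O ∪ W) f1))

open Classical in
/-- the exit vertex as a function of the open boundary -/
noncomputable def exv (O W K : Finset (ℤ × ℤ)) (x : ℤ × ℤ) : ℤ × ℤ :=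
  if h : ∃ v, Co (K \ (O ∪ W)) x v ∧ ∃ o ∈ O, v = eu o ∨ v = ev o then h.choose else x

section
variable {M : ℤ} {e0 : ℤ × ℤ} {E W O : Finset (ℤ × ℤ)} {f1 f2 x t : ℤ × ℤ}

/-- locality -/
lemma dc_local {ω ω1 : Finset (ℤ × ℤ)} (hω : ω ⊆ E) (hω1 : ω1 ⊆ E)
    (h : ∀ l ∈ Ex M e0 E W O f1 ω, (l ∈ ω ↔ l ∈ ω1)) (g : ℤ × ℤ) :
    Dc M e0 (ω1 ∪ O ∪ W) f1 g ↔ Dc M e0 (ω ∪ O ∪ W) f1 g := by
  classical
  have key : ∀ g g' : ℤ × ℤ, Dc M e0 (ω ∪ O ∪ W) f1 g → IsUnit4 (g' - g) →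
      lbf g g' ∉ O → (lbf g g' ∈ ω ↔ lbf g g' ∈ ω1) := by
    intro g g' h1 h2 h3
    by_cases h4 : lbf g g' ∈ E
    · exact h _ (mem_filter.2 ⟨mem_sdiff.2 ⟨h4, h3⟩, g, g', h2, rfl, h1⟩)
    · exact ⟨fun h5 => absurd (hω h5) h4, fun h5 => absurd (hω1 h5) h4⟩
  constructor
  · intro h1
    unfold Dc at h1
    induction h1 with
    | refl => exact Dc.refl _
    | @tail b c hab hbc ih =>
      rw [ad_dc] at hbc
      refine Relation.ReflTransGen.tail ih (ad_dc.2 ⟨hbc.1, hbc.2.1, hbc.2.2.1, ?_⟩)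
      have h2 := hbc.2.2.2
      rw [mem_union, mem_union, not_or, not_or] at h2 ⊢
      exact ⟨⟨fun h3 => h2.1.1 ((key b c ih hbc.1 h2.1.2).1 h3), h2.1.2⟩, h2.2⟩
  · intro h1
    unfold Dc at h1
    induction h1 with
    | refl => exact Dc.refl _
    | @tail b c hab hbc ih =>
      rw [ad_dc] at hbc
      refine Relation.ReflTransGen.tail ih (ad_dc.2 ⟨hbc.1, hbc.2.1, hbc.2.2.1, ?_⟩)
      have h2 := hbc.2.2.2
      rw [mem_union, mem_union, not_or, not_or] at h2 ⊢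
      exact ⟨⟨fun h3 => h2.1.1 ((key b c hab hbc.1 h2.1.2).2 h3), h2.1.2⟩, h2.2⟩

lemma mix_agree {ω ω' : Finset (ℤ × ℤ)} {U : Finset (ℤ × ℤ)} :
    ∀ l ∈ U, (l ∈ ω ↔ l ∈ mix U ω ω') := by
  intro l hl
  rw [mem_mix]
  tauto

lemma mix_sub {ω ω' : Finset (ℤ × ℤ)} {U : Finset (ℤ × ℤ)} (h1 : ω ⊆ E) (h2 : ω' ⊆ E) :
    mix U ω ω' ⊆ E := by
  intro l hl
  rw [mem_mix] at hl
  rcases hl with h | h
  · exact h1 h.1
  · exact h2 h.1

lemma dc_mix {ω ω' : Finset (ℤ × ℤ)} (hω : ω ⊆ E) (hω' : ω' ⊆ E) :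
    Dc M e0 (mix (Ex M e0 E W O f1 ω) ω ω' ∪ O ∪ W) f1 = Dc M e0 (ω ∪ O ∪ W) f1 := by
  funext g
  exact propext (dc_local hω (mix_sub hω hω') mix_agree g)

lemma ex_mix {ω ω' : Finset (ℤ × ℤ)} (hω : ω ⊆ E) (hω' : ω' ⊆ E) :
    Ex M e0 E W O f1 (mix (Ex M e0 E W O f1 ω) ω ω') = Ex M e0 E W O f1 ω := by
  classical
  unfold Ex
  congr 1
  exact congrArg Tou (dc_mix hω hω')

lemma kb_mix {ω ω' : Finset (ℤ × ℤ)} (hω : ω ⊆ E) (hω' : ω' ⊆ E) :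
    Kb M e0 W O f1 (mix (Ex M e0 E W O f1 ω) ω ω') = Kb M e0 W O f1 ω := by
  classical
  have hsub := mix_sub (U := Ex M e0 E W O f1 ω) hω hω'
  ext l
  unfold Kb
  rw [mem_filter, mem_filter, dc_mix hω hω']
  refine and_congr_left fun hb => ?_
  simp only [mem_union]
  by_cases h1 : l ∈ O
  · simp [h1]
  by_cases h2 : l ∈ E
  · have h3 : l ∈ Ex M e0 E W O f1 ω := mem_filter.2 ⟨mem_sdiff.2 ⟨h2, h1⟩, hb.tou⟩
    rw [← mix_agree l h3]
  · have h3 : l ∉ ω := fun h => h2 (hω h)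
    have h4 : l ∉ mix (Ex M e0 E W O f1 ω) ω ω' := fun h => h2 (hsub h)
    simp [h3, h4]

/-- The open boundary of the dual cluster of `f1` joins `x` to `t`. -/
lemma kb_conn (he0 : (e0.1 + e0.2) % 2 = 1) (he0M : e0 ∈ H75.TwoArm.BB (M - 1))
    {ω : Finset (ℤ × ℤ)} (hη : ω ∪ O ∪ W ⊆ H75.TwoArm.BB (M - 1)) (he : e0 ∉ ω ∪ O ∪ W)
    (hf : Fac e0 f1 f2) (hx : Ends e0 x t) (h : Co (ω ∪ O ∪ W) x t) :
    Co (Kb M e0 W O f1 ω) x t := by
  classical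
  by_contra hc
  have hsub : Kb M e0 W O f1 ω ⊆ ω ∪ O ∪ W := filter_subset _ _
  have h1 := (dual_iff' he0 he0M (hsub.trans hη) (fun h' => he (hsub h')) hf hx).1 hc
  have key : ∀ g, Dc M e0 (Kb M e0 W O f1 ω) f1 g → Dc M e0 (ω ∪ O ∪ W) f1 g := by
    intro g hg
    unfold Dc at hg
    induction hg with
    | refl => exact Dc.refl _
    | @tail b c hab hbc ih =>
      rw [ad_dc] at hbc
      by_cases h2 : lbf b c ∈ ω ∪ O ∪ W
      · by_contra h3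
        exact hbc.2.2.2 (mem_filter.2 ⟨h2, b, c, hbc.1, rfl, ih, h3⟩)
      · exact Relation.ReflTransGen.tail ih (ad_dc.2 ⟨hbc.1, hbc.2.1, hbc.2.2.1, h2⟩)
  exact (dual_iff' he0 he0M hη he hf hx).2 (key f2 h1) h

/-- existence of the exit vertex -/
lemma exv_spec (he0 : (e0.1 + e0.2) % 2 = 1) (he0M : e0 ∈ H75.TwoArm.BB (M - 1))
    {ω : Finset (ℤ × ℤ)} (hη : ω ∪ O ∪ W ⊆ H75.TwoArm.BB (M - 1)) (he : e0 ∉ ω ∪ O ∪ W)
    (hf : Fac e0 f1 f2) (hx : Ends e0 x t)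
    (hW : ∀ w ∈ W, Co W (eu w) t)
    (h : Co (ω ∪ O ∪ W) x t) (h' : ¬ Co (ω ∪ W) x t) :
    Co (Kb M e0 W O f1 ω \ (O ∪ W)) x (exv O W (Kb M e0 W O f1 ω) x) ∧
      ∃ o ∈ O, exv O W (Kb M e0 W O f1 ω) x = eu o ∨ exv O W (Kb M e0 W O f1 ω) x = ev o := by
  classical
  set K := Kb M e0 W O f1 ω with hK
  have hsub : K ⊆ ω ∪ O ∪ W := filter_subset _ _
  have hex : ∃ v, Co (K \ (O ∪ W)) x v ∧ ∃ o ∈ O, v = eu o ∨ v = ev o := by
    have hKω : K \ (O ∪ W) ⊆ ω ∪ W := by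
      intro l hl
      rw [mem_sdiff, mem_union, not_or] at hl
      have := hsub hl.1
      rw [mem_union, mem_union] at this
      rw [mem_union]
      tauto
    have h1 : ¬ Co (K \ (O ∪ W)) x t := fun h2 => h' (h2.mono hKω)
    obtain ⟨z, z', hz, hz', hzz, -, -⟩ := exit_co (X := Co (K \ (O ∪ W)) x)
      (kb_conn he0 he0M hη he hf hx h) (Co.refl _ _) h1
    have hlab : z + z' ∈ O ∪ W := by
      by_contra h2
      exact hz' (Co.trans hz (Relation.ReflTransGen.single ⟨hzz.1, mem_sdiff.2 ⟨hzz.2, h2⟩⟩))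
    have hends : z = eu (z + z') ∨ z = ev (z + z') := by
      have := unit_cases hzz.1
      unfold eu ev
      simp only [Prod.ext_iff, Prod.fst_add, Prod.snd_add]
      omega
    by_cases hO : z + z' ∈ O
    · exact ⟨z, hz, z + z', hO, hends⟩
    · exfalso
      have hw : z + z' ∈ W := by
        rw [mem_union] at hlab
        tauto
      have h3 : Co W z t := by
        rcases hends with h4 | h4
        · rw [h4]; exact hW _ hw
        · have h5 : z' = eu (z + z') := by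
            have := unit_cases hzz.1
            unfold eu
            unfold ev at h4
            simp only [Prod.ext_iff, Prod.fst_add, Prod.snd_add] at h4 ⊢
            omega
          have h6 : Co W z z' := Relation.ReflTransGen.single ⟨hzz.1, hw⟩
          refine h6.trans ?_
          rw [h5]; exact hW _ hw
      exact h' ((hz.mono hKω).trans (h3.mono subset_union_right))
  have h2 : exv O W K x = hex.choose := by
    unfold exv
    rw [dif_pos hex]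
  rw [h2]
  exact hex.choose_spec

lemma faces_unique {g g' h h' : ℤ × ℤ} (h1 : IsUnit4 (g' - g)) (h2 : IsUnit4 (h' - h))
    (h3 : lbf g g' = lbf h h') : g = h ∨ g = h' := by
  have h4 := unit_cases h1
  have h5 := unit_cases h2
  unfold lbf at h3
  have h6 := congrArg Prod.fst h3
  have h7 := congrArg Prod.snd h3
  simp only [Prod.fst_sub, Prod.snd_sub, Prod.fst_add, Prod.snd_add] at h6 h7
  simp only [Prod.ext_iff]
  omega

/-- The fresh dual arm. -/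
lemma arm_det (he0 : (e0.1 + e0.2) % 2 = 1) (he0M : e0 ∈ H75.TwoArm.BB (M - 1))
    {ω : Finset (ℤ × ℤ)} (hη : ω ∪ O ∪ W ⊆ H75.TwoArm.BB (M - 1)) (he : e0 ∉ ω ∪ O ∪ W)
    (hf : Fac e0 f1 f2) (hx : Ends e0 x t) (h' : ¬ Co (ω ∪ W) x t)
    {v : ℤ × ℤ} (hv : Co (Kb M e0 W O f1 ω \ (O ∪ W)) x v)
    {T : Finset (ℤ × ℤ)} (hT : T ⊆ O) (hvT : Co (T ∪ W) v t)
    {S : ℤ × ℤ → Prop} (hS2 : S f2)
    (hS : ∀ g g', Dc M e0 W f2 g → IsUnit4 (g' - g) → lbf g g' ∉ E → lbf g g' ∉ W →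
      lbf g g' ≠ e0 → S g) :
    ∃ z z' h, IsUnit4 (z' - z) ∧ lbf z z' ∈ T ∧ S h ∧
      Co (du (E \ Ex M e0 E W O f1 ω) ω) z h := by
  classical
  set K := Kb M e0 W O f1 ω with hK
  have hsub : K ⊆ ω ∪ O ∪ W := filter_subset _ _
  set κ := (K \ (O ∪ W)) ∪ (T ∪ W) with hκ
  have hκ1 : κ ⊆ ω ∪ O ∪ W := by
    intro l hl
    rw [hκ, mem_union, mem_sdiff, mem_union, mem_union, not_or] at hl
    rw [mem_union, mem_union]
    rcases hl with hl | hl | hl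
    · have := hsub hl.1
      rw [mem_union, mem_union] at this
      exact this
    · exact Or.inl (Or.inr (hT hl))
    · exact Or.inr hl
  have hκ2 : κ ⊆ ω ∪ W ∪ T := by
    intro l hl
    rw [hκ, mem_union, mem_sdiff, mem_union, mem_union, not_or] at hl
    rw [mem_union, mem_union]
    rcases hl with hl | hl | hl
    · have := hsub hl.1
      rw [mem_union, mem_union] at this
      tauto
    · exact Or.inr hl
    · exact Or.inl (Or.inr hl)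
  have hκ3 : Co κ x t := (hv.mono subset_union_left).trans (hvT.mono subset_union_right)
  have hno : ¬ Dc M e0 κ f1 f2 := fun hd =>
    (dual_iff' he0 he0M (hκ1.trans hη) (fun h1 => he (hκ1 h1)) hf hx).2 hd hκ3
  have hωW : ω ∪ W ⊆ ω ∪ O ∪ W := by
    intro l hl
    rw [mem_union] at hl
    rw [mem_union, mem_union]
    tauto
  have hD : Dc M e0 (ω ∪ W) f1 f2 :=
    (dual_iff' he0 he0M (hωW.trans hη) (fun h1 => he (hωW h1)) hf hx).1 h'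
  have hZ1 : ¬ Dc M e0 (ω ∪ W ∪ T) f2 f1 := fun h1 => hno (h1.anti hκ2).symm
  obtain ⟨z, z', hz, hz', hzz, -, -⟩ := exit_co (X := Dc M e0 (ω ∪ W ∪ T) f2)
    (show Co _ f2 f1 from hD.symm) (Dc.refl _) hZ1
  have hzz' := ad_dc.1 hzz
  have hm : lbf z z' ∈ T := by
    by_contra h1
    refine hz' (Dc.trans hz (Relation.ReflTransGen.single (ad_dc.2
      ⟨hzz'.1, hzz'.2.1, hzz'.2.2.1, ?_⟩)))
    intro h2
    rw [mem_union] at h2
    rcases h2 with h2 | h2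
    · exact hzz'.2.2.2 h2
    · exact h1 h2
  have hZP : ∀ g, Dc M e0 (ω ∪ W ∪ T) f2 g → ¬ Dc M e0 (ω ∪ O ∪ W) f1 g := by
    intro g h1 h2
    exact hno ((h2.anti hκ1).trans (h1.anti hκ2).symm)
  by_cases hY : Co (du (E \ Ex M e0 E W O f1 ω) ω) z f2
  · exact ⟨z, z', f2, hzz'.1, hm, hS2, hY⟩
  · obtain ⟨h, h', hh, hh', hhh, hhX, -⟩ := exit_co
      (X := Co (du (E \ Ex M e0 E W O f1 ω) ω) z)
      (show Co (du (H75.TwoArm.BB M) (insert e0 (ω ∪ W ∪ T))) z f2 from hz.symm) (Co.refl _ _) hY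
    have hZh : Dc M e0 (ω ∪ W ∪ T) f2 h := hz.trans (CoX.co hhX)
    have hZh' : Dc M e0 (ω ∪ W ∪ T) f2 h' := hZh.trans (Relation.ReflTransGen.single hhh)
    have hhh' := ad_dc.1 hhh
    have hnot := hhh'.2.2.2
    rw [mem_union, mem_union, not_or, not_or] at hnot
    have hE : lbf h h' ∉ E := by
      intro h1
      refine hh' (Co.trans hh (Relation.ReflTransGen.single ⟨hhh'.1, ?_⟩))
      rw [mem_du']
      refine ⟨mem_sdiff.2 ⟨h1, ?_⟩, hnot.1.1⟩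
      intro h2
      obtain ⟨g, g', h3, h4, h5⟩ := (mem_filter.1 h2).2
      rcases faces_unique h3 hhh'.1 h4 with rfl | rfl
      · exact hZP _ hZh h5
      · exact hZP _ hZh' h5
    refine ⟨z, z', h, hzz'.1, hm, ?_, hh⟩
    refine hS h h' (hZh.anti ?_) hhh'.1 hE hnot.1.2 hhh'.2.2.1
    intro l hl
    rw [mem_union, mem_union]
    exact Or.inl (Or.inr hl)

end

lemma du_inter (E' ω : Finset (ℤ × ℤ)) : du E' (ω ∩ E') = du E' ω := by
  unfold du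
  congr 1
  ext l
  simp only [mem_sdiff, mem_inter]
  tauto

lemma du_mix (E U ω ω' : Finset (ℤ × ℤ)) : du (E \ U) (mix U ω ω') = du (E \ U) ω' := by
  unfold du
  congr 1
  ext l
  simp only [mem_sdiff, mem_mix]
  tauto

/-- decay of dual arms in arbitrary sets of labels -/
theorem dual_decay : ∃ δ : ℝ, 0 < δ ∧ δ < 1 ∧ ∀ (E : Finset (ℤ × ℤ)),
    (∀ e ∈ E, (e.1 + e.2) % 2 = 1) → ∀ (x : ℤ × ℤ) (ρ : ℤ), 1 ≤ ρ → ∀ k : ℕ,
    Pr E (fun ω => ∃ u v : ℤ × ℤ, |u.1 - x.1| ≤ ρ ∧ |u.2 - x.2| ≤ ρ ∧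
      (4 ^ k * ρ ≤ |v.1 - x.1| ∨ 4 ^ k * ρ ≤ |v.2 - x.2|) ∧ Co (du E ω) u v) ≤ (1 - δ) ^ k := by
  obtain ⟨δ, h0, h1, h⟩ := open_arm_decay
  refine ⟨δ, h0, h1, ?_⟩
  intro E hE x ρ hρ k
  refine le_trans (le_of_eq (Pr_du E (fun ω => ∃ u v : ℤ × ℤ, |u.1 - x.1| ≤ ρ ∧
    |u.2 - x.2| ≤ ρ ∧ (4 ^ k * ρ ≤ |v.1 - x.1| ∨ 4 ^ k * ρ ≤ |v.2 - x.2|) ∧ Co ω u v))) ?_
  refine h _ ?_ x ρ hρ k
  intro e he
  rw [mem_map] at he
  obtain ⟨y, hy, rfl⟩ := he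
  have := hE y hy
  unfold sh1
  simp only [Function.Embedding.coeFn_mk]
  omega

/-- **LEMMA OPEN.** -/
theorem open_lemma : ∃ δ : ℝ, 0 < δ ∧ δ < 1 ∧ ∀ (M : ℤ) (e0 : ℤ × ℤ) (E W O : Finset (ℤ × ℤ))
    (f1 f2 x t : ℤ × ℤ), (e0.1 + e0.2) % 2 = 1 → e0 ∈ H75.TwoArm.BB (M - 1) →
    E ⊆ H75.TwoArm.BB (M - 1) → W ⊆ H75.TwoArm.BB (M - 1) → e0 ∉ E → e0 ∉ W → O ⊆ E →
    Fac e0 f1 f2 → Ends e0 x t → (∀ w ∈ W, Co W (eu w) t) →
    ∃ v : Finset (ℤ × ℤ) → ℤ × ℤ,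
      (∀ ω, ω ⊆ E → Co (ω ∪ O ∪ W) x t → ¬ Co (ω ∪ W) x t →
        Co (ω \ (O ∪ W)) x (v ω) ∧ ∃ o ∈ O, v ω = eu o ∨ v ω = ev o) ∧
      ∀ (S : ℤ × ℤ → Prop) (r d : ℤ) (k : ℕ), 1 ≤ r → 4 ^ k * r ≤ d → S f2 →
        (∀ g g', Dc M e0 W f2 g → IsUnit4 (g' - g) → lbf g g' ∉ E → lbf g g' ∉ W →
          lbf g g' ≠ e0 → S g) →
        (∀ v o, o ∈ O → (v = eu o ∨ v = ev o) → Co (E \ O) x v →
          ∃ T, T ⊆ O ∧ (∀ m ∈ T, |m.1 - 2 * v.1| ≤ 2 * r - 2 ∧ |m.2 - 2 * v.2| ≤ 2 * r - 2) ∧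
            Co (T ∪ W) v t) →
        Pr E (fun ω => (¬ Co (ω ∪ W) x t ∧ ∀ g, S g → d ≤ |g.1 - (v ω).1| ∨ d ≤ |g.2 - (v ω).2|) ∧
          Co (ω ∪ O ∪ W) x t) ≤ Pr E (fun ω => Co (ω ∪ O ∪ W) x t) * (1 - δ) ^ k := by
  classical
  obtain ⟨δ, hδ0, hδ1, hδ⟩ := dual_decay
  refine ⟨δ, hδ0, hδ1, ?_⟩
  intro M e0 E W O f1 f2 x t he0 he0M hE hWM heE heW hO hf hx hW
  have hη : ∀ ω, ω ⊆ E → ω ∪ O ∪ W ⊆ H75.TwoArm.BB (M - 1) := fun ω hω =>
    union_subset (union_subset (hω.trans hE) (hO.trans hE)) hWM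
  have hen : ∀ ω, ω ⊆ E → e0 ∉ ω ∪ O ∪ W := by
    intro ω hω h
    rw [mem_union, mem_union] at h
    rcases h with (h | h) | h
    · exact heE (hω h)
    · exact heE (hO h)
    · exact heW h
  refine ⟨fun ω => exv O W (Kb M e0 W O f1 ω) x, ?_, ?_⟩
  · intro ω hω h1 h2
    obtain ⟨h3, h4⟩ := exv_spec he0 he0M (hη ω hω) (hen ω hω) hf hx hW h1 h2
    refine ⟨h3.mono ?_, h4⟩
    intro l hl
    rw [mem_sdiff] at hl ⊢
    have := filter_subset _ _ hl.1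
    rw [mem_union, mem_union] at this
    rw [mem_union] at hl ⊢
    tauto
  · intro S r d k hr hk hS2 hS htie
    refine resample_le E (Ex M e0 E W O f1) (fun ω ω' h1 h2 => ex_mix h1 h2) _ _
      (fun ω ω' => ∃ u w : ℤ × ℤ, |u.1 - (exv O W (Kb M e0 W O f1 ω) x).1| ≤ r ∧
        |u.2 - (exv O W (Kb M e0 W O f1 ω) x).2| ≤ r ∧
        (4 ^ k * r ≤ |w.1 - (exv O W (Kb M e0 W O f1 ω) x).1| ∨
          4 ^ k * r ≤ |w.2 - (exv O W (Kb M e0 W O f1 ω) x).2|) ∧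
        Co (du (E \ Ex M e0 E W O f1 ω) ω') u w) _ ?_ ?_ ?_
    · intro ω ω' h1 h2 h3
      by_contra h4
      have h5 := (dual_iff' he0 he0M (hη _ h1) (hen _ h1) hf hx).1 h4
      rw [← dc_mix h1 h2] at h5
      exact (dual_iff' he0 he0M (hη _ (mix_sub h1 h2)) (hen _ (mix_sub h1 h2)) hf hx).2 h5 h3
    · intro ω hω _
      set U := Ex M e0 E W O f1 ω
      set v := exv O W (Kb M e0 W O f1 ω) x
      have h1 : E \ U ⊆ E := sdiff_subset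
      have h2 := hδ (E \ U) (fun e he => (mem_Bx.1 (hE (h1 he))).2.2) v r hr k
      rw [← Pr_restrict h1] at h2
      refine le_trans (le_of_eq (Pr_congr ?_)) h2
      intro ω' _
      rw [du_inter]
    · intro ω ω' h1 h2 h3 h4
      set U := Ex M e0 E W O f1 ω with hU
      set ω1 := mix U ω ω' with hω1
      have hω1E : ω1 ⊆ E := mix_sub h1 h2
      have hkb : Kb M e0 W O f1 ω1 = Kb M e0 W O f1 ω := kb_mix h1 h2
      have hex : Ex M e0 E W O f1 ω1 = U := ex_mix h1 h2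
      have h5 : Co (ω1 ∪ O ∪ W) x t := by
        by_contra h6
        have h7 := (dual_iff' he0 he0M (hη _ hω1E) (hen _ hω1E) hf hx).1 h6
        rw [hω1, dc_mix h1 h2] at h7
        exact (dual_iff' he0 he0M (hη _ h1) (hen _ h1) hf hx).2 h7 h3
      obtain ⟨h6, h7⟩ := h4
      obtain ⟨h8, o, ho, hov⟩ := exv_spec he0 he0M (hη ω1 hω1E) (hen ω1 hω1E) hf hx hW h5 h6
      set v := exv O W (Kb M e0 W O f1 ω1) x with hv
      have hvv : exv O W (Kb M e0 W O f1 ω) x = v := by rw [hv, hkb]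
      have hEO : Co (E \ O) x v := by
        refine h8.mono ?_
        intro l hl
        rw [mem_sdiff, mem_union, not_or] at hl
        have := filter_subset _ _ hl.1
        rw [mem_union, mem_union] at this
        rw [mem_sdiff]
        rcases this with (h9 | h9) | h9
        · exact ⟨hω1E h9, hl.2.1⟩
        · exact absurd h9 hl.2.1
        · exact absurd h9 hl.2.2
      obtain ⟨T, hT, hTr, hTv⟩ := htie v o ho hov hEO
      obtain ⟨z, z', g, hz1, hz2, hz3, hz4⟩ := arm_det he0 he0M (hη ω1 hω1E) (hen ω1 hω1E) hf hx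
        h6 h8 hT hTv hS2 hS
      rw [hvv]
      refine ⟨z, g, ?_, ?_, ?_, ?_⟩
      · have h9 := (hTr _ hz2).1
        have h10 := unit_cases hz1
        unfold lbf at h9
        simp only [Prod.fst_sub, Prod.fst_add] at h9
        rw [abs_le] at h9 ⊢
        omega
      · have h9 := (hTr _ hz2).2
        have h10 := unit_cases hz1
        unfold lbf at h9
        simp only [Prod.snd_sub, Prod.snd_add] at h9
        rw [abs_le] at h9 ⊢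
        omega
      · rcases h7 g hz3 with h9 | h9
        · exact Or.inl (hk.trans h9)
        · exact Or.inr (hk.trans h9)
      · rw [hex] at hz4
        rw [hω1, du_mix] at hz4
        exact hz4

end Pool.Agent.H77.Q1
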