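import Mathlib
import Pool.Agent.H77.Q1.Open

set_option autoImplicit false
open Finset

/-! Module M5 of Q1: the approach lemma (B3) and locality at a mark (B1), abstract forms.

`E` random labels, `G` fixed open labels, `W ⊆ G` wired labels (all joined to `t` inside `W`; the
labels of `G \ W` are frozen open labels), all other labels are closed. `e0` is the root edge between
`x` and `t`, `O` a set of opened labels. -/

namespace Pool.Agent.H77.Q1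

open Pool.Agent.H75.Perc Pool.Agent.H75.TwoArm Pool.Agent.H75.Four

section
variable {M : ℤ} {e0 : ℤ × ℤ} {E G W O : Finset (ℤ × ℤ)} {f1 f2 x t : ℤ × ℤ}

/-- `v` is incident to `O` and can be reached from `x` before -/
def Exit (E G W O : Finset (ℤ × ℤ)) (x v : ℤ × ℤ) : Prop :=
  (∃ o ∈ O, v = eu o ∨ v = ev o) ∧ Co ((E ∪ G) \ (O ∪ W)) x v

/-- existence of the exit vertex, with frozen open labels -/
lemma exv_spec' (he0 : (e0.1 + e0.2) % 2 = 1) (he0M : e0 ∈ H75.TwoArm.BB (M - 1))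
    {ω : Finset (ℤ × ℤ)} (hη : ω ∪ O ∪ G ⊆ H75.TwoArm.BB (M - 1)) (he : e0 ∉ ω ∪ O ∪ G)
    (hf : Fac e0 f1 f2) (hx : Ends e0 x t) (hWG : W ⊆ G)
    (hW : ∀ w ∈ W, Co W (eu w) t)
    (h : Co (ω ∪ O ∪ G) x t) (h' : ¬ Co (ω ∪ G) x t) :
    Co (Kb M e0 G O f1 ω \ (O ∪ W)) x (exv O W (Kb M e0 G O f1 ω) x) ∧
      ∃ o ∈ O, exv O W (Kb M e0 G O f1 ω) x = eu o ∨ exv O W (Kb M e0 G O f1 ω) x = ev o := by
  classical
  set K := Kb M e0 G O f1 ω with hK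
  have hsub : K ⊆ ω ∪ O ∪ G := filter_subset _ _
  have hex : ∃ v, Co (K \ (O ∪ W)) x v ∧ ∃ o ∈ O, v = eu o ∨ v = ev o := by
    have hKω : K \ (O ∪ W) ⊆ ω ∪ G := by
      intro l hl
      rw [mem_sdiff, mem_union, not_or] at hl
      have := hsub hl.1
      rw [mem_union, mem_union] at this
      rw [mem_union]
      tauto
    have h1 : ¬ Co (K \ (O ∪ W)) x t := fun h2 => h' (h2.mono hKω)
    obtain ⟨z, z', hz, hz', hzz, -, -⟩ := exit_co (X := Co (K \ (O ∪ W)) x)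
      (kb_conn he0 he0M hη he hf hx h) (Co.refl _ _) h1
    have hlab : z + z' ∈ O ∪ W := by
      by_contra h2
      exact hz' (Co.trans hz (Relation.ReflTransGen.single ⟨hzz.1, mem_sdiff.2 ⟨hzz.2, h2⟩⟩))
    have hends : z = eu (z + z') ∨ z = ev (z + z') := by
      have := unit_cases hzz.1
      unfold eu ev
      simp only [Prod.ext_iff, Prod.fst_add, Prod.snd_add]
      omega
    by_cases hO : z + z' ∈ O
    · exact ⟨z, hz, z + z', hO, hends⟩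
    · exfalso
      have hw : z + z' ∈ W := by
        rw [mem_union] at hlab
        tauto
      have h3 : Co W z t := by
        rcases hends with h4 | h4
        · rw [h4]; exact hW _ hw
        · have h5 : z' = eu (z + z') := by
            have := unit_cases hzz.1
            unfold eu
            unfold ev at h4
            simp only [Prod.ext_iff, Prod.fst_add, Prod.snd_add] at h4 ⊢
            omega
          have h6 : Co W z z' := Relation.ReflTransGen.single ⟨hzz.1, hw⟩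
          refine h6.trans ?_
          rw [h5]; exact hW _ hw
      exact h' ((hz.mono hKω).trans (h3.mono (hWG.trans subset_union_right)))
  have h2 : exv O W K x = hex.choose := by
    unfold exv
    rw [dif_pos hex]
  rw [h2]
  exact hex.choose_spec

/-- The fresh dual arm, with frozen open labels. -/
lemma arm_det' (he0 : (e0.1 + e0.2) % 2 = 1) (he0M : e0 ∈ H75.TwoArm.BB (M - 1))
    {ω : Finset (ℤ × ℤ)} (hωE : ω ⊆ E) (hOE : O ⊆ E)
    (hη : ω ∪ O ∪ G ⊆ H75.TwoArm.BB (M - 1)) (he : e0 ∉ ω ∪ O ∪ G)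
    (hf : Fac e0 f1 f2) (hx : Ends e0 x t) (hWG : W ⊆ G) (h' : ¬ Co (ω ∪ G) x t)
    {v : ℤ × ℤ} (hv : Co (Kb M e0 G O f1 ω \ (O ∪ W)) x v)
    {T : Finset (ℤ × ℤ)} (hT : T ⊆ O) (hvT : Co (T ∪ W) v t)
    {S : ℤ × ℤ → Prop} (hS2 : S f2)
    (hS : ∀ g g', Dc M e0 G f2 g → ¬ Dc M e0 (E ∪ G) f1 g → IsUnit4 (g' - g) →
      lbf g g' ∉ E → lbf g g' ∉ G → lbf g g' ≠ e0 → S g) :
    ∃ z z' h, IsUnit4 (z' - z) ∧ lbf z z' ∈ T ∧ S h ∧
      Co (du (E \ Ex M e0 E G O f1 ω) ω) z h := by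
  classical
  set K := Kb M e0 G O f1 ω with hK
  have hsub : K ⊆ ω ∪ O ∪ G := filter_subset _ _
  set κ := (K \ (O ∪ W)) ∪ (T ∪ W) with hκ
  have hκ1 : κ ⊆ ω ∪ O ∪ G := by
    intro l hl
    rw [hκ, mem_union, mem_sdiff, mem_union, mem_union, not_or] at hl
    rw [mem_union, mem_union]
    rcases hl with hl | hl | hl
    · have := hsub hl.1
      rw [mem_union, mem_union] at this
      exact this
    · exact Or.inl (Or.inr (hT hl))
    · exact Or.inr (hWG hl)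
  have hκ2 : κ ⊆ ω ∪ G ∪ T := by
    intro l hl
    rw [hκ, mem_union, mem_sdiff, mem_union, mem_union, not_or] at hl
    rw [mem_union, mem_union]
    rcases hl with hl | hl | hl
    · have := hsub hl.1
      rw [mem_union, mem_union] at this
      tauto
    · exact Or.inr hl
    · exact Or.inl (Or.inr (hWG hl))
  have hκ3 : Co κ x t := (hv.mono subset_union_left).trans (hvT.mono subset_union_right)
  have hno : ¬ Dc M e0 κ f1 f2 := fun hd =>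
    (dual_iff' he0 he0M (hκ1.trans hη) (fun h1 => he (hκ1 h1)) hf hx).2 hd hκ3
  have hωG : ω ∪ G ⊆ ω ∪ O ∪ G := by
    intro l hl
    rw [mem_union] at hl
    rw [mem_union, mem_union]
    tauto
  have hD : Dc M e0 (ω ∪ G) f1 f2 :=
    (dual_iff' he0 he0M (hωG.trans hη) (fun h1 => he (hωG h1)) hf hx).1 h'
  have hZ1 : ¬ Dc M e0 (ω ∪ G ∪ T) f2 f1 := fun h1 => hno (h1.anti hκ2).symm
  obtain ⟨z, z', hz, hz', hzz, -, -⟩ := exit_co (X := Dc M e0 (ω ∪ G ∪ T) f2)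
    (show Co _ f2 f1 from hD.symm) (Dc.refl _) hZ1
  have hzz' := ad_dc.1 hzz
  have hm : lbf z z' ∈ T := by
    by_contra h1
    refine hz' (Dc.trans hz (Relation.ReflTransGen.single (ad_dc.2
      ⟨hzz'.1, hzz'.2.1, hzz'.2.2.1, ?_⟩)))
    intro h2
    rw [mem_union] at h2
    rcases h2 with h2 | h2
    · exact hzz'.2.2.2 h2
    · exact h1 h2
  have hZP : ∀ g, Dc M e0 (ω ∪ G ∪ T) f2 g → ¬ Dc M e0 (ω ∪ O ∪ G) f1 g := by
    intro g h1 h2
    exact hno ((h2.anti hκ1).trans (h1.anti hκ2).symm)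
  by_cases hY : Co (du (E \ Ex M e0 E G O f1 ω) ω) z f2
  · exact ⟨z, z', f2, hzz'.1, hm, hS2, hY⟩
  · obtain ⟨h, h', hh, hh', hhh, hhX, -⟩ := exit_co
      (X := Co (du (E \ Ex M e0 E G O f1 ω) ω) z)
      (show Co (du (H75.TwoArm.BB M) (insert e0 (ω ∪ G ∪ T))) z f2 from hz.symm) (Co.refl _ _) hY
    have hZh : Dc M e0 (ω ∪ G ∪ T) f2 h := hz.trans (CoX.co hhX)
    have hZh' : Dc M e0 (ω ∪ G ∪ T) f2 h' := hZh.trans (Relation.ReflTransGen.single hhh)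
    have hhh' := ad_dc.1 hhh
    have hnot := hhh'.2.2.2
    rw [mem_union, mem_union, not_or, not_or] at hnot
    have hE : lbf h h' ∉ E := by
      intro h1
      refine hh' (Co.trans hh (Relation.ReflTransGen.single ⟨hhh'.1, ?_⟩))
      rw [mem_du']
      refine ⟨mem_sdiff.2 ⟨h1, ?_⟩, hnot.1.1⟩
      intro h2
      obtain ⟨g, g', h3, h4, h5⟩ := (mem_filter.1 h2).2
      rcases faces_unique h3 hhh'.1 h4 with rfl | rfl
      · exact hZP _ hZh h5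
      · exact hZP _ hZh' h5
    refine ⟨z, z', h, hzz'.1, hm, ?_, hh⟩
    refine hS h h' (hZh.anti ?_) (fun h3 => hZP _ hZh (h3.anti ?_)) hhh'.1 hE hnot.1.2 hhh'.2.2.1
    · intro l hl
      rw [mem_union, mem_union]
      exact Or.inl (Or.inr hl)
    · intro l hl
      rw [mem_union, mem_union] at hl
      rw [mem_union]
      rcases hl with (hl | hl) | hl
      · exact Or.inl (hωE hl)
      · exact Or.inl (hOE hl)
      · exact Or.inr hl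

/-- **General opening lemma.** `Tie v` is a set of opened labels joining `v` to `t`, `S` contains the
free faces on the side of `f2`; `q` bounds the probability of a fresh dual arm from `Tie v` to `S` for
`v` with `Good v`. -/
theorem open_gen (he0 : (e0.1 + e0.2) % 2 = 1) (he0M : e0 ∈ H75.TwoArm.BB (M - 1))
    (hE : E ⊆ H75.TwoArm.BB (M - 1)) (hGM : G ⊆ H75.TwoArm.BB (M - 1)) (heE : e0 ∉ E)
    (heG : e0 ∉ G) (hO : O ⊆ E) (hWG : W ⊆ G) (hf : Fac e0 f1 f2) (hx : Ends e0 x t)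
    (hW : ∀ w ∈ W, Co W (eu w) t) {S : ℤ × ℤ → Prop} (hS2 : S f2)
    (hS : ∀ g g', Dc M e0 G f2 g → ¬ Dc M e0 (E ∪ G) f1 g → IsUnit4 (g' - g) →
      lbf g g' ∉ E → lbf g g' ∉ G → lbf g g' ≠ e0 → S g)
    {Tie : ℤ × ℤ → Finset (ℤ × ℤ)}
    (hTie : ∀ v, Exit E G W O x v → Tie v ⊆ O ∧ Co (Tie v ∪ W) v t)
    {Good : ℤ × ℤ → Prop} {q : ℝ} (hq : ∀ v, Exit E G W O x v → Good v → ∀ U, U ⊆ E →
      Pr E (fun ω => ∃ z z' h, IsUnit4 (z' - z) ∧ lbf z z' ∈ Tie v ∧ S h ∧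
        Co (du (E \ U) ω) z h) ≤ q) (hq0 : 0 ≤ q) :
    Pr E (fun ω => (¬ Co (ω ∪ G) x t ∧ Good (exv O W (Kb M e0 G O f1 ω) x)) ∧
      Co (ω ∪ O ∪ G) x t) ≤ Pr E (fun ω => Co (ω ∪ O ∪ G) x t) * q := by
  classical
  have hη : ∀ ω, ω ⊆ E → ω ∪ O ∪ G ⊆ H75.TwoArm.BB (M - 1) := fun ω hω =>
    union_subset (union_subset (hω.trans hE) (hO.trans hE)) hGM
  have hen : ∀ ω, ω ⊆ E → e0 ∉ ω ∪ O ∪ G := by
    intro ω hω h
    rw [mem_union, mem_union] at h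
    rcases h with (h | h) | h
    · exact heE (hω h)
    · exact heE (hO h)
    · exact heG h
  refine resample_le E (Ex M e0 E G O f1) (fun ω ω' h1 h2 => ex_mix h1 h2) _ _
    (fun ω ω' => (Exit E G W O x (exv O W (Kb M e0 G O f1 ω) x) ∧
      Good (exv O W (Kb M e0 G O f1 ω) x)) ∧
      ∃ z z' h, IsUnit4 (z' - z) ∧ lbf z z' ∈ Tie (exv O W (Kb M e0 G O f1 ω) x) ∧ S h ∧
        Co (du (E \ Ex M e0 E G O f1 ω) ω') z h) _ ?_ ?_ ?_
  · intro ω ω' h1 h2 h3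
    by_contra h4
    have h5 := (dual_iff' he0 he0M (hη _ h1) (hen _ h1) hf hx).1 h4
    rw [← dc_mix h1 h2] at h5
    exact (dual_iff' he0 he0M (hη _ (mix_sub h1 h2)) (hen _ (mix_sub h1 h2)) hf hx).2 h5 h3
  · intro ω hω _
    by_cases hg : Exit E G W O x (exv O W (Kb M e0 G O f1 ω) x) ∧
      Good (exv O W (Kb M e0 G O f1 ω) x)
    · refine le_trans (Pr_mono fun ω' _ h => h.2) (hq _ hg.1 hg.2 _ ?_)
      exact (filter_subset _ _).trans sdiff_subset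
    · refine le_trans (Pr_mono (B := fun _ => False) fun ω' _ h => hg h.1) ?_
      refine le_trans (le_of_eq ?_) hq0
      rw [Pr_eq]
      simp
  · intro ω ω' h1 h2 h3 h4
    set U := Ex M e0 E G O f1 ω with hU
    set ω1 := mix U ω ω' with hω1
    have hω1E : ω1 ⊆ E := mix_sub h1 h2
    have hkb : Kb M e0 G O f1 ω1 = Kb M e0 G O f1 ω := kb_mix h1 h2
    have hex : Ex M e0 E G O f1 ω1 = U := ex_mix h1 h2
    have h5 : Co (ω1 ∪ O ∪ G) x t := by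
      by_contra h6
      have h7 := (dual_iff' he0 he0M (hη _ hω1E) (hen _ hω1E) hf hx).1 h6
      rw [hω1, dc_mix h1 h2] at h7
      exact (dual_iff' he0 he0M (hη _ h1) (hen _ h1) hf hx).2 h7 h3
    obtain ⟨h6, h7⟩ := h4
    obtain ⟨h8, o, ho, hov⟩ :=
      exv_spec' he0 he0M (hη ω1 hω1E) (hen ω1 hω1E) hf hx hWG hW h5 h6
    set v := exv O W (Kb M e0 G O f1 ω1) x with hv
    have hvv : exv O W (Kb M e0 G O f1 ω) x = v := by rw [hv, hkb]
    have hEO : Exit E G W O x v := by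
      refine ⟨⟨o, ho, hov⟩, h8.mono ?_⟩
      intro l hl
      rw [mem_sdiff] at hl ⊢
      have := filter_subset _ _ hl.1
      rw [mem_union, mem_union] at this
      refine ⟨?_, hl.2⟩
      rw [mem_union]
      rcases this with (h9 | h9) | h9
      · exact Or.inl (hω1E h9)
      · exact Or.inl (hO h9)
      · exact Or.inr h9
    obtain ⟨hT, hTv⟩ := hTie v hEO
    obtain ⟨z, z', g, hz1, hz2, hz3, hz4⟩ := arm_det' he0 he0M hω1E hO (hη ω1 hω1E)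
      (hen ω1 hω1E) hf hx hWG h6 h8 hT hTv hS2 hS
    rw [hvv]
    refine ⟨⟨hEO, h7⟩, z, z', g, hz1, hz2, hz3, ?_⟩
    rw [hex, hω1, du_mix] at hz4
    exact hz4

end

/-- `g` is at distance at least `d` from `v` -/
def Far (d : ℤ) (v g : ℤ × ℤ) : Prop := d ≤ |g.1 - v.1| ∨ d ≤ |g.2 - v.2|

/-- `T` is a tie of radius `r` from `v` to `t` -/
def IsTie (O W : Finset (ℤ × ℤ)) (t : ℤ × ℤ) (r : ℤ) (v : ℤ × ℤ) (T : Finset (ℤ × ℤ)) : Prop :=
  T ⊆ O ∧ (∀ m ∈ T, |m.1 - 2 * v.1| ≤ 2 * r - 2 ∧ |m.2 - 2 * v.2| ≤ 2 * r - 2) ∧ Co (T ∪ W) v t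

/-- decay of the fresh dual arms which start next to `T` (within `r` of `v`) -/
lemma arm_bound {δ : ℝ} (hδ : ∀ (E : Finset (ℤ × ℤ)),
    (∀ e ∈ E, (e.1 + e.2) % 2 = 1) → ∀ (x : ℤ × ℤ) (ρ : ℤ), 1 ≤ ρ → ∀ k : ℕ,
    Pr E (fun ω => ∃ u v : ℤ × ℤ, |u.1 - x.1| ≤ ρ ∧ |u.2 - x.2| ≤ ρ ∧
      (4 ^ k * ρ ≤ |v.1 - x.1| ∨ 4 ^ k * ρ ≤ |v.2 - x.2|) ∧ Co (du E ω) u v) ≤ (1 - δ) ^ k)
    {E U : Finset (ℤ × ℤ)} (hE : ∀ e ∈ E, (e.1 + e.2) % 2 = 1)
    {v : ℤ × ℤ} {r d : ℤ} {k : ℕ} (hr : 1 ≤ r) (hk : 4 ^ k * r ≤ d) {A : ℤ × ℤ → ℤ × ℤ → Prop}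
    (hA : ∀ z h, A z h → |z.1 - v.1| ≤ r ∧ |z.2 - v.2| ≤ r ∧ Far d v h) :
    Pr E (fun ω => ∃ z h, A z h ∧ Co (du (E \ U) ω) z h) ≤ (1 - δ) ^ k := by
  have h1 : E \ U ⊆ E := sdiff_subset
  have h2 := hδ (E \ U) (fun e he => hE e (h1 he)) v r hr k
  rw [← Pr_restrict h1] at h2
  refine le_trans (Pr_mono ?_) h2
  rintro ω - ⟨z, h, h3, h4⟩
  obtain ⟨h5, h6, h7⟩ := hA z h h3
  rw [du_inter]
  exact ⟨z, h, h5, h6, h7.imp (hk.trans) (hk.trans), h4⟩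

lemma near_label {v z z' : ℤ × ℤ} {r : ℤ} (hz : IsUnit4 (z' - z))
    (h : |(lbf z z').1 - 2 * v.1| ≤ 2 * r - 2 ∧ |(lbf z z').2 - 2 * v.2| ≤ 2 * r - 2) :
    |z.1 - v.1| ≤ r ∧ |z.2 - v.2| ≤ r := by
  have h10 := unit_cases hz
  obtain ⟨h1, h2⟩ := h
  unfold lbf at h1 h2
  simp only [Prod.fst_sub, Prod.fst_add, Prod.snd_sub, Prod.snd_add] at h1 h2
  rw [abs_le] at h1 h2 ⊢
  rw [abs_le]
  omega

lemma co_strong {T W : Finset (ℤ × ℤ)} {v t : ℤ × ℤ} (h : Co (T ∪ W) v t)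
    (P : ℤ × ℤ → Prop) [DecidablePred P] (hP : ∀ l ∈ T, Co (T ∪ W) (eu l) t → P l) :
    Co (T.filter P ∪ W) v t := by
  have h1 := h.symm
  suffices hs : ∀ v, Co (T ∪ W) t v → Co (T.filter P ∪ W) t v from (hs v h1).symm
  intro v hv
  induction hv with
  | refl => exact Co.refl _ _
  | @tail b c hab hbc ih =>
    refine ih.tail ⟨hbc.1, ?_⟩
    rw [mem_union]
    rcases mem_union.1 hbc.2 with h2 | h2
    · refine Or.inl (mem_filter.2 ⟨h2, hP _ h2 ?_⟩)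
      have h3 : eu (b + c) = b ∨ eu (b + c) = c := by
        have := unit_cases hbc.1
        unfold eu
        simp only [Prod.ext_iff, Prod.fst_add, Prod.snd_add]
        omega
      rcases h3 with h3 | h3
      · rw [h3]; exact Co.symm hab
      · rw [h3]; exact Co.symm (Relation.ReflTransGen.tail hab hbc)
    · exact Or.inr h2

lemma far_mono {d d' : ℤ} (h : d ≤ d') {v g : ℤ × ℤ} (hf : Far d' v g) : Far d v g :=
  hf.imp h.trans h.trans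

/-- **B3, APPROACH LEMMA** (abstract form). -/
theorem approach_lemma : ∃ δ : ℝ, 0 < δ ∧ δ < 1 ∧ ∀ (M : ℤ) (e0 : ℤ × ℤ)
    (E G W O : Finset (ℤ × ℤ)) (fL fR x t : ℤ × ℤ) (SL SR : ℤ × ℤ → Prop) (r D : ℤ) (k : ℕ),
    (e0.1 + e0.2) % 2 = 1 → e0 ∈ H75.TwoArm.BB (M - 1) →
    E ⊆ H75.TwoArm.BB (M - 1) → G ⊆ H75.TwoArm.BB (M - 1) → e0 ∉ E → e0 ∉ G → O ⊆ E → W ⊆ G →
    Fac e0 fL fR → Ends e0 x t → (∀ w ∈ W, Co W (eu w) t) →
    (SL fL ∧ ∀ g g', Dc M e0 G fL g → ¬ Dc M e0 (E ∪ G) fR g → IsUnit4 (g' - g) →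
      lbf g g' ∉ E → lbf g g' ∉ G → lbf g g' ≠ e0 → SL g) →
    (SR fR ∧ ∀ g g', Dc M e0 G fR g → ¬ Dc M e0 (E ∪ G) fL g → IsUnit4 (g' - g) →
      lbf g g' ∉ E → lbf g g' ∉ G → lbf g g' ≠ e0 → SR g) →
    1 ≤ r → 4 ^ k * r ≤ D →
    (∀ v, Exit E G W O x v → ∃ T, IsTie O W t r v T) →
    (∀ v, Exit E G W O x v → (∀ g, SL g → Far D v g) ∨ (∀ g, SR g → Far D v g)) →
    Pr E (fun ω => Co (ω ∪ O ∪ G) x t ∧ ¬ Co (ω ∪ G) x t) ≤
      2 * (1 - δ) ^ k * Pr E (fun ω => Co (ω ∪ O ∪ G) x t) := by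
  classical
  obtain ⟨δ, hδ0, hδ1, hδ⟩ := dual_decay
  refine ⟨δ, hδ0, hδ1, ?_⟩
  intro M e0 E G W O fL fR x t SL SR r D k he0 he0M hE hGM heE heG hO hWG hf hx hW hSL hSR hr hk
    hTie hsep
  have hodd : ∀ e ∈ E, (e.1 + e.2) % 2 = 1 := fun e he => (mem_Bx.1 (hE he)).2.2
  have hη : ∀ ω, ω ⊆ E → ω ∪ O ∪ G ⊆ H75.TwoArm.BB (M - 1) := fun ω hω =>
    union_subset (union_subset (hω.trans hE) (hO.trans hE)) hGM
  have hen : ∀ ω, ω ⊆ E → e0 ∉ ω ∪ O ∪ G := by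
    intro ω hω h
    rw [mem_union, mem_union] at h
    rcases h with (h | h) | h
    · exact heE (hω h)
    · exact heE (hO h)
    · exact heG h
  -- strong ties
  have hTS : ∀ v, ∃ T : Finset (ℤ × ℤ), Exit E G W O x v →
      IsTie O W t r v T ∧ ∀ l ∈ T, Co (T ∪ W) (eu l) t := by
    intro v
    by_cases hv : Exit E G W O x v
    · obtain ⟨T, h1, h2, h3⟩ := hTie v hv
      refine ⟨T.filter (fun l => Co (T ∪ W) (eu l) t), fun _ => ⟨⟨(filter_subset _ _).trans h1,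
        fun m hm => h2 m (mem_filter.1 hm).1, co_strong h3 _ fun l _ h => h⟩, ?_⟩⟩
      intro l hl
      exact co_strong (mem_filter.1 hl).2 _ fun l _ h => h
    · exact ⟨∅, fun h => absurd h hv⟩
  choose TS hTS using hTS
  set GoodL : ℤ × ℤ → Prop := fun v => ∀ g, SL g → Far D v g with hGoodL
  set OL : Finset (ℤ × ℤ) := O.filter (fun l => ∃ v, Exit E G W O x v ∧ ¬ GoodL v ∧ l ∈ TS v)
    with hOL
  have hOLO : OL ⊆ O := filter_subset _ _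
  have hTSOL : ∀ v, Exit E G W O x v → ¬ GoodL v → TS v ⊆ OL := fun v h1 h2 l hl =>
    mem_filter.2 ⟨(hTS v h1).1.1 hl, v, h1, h2, hl⟩
  have hq0 : (0 : ℝ) ≤ (1 - δ) ^ k := pow_nonneg (by linarith) k
  -- first part
  have P1 : Pr E (fun ω => (¬ Co (ω ∪ G) x t ∧ GoodL (exv O W (Kb M e0 G O fR ω) x)) ∧
      Co (ω ∪ O ∪ G) x t) ≤ Pr E (fun ω => Co (ω ∪ O ∪ G) x t) * (1 - δ) ^ k := by
    refine open_gen (Tie := TS) he0 he0M hE hGM heE heG hO hWG hf.symm hx hW hSL.1 hSL.2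
      (fun v hv => ⟨(hTS v hv).1.1, (hTS v hv).1.2.2⟩) ?_ hq0
    intro v hv hg U _
    refine le_trans (Pr_mono ?_) (arm_bound hδ hodd (U := U) hr hk (v := v) (A := fun z h =>
      (∃ z', IsUnit4 (z' - z) ∧ lbf z z' ∈ TS v) ∧ SL h) ?_)
    · rintro ω - ⟨z, z', h, h1, h2, h3, h4⟩
      exact ⟨z, h, ⟨⟨z', h1, h2⟩, h3⟩, h4⟩
    · rintro z h ⟨⟨z', h1, h2⟩, h3⟩
      have h4 := near_label h1 ((hTS v hv).1.2.1 _ h2)
      exact ⟨h4.1, h4.2, hg h h3⟩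
  -- second part
  have hTL : ∀ v', ∃ v, Exit E G W OL x v' →
      (Exit E G W O x v ∧ ¬ GoodL v) ∧ ∃ o ∈ TS v, v' = eu o ∨ v' = ev o := by
    intro v'
    by_cases hv : Exit E G W OL x v'
    · obtain ⟨⟨o, ho, hov⟩, -⟩ := hv
      obtain ⟨-, v, h1, h2, h3⟩ := mem_filter.1 ho
      exact ⟨v, fun _ => ⟨⟨h1, h2⟩, o, h3, hov⟩⟩
    · exact ⟨v', fun h => absurd h hv⟩
  choose c hc using hTL
  have P2 : Pr E (fun ω => (¬ Co (ω ∪ G) x t ∧ True) ∧ Co (ω ∪ OL ∪ G) x t) ≤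
      Pr E (fun ω => Co (ω ∪ OL ∪ G) x t) * (1 - δ) ^ k := by
    refine open_gen (Tie := fun v' => TS (c v')) (Good := fun _ => True) he0 he0M hE hGM heE heG
      (hOLO.trans hO) hWG hf hx hW hSR.1 hSR.2 ?_ ?_ hq0
    · intro v' hv'
      obtain ⟨⟨h1, h2⟩, o, ho, hov⟩ := hc v' hv'
      refine ⟨hTSOL _ h1 h2, ?_⟩
      have h3 := (hTS _ h1).2 o ho
      have h4 := PivAux.eu_ev (hodd o (hO ((hTS _ h1).1.1 ho)))
      set T := TS (c v') with hT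
      rcases hov with hov | hov
      · subst hov; exact h3
      · subst hov
        refine Co.trans (Co.symm (Relation.ReflTransGen.single ⟨h4.1, ?_⟩)) h3
        rw [h4.2]
        exact mem_union_left _ ho
    · intro v' hv' _ U _
      obtain ⟨⟨h1, h2⟩, -⟩ := hc v' hv'
      have hR := (hsep _ h1).resolve_left h2
      refine le_trans (Pr_mono ?_) (arm_bound hδ hodd (U := U) hr hk (v := c v') (A := fun z h =>
        (∃ z', IsUnit4 (z' - z) ∧ lbf z z' ∈ TS (c v')) ∧ SR h) ?_)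
      · rintro ω - ⟨z, z', h, h1, h2, h3, h4⟩
        exact ⟨z, h, ⟨⟨z', h1, h2⟩, h3⟩, h4⟩
      · rintro z h ⟨⟨z', h3, h4⟩, h5⟩
        have h6 := near_label h3 ((hTS _ h1).1.2.1 _ h4)
        exact ⟨h6.1, h6.2, hR h h5⟩
  have P3 : Pr E (fun ω => Co (ω ∪ OL ∪ G) x t) ≤ Pr E (fun ω => Co (ω ∪ O ∪ G) x t) :=
    Pr_mono fun ω _ h => h.mono (union_subset_union (union_subset_union subset_rfl hOLO) subset_rfl)
  have P4 : Pr E (fun ω => Co (ω ∪ O ∪ G) x t ∧ ¬ Co (ω ∪ G) x t) ≤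
      Pr E (fun ω => (¬ Co (ω ∪ G) x t ∧ GoodL (exv O W (Kb M e0 G O fR ω) x)) ∧
        Co (ω ∪ O ∪ G) x t) +
      Pr E (fun ω => (¬ Co (ω ∪ G) x t ∧ True) ∧ Co (ω ∪ OL ∪ G) x t) := by
    refine le_trans (Pr_mono ?_) (Pr_or_le E _ _)
    rintro ω hω ⟨h1, h2⟩
    by_cases hg : GoodL (exv O W (Kb M e0 G O fR ω) x)
    · exact Or.inl ⟨⟨h2, hg⟩, h1⟩
    · refine Or.inr ⟨⟨h2, trivial⟩, ?_⟩
      obtain ⟨h8, o, ho, hov⟩ :=
        exv_spec' he0 he0M (hη ω hω) (hen ω hω) hf.symm hx hWG hW h1 h2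
      set v := exv O W (Kb M e0 G O fR ω) x with hv
      have hEO : Exit E G W O x v := by
        refine ⟨⟨o, ho, hov⟩, h8.mono ?_⟩
        intro l hl
        rw [mem_sdiff] at hl ⊢
        have := filter_subset _ _ hl.1
        rw [mem_union, mem_union] at this
        refine ⟨?_, hl.2⟩
        rw [mem_union]
        rcases this with (h9 | h9) | h9
        · exact Or.inl (hω h9)
        · exact Or.inl (hO h9)
        · exact Or.inr h9
      refine Co.trans (h8.mono ?_) ((hTS v hEO).1.2.2.mono ?_)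
      · intro l hl
        rw [mem_sdiff, mem_union, not_or] at hl
        have := filter_subset _ _ hl.1
        rw [mem_union, mem_union] at this
        rw [mem_union, mem_union]
        tauto
      · intro l hl
        rw [mem_union] at hl
        rw [mem_union, mem_union]
        rcases hl with hl | hl
        · exact Or.inl (Or.inr (hTSOL v hEO hg hl))
        · exact Or.inr (hWG hl)
  have P5 := mul_le_mul_of_nonneg_right P3 hq0
  linarith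

/-- **B1, LOCALITY AT A MARK** (abstract form): all free faces on the side of `fL` are within `r` of the
mark `a`, the opened labels are at distance at least `R` from `a`. -/
theorem mark_locality : ∃ δ : ℝ, 0 < δ ∧ δ < 1 ∧ ∀ (M : ℤ) (e0 : ℤ × ℤ)
    (E G W O : Finset (ℤ × ℤ)) (fL fR x t : ℤ × ℤ) (SL : ℤ × ℤ → Prop) (a : ℤ × ℤ) (r R : ℤ) (k : ℕ),
    (e0.1 + e0.2) % 2 = 1 → e0 ∈ H75.TwoArm.BB (M - 1) →
    E ⊆ H75.TwoArm.BB (M - 1) → G ⊆ H75.TwoArm.BB (M - 1) → e0 ∉ E → e0 ∉ G → O ⊆ E → W ⊆ G →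
    Fac e0 fL fR → Ends e0 x t → (∀ w ∈ W, Co W (eu w) t) →
    (SL fL ∧ ∀ g g', Dc M e0 G fL g → ¬ Dc M e0 (E ∪ G) fR g → IsUnit4 (g' - g) →
      lbf g g' ∉ E → lbf g g' ∉ G → lbf g g' ≠ e0 → SL g) →
    1 ≤ r → 4 ^ k * r ≤ R →
    (∀ g, SL g → |g.1 - a.1| ≤ r ∧ |g.2 - a.2| ≤ r) →
    (∀ z z', IsUnit4 (z' - z) → lbf z z' ∈ O → Far R a z) →
    (∀ v, Exit E G W O x v → Co (O ∪ W) v t) →
    Pr E (fun ω => Co (ω ∪ O ∪ G) x t ∧ ¬ Co (ω ∪ G) x t) ≤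
      (1 - δ) ^ k * Pr E (fun ω => Co (ω ∪ O ∪ G) x t) := by
  classical
  obtain ⟨δ, hδ0, hδ1, hδ⟩ := dual_decay
  refine ⟨δ, hδ0, hδ1, ?_⟩
  intro M e0 E G W O fL fR x t SL a r R k he0 he0M hE hGM heE heG hO hWG hf hx hW hSL hr hk
    hnear hfar hTie
  have hodd : ∀ e ∈ E, (e.1 + e.2) % 2 = 1 := fun e he => (mem_Bx.1 (hE he)).2.2
  have hq0 : (0 : ℝ) ≤ (1 - δ) ^ k := pow_nonneg (by linarith) k
  have P1 : Pr E (fun ω => (¬ Co (ω ∪ G) x t ∧ True) ∧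
      Co (ω ∪ O ∪ G) x t) ≤ Pr E (fun ω => Co (ω ∪ O ∪ G) x t) * (1 - δ) ^ k := by
    refine open_gen (Tie := fun _ => O) (Good := fun _ => True) he0 he0M hE hGM heE heG hO hWG
      hf.symm hx hW hSL.1 hSL.2 (fun v hv => ⟨subset_rfl, hTie v hv⟩) ?_ hq0
    intro v hv hg U _
    refine le_trans (Pr_mono ?_) (arm_bound hδ hodd (U := U) hr hk (v := a) (A := fun h z =>
      (∃ z', IsUnit4 (z' - z) ∧ lbf z z' ∈ O) ∧ SL h) ?_)
    · rintro ω - ⟨z, z', h, h1, h2, h3, h4⟩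
      exact ⟨h, z, ⟨⟨z', h1, h2⟩, h3⟩, h4.symm⟩
    · rintro h z ⟨⟨z', h1, h2⟩, h3⟩
      have h4 := hnear h h3
      exact ⟨h4.1, h4.2, hfar z z' h1 h2⟩
  refine le_trans (Pr_mono ?_) (P1.trans (le_of_eq (mul_comm _ _)))
  rintro ω - ⟨h1, h2⟩
  exact ⟨⟨h2, trivial⟩, h1⟩

end Pool.Agent.H77.Q1
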