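import Mathlib
import Pool.Agent.H77.Q1.Approach

set_option autoImplicit false
open Finset

/-! Solid flattening, probability half, part (a): the opening lemma with an additional event `R` which
is determined by the explored labels and which fixes the exit vertex `v`. -/

namespace Pool.Agent.H77.Q1

open Pool.Agent.H75.Perc Pool.Agent.H75.TwoArm Pool.Agent.H75.Four

section
variable {M : ℤ} {e0 : ℤ × ℤ} {E G W O : Finset (ℤ × ℤ)} {f1 f2 x t : ℤ × ℤ}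

/-- The fresh dual arm, for an arbitrary open connection from `x` to `v`. -/
lemma arm_det2 (he0 : (e0.1 + e0.2) % 2 = 1) (he0M : e0 ∈ H75.TwoArm.BB (M - 1))
    {ω : Finset (ℤ × ℤ)} (hωE : ω ⊆ E) (hOE : O ⊆ E)
    (hη : ω ∪ O ∪ G ⊆ H75.TwoArm.BB (M - 1)) (he : e0 ∉ ω ∪ O ∪ G)
    (hf : Fac e0 f1 f2) (hx : Ends e0 x t) (hWG : W ⊆ G) (h' : ¬ Co (ω ∪ G) x t)
    {v : ℤ × ℤ} (hv : Co ω x v)
    {T : Finset (ℤ × ℤ)} (hT : T ⊆ O) (hvT : Co (T ∪ W) v t)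
    {S : ℤ × ℤ → Prop} (hS2 : S f2)
    (hS : ∀ g g', Dc M e0 G f2 g → ¬ Dc M e0 (E ∪ G) f1 g → IsUnit4 (g' - g) →
      lbf g g' ∉ E → lbf g g' ∉ G → lbf g g' ≠ e0 → S g) :
    ∃ z z' h, IsUnit4 (z' - z) ∧ lbf z z' ∈ T ∧ S h ∧
      Co (du (E \ Ex M e0 E G O f1 ω) ω) z h := by
  classical
  set κ := ω ∪ (T ∪ W) with hκ
  have hκ1 : κ ⊆ ω ∪ O ∪ G := by
    intro l hl
    rw [hκ, mem_union, mem_union] at hl
    rw [mem_union, mem_union]
    rcases hl with hl | hl | hl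
    · exact Or.inl (Or.inl hl)
    · exact Or.inl (Or.inr (hT hl))
    · exact Or.inr (hWG hl)
  have hκ2 : κ ⊆ ω ∪ G ∪ T := by
    intro l hl
    rw [hκ, mem_union, mem_union] at hl
    rw [mem_union, mem_union]
    rcases hl with hl | hl | hl
    · exact Or.inl (Or.inl hl)
    · exact Or.inr hl
    · exact Or.inl (Or.inr (hWG hl))
  have hκ3 : Co κ x t := (hv.mono subset_union_left).trans (hvT.mono subset_union_right)
  have hno : ¬ Dc M e0 κ f1 f2 := fun hd =>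
    (dual_iff' he0 he0M (hκ1.trans hη) (fun h1 => he (hκ1 h1)) hf hx).2 hd hκ3
  have hωG : ω ∪ G ⊆ ω ∪ O ∪ G := by
    intro l hl
    rw [mem_union] at hl
    rw [mem_union, mem_union]
    tauto
  have hD : Dc M e0 (ω ∪ G) f1 f2 :=
    (dual_iff' he0 he0M (hωG.trans hη) (fun h1 => he (hωG h1)) hf hx).1 h'
  have hZ1 : ¬ Dc M e0 (ω ∪ G ∪ T) f2 f1 := fun h1 => hno (h1.anti hκ2).symm
  obtain ⟨z, z', hz, hz', hzz, -, -⟩ := exit_co (X := Dc M e0 (ω ∪ G ∪ T) f2)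
    (show Co _ f2 f1 from hD.symm) (Dc.refl _) hZ1
  have hzz' := ad_dc.1 hzz
  have hm : lbf z z' ∈ T := by
    by_contra h1
    refine hz' (Dc.trans hz (Relation.ReflTransGen.single (ad_dc.2
      ⟨hzz'.1, hzz'.2.1, hzz'.2.2.1, ?_⟩)))
    intro h2
    rw [mem_union] at h2
    rcases h2 with h2 | h2
    · exact hzz'.2.2.2 h2
    · exact h1 h2
  have hZP : ∀ g, Dc M e0 (ω ∪ G ∪ T) f2 g → ¬ Dc M e0 (ω ∪ O ∪ G) f1 g := by
    intro g h1 h2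
    exact hno ((h2.anti hκ1).trans (h1.anti hκ2).symm)
  by_cases hY : Co (du (E \ Ex M e0 E G O f1 ω) ω) z f2
  · exact ⟨z, z', f2, hzz'.1, hm, hS2, hY⟩
  · obtain ⟨h, h', hh, hh', hhh, hhX, -⟩ := exit_co
      (X := Co (du (E \ Ex M e0 E G O f1 ω) ω) z)
      (show Co (du (H75.TwoArm.BB M) (insert e0 (ω ∪ G ∪ T))) z f2 from hz.symm) (Co.refl _ _) hY
    have hZh : Dc M e0 (ω ∪ G ∪ T) f2 h := hz.trans (CoX.co hhX)
    have hZh' : Dc M e0 (ω ∪ G ∪ T) f2 h' := hZh.trans (Relation.ReflTransGen.single hhh)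
    have hhh' := ad_dc.1 hhh
    have hnot := hhh'.2.2.2
    rw [mem_union, mem_union, not_or, not_or] at hnot
    have hE : lbf h h' ∉ E := by
      intro h1
      refine hh' (Co.trans hh (Relation.ReflTransGen.single ⟨hhh'.1, ?_⟩))
      rw [mem_du']
      refine ⟨mem_sdiff.2 ⟨h1, ?_⟩, hnot.1.1⟩
      intro h2
      obtain ⟨g, g', h3, h4, h5⟩ := (mem_filter.1 h2).2
      rcases faces_unique h3 hhh'.1 h4 with rfl | rfl
      · exact hZP _ hZh h5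
      · exact hZP _ hZh' h5
    refine ⟨z, z', h, hzz'.1, hm, ?_, hh⟩
    refine hS h h' (hZh.anti ?_) (fun h3 => hZP _ hZh (h3.anti ?_)) hhh'.1 hE hnot.1.2 hhh'.2.2.1
    · intro l hl
      rw [mem_union, mem_union]
      exact Or.inl (Or.inr hl)
    · intro l hl
      rw [mem_union, mem_union] at hl
      rw [mem_union]
      rcases hl with (hl | hl) | hl
      · exact Or.inl (hωE hl)
      · exact Or.inl (hOE hl)
      · exact Or.inr hl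

/-- **Opening lemma with an explored event.** -/
theorem step_gen (he0 : (e0.1 + e0.2) % 2 = 1) (he0M : e0 ∈ H75.TwoArm.BB (M - 1))
    (hE : E ⊆ H75.TwoArm.BB (M - 1)) (hGM : G ⊆ H75.TwoArm.BB (M - 1)) (heE : e0 ∉ E)
    (heG : e0 ∉ G) (hO : O ⊆ E) (hWG : W ⊆ G) (hf : Fac e0 f1 f2) (hx : Ends e0 x t)
    {S : ℤ × ℤ → Prop} (hS2 : S f2)
    (hS : ∀ g g', Dc M e0 G f2 g → ¬ Dc M e0 (E ∪ G) f1 g → IsUnit4 (g' - g) →
      lbf g g' ∉ E → lbf g g' ∉ G → lbf g g' ≠ e0 → S g)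
    {v : ℤ × ℤ} {T : Finset (ℤ × ℤ)} (hT : T ⊆ O) (hvT : Co (T ∪ W) v t)
    {R : Finset (ℤ × ℤ) → Prop}
    (hR : ∀ ω ω', ω ⊆ E → ω' ⊆ E → (R (mix (Ex M e0 E G O f1 ω) ω ω') ↔ R ω))
    (hRv : ∀ ω, ω ⊆ E → R ω → Co ω x v)
    {q : ℝ} (hq : ∀ U, U ⊆ E → Pr E (fun ω => ∃ z z' h, IsUnit4 (z' - z) ∧ lbf z z' ∈ T ∧ S h ∧
      Co (du (E \ U) ω) z h) ≤ q) :
    Pr E (fun ω => ¬ Co (ω ∪ G) x t ∧ R ω) ≤ Pr E R * q := by
  classical
  have hη : ∀ ω, ω ⊆ E → ω ∪ O ∪ G ⊆ H75.TwoArm.BB (M - 1) := fun ω hω =>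
    union_subset (union_subset (hω.trans hE) (hO.trans hE)) hGM
  have hen : ∀ ω, ω ⊆ E → e0 ∉ ω ∪ O ∪ G := by
    intro ω hω h
    rw [mem_union, mem_union] at h
    rcases h with (h | h) | h
    · exact heE (hω h)
    · exact heE (hO h)
    · exact heG h
  refine resample_le E (Ex M e0 E G O f1) (fun ω ω' h1 h2 => ex_mix h1 h2) _ _
    (fun ω ω' => ∃ z z' h, IsUnit4 (z' - z) ∧ lbf z z' ∈ T ∧ S h ∧
        Co (du (E \ Ex M e0 E G O f1 ω) ω') z h) _ ?_ ?_ ?_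
  · intro ω ω' h1 h2 h3
    exact (hR ω ω' h1 h2).1 h3
  · intro ω hω _
    refine hq _ ?_
    exact (filter_subset _ _).trans sdiff_subset
  · intro ω ω' h1 h2 h3 h4
    set U := Ex M e0 E G O f1 ω with hU
    set ω1 := mix U ω ω' with hω1
    have hω1E : ω1 ⊆ E := mix_sub h1 h2
    have hex : Ex M e0 E G O f1 ω1 = U := ex_mix h1 h2
    have h5 : Co ω1 x v := hRv ω1 hω1E ((hR ω ω' h1 h2).2 h3)
    obtain ⟨z, z', g, hz1, hz2, hz3, hz4⟩ := arm_det2 he0 he0M hω1E hO (hη ω1 hω1E)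
      (hen ω1 hω1E) hf hx hWG h4 h5 hT hvT hS2 hS
    refine ⟨z, z', g, hz1, hz2, hz3, ?_⟩
    rw [hex, hω1, du_mix] at hz4
    exact hz4

end

end Pool.Agent.H77.Q1
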