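import Mathlib
import Pool.Agent.H77.Q1.K3a
import Pool.Agent.H57.Q1.Strands
import Pool.Agent.H69.Q1.Orbit

set_option autoImplicit false
open Finset

/-! Solid flattening, probability half, part (b): the event that the strand from a corner `y` meets `O`
before `N \ O`; it is determined by the labels next to the dual cluster of `fi y`. -/

namespace Pool.Agent.H77.Q1

open Pool.Agent.H75.Perc Pool.Agent.H75.TwoArm Pool.Agent.H75.Four
open Pool.Agent.H75.TwoArm.StrandAux hiding vx_nxC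

/-- The strand from `y` meets `O` at the label number `n` and no label of `N` before. -/
def Hit (N O ω : Finset (ℤ × ℤ)) (y : ℤ × ℤ) (n : ℕ) : Prop :=
  (∀ j < n, lab ((nx ω)^[j] y) ∉ N) ∧ lab ((nx ω)^[n] y) ∈ O

lemma Hit.unique {N O ω : Finset (ℤ × ℤ)} {y : ℤ × ℤ} {n m : ℕ} (hON : O ⊆ N)
    (h : Hit N O ω y n) (h' : Hit N O ω y m) : n = m := by
  rcases lt_trichotomy n m with h1 | h1 | h1
  · exact absurd (hON h.2) (h'.1 n h1)
  · exact h1
  · exact absurd (hON h'.2) (h.1 m h1)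

/-- vertex in the box of half-size `r` -/
lemma lab_mem_BB {M : ℤ} {z : ℤ × ℤ} (h : inB (-(M - 1)) (M - 1) (-(M - 1)) (M - 1) (vx z)) :
    lab z ∈ H75.TwoArm.BB M := by
  unfold H75.TwoArm.BB
  rw [mem_Bx]
  unfold inB vx at h
  simp only at h
  have ho := H69.Q1.odd_lab z
  rcases ty_cases z with ⟨-, h1, h2, h3, -, -⟩ | ⟨-, h1, h2, h3, -, -⟩ | ⟨-, h1, h2, h3, -, -⟩ |
    ⟨-, h1, h2, h3, -, -⟩ <;> rw [h3] at ho ⊢ <;> simp only at ho ⊢ <;> omega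

lemma strand_BB {M : ℤ} {ω : Finset (ℤ × ℤ)} (hω : ω ⊆ H75.TwoArm.BB (M - 1)) {y : ℤ × ℤ}
    (hy : inB (-(M - 1)) (M - 1) (-(M - 1)) (M - 1) (vx y)) (j : ℕ) :
    lab ((nx ω)^[j] y) ∈ H75.TwoArm.BB M := by
  apply lab_mem_BB
  have h1 := H69.Q1.co_orb ω y j
  exact Co.inB hω hy h1

lemma lbf_nxC (c : ℤ × ℤ) : lbf (fi c) (fi (nxC c)) = lab c := by
  unfold lbf
  rw [(fi_nxC c).2]
  simp

/-- The faces on the strand are in the dual cluster of the first face. -/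
lemma dc_strand {M : ℤ} {e0 : ℤ × ℤ} {G O N ω : Finset (ℤ × ℤ)} {y : ℤ × ℤ} {n : ℕ}
    (hN : ∀ j < n, lab ((nx ω)^[j] y) ∉ N) (hON : O ⊆ N) (hGN : G ⊆ N) (heN : e0 ∈ N)
    (hBB : ∀ j, lab ((nx ω)^[j] y) ∈ H75.TwoArm.BB M) :
    ∀ j ≤ n, Dc M e0 (ω ∪ O ∪ G) (fi y) (fi ((nx ω)^[j] y)) := by
  intro j
  induction j with
  | zero => intro _; exact Dc.refl _
  | succ j ih =>
    intro hj
    have ih := ih (by omega)
    have hB := hBB j
    have hNj := hN j (by omega)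
    rw [Function.iterate_succ_apply']
    set z := (nx ω)^[j] y
    by_cases hl : lab z ∈ ω
    · have h1 : nx ω z = nxO z := by unfold nx; rw [if_pos hl]
      rw [h1, fi_nxO]
      exact ih
    · have h1 : nx ω z = nxC z := by unfold nx; rw [if_neg hl]
      rw [h1]
      refine Relation.ReflTransGen.tail ih (ad_dc.2 ⟨(fi_nxC z).1, ?_, ?_, ?_⟩)
      · rw [lbf_nxC]; exact hB
      · rw [lbf_nxC]
        intro h2
        exact hNj (h2 ▸ heN)
      · rw [lbf_nxC, mem_union, mem_union, not_or, not_or]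
        exact ⟨⟨hl, fun h2 => hNj (hON h2)⟩, fun h2 => hNj (hGN h2)⟩

/-- A label met by the strand touches the face of the corner. -/
lemma tou_lab {P : ℤ × ℤ → Prop} {z : ℤ × ℤ} (h : P (fi z)) : Tou P (lab z) :=
  ⟨fi z, fi (nxC z), (fi_nxC z).1, lbf_nxC z, h⟩

/-- **Locality of the strand event.** -/
lemma hit_agree {M : ℤ} {e0 : ℤ × ℤ} {E G O N ω ω1 : Finset (ℤ × ℤ)} {y : ℤ × ℤ} {n : ℕ}
    (hω : ω ⊆ E) (hω1 : ω1 ⊆ E) (hEM : E ⊆ H75.TwoArm.BB (M - 1))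
    (hy : inB (-(M - 1)) (M - 1) (-(M - 1)) (M - 1) (vx y))
    (hON : O ⊆ N) (hGN : G ⊆ N) (heN : e0 ∈ N)
    (h : ∀ l ∈ Ex M e0 E G O (fi y) ω, (l ∈ ω ↔ l ∈ ω1)) (hh : Hit N O ω y n) :
    (∀ j ≤ n, (nx ω1)^[j] y = (nx ω)^[j] y) ∧ Hit N O ω1 y n := by
  classical
  have hBB := strand_BB (hω.trans hEM) hy
  have hdc := dc_strand hh.1 hON hGN heN hBB
  have key : ∀ j ≤ n, (nx ω1)^[j] y = (nx ω)^[j] y := by
    intro j
    induction j with
    | zero => intro _; rfl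
    | succ j ih =>
      intro hj
      rw [Function.iterate_succ_apply', Function.iterate_succ_apply', ih (by omega)]
      apply nx_congr
      have hNj := hh.1 j (by omega)
      have hd := hdc j (by omega)
      set z := (nx ω)^[j] y
      by_cases hE : lab z ∈ E
      · exact (h _ (mem_filter.2 ⟨mem_sdiff.2 ⟨hE, fun h2 => hNj (hON h2)⟩, tou_lab hd⟩)).symm
      · exact ⟨fun h2 => absurd (hω1 h2) hE, fun h2 => absurd (hω h2) hE⟩
  refine ⟨key, ?_, ?_⟩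
  · intro j hj
    rw [key j hj.le]
    exact hh.1 j hj
  · rw [key n le_rfl]
    exact hh.2

/-- The strand from `y` meets `O` first at the vertex `v`. -/
def HitAt (N O ω : Finset (ℤ × ℤ)) (y v : ℤ × ℤ) : Prop :=
  ∃ n, Hit N O ω y n ∧ vx ((nx ω)^[n] y) = v

lemma HitAt.unique {N O ω : Finset (ℤ × ℤ)} {y v v' : ℤ × ℤ} (hON : O ⊆ N)
    (h : HitAt N O ω y v) (h' : HitAt N O ω y v') : v = v' := by
  obtain ⟨n, h1, h2⟩ := h
  obtain ⟨m, h3, h4⟩ := h'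
  obtain rfl := h1.unique hON h3
  exact h2.symm.trans h4

lemma HitAt.co {N O ω : Finset (ℤ × ℤ)} {y v : ℤ × ℤ} (h : HitAt N O ω y v) :
    Co ω (vx y) v := by
  obtain ⟨n, h1, rfl⟩ := h
  exact H69.Q1.co_orb ω y n

/-- the vertex of a corner is an end of its label -/
lemma vx_end (z : ℤ × ℤ) : vx z = eu (lab z) ∨ vx z = ev (lab z) := by
  have he := H69.Q1.odd_lab z
  obtain ⟨-, -, -, -, h1, h2⟩ := opc_zu he
  rcases H69.Q1.eq_zu_or_zv he rfl with h | h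
  · left; rw [← h1, ← h]
  · right; rw [← h2, ← h]

lemma HitAt.end_ {N O ω : Finset (ℤ × ℤ)} {y v : ℤ × ℤ} (h : HitAt N O ω y v) :
    ∃ o ∈ O, v = eu o ∨ v = ev o := by
  obtain ⟨n, h1, rfl⟩ := h
  exact ⟨_, h1.2, vx_end _⟩

lemma hitAt_mix {M : ℤ} {e0 : ℤ × ℤ} {E G O N ω ω' : Finset (ℤ × ℤ)} {y v : ℤ × ℤ}
    (hω : ω ⊆ E) (hω' : ω' ⊆ E) (hEM : E ⊆ H75.TwoArm.BB (M - 1))
    (hy : inB (-(M - 1)) (M - 1) (-(M - 1)) (M - 1) (vx y))
    (hON : O ⊆ N) (hGN : G ⊆ N) (heN : e0 ∈ N) :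
    HitAt N O (mix (Ex M e0 E G O (fi y) ω) ω ω') y v ↔ HitAt N O ω y v := by
  have hsub := mix_sub (U := Ex M e0 E G O (fi y) ω) hω hω'
  constructor
  · rintro ⟨n, h1, h2⟩
    have h3 := hit_agree hsub hω hEM hy hON hGN heN (e0 := e0) (G := G) (by
      rw [ex_mix hω hω']
      exact fun l hl => (mix_agree l hl).symm) h1
    exact ⟨n, h3.2, by rw [h3.1 n le_rfl]; exact h2⟩
  · rintro ⟨n, h1, h2⟩
    have h3 := hit_agree hω hsub hEM hy hON hGN heN (e0 := e0) (G := G) (fun l hl =>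
      mix_agree l hl) h1
    exact ⟨n, h3.2, by rw [h3.1 n le_rfl]; exact h2⟩

end Pool.Agent.H77.Q1
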