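import Mathlib
import Pool.Agent.H57.Q1.Strands

namespace Pool.Agent.H75.Four
end Pool.Agent.H75.Four

set_option autoImplicit false
open Finset

/-! Solid flattening, probability half, part (c): a family of disjoint strands through an annulus, all
of whose open labels are random, gives as many disjoint open arms; mean number of such strands. -/

namespace Pool.Agent.H77.Q1

open Pool.Agent.H57.Flow Pool.Agent.H57.Q1
open Pool.Agent.H75.Perc Pool.Agent.H75.TwoArm Pool.Agent.H49.Perc Pool.Agent.H75.Four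

/-- A flow of darts gives disjoint arms. -/
lemma arms_of_darts {fr : ℤ × ℤ → ℤ × ℤ} {lb : ℤ × ℤ → ℤ × ℤ}
    (hlb : ∀ c, fr c + fr (pr c) = lb c ∧ IsUnit4 (fr (pr c) - fr c))
    (hinj : ∀ c c', lb c = lb c' → plab c = plab c')
    {x : ℤ × ℤ} {ρ M : ℤ} {ω D : Finset (ℤ × ℤ)} {k : ℕ} (hD1 : ∀ c ∈ D, lb c ∈ ω)
    (hD2 : ∀ S : Set (ℤ × ℤ), {v : ℤ × ℤ | |v.1 - x.1| ≤ ρ ∧ |v.2 - x.2| ≤ ρ} ⊆ S →
      Disjoint S {v : ℤ × ℤ | M ≤ |v.1 - x.1| ∨ M ≤ |v.2 - x.2|} →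
      (k : ℤ) ≤ net fr (fun c => fr (pr c)) D S) :
    Arms k (Arm1 x ρ M) ω := by
  have hD3 : ∀ S : Set (ℤ × ℤ), {v : ℤ × ℤ | |v.1 - x.1| ≤ ρ ∧ |v.2 - x.2| ≤ ρ} ⊆ S →
      Disjoint S {v : ℤ × ℤ | M ≤ |v.1 - x.1| ∨ M ≤ |v.2 - x.2|} →
      (k : ℤ) ≤ net fr (fun c => fr (pr c)) (D.filter fun c => pr c ∉ D) S := by
    intro S hS hSB
    rw [net_cancel fr (fun c => fr (pr c)) pr pr_pr pr_ne (fun c _ _ => ⟨rfl, by
      simp only [pr_pr]⟩)]
    exact hD2 S hS hSB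
  obtain ⟨P, hP1, hP2, hP3⟩ := flow_paths fr (fun c => fr (pr c)) _ _ k _ hD3
  refine ⟨fun i => (P i).image lb, ?_, ?_, ?_⟩
  · intro i
    rw [image_subset_iff]
    intro c hc
    exact hD1 c (mem_filter.1 (hP1 i hc)).1
  · intro i j hij
    rw [disjoint_left]
    intro e he he'
    obtain ⟨c, hc, rfl⟩ := mem_image.1 he
    obtain ⟨c', hc', h⟩ := mem_image.1 he'
    rcases eq_or_pr (hinj _ _ h.symm) with h3 | h3
    · subst h3
      exact disjoint_left.1 (hP2 i j hij) hc hc'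
    · have h4 := mem_filter.1 (hP1 i hc)
      have h5 := mem_filter.1 (hP1 j hc')
      rw [h3] at h5
      exact h4.2 h5.1
  · intro i
    obtain ⟨u, hu, v, hv, h⟩ := hP3 i
    refine ⟨u, v, hu.1, hu.2, hv, ?_⟩
    refine Relation.ReflTransGen.mono ?_ _ _ h
    rintro y y' ⟨c, hc, rfl, rfl⟩
    exact ⟨(hlb c).2, by rw [(hlb c).1]; exact mem_image_of_mem _ hc⟩

/-- **Disjoint strands (orbits of `pv L`) from the inside of an annulus to the outside whose open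
labels belong to `ω` give disjoint open arms.** -/
theorem open_arms_fam {ι : Type*} [DecidableEq ι] {L ω : Finset (ℤ × ℤ)} (I : Finset ι)
    (c : ι → ℤ × ℤ) (n : ι → ℕ) {x : ℤ × ℤ} {ρ M : ℤ}
    (h0 : ∀ i ∈ I, |(vx (c i)).1 - x.1| ≤ ρ ∧ |(vx (c i)).2 - x.2| ≤ ρ)
    (h1 : ∀ i ∈ I, M ≤ |(vx ((pv L)^[n i] (c i))).1 - x.1| ∨
      M ≤ |(vx ((pv L)^[n i] (c i))).2 - x.2|)
    (hn : ∀ i ∈ I, 0 < n i)
    (hω : ∀ i ∈ I, ∀ t < n i, plab ((pv L)^[t] (c i)) ∈ L → plab ((pv L)^[t] (c i)) ∈ ω)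
    (hdis : ∀ i ∈ I, ∀ j ∈ I, ∀ a b, a < n i → b < n j →
      (pv L)^[a] (c i) = (pv L)^[b] (c j) → i = j ∧ a = b) :
    Arms I.card (Arm1 x ρ M) ω := by
  classical
  have key : ∀ i ∈ I, ∃ D : Finset (ℤ × ℤ),
      (∀ c' ∈ D, ∃ t < n i, (pv L)^[t] (c i) = c' ∧ plab ((pv L)^[t] (c i)) ∈ L) ∧
      ∀ S : Set (ℤ × ℤ), {v : ℤ × ℤ | |v.1 - x.1| ≤ ρ ∧ |v.2 - x.2| ≤ ρ} ⊆ S →
      Disjoint S {v : ℤ × ℤ | M ≤ |v.1 - x.1| ∨ M ≤ |v.2 - x.2|} →
      (1 : ℤ) ≤ net vx (fun c => vx (pr c)) D S := by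
    intro i hi
    obtain ⟨D, hD1, hD2⟩ := seq_darts (tl := vx) (hd := fun c => vx (pr c))
      (z := fun t => (pv L)^[t] (c i)) (φ := fun t => vx ((pv L)^[t] (c i)))
      (op := fun t => plab ((pv L)^[t] (c i)) ∈ L)
      (fun t ht => ⟨rfl, by
        change vx (pr ((pv L)^[t] (c i))) = vx ((pv L)^[t + 1] (c i))
        rw [Function.iterate_succ_apply']
        exact (vx_pv_open ht).symm⟩)
      (fun t ht => by
        change vx ((pv L)^[t + 1] (c i)) = vx ((pv L)^[t] (c i))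
        rw [Function.iterate_succ_apply']
        exact vx_pv_closed ht)
      (Q := fun a b => a = 0 ∧ b = n i)
      (A := {v | |v.1 - x.1| ≤ ρ ∧ |v.2 - x.2| ≤ ρ}) (B := {v | M ≤ |v.1 - x.1| ∨ M ≤ |v.2 - x.2|})
      (by
        rintro a b - ⟨rfl, rfl⟩
        exact ⟨h0 i hi, h1 i hi⟩) 1 (n i)
      (fun a b ha hb h => (hdis i hi i hi a b ha hb h).2)
      ⟨0, n i, hn i hi, le_rfl, ⟨rfl, rfl⟩, trivial⟩
    refine ⟨D, ?_, ?_⟩
    · intro c' hc'
      obtain ⟨t, ht, h2, h3, -⟩ := hD1 c' hc'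
      exact ⟨t, ht, h2, h3⟩
    · intro S hS hSB
      have := hD2 S hS hSB
      simpa using this
  choose! D hD1 hD2 using key
  refine arms_of_darts (fr := vx) (lb := plab) (D := I.biUnion D) vx_add_vx_pr (fun _ _ h => h) ?_ ?_
  · intro c' hc'
    obtain ⟨i, hi, hc'⟩ := mem_biUnion.1 hc'
    obtain ⟨t, ht, rfl, h3⟩ := hD1 i hi c' hc'
    exact hω i hi t ht h3
  · intro S hS hSB
    unfold net
    rw [sum_biUnion]
    · have h3 : ∀ i ∈ I, (1 : ℤ) ≤ ∑ c ∈ D i, (ind S (vx c) - ind S (vx (pr c))) := fun i hi =>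
        hD2 i hi S hS hSB
      calc (I.card : ℤ) = ∑ i ∈ I, (1 : ℤ) := by simp
        _ ≤ _ := sum_le_sum h3
    · intro i hi j hj hij
      rw [Function.onFun, disjoint_left]
      intro c' h3 h4
      obtain ⟨t, ht, h5, -⟩ := hD1 i hi c' h3
      obtain ⟨t', ht', h6, -⟩ := hD1 j hj c' h4
      exact hij (hdis i hi j hj t t' ht ht' (h5.trans h6.symm)).1

/-- mean value of a counting function with exponential tails -/
lemma sum_Pr_le {α ι : Type*} [DecidableEq α] [DecidableEq ι] (E : Finset α) (I : Finset ι)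
    (A : ι → Finset α → Prop) {δ : ℝ} (hδ0 : 0 < δ) (hδ1 : δ < 1) (B : ℕ → Finset α → Prop)
    (hB : ∀ m, Pr E (B m) ≤ (1 - δ) ^ m)
    (h : ∀ ω, ω ⊆ E → ∀ J ⊆ I, (∀ i ∈ J, A i ω) → B J.card ω) :
    ∑ i ∈ I, Pr E (A i) ≤ 1 / δ := by
  classical
  have h1 : ∑ i ∈ I, Pr E (A i) =
      (∑ ω ∈ E.powerset, ((I.filter fun i => A i ω).card : ℝ)) / 2 ^ E.card := by
    rw [eq_div_iff (by positivity), sum_mul]
    have h2 : ∀ i ∈ I, Pr E (A i) * 2 ^ E.card =
        ∑ ω ∈ E.powerset, (if A i ω then (1 : ℝ) else 0) := by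
      intro i _
      rw [Pr_eq, div_mul_cancel₀ _ (by positivity), card_filter]
      push_cast
      rfl
    rw [sum_congr rfl h2, sum_comm]
    refine sum_congr rfl fun ω _ => ?_
    rw [card_filter]
    push_cast
    rfl
  have h3 : ∀ ω ∈ E.powerset, ((I.filter fun i => A i ω).card : ℝ) ≤
      ∑ m ∈ Ico 1 (I.card + 1), (if B m ω then (1 : ℝ) else 0) := by
    intro ω hω
    have h4 : ∀ m ∈ Ico 1 ((I.filter fun i => A i ω).card + 1), B m ω := by
      intro m hm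
      rw [mem_Ico] at hm
      obtain ⟨J, hJ, hJc⟩ := exists_subset_card_eq (show m ≤ (I.filter fun i => A i ω).card by omega)
      rw [← hJc]
      exact h ω (mem_powerset.1 hω) J (hJ.trans (filter_subset _ _))
        fun i hi => (mem_filter.1 (hJ hi)).2
    have h5 : (I.filter fun i => A i ω).card ≤ I.card := card_filter_le _ _
    calc ((I.filter fun i => A i ω).card : ℝ)
        = ∑ m ∈ Ico 1 ((I.filter fun i => A i ω).card + 1), (1 : ℝ) := by simp
      _ = ∑ m ∈ Ico 1 ((I.filter fun i => A i ω).card + 1), (if B m ω then (1 : ℝ) else 0) := by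
          refine sum_congr rfl fun m hm => ?_
          rw [if_pos (h4 m hm)]
      _ ≤ ∑ m ∈ Ico 1 (I.card + 1), (if B m ω then (1 : ℝ) else 0) := by
          refine sum_le_sum_of_subset_of_nonneg ?_ ?_
          · exact Ico_subset_Ico le_rfl (by omega)
          · intro m _ _
            split_ifs <;> norm_num
  rw [h1]
  have h6 : (∑ ω ∈ E.powerset, ((I.filter fun i => A i ω).card : ℝ)) / 2 ^ E.card ≤
      ∑ m ∈ Ico 1 (I.card + 1), Pr E (B m) := by
    rw [div_le_iff₀ (by positivity), sum_mul]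
    have h2 : ∀ m ∈ Ico 1 (I.card + 1), Pr E (B m) * 2 ^ E.card =
        ∑ ω ∈ E.powerset, (if B m ω then (1 : ℝ) else 0) := by
      intro i _
      rw [Pr_eq, div_mul_cancel₀ _ (by positivity), card_filter]
      push_cast
      rfl
    rw [sum_congr rfl h2, sum_comm]
    exact sum_le_sum h3
  refine h6.trans ?_
  calc ∑ m ∈ Ico 1 (I.card + 1), Pr E (B m) ≤ ∑ m ∈ Ico 1 (I.card + 1), (1 - δ) ^ m :=
        sum_le_sum fun m _ => hB m
    _ ≤ ∑ m ∈ range (I.card + 1), (1 - δ) ^ m := by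
        refine sum_le_sum_of_subset_of_nonneg ?_ ?_
        · intro m hm
          rw [mem_Ico] at hm
          exact mem_range.2 hm.2
        · intro m _ _
          exact pow_nonneg (by linarith) m
    _ ≤ 1 / δ := by
        have h7 := geom_sum_mul (1 - δ) (I.card + 1)
        rw [le_div_iff₀ hδ0]
        have h8 : (0 : ℝ) ≤ (1 - δ) ^ (I.card + 1) := pow_nonneg (by linarith) _
        linarith

end Pool.Agent.H77.Q1
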