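import Mathlib
import Pool.Agent.H77.Q1.K3c
import Pool.Agent.Q1.M3.Defs
import Pool.Agent.H77.Q1.K3b

set_option autoImplicit false
open Finset

/-! Solid flattening, probability half, part (d): data of a set `K` of vertices next to the tip, the
closed ring around `K`, and the selection of a newly joined ring vertex whose strand meets `O` first. -/

namespace Pool.Agent.H77.Q1

open Pool.Agent.H75.Perc Pool.Agent.H75.TwoArm Pool.Agent.H75.Four
open Pool.Agent.H75.TwoArm.StrandAux hiding vx_nxC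
open Pool.Agent.Q1.M3 (star kap mem_star_iff mem_kap_iff)

/-- the ends of the label of a corner -/
lemma ends_lab (z : ℤ × ℤ) : (vx z = eu (lab z) ∧ vx (opc z) = ev (lab z)) ∨
    (vx z = ev (lab z) ∧ vx (opc z) = eu (lab z)) := by
  have he := H69.Q1.odd_lab z
  obtain ⟨h1, h2, -, -, h3, h4⟩ := opc_zu he
  rcases H69.Q1.eq_zu_or_zv he rfl with h | h
  · left
    refine ⟨by rw [← h3, ← h], ?_⟩
    rw [← h4, ← h1, ← h]
  · right
    refine ⟨by rw [← h4, ← h], ?_⟩
    rw [← h3, ← h2, ← h]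

lemma lab_star {K : Finset (ℤ × ℤ)} (z : ℤ × ℤ) : lab z ∈ star K ↔ vx z ∈ K ∨ vx (opc z) ∈ K := by
  rw [mem_star_iff (H69.Q1.odd_lab z)]
  rcases ends_lab z with ⟨h1, h2⟩ | ⟨h1, h2⟩ <;> rw [h1, h2]
  tauto

lemma lab_kap {K : Finset (ℤ × ℤ)} (z : ℤ × ℤ) : lab z ∈ kap K ↔ vx z ∈ K ∧ vx (opc z) ∈ K := by
  rw [mem_kap_iff (H69.Q1.odd_lab z)]
  rcases ends_lab z with ⟨h1, h2⟩ | ⟨h1, h2⟩ <;> rw [h1, h2]
  tauto

lemma ends_z (z : ℤ × ℤ) : Ends (lab z) (vx (opc z)) (vx z) := by
  unfold Ends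
  rcases ends_lab z with ⟨h1, h2⟩ | ⟨h1, h2⟩ <;> rw [h1, h2] <;> tauto

lemma fac_z (z : ℤ × ℤ) : Fac (lab z) (fi z) (fi (opc z)) := by
  unfold Fac
  have he := H69.Q1.odd_lab z
  obtain ⟨h1, h2, -, -, -, -⟩ := opc_zu he
  rcases H69.Q1.eq_zu_or_zv he rfl with h | h
  · left
    refine ⟨by rw [← h], ?_⟩
    rw [← h1, ← h]
  · right
    refine ⟨?_, by rw [← h]⟩
    rw [← h2, ← h]

/-- vertices of `K` are isolated in configurations off `star K` -/
lemma co_isol {K η : Finset (ℤ × ℤ)} (h : Disjoint η (star K)) {a b : ℤ × ℤ} (hab : Co η a b)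
    (hb : b ∈ K) : a = b := by
  rcases Relation.ReflTransGen.cases_tail hab with h1 | ⟨c, -, h2⟩
  · exact h1.symm
  · exfalso
    have ho : ((c + b).1 + (c + b).2) % 2 = 1 := by
      have := unit_cases h2.1
      simp only [Prod.fst_add, Prod.snd_add]
      omega
    have h3 : c + b ∈ star K := by
      rw [mem_star_iff ho]
      rcases H69.Q1.ends_of_add h2.1 rfl with ⟨-, h4⟩ | ⟨-, h4⟩
      · right; rw [← h4]; exact hb
      · left; rw [← h4]; exact hb
    exact disjoint_left.1 h h2.2 h3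

lemma co_kap {K : Finset (ℤ × ℤ)} {a b : ℤ × ℤ} (h : Co (kap K) a b) (ha : a ∈ K) : b ∈ K := by
  induction h with
  | refl => exact ha
  | @tail c d _ hcd ih =>
    have ho : ((c + d).1 + (c + d).2) % 2 = 1 := by
      have := unit_cases hcd.1
      simp only [Prod.fst_add, Prod.snd_add]
      omega
    have h3 := (mem_kap_iff ho).1 hcd.2
    rcases H69.Q1.ends_of_add hcd.1 rfl with ⟨-, h4⟩ | ⟨-, h4⟩
    · rw [h4]; exact h3.2
    · rw [h4]; exact h3.1

/-- A connected set `K` of vertices next to the tip `ct` of an environment (`E` random, `W` wired, the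
other labels closed). -/
structure KT (M : ℤ) (E W K : Finset (ℤ × ℤ)) (ct : ℤ × ℤ) : Prop where
  hE : E ⊆ H75.TwoArm.BB (M - 1)
  hW : W ⊆ H75.TwoArm.BB (M - 1)
  disj : Disjoint E W
  star : star K ⊆ E
  conn : ∀ u ∈ K, ∀ v ∈ K, Co (kap K) u v
  tip : vx (opc ct) ∈ K
  tipo : vx ct ∉ K
  tipp : plab ct ∉ Pool.Agent.Q1.M3.star K
  wired : ∀ w ∈ W, Co W (eu w) (vx ct)
  free : ∀ g g', Co (du (H75.TwoArm.BB M) W) (fi ct) g → IsUnit4 (g' - g) → lbf g g' ∉ E →
    lbf g g' ∉ W → Co (du (H75.TwoArm.BB M) (E ∪ W)) (fi ct) g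
  ring : ∀ z z', vx z ∈ K → vx (opc z) ∉ K → vx z' ∈ K → vx (opc z') ∉ K →
    ∃ B, Co (du B (kap K)) (fi z) (fi z')

/-- the labels of the ring without the tip and without `lab z` -/
def rg (K : Finset (ℤ × ℤ)) (ct z : ℤ × ℤ) : Finset (ℤ × ℤ) :=
  ((Pool.Agent.Q1.M3.star K \ kap K).erase (lab ct)).erase (lab z)

section
variable {M : ℤ} {E W K : Finset (ℤ × ℤ)} {ct : ℤ × ℤ}

lemma du_sub {B B' η : Finset (ℤ × ℤ)} (h1 : B ⊆ B') (h2 : Disjoint B η) :
    du B ∅ ⊆ du B' η := by
  intro l hl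
  rw [mem_du'] at hl ⊢
  exact ⟨h1 hl.1, disjoint_left.1 h2 hl.1⟩

/-- The faces `fi ct` and `fi z` are joined along the ring. -/
lemma KT.contour (h : KT M E W K ct) {z : ℤ × ℤ} (hz : vx z ∈ K) (hz' : vx (opc z) ∉ K)
    (hne : z ≠ opc ct) : Co (du (rg K ct z) ∅) (fi ct) (fi z) := by
  classical
  obtain ⟨B, hB⟩ := h.ring (opc ct) z h.tip (by rw [opc_opc]; exact h.tipo) hz hz'
  have h1 : InOrb (nx (kap K)) (opc ct) z :=
    H69.Q1.inOrb_of_co _ (h.conn _ h.tip _ hz) hB
  obtain ⟨L, hL⟩ := H69.Q1.exists_orb_nx (kap K) (opc ct)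
  obtain ⟨i, hi, hiz⟩ := (hL.inOrb_iff z).1 h1
  have hK : ∀ j, vx ((nx (kap K))^[j] (opc ct)) ∈ K := fun j =>
    co_kap (H69.Q1.co_orb _ _ j) h.tip
  have key : ∀ j, 1 ≤ j → j ≤ i → Co (du (rg K ct z) ∅) (fi ct)
      (fi ((nx (kap K))^[j] (opc ct))) := by
    intro j hj1 hj2
    induction j, hj1 using Nat.le_induction with
    | base =>
      have h2 : (nx (kap K))^[1] (opc ct) = nxC (opc ct) := by
        rw [Function.iterate_one]
        unfold nx
        rw [if_neg]
        rw [lab_kap, opc_opc]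
        exact fun h3 => h.tipo h3.2
      rw [h2, (nxC_opc _).2, opc_opc]
      exact Co.refl _ _
    | succ j hj1 ih =>
      have ih := ih (by omega)
      rw [Function.iterate_succ_apply']
      have hKj := hK j
      have hne1 : (nx (kap K))^[j] (opc ct) ≠ opc ct := fun h2 =>
        hL.inj 0 j hj1 (by omega) h2.symm
      have hne2 : (nx (kap K))^[j] (opc ct) ≠ z := by
        rw [← hiz]
        exact hL.inj j i (by omega) hi
      set c := (nx (kap K))^[j] (opc ct)
      by_cases hl : lab c ∈ kap K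
      · have h2 : nx (kap K) c = nxO c := by unfold nx; rw [if_pos hl]
        rw [h2, fi_nxO]
        exact ih
      · have h2 : nx (kap K) c = nxC c := by unfold nx; rw [if_neg hl]
        rw [h2]
        refine ih.tail ⟨(fi_nxC c).1, ?_⟩
        rw [(fi_nxC c).2]
        rw [mem_du']
        have h3 : lab c + (1, 1) - (1, 1) = lab c := by simp
        rw [h3]
        refine ⟨?_, notMem_empty _⟩
        unfold rg
        rw [mem_erase, mem_erase, mem_sdiff]
        refine ⟨?_, ?_, ?_, hl⟩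
        · intro h4
          rcases lab_eq_iff.1 h4 with h5 | h5
          · exact hne2 h5
          · rw [h5] at hKj; exact hz' hKj
        · intro h4
          rcases lab_eq_iff.1 h4 with h5 | h5
          · rw [h5] at hKj; exact h.tipo hKj
          · exact hne1 h5
        · rw [lab_star]; exact Or.inl hKj
  have h0 : 1 ≤ i := by
    rcases Nat.eq_zero_or_pos i with h2 | h2
    · subst h2
      exact absurd hiz.symm hne
    · exact h2
  have := key i h0 le_rfl
  rwa [hiz] at this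

/-- connections along an orbit which avoids `O` -/
lemma co_orb_avoid {ω O W : Finset (ℤ × ℤ)} {y : ℤ × ℤ} {n : ℕ}
    (h : ∀ j < n, lab ((nx (ω ∪ O ∪ W))^[j] y) ∉ O) :
    ∀ j ≤ n, Co (ω ∪ W) (vx y) (vx ((nx (ω ∪ O ∪ W))^[j] y)) := by
  intro j
  induction j with
  | zero => intro _; exact Co.refl _ _
  | succ j ih =>
    intro hj
    have ih := ih (by omega)
    have hO := h j (by omega)
    rw [Function.iterate_succ_apply']
    set z := (nx (ω ∪ O ∪ W))^[j] y
    by_cases hl : lab z ∈ ω ∪ O ∪ W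
    · have h1 : nx (ω ∪ O ∪ W) z = nxO z := by unfold nx; rw [if_pos hl]
      rw [h1]
      have h2 := vx_nxO z
      refine ih.tail ⟨h2.1, ?_⟩
      rw [h2.2]
      rw [mem_union, mem_union] at hl
      rw [mem_union]
      tauto
    · have h1 : nx (ω ∪ O ∪ W) z = nxC z := by unfold nx; rw [if_neg hl]
      rw [h1, vx_nxC]
      exact ih

lemma co_end {W : Finset (ℤ × ℤ)} {a : ℤ × ℤ} (hW : ∀ w ∈ W, Co W (eu w) a) {c : ℤ × ℤ}
    (hc : lab c ∈ W) : Co W (vx c) a := by
  have he := H69.Q1.odd_lab c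
  rcases ends_lab c with ⟨h1, -⟩ | ⟨h1, -⟩
  · rw [h1]; exact hW _ hc
  · rw [h1]
    have h2 := PivAux.eu_ev he
    refine Co.trans (Co.symm (Relation.ReflTransGen.single ⟨h2.1, ?_⟩)) (hW _ hc)
    rw [h2.2]; exact hc

/-- newly joined ring vertex (outer end of the label of the corner `z`) -/
def NJ (O W K : Finset (ℤ × ℤ)) (ct : ℤ × ℤ) (ω : Finset (ℤ × ℤ)) (z : ℤ × ℤ) : Prop :=
  vx z ∈ K ∧ vx (opc z) ∉ K ∧ Co (ω ∪ O ∪ W) (vx (opc z)) (vx ct) ∧
    ¬ Co (ω ∪ W) (vx (opc z)) (vx ct)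

/-- **Selection.** If there is a newly joined ring vertex, there is one whose strand meets `O` before
`star K` and `W`. -/
theorem KT.select (h : KT M E W K ct) {O ω : Finset (ℤ × ℤ)}
    (hO : O ⊆ E \ Pool.Agent.Q1.M3.star K) (hω : ω ⊆ E \ Pool.Agent.Q1.M3.star K) {z : ℤ × ℤ}
    (hz : NJ O W K ct ω z) :
    ∃ z v, NJ O W K ct ω z ∧ HitAt (Pool.Agent.Q1.M3.star K ∪ O ∪ W) O ω (nxC (opc z)) v := by
  classical
  set SK := Pool.Agent.Q1.M3.star K with hSK
  set B := ω ∪ O ∪ W with hB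
  have dW : ∀ l ∈ W, l ∉ SK := fun l hl h1 => disjoint_left.1 h.disj (h.star h1) hl
  have dO : ∀ l ∈ O, l ∉ SK := fun l hl => (mem_sdiff.1 (hO hl)).2
  have dω : ∀ l ∈ ω, l ∉ SK := fun l hl => (mem_sdiff.1 (hω hl)).2
  have dB : ∀ l ∈ B, l ∉ SK := by
    intro l hl
    rw [hB, mem_union, mem_union] at hl
    rcases hl with (h1 | h1) | h1
    · exact dω l h1
    · exact dO l h1
    · exact dW l h1
  have dωW : Disjoint (ω ∪ W) SK := by
    rw [disjoint_left]
    intro l hl
    rcases mem_union.1 hl with h1 | h1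
    · exact dω l h1
    · exact dW l h1
  have hctS : lab ct ∈ SK := by rw [hSK, lab_star]; exact Or.inr h.tip
  obtain ⟨L, hL⟩ := H69.Q1.exists_orb_nx B ct
  -- every exit of a newly joined vertex is on the orbit of the tip
  have horb : ∀ z, NJ O W K ct ω z → ∃ T < L, (nx B)^[T] ct = nxC (opc z) := by
    intro z hz
    have hne : z ≠ opc ct := by
      intro h1
      apply hz.2.2.2
      rw [h1, opc_opc]
      exact Co.refl _ _
    have h1 := h.contour hz.1 hz.2.1 hne
    have h2 : InOrb (nx B) ct (nxC (opc z)) := by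
      refine H69.Q1.inOrb_of_co (E := SK) B ?_ ?_
      · rw [(nxC_opc _).1]; exact hz.2.2.1.symm
      · rw [(nxC_opc _).2, opc_opc]
        refine h1.mono (du_sub ?_ ?_)
        · intro l hl
          unfold rg at hl
          exact (mem_sdiff.1 (mem_of_mem_erase (mem_of_mem_erase hl))).1
        · rw [disjoint_left]
          intro l hl hl'
          unfold rg at hl
          exact dB l hl' (mem_sdiff.1 (mem_of_mem_erase (mem_of_mem_erase hl))).1
    exact (hL.inOrb_iff _).1 h2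
  -- the last one
  set P : ℕ → Prop := fun T => ∃ z, NJ O W K ct ω z ∧ (nx B)^[T] ct = nxC (opc z) with hP
  obtain ⟨T1, hT1, hT1'⟩ := horb z hz
  have hP1 : P T1 := ⟨z, hz, hT1'⟩
  obtain ⟨T0, hT0L, ⟨z0, hz0, hz0T⟩, hmax⟩ : ∃ T0 < L, P T0 ∧ ∀ T < L, P T → T ≤ T0 := by
    have hne : ((range L).filter P).Nonempty := ⟨T1, mem_filter.2 ⟨mem_range.2 hT1, hP1⟩⟩
    obtain ⟨T0, h1, h2⟩ := exists_max_image _ id hne
    rw [mem_filter, mem_range] at h1
    exact ⟨T0, h1.1, h1.2, fun T hT hPT => h2 T (mem_filter.2 ⟨mem_range.2 hT, hPT⟩)⟩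
  set y := nxC (opc z0) with hy
  have hvy : vx y = vx (opc z0) := (nxC_opc _).1
  have hret : ∃ n, lab ((nx B)^[n] y) ∈ SK := by
    refine ⟨L - T0, ?_⟩
    rw [← hz0T, ← Function.iterate_add_apply, Nat.sub_add_cancel hT0L.le, hL.per]
    exact hctS
  set n0 := Nat.find hret with hn0
  have hn0a : lab ((nx B)^[n0] y) ∈ SK := Nat.find_spec hret
  have hn0b : ∀ j < n0, lab ((nx B)^[j] y) ∉ SK := fun j hj => Nat.find_min hret hj
  have hn0L : T0 + n0 ≤ L := by
    have h1 : n0 ≤ L - T0 := Nat.find_min' hret (by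
      rw [← hz0T, ← Function.iterate_add_apply, Nat.sub_add_cancel hT0L.le, hL.per]
      exact hctS)
    omega
  have hOex : ∃ j, j < n0 ∧ lab ((nx B)^[j] y) ∈ O := by
    by_contra hcon
    push Not at hcon
    have hco := co_orb_avoid (ω := ω) (O := O) (W := W) (y := y) (n := n0) hcon n0 le_rfl
    rw [← hB] at hco
    set c' := (nx B)^[n0] y with hc'
    have h1 : vx c' ∉ K := by
      intro h2
      have h3 := co_isol dωW hco h2
      rw [hvy] at h3
      exact hz0.2.1 (h3 ▸ h2)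
    have h2 : vx (opc c') ∈ K := ((lab_star _).1 hn0a).resolve_left h1
    have h3 : NJ O W K ct ω (opc c') := by
      refine ⟨h2, by rw [opc_opc]; exact h1, ?_, ?_⟩
      · rw [opc_opc]
        refine Co.trans (Co.symm (hco.mono ?_)) (by rw [hvy]; exact hz0.2.2.1)
        intro l hl
        rw [mem_union] at hl
        rw [mem_union, mem_union]
        tauto
      · rw [opc_opc]
        intro h4
        apply hz0.2.2.2
        rw [← hvy]
        exact hco.trans h4
    have hcT : (nx B)^[T0 + n0] ct = c' := by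
      rw [Nat.add_comm, Function.iterate_add_apply, hz0T]
    have h4 : T0 + n0 ≠ L := by
      intro h5
      rw [h5, hL.per] at hcT
      apply h3.2.2.2
      rw [opc_opc, ← hcT]
      exact Co.refl _ _
    have h5 : nx B c' = nxC (opc (opc c')) := by
      unfold nx
      rw [if_neg (fun h6 => dB _ h6 hn0a), opc_opc]
    have h6 : (nx B)^[T0 + n0 + 1] ct = nxC (opc (opc c')) := by
      rw [Function.iterate_succ_apply', hcT, h5]
    have h7 : T0 + n0 + 1 ≠ L := by
      intro h8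
      rw [h8, hL.per] at h6
      apply h.tipp
      rw [h6, ← h5, plab_nx]
      exact hn0a
    have h8 := hmax (T0 + n0 + 1) (by omega) ⟨_, h3, h6⟩
    omega
  have hOex' : ∃ j, lab ((nx B)^[j] y) ∈ O := ⟨hOex.choose, hOex.choose_spec.2⟩
  set j1 := Nat.find hOex' with hj1
  have hj1a : lab ((nx B)^[j1] y) ∈ O := Nat.find_spec hOex'
  have hj1b : ∀ j < j1, lab ((nx B)^[j] y) ∉ O := fun j hj => Nat.find_min hOex' hj
  have hj1n : j1 < n0 := lt_of_le_of_lt (Nat.find_min' hOex' hOex.choose_spec.2)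
    hOex.choose_spec.1
  have hj1W : ∀ j < j1, lab ((nx B)^[j] y) ∉ W := by
    intro j hj hW
    have hco := co_orb_avoid (ω := ω) (O := O) (W := W) (y := y) (n := j)
      (fun i hi => hj1b i (by omega)) j le_rfl
    rw [← hB] at hco
    apply hz0.2.2.2
    rw [← hvy]
    exact hco.trans ((co_end h.wired hW).mono subset_union_right)
  have hiter : ∀ j ≤ j1, (nx ω)^[j] y = (nx B)^[j] y := by
    intro j
    induction j with
    | zero => intro _; rfl
    | succ j ih =>
      intro hj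
      rw [Function.iterate_succ_apply', Function.iterate_succ_apply', ih (by omega)]
      have h1 := hj1b j (by omega)
      have h2 := hj1W j (by omega)
      apply nx_congr
      rw [hB, mem_union, mem_union]
      tauto
  refine ⟨z0, vx ((nx ω)^[j1] y), hz0, j1, ⟨?_, ?_⟩, rfl⟩
  · intro j hj
    rw [hiter j hj.le, mem_union, mem_union, not_or, not_or]
    exact ⟨⟨hn0b j (by omega), hj1b j hj⟩, hj1W j hj⟩
  · rw [hiter j1 le_rfl]; exact hj1a

end

end Pool.Agent.H77.Q1
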