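import Mathlib
import Pool.Agent.H77.Q1.K3d

set_option autoImplicit false
open Finset

/-! **Solid flattening, probability half, opening step.** `E` random labels, `W` wired labels, `K` a
set of vertices next to the tip `ct` (`KT`). The labels of `O` are opened. Every end of a label of `O`
is tied to `W` by labels of `O` within distance `r`, and lies in one of the balls `(p i, ρ i)`, `i ∈ s`,
whose distance to `K` is at least `3 ρ i`. Then the probability that a vertex next to `K` is newly joined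
to `W` (outside `K`) is at most `∑ i ∈ s, C (1 - δ) ^ k i` if `4 ^ k i * r ≤ 2 * ρ i`. -/

namespace Pool.Agent.H77.Q1

open Pool.Agent.H75.Perc Pool.Agent.H75.TwoArm Pool.Agent.H75.Four Pool.Agent.H49.Perc
open Pool.Agent.H75.TwoArm.StrandAux hiding vx_nxC
open Pool.Agent.Q1.M3 (star kap mem_star_iff mem_kap_iff)

lemma Pr_union_le {ι α : Type*} [DecidableEq α] (E : Finset α) (Y : Finset ι)
    (P : ι → Finset α → Prop) : Pr E (fun ω => ∃ y ∈ Y, P y ω) ≤ ∑ y ∈ Y, Pr E (P y) := by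
  classical
  induction Y using Finset.induction_on with
  | empty =>
    rw [Finset.sum_empty]
    have : Pr E (fun ω => ∃ y ∈ (∅ : Finset ι), P y ω) = Pr E (fun _ => False) :=
      Pr_congr fun ω _ => by simp
    rw [this, Pr_eq]
    simp
  | insert y Y hy ih =>
    rw [Finset.sum_insert hy]
    refine le_trans (Pr_mono fun ω _ h => ?_)
      ((Pr_or_le E (P y) (fun ω => ∃ y ∈ Y, P y ω)).trans (add_le_add_right ih _))
    obtain ⟨z, hz, hz'⟩ := h
    rcases Finset.mem_insert.1 hz with rfl | hz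
    · exact Or.inl hz'
    · exact Or.inr ⟨z, hz, hz'⟩

section
variable {M : ℤ} {E W K O : Finset (ℤ × ℤ)} {ct : ℤ × ℤ}

lemma co_G {ω : Finset (ℤ × ℤ)} (h : KT M E W K ct)
    (hω : ω ⊆ E \ Pool.Agent.Q1.M3.star K) {x t : ℤ × ℤ} (hx : x ∉ K) (ht : t ∈ K)
    (hc : Co (ω ∪ (W ∪ kap K ∪ {lab ct})) x t) : Co (ω ∪ W) x (vx ct) := by
  have dωW : Disjoint (ω ∪ W) (Pool.Agent.Q1.M3.star K) := by
    rw [disjoint_left]
    intro l hl
    rcases mem_union.1 hl with h1 | h1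
    · exact (mem_sdiff.1 (hω h1)).2
    · exact fun h2 => disjoint_left.1 h.disj (h.star h2) h1
  have key : ∀ b, Co (ω ∪ (W ∪ kap K ∪ {lab ct})) x b →
      Co (ω ∪ W) x b ∨ Co (ω ∪ W) x (vx ct) := by
    intro b hb
    induction hb with
    | refl => exact Or.inl (Co.refl _ _)
    | @tail b c _ hbc ih =>
      rcases ih with ih | ih
      · have hbK : b ∉ K := fun h1 => hx ((co_isol dωW ih h1) ▸ h1)
        have ho : ((b + c).1 + (b + c).2) % 2 = 1 := by
          have := unit_cases hbc.1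
          simp only [Prod.fst_add, Prod.snd_add]
          omega
        have hm := hbc.2
        rw [mem_union, mem_union, mem_union, mem_singleton] at hm
        rcases hm with h1 | (h1 | h1) | h1
        · exact Or.inl (ih.tail ⟨hbc.1, mem_union_left _ h1⟩)
        · exact Or.inl (ih.tail ⟨hbc.1, mem_union_right _ h1⟩)
        · exfalso
          have h2 := (mem_kap_iff ho).1 h1
          rcases H69.Q1.ends_of_add hbc.1 rfl with ⟨h3, -⟩ | ⟨h3, -⟩
          · exact hbK (h3 ▸ h2.1)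
          · exact hbK (h3 ▸ h2.2)
        · right
          have h2 : b = vx ct ∨ b = vx (opc ct) := by
            rcases H69.Q1.ends_of_add hbc.1 h1 with ⟨h3, -⟩ | ⟨h3, -⟩ <;>
            rcases ends_lab ct with ⟨h4, h5⟩ | ⟨h4, h5⟩ <;> rw [h3, h4, h5] <;> tauto
          rcases h2 with h2 | h2
          · rw [← h2]; exact ih
          · exact absurd (h2 ▸ h.tip) hbK
      · exact Or.inr ih
  rcases key t hc with h1 | h1
  · exact absurd ((co_isol dωW h1 ht) ▸ ht) hx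
  · exact h1

/-- `g` is next to a vertex of `K` -/
def Nx (K : Finset (ℤ × ℤ)) (g : ℤ × ℤ) : Prop := ∃ u ∈ K, |g.1 - u.1| ≤ 1 ∧ |g.2 - u.2| ≤ 1

lemma nx_face {z : ℤ × ℤ} (hz : lab z ∈ Pool.Agent.Q1.M3.star K) {g g' : ℤ × ℤ}
    (hg : IsUnit4 (g' - g)) (hl : lbf g g' = lab z) : Nx K g := by
  have h1 := H69.Q1.odd_lab z
  have h2 := unit_cases hg
  unfold lbf at hl
  have h6 := congrArg Prod.fst hl
  have h7 := congrArg Prod.snd hl
  simp only [Prod.fst_sub, Prod.snd_sub, Prod.fst_add, Prod.snd_add] at h6 h7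
  rw [mem_star_iff h1] at hz
  rcases hz with hz | hz
  · refine ⟨_, hz, ?_⟩
    unfold eu
    simp only
    rw [abs_le, abs_le]
    omega
  · refine ⟨_, hz, ?_⟩
    unfold ev
    simp only
    rw [abs_le, abs_le]
    omega

lemma inB_end {M : ℤ} {c : ℤ × ℤ} (h : lab c ∈ H75.TwoArm.BB (M - 1)) :
    inB (-(M - 1)) (M - 1) (-(M - 1)) (M - 1) (vx c) := by
  unfold H75.TwoArm.BB at h
  rw [mem_Bx] at h
  unfold inB
  rcases ends_lab c with ⟨h1, -⟩ | ⟨h1, -⟩ <;> rw [h1]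
  · unfold eu; simp only; omega
  · unfold ev; simp only; omega

/-- The step for one ring vertex and one vertex `v` of `O`. -/
lemma KT.step {δ : ℝ} (hδ : ∀ (E : Finset (ℤ × ℤ)),
    (∀ e ∈ E, (e.1 + e.2) % 2 = 1) → ∀ (x : ℤ × ℤ) (ρ : ℤ), 1 ≤ ρ → ∀ k : ℕ,
    Pr E (fun ω => ∃ u v : ℤ × ℤ, |u.1 - x.1| ≤ ρ ∧ |u.2 - x.2| ≤ ρ ∧
      (4 ^ k * ρ ≤ |v.1 - x.1| ∨ 4 ^ k * ρ ≤ |v.2 - x.2|) ∧ Co (du E ω) u v) ≤ (1 - δ) ^ k)
    (h : KT M E W K ct) (hO : O ⊆ E \ Pool.Agent.Q1.M3.star K)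
    {z : ℤ × ℤ} (hz : vx z ∈ K) (hz' : vx (opc z) ∉ K) (hne : z ≠ opc ct) {v : ℤ × ℤ}
    {T : Finset (ℤ × ℤ)} {r D : ℤ} {k : ℕ} (hr : 1 ≤ r) (hk : 4 ^ k * r ≤ D)
    (hT : IsTie O W (vx ct) r v T) (hfar : ∀ g, Nx K g → Far D v g) :
    Pr (E \ Pool.Agent.Q1.M3.star K) (fun ω => ¬ Co (ω ∪ W) (vx (opc z)) (vx ct) ∧
      HitAt (Pool.Agent.Q1.M3.star K ∪ O ∪ W) O ω (nxC (opc z)) v) ≤
    Pr (E \ Pool.Agent.Q1.M3.star K) (fun ω =>
      HitAt (Pool.Agent.Q1.M3.star K ∪ O ∪ W) O ω (nxC (opc z)) v) * (1 - δ) ^ k := by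
  classical
  set SK := Pool.Agent.Q1.M3.star K with hSK
  set G := W ∪ kap K ∪ {lab ct} with hG
  have hctS : lab ct ∈ SK := by rw [hSK, lab_star]; exact Or.inr h.tip
  have hzS : lab z ∈ SK := by rw [hSK, lab_star]; exact Or.inl hz
  have hkS : kap K ⊆ SK := by
    intro l hl
    unfold Pool.Agent.Q1.M3.kap at hl
    exact (mem_filter.1 hl).1
  have hfy : fi (nxC (opc z)) = fi z := by rw [(nxC_opc _).2, opc_opc]
  have hvy : vx (nxC (opc z)) = vx (opc z) := (nxC_opc _).1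
  have hzct : lab z ≠ lab ct := by
    intro h1
    rcases lab_eq_iff.1 h1 with h2 | h2
    · exact h.tipo (h2 ▸ hz)
    · exact hne h2
  have hSM : SK ⊆ H75.TwoArm.BB (M - 1) := h.star.trans h.hE
  have hBB : H75.TwoArm.BB (M - 1) ⊆ H75.TwoArm.BB M := by
    intro l hl
    unfold H75.TwoArm.BB at hl ⊢
    rw [mem_Bx] at hl ⊢
    omega
  have hGEW : insert (lab z) ((E \ SK) ∪ G) ⊆ E ∪ W := by
    intro l hl
    rw [mem_insert, mem_union, mem_sdiff, hG, mem_union, mem_union, mem_singleton] at hl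
    rw [mem_union]
    rcases hl with rfl | hl | (hl | hl) | rfl
    · exact Or.inl (h.star hzS)
    · exact Or.inl hl.1
    · exact Or.inr hl
    · exact Or.inl (h.star (hkS hl))
    · exact Or.inl (h.star hctS)
  have hrgS : rg K ct z ⊆ SK := by
    intro l hl
    unfold rg at hl
    exact (mem_sdiff.1 (mem_of_mem_erase (mem_of_mem_erase hl))).1
  have hrg : Disjoint (rg K ct z) (insert (lab z) ((E \ SK) ∪ G)) := by
    rw [disjoint_left]
    intro l hl hl'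
    have h1 := hrgS hl
    unfold rg at hl
    rw [mem_erase, mem_erase, mem_sdiff] at hl
    rw [mem_insert, mem_union, mem_sdiff, hG, mem_union, mem_union, mem_singleton] at hl'
    rcases hl' with h2 | h2 | (h2 | h2) | h2
    · exact hl.1 h2
    · exact h2.2 h1
    · exact disjoint_left.1 h.disj (h.star h1) h2
    · exact hl.2.2.2 h2
    · exact hl.2.1 h2
  have hcont := h.contour hz hz' hne
  have hd1 : Dc M (lab z) ((E \ SK) ∪ G) (fi ct) (fi z) :=
    hcont.mono (du_sub (hrgS.trans (hSM.trans hBB)) hrg)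
  have key := step_gen (M := M) (e0 := lab z) (E := E \ SK) (G := G) (W := G) (O := O)
    (f1 := fi z) (f2 := fi (opc z)) (x := vx (opc z)) (t := vx z) (S := Nx K) (v := v) (T := T)
    (R := fun ω => HitAt (SK ∪ O ∪ W) O ω (nxC (opc z)) v) (q := (1 - δ) ^ k)
    (H69.Q1.odd_lab z) (hSM hzS) (sdiff_subset.trans h.hE) ?_ (fun h1 => (mem_sdiff.1 h1).2 hzS)
    ?_ hO (Subset.refl _) (fac_z z) (ends_z z) ?_ ?_ hT.1 ?_ ?_ ?_ ?_
  · refine le_trans (Pr_mono ?_) key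
    rintro ω hω ⟨h1, h2⟩
    exact ⟨fun h3 => h1 (co_G h hω hz' hz h3), h2⟩
  · rw [hG]
    refine union_subset (union_subset h.hW (hkS.trans hSM)) ?_
    intro l hl
    rw [mem_singleton] at hl
    exact hl ▸ hSM hctS
  · rw [hG, mem_union, mem_union, mem_singleton, not_or, not_or]
    refine ⟨⟨fun h1 => disjoint_left.1 h.disj (h.star hzS) h1, ?_⟩, hzct⟩
    rw [lab_kap]
    exact fun h1 => hz' h1.2
  · refine nx_face (z := z) (g' := fi (nxC (opc z))) hzS (fi_nxC _).1 ?_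
    rw [lbf_nxC, lab_opc]
  · intro g g' h1 h2 h3 h4 h5 h6
    by_cases hlS : lbf g g' ∈ SK
    · obtain ⟨c, hc⟩ : ∃ c, lab c = lbf g g' := by
        have ho := Pool.Agent.Q1.M3.odd_star hlS
        exact ⟨zu (lbf g g'), (opc_zu ho).2.2.1⟩
      rw [← hc] at hlS
      exact nx_face hlS h3 hc.symm
    · exfalso
      have hE : lbf g g' ∉ E := fun h7 => h4 (mem_sdiff.2 ⟨h7, hlS⟩)
      have hW : lbf g g' ∉ W := fun h7 => h5 (by
        rw [hG, mem_union, mem_union]; exact Or.inl (Or.inl h7))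
      have c1 : Co (du (H75.TwoArm.BB M) W) (fi ct) (fi z) := by
        refine hcont.mono (du_sub (hrgS.trans (hSM.trans hBB)) ?_)
        rw [disjoint_left]
        exact fun l hl hl' => disjoint_left.1 h.disj (h.star (hrgS hl)) hl'
      have c2 : Ad (du (H75.TwoArm.BB M) W) (fi (opc z)) (fi z) := by
        have h8 := fi_nxC (opc z)
        rw [hfy] at h8
        refine ⟨h8.1, ?_⟩
        rw [h8.2, mem_du', lab_opc]
        have h9 : lab z + (1, 1) - (1, 1) = lab z := by simp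
        rw [h9]
        exact ⟨hBB (hSM hzS), fun h10 => disjoint_left.1 h.disj (h.star hzS) h10⟩
      have c3 : Co (du (H75.TwoArm.BB M) W) (fi (opc z)) g := by
        refine Co.mono ?_ h1
        refine Pool.Agent.H77.Q1.du_anti ?_
        intro l hl
        rw [mem_insert, hG, mem_union, mem_union]
        exact Or.inr (Or.inl (Or.inl hl))
      have c4 := h.free g g' ((c1.trans (Co.symm (Relation.ReflTransGen.single c2))).trans c3) h3
        hE hW
      refine h2 (hd1.symm.trans (c4.mono (Pool.Agent.H77.Q1.du_anti hGEW)))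
  · have h1 : Co (T ∪ G) v (vx ct) := hT.2.2.mono (union_subset_union_right (by
      rw [hG]
      intro l hl
      rw [mem_union, mem_union]
      exact Or.inl (Or.inl hl)))
    have h2 : Co (T ∪ G) (vx ct) (vx (opc ct)) := by
      have ho := H69.Q1.odd_lab ct
      have h3 := PivAux.eu_ev ho
      have h4 : lab ct ∈ T ∪ G := by
        rw [hG, mem_union, mem_union, mem_singleton]; exact Or.inr (Or.inr rfl)
      have h5 : Co (T ∪ G) (eu (lab ct)) (ev (lab ct)) :=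
        Relation.ReflTransGen.single ⟨h3.1, by rw [h3.2]; exact h4⟩
      rcases ends_lab ct with ⟨h6, h7⟩ | ⟨h6, h7⟩ <;> rw [h6, h7]
      · exact h5
      · exact h5.symm
    have h3 : Co (T ∪ G) (vx (opc ct)) (vx z) := (h.conn _ h.tip _ hz).mono (by
      intro l hl
      rw [hG, mem_union, mem_union, mem_union]
      exact Or.inr (Or.inl (Or.inr hl)))
    exact (h1.trans h2).trans h3
  · intro ω ω' h1 h2
    have h3 := hitAt_mix (M := M) (e0 := lab z) (E := E \ SK) (G := G) (O := O)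
      (N := SK ∪ O ∪ W) (y := nxC (opc z)) (v := v) h1 h2 (sdiff_subset.trans h.hE)
      (by
        rw [hvy]
        exact inB_end (by rw [lab_opc]; exact hSM hzS))
      (by
        intro l hl
        rw [mem_union, mem_union]
        exact Or.inl (Or.inr hl))
      (by
        rw [hG]
        intro l hl
        rw [mem_union, mem_union, mem_singleton] at hl
        rw [mem_union, mem_union]
        rcases hl with (hl | hl) | rfl
        · exact Or.inr hl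
        · exact Or.inl (Or.inl (hkS hl))
        · exact Or.inl (Or.inl hctS))
      (by
        rw [mem_union, mem_union]
        exact Or.inl (Or.inl hzS))
    rw [hfy] at h3
    exact h3
  · intro ω _ h1
    have := h1.co
    rwa [hvy] at this
  · intro U _
    have hodd : ∀ e ∈ E \ SK, (e.1 + e.2) % 2 = 1 := fun e he =>
      (mem_Bx.1 (h.hE (mem_sdiff.1 he).1)).2.2
    refine le_trans (Pr_mono ?_) (arm_bound hδ hodd (U := U) hr hk (v := v) (A := fun z h =>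
      (∃ z', IsUnit4 (z' - z) ∧ lbf z z' ∈ T) ∧ Nx K h) ?_)
    · rintro ω - ⟨z, z', h, h1, h2, h3, h4⟩
      exact ⟨z, h, ⟨⟨z', h1, h2⟩, h3⟩, h4⟩
    · rintro z h ⟨⟨z', h1, h2⟩, h3⟩
      have h4 := near_label h1 (hT.2.1 _ h2)
      exact ⟨h4.1, h4.2, hfar h h3⟩

/-- Mean number of strands which hit `O` first in a ball. -/
lemma KT.count {δ : ℝ} (hδ0 : 0 < δ) (hδ1 : δ < 1) (hδ : ∀ (E : Finset (ℤ × ℤ)),
    (∀ e ∈ E, (e.1 + e.2) % 2 = 1) → ∀ (x : ℤ × ℤ) (ρ : ℤ), 1 ≤ ρ → ∀ k n : ℕ,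
    Pr E (Arms n (Arm1 x ρ (4 ^ k * ρ))) ≤ (1 - δ) ^ (k * n))
    (h : KT M E W K ct) (I : Finset ((ℤ × ℤ) × (ℤ × ℤ))) {p : ℤ × ℤ} {ρ : ℤ} (hρ : 1 ≤ ρ)
    (hI : ∀ i ∈ I, (vx i.1 ∈ K ∧ vx (opc i.1) ∉ K) ∧ (|i.2.1 - p.1| ≤ ρ ∧ |i.2.2 - p.2| ≤ ρ))
    (hK : ∀ u ∈ K, Far (4 * ρ + 1) p u) :
    ∑ i ∈ I, Pr (E \ Pool.Agent.Q1.M3.star K) (fun ω =>
      HitAt (Pool.Agent.Q1.M3.star K ∪ O ∪ W) O ω (nxC (opc i.1)) i.2) ≤ 1 / δ := by
  classical
  set SK := Pool.Agent.Q1.M3.star K with hSK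
  have hodd : ∀ e ∈ E \ SK, (e.1 + e.2) % 2 = 1 := fun e he =>
    (mem_Bx.1 (h.hE (mem_sdiff.1 he).1)).2.2
  refine sum_Pr_le (E \ SK) I (fun i ω => HitAt (SK ∪ O ∪ W) O ω (nxC (opc i.1)) i.2) hδ0 hδ1
    (fun m => Arms m (Arm1 p ρ (4 ^ 1 * ρ))) (fun m => by
      have := hδ (E \ SK) hodd p ρ hρ 1 m
      rwa [one_mul] at this) ?_
  intro ω hω J hJ hA
  have hlen : ∀ i ∈ J, ∃ n, Hit (SK ∪ O ∪ W) O ω (nxC (opc i.1)) n ∧
      vx ((nx ω)^[n] (nxC (opc i.1))) = i.2 := fun i hi => hA i hi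
  choose! n hn using hlen
  have hpn : ∀ (a b : ℕ) (y : ℤ × ℤ), a ≤ b → (pv ω)^[a] ((nx ω)^[b] y) = (nx ω)^[b - a] y := by
    intro a
    induction a with
    | zero => intro b y _; rfl
    | succ a ih =>
      intro b y hab
      rw [Function.iterate_succ_apply', ih b y (by omega)]
      have : b - a = (b - (a + 1)) + 1 := by omega
      rw [this, Function.iterate_succ_apply', pv_nx]
  have hplab : ∀ i ∈ J, ∀ a, 1 ≤ a → a ≤ n i →
      plab ((nx ω)^[a] (nxC (opc i.1))) ∉ SK := by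
    intro i hi a h1 h2
    have h3 : a = (a - 1) + 1 := by omega
    rw [h3, Function.iterate_succ_apply', plab_nx]
    have := (hn i hi).1.1 (a - 1) (by omega)
    rw [mem_union, mem_union, not_or, not_or] at this
    exact this.1.1
  have hy0 : ∀ i ∈ J, plab (nxC (opc i.1)) ∈ SK := by
    intro i hi
    have h1 : lab (opc i.1) ∈ SK := by
      rw [hSK, lab_star, opc_opc]; exact Or.inr (hI i (hJ hi)).1.1
    have h2 : nx ∅ (opc i.1) = nxC (opc i.1) := by unfold nx; rw [if_neg (notMem_empty _)]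
    rw [← h2, plab_nx]
    exact h1
  refine open_arms_fam (L := ω) (ω := ω) J (fun i => (nx ω)^[n i] (nxC (opc i.1))) n ?_ ?_ ?_
    (fun _ _ _ _ h => h) ?_
  · intro i hi
    rw [(hn i hi).2]
    exact (hI i (hJ hi)).2
  · intro i hi
    have h1 := hpn (n i) (n i) (nxC (opc i.1)) le_rfl
    rw [Nat.sub_self] at h1
    change 4 ^ 1 * ρ ≤ |(vx ((pv ω)^[n i] ((nx ω)^[n i] (nxC (opc i.1))))).1 - p.1| ∨ _
    rw [h1, Function.iterate_zero, id_eq, (nxC_opc _).1]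
    have h2 := hK _ (hI i (hJ hi)).1.1
    have h3 := PivAux.eu_ev (H69.Q1.odd_lab i.1)
    have h4 := unit_cases h3.1
    unfold Far at h2
    rcases ends_lab i.1 with ⟨h5, h6⟩ | ⟨h5, h6⟩
    · rw [h5] at h2
      rw [h6]
      rcases h2 with h2 | h2
      · left; rw [le_abs] at h2 ⊢; omega
      · right; rw [le_abs] at h2 ⊢; omega
    · rw [h5] at h2
      rw [h6]
      rcases h2 with h2 | h2
      · left; rw [le_abs] at h2 ⊢; omega
      · right; rw [le_abs] at h2 ⊢; omega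
  · intro i hi
    rcases Nat.eq_zero_or_pos (n i) with h0 | h0
    · exfalso
      have h1 := (hn i hi).2
      rw [h0, Function.iterate_zero, id_eq, (nxC_opc _).1] at h1
      have h2 := hK _ (hI i (hJ hi)).1.1
      have h3 := PivAux.eu_ev (H69.Q1.odd_lab i.1)
      have h4 := unit_cases h3.1
      have h7 := (hI i (hJ hi)).2
      rw [← h1] at h7
      unfold Far at h2
      rw [abs_le, abs_le] at h7
      rcases ends_lab i.1 with ⟨h5, h6⟩ | ⟨h5, h6⟩
      · rw [h5, le_abs, le_abs] at h2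
        rw [h6] at h7
        omega
      · rw [h5, le_abs, le_abs] at h2
        rw [h6] at h7
        omega
    · exact h0
  · intro i hi j hj a b ha hb hab
    rw [hpn a (n i) _ ha.le, hpn b (n j) _ hb.le] at hab
    set u := n i - a with hu
    set w := n j - b with hw
    have hinj := nx_injective ω
    have key : u = w ∧ nxC (opc i.1) = nxC (opc j.1) := by
      rcases lt_trichotomy u w with h1 | h1 | h1
      · exfalso
        have h2 : (nx ω)^[w] (nxC (opc j.1)) = (nx ω)^[u] ((nx ω)^[w - u] (nxC (opc j.1))) := by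
          rw [← Function.iterate_add_apply]; congr 1; omega
        rw [h2] at hab
        have h3 := hinj.iterate u hab
        have h4 := hplab j hj (w - u) (by omega) (by omega)
        rw [← h3] at h4
        exact h4 (hy0 i hi)
      · rw [h1] at hab
        exact ⟨h1, hinj.iterate w hab⟩
      · exfalso
        have h2 : (nx ω)^[u] (nxC (opc i.1)) = (nx ω)^[w] ((nx ω)^[u - w] (nxC (opc i.1))) := by
          rw [← Function.iterate_add_apply]; congr 1; omega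
        rw [h2] at hab
        have h3 := hinj.iterate w hab
        have h4 := hplab i hi (u - w) (by omega) (by omega)
        rw [h3] at h4
        exact h4 (hy0 j hj)
    have h5 : i.1 = j.1 := by
      have h6 : nx ∅ (opc i.1) = nx ∅ (opc j.1) := by
        unfold nx
        rw [if_neg (notMem_empty _), if_neg (notMem_empty _)]
        exact key.2
      have h7 := nx_injective ∅ h6
      rw [← opc_opc i.1, h7, opc_opc]
    have hv : HitAt (SK ∪ O ∪ W) O ω (nxC (opc i.1)) i.2 := ⟨n i, hn i hi⟩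
    have hv' : HitAt (SK ∪ O ∪ W) O ω (nxC (opc i.1)) j.2 := by
      rw [h5]; exact ⟨n j, hn j hj⟩
    have hON : O ⊆ SK ∪ O ∪ W := by
      intro l hl
      rw [mem_union, mem_union]
      exact Or.inl (Or.inr hl)
    have hij : i = j := Prod.ext h5 (hv.unique hON hv')
    refine ⟨hij, ?_⟩
    have h8 := key.1
    rw [hu, hw, hij] at h8
    rw [hij] at ha
    omega

end

/-- **K3, opening step.** -/
theorem K3_open : ∃ δ C : ℝ, 0 < δ ∧ δ < 1 ∧ 0 < C ∧ ∀ (M : ℤ) (E W K O : Finset (ℤ × ℤ))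
    (ct : ℤ × ℤ) (r : ℤ) (s : Finset ℕ) (p : ℕ → ℤ × ℤ) (ρ : ℕ → ℤ) (k : ℕ → ℕ),
    KT M E W K ct → O ⊆ E \ Pool.Agent.Q1.M3.star K → 1 ≤ r →
    (∀ o ∈ O, ∀ v, (v = eu o ∨ v = ev o) → (∃ T, IsTie O W (vx ct) r v T) ∧
      ∃ i ∈ s, |v.1 - (p i).1| ≤ ρ i ∧ |v.2 - (p i).2| ≤ ρ i) →
    (∀ i ∈ s, 1 ≤ ρ i ∧ 4 ^ k i * r ≤ 2 * ρ i ∧ ∀ u ∈ K, Far (4 * ρ i + 1) (p i) u) →
    Pr (E \ Pool.Agent.Q1.M3.star K) (fun ω => ∃ z, NJ O W K ct ω z) ≤
      ∑ i ∈ s, C * (1 - δ) ^ k i := by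
  classical
  obtain ⟨δ, hδ0, hδ1, hδ⟩ := dual_decay
  obtain ⟨δ', hδ0', hδ1', hδ'⟩ := k_arms
  refine ⟨δ, 1 / δ', hδ0, hδ1, by positivity, ?_⟩
  intro M E W K O ct r s p ρ k h hO hr htie hs
  set SK := Pool.Agent.Q1.M3.star K with hSK
  set Z : Finset (ℤ × ℤ) := (K.biUnion H69.Q1.four).filter
    (fun z => vx (opc z) ∉ K ∧ z ≠ opc ct) with hZ
  set VO : Finset (ℤ × ℤ) := O.image eu ∪ O.image ev with hVO
  have hZm : ∀ z, z ∈ Z ↔ vx z ∈ K ∧ vx (opc z) ∉ K ∧ z ≠ opc ct := by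
    intro z
    rw [hZ, mem_filter, mem_biUnion]
    constructor
    · rintro ⟨⟨u, hu, hz⟩, h1⟩
      rw [H69.Q1.mem_four] at hz
      exact ⟨hz ▸ hu, h1⟩
    · rintro ⟨h1, h2⟩
      exact ⟨⟨_, h1, H69.Q1.mem_four.2 rfl⟩, h2⟩
  have hVm : ∀ v, v ∈ VO ↔ ∃ o ∈ O, v = eu o ∨ v = ev o := by
    intro v
    rw [hVO, mem_union, mem_image, mem_image]
    constructor
    · rintro (⟨o, ho, h1⟩ | ⟨o, ho, h1⟩)
      · exact ⟨o, ho, Or.inl h1.symm⟩
      · exact ⟨o, ho, Or.inr h1.symm⟩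
    · rintro ⟨o, ho, h1 | h1⟩
      · exact Or.inl ⟨o, ho, h1.symm⟩
      · exact Or.inr ⟨o, ho, h1.symm⟩
  set I : ℕ → Finset ((ℤ × ℤ) × (ℤ × ℤ)) := fun i =>
    Z ×ˢ VO.filter (fun v => |v.1 - (p i).1| ≤ ρ i ∧ |v.2 - (p i).2| ≤ ρ i) with hI
  set A : (ℤ × ℤ) × (ℤ × ℤ) → Finset (ℤ × ℤ) → Prop := fun q ω =>
    ¬ Co (ω ∪ W) (vx (opc q.1)) (vx ct) ∧ HitAt (SK ∪ O ∪ W) O ω (nxC (opc q.1)) q.2 with hA
  have hON : O ⊆ SK ∪ O ∪ W := by
    intro l hl
    rw [mem_union, mem_union]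
    exact Or.inl (Or.inr hl)
  have h1 : Pr (E \ SK) (fun ω => ∃ z, NJ O W K ct ω z) ≤
      Pr (E \ SK) (fun ω => ∃ i ∈ s, ∃ q ∈ I i, A q ω) := by
    refine Pr_mono ?_
    rintro ω hω ⟨z, hz⟩
    obtain ⟨z0, v, hz0, hv⟩ := h.select hO hω hz
    obtain ⟨o, ho, hov⟩ := hv.end_
    obtain ⟨-, i, hi, hi'⟩ := htie o ho v hov
    refine ⟨i, hi, (z0, v), ?_, hz0.2.2.2, hv⟩
    refine mem_product.2 ⟨(hZm z0).2 ⟨hz0.1, hz0.2.1, ?_⟩,
      mem_filter.2 ⟨(hVm v).2 ⟨o, ho, hov⟩, hi'⟩⟩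
    intro h2
    apply hz0.2.2.2
    rw [h2, opc_opc]
    exact Co.refl _ _
  refine h1.trans ((Pr_union_le _ _ _).trans (sum_le_sum fun i hi => ?_))
  obtain ⟨hρ, hk, hK⟩ := hs i hi
  refine (Pr_union_le _ _ _).trans ?_
  have h2 : ∀ q ∈ I i, Pr (E \ SK) (A q) ≤
      Pr (E \ SK) (fun ω => HitAt (SK ∪ O ∪ W) O ω (nxC (opc q.1)) q.2) * (1 - δ) ^ k i := by
    intro q hq
    obtain ⟨hq1, hq'⟩ := mem_product.1 hq
    obtain ⟨hq2, hq3⟩ := mem_filter.1 hq'
    obtain ⟨g1, g2, g3⟩ := (hZm _).1 hq1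
    obtain ⟨o, ho, hov⟩ := (hVm _).1 hq2
    obtain ⟨⟨T, hT⟩, -⟩ := htie o ho _ hov
    refine KT.step hδ h hO g1 g2 g3 hr hk hT ?_
    rintro g ⟨u, hu, hu1, hu2⟩
    have h3 := hK u hu
    unfold Far at h3 ⊢
    rw [abs_le] at hu1 hu2
    rw [abs_le, abs_le] at hq3
    rcases h3 with h3 | h3
    · left; rw [le_abs] at h3 ⊢; omega
    · right; rw [le_abs] at h3 ⊢; omega
  refine (sum_le_sum h2).trans ?_
  rw [← sum_mul]
  refine mul_le_mul_of_nonneg_right ?_ (pow_nonneg (by linarith) _)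
  refine KT.count hδ0' hδ1' hδ' h (I i) (p := p i) (ρ := ρ i) hρ ?_ hK
  intro q hq
  obtain ⟨hq1, hq'⟩ := mem_product.1 hq
  obtain ⟨g1, g2, -⟩ := (hZm _).1 hq1
  exact ⟨⟨g1, g2⟩, (mem_filter.1 hq').2⟩

end Pool.Agent.H77.Q1
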