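import Mathlib
import Pool.Agent.H77.Q1.K3

set_option autoImplicit false
open Finset

/-! **Solid flattening, probability half, closing step**: colour dual of `K3_open`. The duality is the
transposition of the label lattice followed by the shift by `(1,1)`. -/

namespace Pool.Agent.H77.Q1

open Pool.Agent.H75.Perc Pool.Agent.H75.TwoArm Pool.Agent.H75.Four
open Pool.Agent.H75.TwoArm.StrandAux hiding vx_nxC
open Pool.Agent.Q1.M3 (star kap mem_star_iff mem_kap_iff)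

/-- transposition of points -/
def tr (v : ℤ × ℤ) : ℤ × ℤ := (v.2, v.1)

/-- dual label -/
def dl : (ℤ × ℤ) ↪ (ℤ × ℤ) where
  toFun e := (e.2 + 1, e.1 + 1)
  inj' := by
    intro a b h
    have h1 := congrArg Prod.fst h
    have h2 := congrArg Prod.snd h
    simp only at h1 h2
    exact Prod.ext (by omega) (by omega)

/-- dual corner -/
def dc (c : ℤ × ℤ) : ℤ × ℤ := (c.2 + 1, c.1 + 1)

lemma dl_apply (e : ℤ × ℤ) : dl e = (e.2 + 1, e.1 + 1) := rfl

lemma tr_tr (v : ℤ × ℤ) : tr (tr v) = v := rfl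

lemma tr_inj {u v : ℤ × ℤ} (h : tr u = tr v) : u = v := by rw [← tr_tr u, h, tr_tr]

lemma lab_dc (c : ℤ × ℤ) : lab (dc c) = dl (lab c) := by
  rw [dl_apply]
  unfold lab dc
  have h1 : c.1 % 2 = 0 ∨ c.1 % 2 = 1 := by omega
  have h2 : c.2 % 2 = 0 ∨ c.2 % 2 = 1 := by omega
  rcases h1 with h1 | h1 <;> rcases h2 with h2 | h2 <;> simp only [h1, h2] <;>
  split_ifs <;> first | omega | (refine Prod.ext ?_ ?_ <;> simp only <;> omega)

lemma plab_dc (c : ℤ × ℤ) : plab (dc c) = dl (plab c) := by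
  rw [dl_apply]
  unfold plab dc
  have h1 : c.1 % 2 = 0 ∨ c.1 % 2 = 1 := by omega
  have h2 : c.2 % 2 = 0 ∨ c.2 % 2 = 1 := by omega
  rcases h1 with h1 | h1 <;> rcases h2 with h2 | h2 <;> simp only [h1, h2] <;>
  split_ifs <;> first | omega | (refine Prod.ext ?_ ?_ <;> simp only <;> omega)

lemma vx_dc (c : ℤ × ℤ) : vx (dc c) = tr (fi c) := rfl

lemma fi_dc (c : ℤ × ℤ) : fi (dc c) = tr (vx c) + (1, 1) := by
  unfold fi dc tr vx
  refine Prod.ext ?_ ?_ <;> simp only [Prod.fst_add, Prod.snd_add] <;> omega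

lemma opc_dc (c : ℤ × ℤ) : opc (dc c) = dc (opc c) := by
  unfold opc dc
  have h1 : c.1 % 2 = 0 ∨ c.1 % 2 = 1 := by omega
  have h2 : c.2 % 2 = 0 ∨ c.2 % 2 = 1 := by omega
  rcases h1 with h1 | h1 <;> rcases h2 with h2 | h2 <;> simp only [h1, h2] <;>
  split_ifs <;> first | omega | (refine Prod.ext ?_ ?_ <;> simp only <;> omega)

lemma dc_surj (z : ℤ × ℤ) : ∃ c, dc c = z := ⟨(z.2 - 1, z.1 - 1), by
  unfold dc; refine Prod.ext ?_ ?_ <;> simp only <;> omega⟩

lemma unit_tr {f g : ℤ × ℤ} : IsUnit4 (tr g - tr f) ↔ IsUnit4 (g - f) := by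
  unfold IsUnit4 tr
  simp only [Prod.mk_sub_mk, Prod.ext_iff, Prod.fst_sub, Prod.snd_sub]
  constructor <;> intro h <;> rcases h with h | h | h | h <;> simp only [h] <;> tauto

lemma unit_tr1 {f g : ℤ × ℤ} : IsUnit4 ((tr g + (1, 1)) - (tr f + (1, 1))) ↔ IsUnit4 (g - f) := by
  rw [add_sub_add_right_eq_sub]
  exact unit_tr

lemma dl_lbf (f g : ℤ × ℤ) : dl (lbf f g) = tr f + tr g := by
  rw [dl_apply]
  unfold lbf tr
  refine Prod.ext ?_ ?_ <;> simp only [Prod.fst_add, Prod.snd_add, Prod.fst_sub, Prod.snd_sub] <;>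
  omega

lemma lbf_tr1 (u v : ℤ × ℤ) : lbf (tr u + (1, 1)) (tr v + (1, 1)) = dl (u + v) := by
  rw [dl_apply]
  unfold lbf tr
  refine Prod.ext ?_ ?_ <;> simp only [Prod.fst_add, Prod.snd_add, Prod.fst_sub, Prod.snd_sub] <;>
  omega

lemma ad_du {B A : Finset (ℤ × ℤ)} {f g : ℤ × ℤ} :
    Ad (du B A) f g ↔ IsUnit4 (g - f) ∧ lbf f g ∈ B ∧ lbf f g ∉ A := by
  unfold Ad lbf
  rw [mem_du']

/-- connections in the dual configuration are dual connections -/
lemma co_dl {B A : Finset (ℤ × ℤ)} {f g : ℤ × ℤ} :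
    Co ((B \ A).map dl) (tr f) (tr g) ↔ Co (du B A) f g := by
  have key : ∀ f g, Ad ((B \ A).map dl) (tr f) (tr g) ↔ Ad (du B A) f g := by
    intro f g
    rw [ad_du]
    unfold Ad
    rw [unit_tr, ← dl_lbf, mem_map' dl, mem_sdiff]
  constructor
  · intro h
    have h2 : ∀ b, Co ((B \ A).map dl) (tr f) b → Co (du B A) f (tr b) := by
      intro b hb
      induction hb with
      | refl => exact Co.refl _ _
      | @tail b c _ hbc ih => exact ih.tail ((key _ _).1 (by rw [tr_tr, tr_tr]; exact hbc))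
    have := h2 _ h
    rwa [tr_tr] at this
  · intro h
    induction h with
    | refl => exact Co.refl _ _
    | @tail b c _ hbc ih => exact ih.tail ((key _ _).2 hbc)

/-- Connections are dual connections of the dual configuration. -/
lemma co_dl2 {B A C : Finset (ℤ × ℤ)} {u v : ℤ × ℤ} (h : ∀ l ∈ A, dl l ∈ B ∧ dl l ∉ C)
    (hc : Co A u v) : Co (du B C) (tr u + (1, 1)) (tr v + (1, 1)) := by
  induction hc with
  | refl => exact Co.refl _ _
  | @tail b c _ hbc ih =>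
    refine ih.tail (ad_du.2 ⟨unit_tr1.2 hbc.1, ?_⟩)
    rw [lbf_tr1]
    exact h _ hbc.2

/-- the labels of the four sides of the faces in `K` -/
noncomputable def starf (K : Finset (ℤ × ℤ)) : Finset (ℤ × ℤ) := K.biUnion fun f =>
  {(2 * f.1 - 2, 2 * f.2 - 1), (2 * f.1, 2 * f.2 - 1), (2 * f.1 - 1, 2 * f.2 - 2),
    (2 * f.1 - 1, 2 * f.2)}

lemma starf_dl (K : Finset (ℤ × ℤ)) : (starf K).map dl = star (K.image tr) := by
  ext l
  rw [mem_map, Pool.Agent.Q1.M3.mem_star]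
  unfold starf Pool.Agent.Q1.M3.star1
  constructor
  · rintro ⟨e, he, rfl⟩
    rw [mem_biUnion] at he
    obtain ⟨f, hf, he⟩ := he
    refine ⟨tr f, mem_image_of_mem _ hf, ?_⟩
    obtain ⟨a, b⟩ := f
    obtain ⟨x, y⟩ := e
    simp only [mem_insert, mem_singleton, Prod.mk.injEq, tr, dl_apply] at he ⊢
    omega
  · rintro ⟨v, hv, hl⟩
    rw [mem_image] at hv
    obtain ⟨f, hf, rfl⟩ := hv
    refine ⟨(l.2 - 1, l.1 - 1), ?_, by
      rw [dl_apply]; refine Prod.ext ?_ ?_ <;> simp only <;> omega⟩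
    rw [mem_biUnion]
    refine ⟨f, hf, ?_⟩
    obtain ⟨a, b⟩ := f
    obtain ⟨x, y⟩ := l
    simp only [mem_insert, mem_singleton, Prod.mk.injEq, tr] at hl ⊢
    omega

lemma mem_dl_starf {K : Finset (ℤ × ℤ)} {l : ℤ × ℤ} : dl l ∈ star (K.image tr) ↔ l ∈ starf K := by
  rw [← starf_dl, mem_map' dl]

/-- A connected set `K` of faces next to the tip `ct` of an environment: colour dual of `KT`. -/
structure KD (M : ℤ) (E W K : Finset (ℤ × ℤ)) (ct : ℤ × ℤ) : Prop where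
  hE : E ⊆ H75.TwoArm.BB (M - 1)
  hW : W ⊆ H75.TwoArm.BB (M - 1)
  disj : Disjoint E W
  star : starf K ⊆ E
  conn : ∀ u ∈ K, ∀ v ∈ K, Co (kap (K.image tr)) (tr u) (tr v)
  tip : fi (opc ct) ∈ K
  tipo : fi ct ∉ K
  tipp : plab ct ∉ starf K
  wired : ∀ w ∈ W, Co W (eu w) (vx ct)
  free : ∀ g g', IsUnit4 (g' - g) → lbf g g' ∈ H75.TwoArm.BB M → lbf g g' ∉ E → lbf g g' ∉ W →
    Co (du (H75.TwoArm.BB M) (E ∪ W)) (fi ct) g
  ring : ∀ z z', vx z ∈ K.image tr → vx (opc z) ∉ K.image tr → vx z' ∈ K.image tr →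
    vx (opc z') ∉ K.image tr → ∃ B, Co (du B (kap (K.image tr))) (fi z) (fi z')

lemma mem_BB' {M : ℤ} {l : ℤ × ℤ} : l ∈ H75.TwoArm.BB M ↔
    (2 * (-M) ≤ l.1 ∧ l.1 ≤ 2 * M) ∧ (2 * (-M) ≤ l.2 ∧ l.2 ≤ 2 * M) ∧ (l.1 + l.2) % 2 = 1 := by
  unfold H75.TwoArm.BB
  rw [mem_Bx]

lemma KD.tipB {M : ℤ} {E W K : Finset (ℤ × ℤ)} {ct : ℤ × ℤ} (h : KD M E W K ct) :
    lab ct ∈ starf K := by
  rw [← mem_dl_starf, ← lab_dc, lab_star]
  right
  rw [opc_dc, vx_dc]
  exact mem_image_of_mem _ h.tip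

/-- The colour dual of `KD` is `KT`. -/
theorem KD.dual {M : ℤ} {E W K : Finset (ℤ × ℤ)} {ct : ℤ × ℤ} (h : KD M E W K ct) :
    KT (M + 2) (E.map dl) ((H75.TwoArm.BB M \ (E ∪ W)).map dl) (K.image tr) (dc ct) := by
  classical
  have hsub : ∀ A ⊆ H75.TwoArm.BB M, A.map dl ⊆ H75.TwoArm.BB (M + 2 - 1) := by
    intro A hA l hl
    rw [mem_map] at hl
    obtain ⟨e, he, rfl⟩ := hl
    have := mem_BB'.1 (hA he)
    rw [mem_BB', dl_apply]
    simp only
    omega
  have hM1 : H75.TwoArm.BB (M - 1) ⊆ H75.TwoArm.BB M := by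
    intro l hl
    rw [mem_BB'] at hl ⊢
    omega
  have hctE : lab ct ∈ E := h.star h.tipB
  refine ⟨hsub _ (h.hE.trans hM1), hsub _ sdiff_subset, ?_, ?_, ?_, ?_, ?_, ?_, ?_, ?_, h.ring⟩
  · rw [disjoint_left]
    intro l hl hl'
    rw [mem_map] at hl
    obtain ⟨e, he, rfl⟩ := hl
    rw [mem_map' dl, mem_sdiff, mem_union] at hl'
    exact hl'.2 (Or.inl he)
  · rw [← starf_dl]
    exact map_subset_map.2 h.star
  · intro u hu v hv
    rw [mem_image] at hu hv
    obtain ⟨f, hf, rfl⟩ := hu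
    obtain ⟨g, hg, rfl⟩ := hv
    exact h.conn f hf g hg
  · rw [opc_dc, vx_dc]
    exact mem_image_of_mem _ h.tip
  · rw [vx_dc]
    intro h1
    rw [mem_image] at h1
    obtain ⟨f, hf, hff⟩ := h1
    exact h.tipo ((tr_inj hff) ▸ hf)
  · rw [plab_dc]
    exact fun h1 => h.tipp (mem_dl_starf.1 h1)
  · intro w hw
    rw [mem_map] at hw
    obtain ⟨l, hl, rfl⟩ := hw
    rw [mem_sdiff, mem_union, not_or] at hl
    have hlo : ((dl l).1 + (dl l).2) % 2 = 1 := by
      have := mem_BB'.1 hl.1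
      rw [dl_apply]
      simp only
      omega
    have h3 := PivAux.eu_ev hlo
    set g := tr (eu (dl l)) with hg
    set g' := tr (ev (dl l)) with hg'
    have hl' : lbf g g' = l := by
      apply dl.injective
      rw [dl_lbf, hg, hg', tr_tr, tr_tr]
      exact h3.2
    have h4 : IsUnit4 (g' - g) := by
      rw [hg, hg', unit_tr]
      exact h3.1
    have h5 := h.free g g' h4 (by rw [hl']; exact hl.1) (by rw [hl']; exact hl.2.1)
      (by rw [hl']; exact hl.2.2)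
    rw [vx_dc]
    have h6 := (co_dl (B := H75.TwoArm.BB M) (A := E ∪ W)).2 h5.symm
    rw [hg, tr_tr] at h6
    exact h6
  · -- free
    have hin : ∀ l ∈ E ∪ W, ∀ u v : ℤ × ℤ, IsUnit4 (v - u) → u + v = l →
        inB (-(M - 1)) (M - 1) (-(M - 1)) (M - 1) u := by
      intro l hl u v h1 h2
      have h3 : l ∈ H75.TwoArm.BB (M - 1) := (union_subset h.hE h.hW) hl
      rw [mem_BB', ← h2] at h3
      have h4 := unit_cases h1
      simp only [Prod.fst_add, Prod.snd_add] at h3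
      unfold inB
      omega
    have hstart : inB (-(M - 1)) (M - 1) (-(M - 1)) (M - 1) (vx ct) := by
      have h3 := PivAux.eu_ev (H69.Q1.odd_lab ct)
      rcases ends_lab ct with ⟨h1, -⟩ | ⟨h1, -⟩
      · rw [h1]
        exact hin _ (mem_union_left _ hctE) _ _ h3.1 h3.2
      · rw [h1]
        have h5 : IsUnit4 (eu (lab ct) - ev (lab ct)) := by
          have := isUnit4_neg h3.1
          rwa [neg_sub] at this
        exact hin _ (mem_union_left _ hctE) _ _ h5 (by rw [add_comm]; exact h3.2)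
    have key : ∀ g, Co (du (H75.TwoArm.BB (M + 2)) ((H75.TwoArm.BB M \ (E ∪ W)).map dl))
        (fi (dc ct)) g → ∃ u, g = tr u + (1, 1) ∧ inB (-(M - 1)) (M - 1) (-(M - 1)) (M - 1) u := by
      intro g hg
      induction hg with
      | refl => exact ⟨vx ct, fi_dc ct, hstart⟩
      | @tail b c _ hbc ih =>
        obtain ⟨u, rfl, hu⟩ := ih
        refine ⟨tr (c - (1, 1)), by rw [tr_tr]; simp, ?_⟩
        set u' := tr (c - (1, 1)) with hu'
        have hc : c = tr u' + (1, 1) := by rw [hu', tr_tr]; simp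
        rw [hc, ad_du, unit_tr1, lbf_tr1, mem_map' dl, mem_sdiff] at hbc
        obtain ⟨h1, -, h2⟩ := hbc
        have h3 : u + u' ∈ H75.TwoArm.BB M := by
          rw [mem_BB']
          have h4 := unit_cases h1
          unfold inB at hu
          simp only [Prod.fst_add, Prod.snd_add]
          omega
        have h4 : u + u' ∈ E ∪ W := by
          by_contra h5
          exact h2 ⟨h3, h5⟩
        have h5 : IsUnit4 (u - u') := by
          have := isUnit4_neg h1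
          rwa [neg_sub] at this
        exact hin _ h4 u' u h5 (add_comm _ _)
    intro g g' hg h1 h2 h3
    obtain ⟨u, rfl, hu⟩ := key g hg
    set u' := tr (g' - (1, 1)) with hu'
    have hc : g' = tr u' + (1, 1) := by rw [hu', tr_tr]; simp
    rw [hc, lbf_tr1, mem_map' dl] at h2 h3
    rw [hc, unit_tr1] at h1
    have h4 : u + u' ∈ H75.TwoArm.BB M := by
      rw [mem_BB']
      have h4 := unit_cases h1
      unfold inB at hu
      simp only [Prod.fst_add, Prod.snd_add]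
      omega
    have h5 : u + u' ∈ W := by
      by_contra h5
      rw [mem_sdiff, mem_union] at h3
      exact h3 ⟨h4, fun h6 => h6.elim h2 h5⟩
    have h6 : Co W u (vx ct) := by
      rcases H69.Q1.ends_of_add h1 rfl with ⟨h7, -⟩ | ⟨h7, h8⟩
      · rw [h7]; exact h.wired _ h5
      · refine Co.trans (Relation.ReflTransGen.single ⟨h1, h5⟩) ?_
        rw [h8]; exact h.wired _ h5
    rw [fi_dc]
    refine co_dl2 (A := W) ?_ h6.symm
    intro l hl
    have h7 := mem_BB'.1 (h.hW hl)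
    refine ⟨?_, ?_⟩
    · rw [mem_BB', dl_apply]
      simp only
      omega
    · rw [mem_union, mem_map' dl, mem_map' dl, mem_sdiff, mem_union]
      rintro (h8 | h8)
      · exact disjoint_left.1 h.disj h8 hl
      · exact h8.2 (Or.inr hl)

/-- newly joined face of the ring, when the labels of `C` are closed -/
def NJd (M : ℤ) (C W K : Finset (ℤ × ℤ)) (ct : ℤ × ℤ) (ω : Finset (ℤ × ℤ)) (z : ℤ × ℤ) : Prop :=
  fi z ∈ K ∧ fi (opc z) ∉ K ∧
    Co (du (H75.TwoArm.BB M) ((ω \ C) ∪ starf K ∪ W)) (fi (opc z)) (fi ct) ∧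
    ¬ Co (du (H75.TwoArm.BB M) (ω ∪ starf K ∪ W)) (fi (opc z)) (fi ct)

/-- **K3, closing step.** -/
theorem K3_close : ∃ δ C0 : ℝ, 0 < δ ∧ δ < 1 ∧ 0 < C0 ∧ ∀ (M : ℤ) (E W K C : Finset (ℤ × ℤ))
    (ct : ℤ × ℤ) (r : ℤ) (s : Finset ℕ) (p : ℕ → ℤ × ℤ) (ρ : ℕ → ℤ) (k : ℕ → ℕ),
    KD M E W K ct → C ⊆ E \ starf K → 1 ≤ r →
    (∀ o ∈ C, ∀ g g', IsUnit4 (g' - g) → lbf g g' = o →
      (∃ T, T ⊆ C ∧ (∀ m ∈ T, |m.1 + 1 - 2 * g.1| ≤ 2 * r - 2 ∧ |m.2 + 1 - 2 * g.2| ≤ 2 * r - 2) ∧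
        Co (du (H75.TwoArm.BB M) ((E ∪ W) \ T)) g (fi ct)) ∧
      ∃ i ∈ s, |g.1 - (p i).1| ≤ ρ i ∧ |g.2 - (p i).2| ≤ ρ i) →
    (∀ i ∈ s, 1 ≤ ρ i ∧ 4 ^ k i * r ≤ 2 * ρ i ∧ ∀ u ∈ K, Far (4 * ρ i + 1) (p i) u) →
    Pr (E \ starf K) (fun ω => ∃ z, NJd M C W K ct ω z) ≤
      ∑ i ∈ s, C0 * (1 - δ) ^ k i := by
  classical
  obtain ⟨δ, C0, h1, h2, h3, hopen⟩ := K3_open
  refine ⟨δ, C0, h1, h2, h3, ?_⟩
  intro M E W K C ct r s p ρ k h hC hr htie hs
  have hM1 : H75.TwoArm.BB (M - 1) ⊆ H75.TwoArm.BB M := by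
    intro l hl
    rw [mem_BB'] at hl ⊢
    omega
  have hEM := h.hE.trans hM1
  have hWM := h.hW.trans hM1
  have hd : ∀ l, l ∈ E → l ∉ W := fun l h1 h2 => disjoint_left.1 h.disj h1 h2
  have key := hopen (M + 2) (E.map dl) ((H75.TwoArm.BB M \ (E ∪ W)).map dl) (K.image tr) (C.map dl)
    (dc ct) r s (fun i => tr (p i)) ρ k h.dual ?_ hr ?_ ?_
  · refine le_trans (le_of_eq ?_) key
    have e1 : (E.map dl) \ star (K.image tr) = (E \ starf K).map dl := by
      rw [← starf_dl, Finset.map_sdiff]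
    rw [e1, Pr_map]
    refine (Pr_congr fun ω hω => ?_).trans (DecayAux.Pr_compl (E \ starf K) (fun ω =>
      ∃ z, NJ (C.map dl) ((H75.TwoArm.BB M \ (E ∪ W)).map dl) (K.image tr) (dc ct)
        (ω.map dl) z))
    have e2 : ((E \ starf K) \ ω).map dl ∪ (H75.TwoArm.BB M \ (E ∪ W)).map dl =
        (H75.TwoArm.BB M \ (ω ∪ starf K ∪ W)).map dl := by
      rw [← map_union]
      congr 1
      ext l
      have k1 : l ∈ E → l ∈ H75.TwoArm.BB M := fun h1 => hEM h1
      have k2 := hd l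
      have k3 : l ∈ ω → l ∈ E \ starf K := fun h1 => hω h1
      have k4 : l ∈ starf K → l ∈ E := fun h1 => h.star h1
      rw [mem_sdiff] at k3
      simp only [mem_union, mem_sdiff]
      clear * - k1 k2 k3 k4
      grind
    have e3 : ((E \ starf K) \ ω).map dl ∪ C.map dl ∪ (H75.TwoArm.BB M \ (E ∪ W)).map dl =
        (H75.TwoArm.BB M \ ((ω \ C) ∪ starf K ∪ W)).map dl := by
      rw [← map_union, ← map_union]
      congr 1
      ext l
      have k1 : l ∈ E → l ∈ H75.TwoArm.BB M := fun h1 => hEM h1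
      have k2 := hd l
      have k3 : l ∈ ω → l ∈ E \ starf K := fun h1 => hω h1
      have k4 : l ∈ starf K → l ∈ E := fun h1 => h.star h1
      have k5 : l ∈ C → l ∈ E \ starf K := fun h1 => hC h1
      rw [mem_sdiff] at k3 k5
      simp only [mem_union, mem_sdiff]
      clear * - k1 k2 k3 k4 k5
      grind
    have e4 : ∀ c, vx (dc c) ∈ K.image tr ↔ fi c ∈ K := by
      intro c
      rw [vx_dc, mem_image]
      constructor
      · rintro ⟨f, hf, hff⟩
        exact (tr_inj hff) ▸ hf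
      · exact fun h1 => ⟨_, h1, rfl⟩
    have e5 : ∀ z, NJ (C.map dl) ((H75.TwoArm.BB M \ (E ∪ W)).map dl) (K.image tr) (dc ct)
        (((E \ starf K) \ ω).map dl) (dc z) ↔ NJd M C W K ct ω z := by
      intro z
      unfold NJ NJd
      rw [e2, e3, opc_dc, e4, e4, vx_dc, vx_dc, co_dl, co_dl]
    constructor
    · rintro ⟨z, hz⟩
      exact ⟨dc z, (e5 z).2 hz⟩
    · rintro ⟨z, hz⟩
      obtain ⟨c, rfl⟩ := dc_surj z
      exact ⟨c, (e5 c).1 hz⟩
  · rw [← starf_dl, ← Finset.map_sdiff]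
    exact map_subset_map.2 hC
  · intro o ho v hv
    rw [mem_map] at ho
    obtain ⟨l, hl, rfl⟩ := ho
    have hlo : ((dl l).1 + (dl l).2) % 2 = 1 := by
      have := mem_BB'.1 (hEM (mem_sdiff.1 (hC hl)).1)
      rw [dl_apply]
      simp only
      omega
    have h3 := PivAux.eu_ev hlo
    obtain ⟨v', hv', hv2⟩ : ∃ v', IsUnit4 (v' - v) ∧ v + v' = dl l := by
      rcases hv with rfl | rfl
      · exact ⟨_, h3.1, h3.2⟩
      · refine ⟨eu (dl l), ?_, by rw [add_comm]; exact h3.2⟩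
        have := isUnit4_neg h3.1
        rwa [neg_sub] at this
    have h4 : lbf (tr v) (tr v') = l := by
      apply dl.injective
      rw [dl_lbf, tr_tr, tr_tr]
      exact hv2
    obtain ⟨⟨T, hT1, hT2, hT3⟩, i, hi, hi1, hi2⟩ := htie l hl (tr v) (tr v')
      (by rw [unit_tr]; exact hv') h4
    refine ⟨⟨T.map dl, map_subset_map.2 hT1, ?_, ?_⟩, i, hi, ?_, ?_⟩
    · intro m hm
      rw [mem_map] at hm
      obtain ⟨m', hm', rfl⟩ := hm
      have h5 := hT2 m' hm'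
      rw [dl_apply]
      exact ⟨h5.2, h5.1⟩
    · have h5 : T.map dl ∪ (H75.TwoArm.BB M \ (E ∪ W)).map dl =
          (H75.TwoArm.BB M \ ((E ∪ W) \ T)).map dl := by
        rw [← map_union]
        congr 1
        ext l'
        have k1 : l' ∈ T → l' ∈ C := fun h1 => hT1 h1
        have k2 : l' ∈ C → l' ∈ E \ starf K := fun h1 => hC h1
        have k3 : l' ∈ E → l' ∈ H75.TwoArm.BB M := fun h1 => hEM h1
        rw [mem_sdiff] at k2
        simp only [mem_union, mem_sdiff]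
        clear * - k1 k2 k3
        grind
      rw [h5, vx_dc]
      have h6 := (co_dl (B := H75.TwoArm.BB M) (A := (E ∪ W) \ T)).2 hT3
      rwa [tr_tr] at h6
    · exact hi2
    · exact hi1
  · intro i hi
    obtain ⟨h4, h5, h6⟩ := hs i hi
    refine ⟨h4, h5, ?_⟩
    intro u hu
    rw [mem_image] at hu
    obtain ⟨f, hf, rfl⟩ := hu
    have h7 := h6 f hf
    unfold Far at h7 ⊢
    unfold tr
    exact h7.symm

end Pool.Agent.H77.Q1
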