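import Mathlib
import Pool.Agent.Q1.M6c.Dob
import Pool.Agent.H77.Q1.K3d

set_option autoImplicit false
open Finset

/-! **Global potential.** A form on the corners which is closed at the tiles of `G` is exact on `G` if
every tile outside `G` is joined to infinity by tiles outside `G`: it is extended to a closed form on a
large box, one tile at a time. -/

namespace Pool.Agent.H77.Q1

open Pool.Agent.H75.Perc Pool.Agent.H75.TwoArm Pool.Agent.H69.Q1
open Pool.Agent.H75.TwoArm.StrandAux hiding vx_nxC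
open Pool.Agent.Q1 (Env ClosedAt PrimAt DCo)
open Pool.Agent.Q1.Env (TAdj)

/-- the four corners of a tile -/
lemma four_corners {e : ℤ × ℤ} (he : (e.1 + e.2) % 2 = 1) :
    (in1 e = e ∧ in2 e = (e.1 + 1, e.2 + 1) ∧ nxC (in1 e) = (e.1, e.2 + 1) ∧
      nxC (in2 e) = (e.1 + 1, e.2)) ∨
    (in1 e = (e.1, e.2 + 1) ∧ in2 e = (e.1 + 1, e.2) ∧ nxC (in1 e) = (e.1 + 1, e.2 + 1) ∧
      nxC (in2 e) = e) := by
  obtain ⟨a, b⟩ := e
  simp only at he
  rcases Int.emod_two_eq_zero_or_one a with ha | ha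
  · right
    obtain ⟨x, rfl⟩ : ∃ x, a = 2 * x := ⟨a / 2, by omega⟩
    obtain ⟨y, rfl⟩ : ∃ y, b = 2 * y + 1 := ⟨b / 2, by omega⟩
    obtain ⟨h1, h2, h3, h4⟩ := Pool.Agent.Q1.corners_v x y
    rw [h1, h2]
    refine ⟨Prod.ext rfl (by simp only; ring), rfl, ?_, h4⟩
    rw [h3]
    exact Prod.ext rfl (by simp only; ring)
  · left
    obtain ⟨x, rfl⟩ : ∃ x, a = 2 * x + 1 := ⟨a / 2, by omega⟩
    obtain ⟨y, rfl⟩ : ∃ y, b = 2 * y := ⟨b / 2, by omega⟩
    obtain ⟨h1, h2, h3, h4⟩ := Pool.Agent.Q1.corners_h x y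
    rw [h1, h2]
    refine ⟨rfl, Prod.ext (by simp only; ring) rfl, h3, ?_⟩
    rw [h4]
    exact Prod.ext (by simp only; ring) rfl

/-- a corner touches a tile iff it is one of its four corners -/
lemma touch_iff {e c : ℤ × ℤ} (he : (e.1 + e.2) % 2 = 1) (h : lab c = e ∨ plab c = e) :
    c = in1 e ∨ c = in2 e ∨ c = nxC (in1 e) ∨ c = nxC (in2 e) := by
  rcases h with h | h
  · rcases (lab_eq_iff e c he).1 h with h | h
    · exact Or.inl h
    · exact Or.inr (Or.inl h)
  · obtain ⟨z, h1, h2⟩ := Pool.Agent.Q1.M6c.pv_empty_nxC c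
    rw [h] at h1
    rcases (lab_eq_iff e z he).1 h1 with h3 | h3
    · right; right; left; rw [← h3, h2]
    · right; right; right; rw [← h3, h2]

lemma plab_nxC' (z : ℤ × ℤ) : plab (nxC z) = lab z := by
  have h := plab_nx ∅ z
  unfold nx at h
  rwa [if_neg (notMem_empty _)] at h

lemma touch_iff' {e c : ℤ × ℤ} (he : (e.1 + e.2) % 2 = 1)
    (h : c = in1 e ∨ c = in2 e ∨ c = nxC (in1 e) ∨ c = nxC (in2 e)) : lab c = e ∨ plab c = e := by
  rcases h with h | h | h | h
  · left; rw [h, lab_in1 e he]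
  · left; rw [h, lab_in2 e he]
  · right; rw [h, plab_nxC', lab_in1 e he]
  · right; rw [h, plab_nxC', lab_in2 e he]

/-- change of the form at a corner which does not touch the tile -/
lemma closed_update {g : ℤ × ℤ → ℂ} {e c : ℤ × ℤ} (he : (e.1 + e.2) % 2 = 1) (x : ℂ)
    (h1 : lab c ≠ e) (h2 : plab c ≠ e) (h : ClosedAt g e) : ClosedAt (Function.update g c x) e := by
  have hne : ∀ z, (z = in1 e ∨ z = in2 e ∨ z = nxC (in1 e) ∨ z = nxC (in2 e)) →
      Function.update g c x z = g z := by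
    intro z hz
    apply Function.update_of_ne
    rintro rfl
    rcases touch_iff' he hz with h3 | h3
    · exact h1 h3
    · exact h2 h3
  unfold ClosedAt at h ⊢
  rw [hne _ (Or.inl rfl), hne _ (Or.inr (Or.inl rfl)), hne _ (Or.inr (Or.inr (Or.inl rfl))),
    hne _ (Or.inr (Or.inr (Or.inr rfl)))]
  exact h

/-- the form can be made closed at a tile by a change at one of its corners -/
lemma closed_fix (g : ℤ × ℤ → ℂ) {e c : ℤ × ℤ} (he : (e.1 + e.2) % 2 = 1)
    (h : lab c = e ∨ plab c = e) : ∃ x, ClosedAt (Function.update g c x) e := by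
  have hc := touch_iff he h
  unfold ClosedAt
  obtain ⟨a, b⟩ := e
  rcases four_corners he with ⟨h1, h2, h3, h4⟩ | ⟨h1, h2, h3, h4⟩
  · rw [h1, h2] at hc
    rw [h1] at h3
    rw [h2] at h4
    rw [h1, h2, h3, h4]
    rw [h3, h4] at hc
    simp only at hc ⊢
    rcases hc with rfl | rfl | rfl | rfl
    · refine ⟨g (a, b + 1) + g (a + 1, b) - g (a + 1, b + 1), ?_⟩
      rw [Function.update_self, Function.update_of_ne (by simp), Function.update_of_ne (by simp),
        Function.update_of_ne (by simp)]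
      ring
    · refine ⟨g (a, b + 1) + g (a + 1, b) - g (a, b), ?_⟩
      rw [Function.update_self, Function.update_of_ne (by simp), Function.update_of_ne (by simp),
        Function.update_of_ne (by simp)]
      ring
    · refine ⟨g (a, b) + g (a + 1, b + 1) - g (a + 1, b), ?_⟩
      rw [Function.update_self, Function.update_of_ne (by simp), Function.update_of_ne (by simp),
        Function.update_of_ne (by simp)]
      ring
    · refine ⟨g (a, b) + g (a + 1, b + 1) - g (a, b + 1), ?_⟩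
      rw [Function.update_self, Function.update_of_ne (by simp), Function.update_of_ne (by simp),
        Function.update_of_ne (by simp)]
      ring
  · rw [h1, h2] at hc
    rw [h1] at h3
    rw [h2] at h4
    rw [h1, h2, h3, h4]
    rw [h3, h4] at hc
    simp only at hc ⊢
    rcases hc with rfl | rfl | rfl | rfl
    · refine ⟨g (a + 1, b + 1) + g (a, b) - g (a + 1, b), ?_⟩
      rw [Function.update_self, Function.update_of_ne (by simp), Function.update_of_ne (by simp),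
        Function.update_of_ne (by simp)]
      ring
    · refine ⟨g (a + 1, b + 1) + g (a, b) - g (a, b + 1), ?_⟩
      rw [Function.update_self, Function.update_of_ne (by simp), Function.update_of_ne (by simp),
        Function.update_of_ne (by simp)]
      ring
    · refine ⟨g (a, b + 1) + g (a + 1, b) - g (a, b), ?_⟩
      rw [Function.update_self, Function.update_of_ne (by simp), Function.update_of_ne (by simp),
        Function.update_of_ne (by simp)]
      ring
    · refine ⟨g (a, b + 1) + g (a + 1, b) - g (a + 1, b + 1), ?_⟩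
      rw [Function.update_self, Function.update_of_ne (by simp), Function.update_of_ne (by simp),
        Function.update_of_ne (by simp)]
      ring

/-- **Extension of a closed form.** -/
theorem extend_closed {B : Finset (ℤ × ℤ)} (hodd : ∀ e ∈ B, (e.1 + e.2) % 2 = 1) (r : ℤ × ℤ → ℕ) :
    ∀ (n : ℕ) (G : Finset (ℤ × ℤ)) (g : ℤ × ℤ → ℂ), G ⊆ B → (B \ G).card = n →
    (∀ e ∈ G, ClosedAt g e) →
    (∀ t ∈ B \ G, ∃ t', TAdj t t' ∧ t' ∉ G ∧ (t' ∈ B → r t' < r t)) →
    ∃ g' : ℤ × ℤ → ℂ, (∀ e ∈ B, ClosedAt g' e) ∧ ∀ c, (lab c ∈ G ∨ plab c ∈ G) → g' c = g c := by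
  classical
  intro n
  induction n with
  | zero =>
    intro G g hG hn hcl _
    rw [card_eq_zero, sdiff_eq_empty_iff_subset] at hn
    exact ⟨g, fun e he => hcl e (hn he), fun _ _ => rfl⟩
  | succ n ih =>
    intro G g hG hn hcl hr
    have hne : (B \ G).Nonempty := by rw [← card_pos, hn]; omega
    obtain ⟨t, ht, hmax⟩ := exists_max_image (B \ G) r hne
    obtain ⟨htB, htG⟩ := mem_sdiff.1 ht
    obtain ⟨t', hadj, htG', hrt⟩ := hr t ht
    have hto := hodd t htB
    obtain ⟨c, hc⟩ := hadj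
    have hc1 : lab c = t ∨ plab c = t := by
      rcases hc with ⟨h1, -⟩ | ⟨h1, -⟩
      · exact Or.inr h1
      · exact Or.inl h1
    have hcG : lab c ∉ G ∧ plab c ∉ G := by
      rcases hc with ⟨h1, h2⟩ | ⟨h1, h2⟩ <;> rw [h1, h2]
      · exact ⟨htG', htG⟩
      · exact ⟨htG, htG'⟩
    obtain ⟨x, hx⟩ := closed_fix g hto hc1
    have hG' : insert t G ⊆ B := insert_subset htB hG
    have hn' : (B \ insert t G).card = n := by
      have : B \ insert t G = (B \ G).erase t := by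
        ext e; simp only [mem_sdiff, mem_insert, mem_erase]; tauto
      rw [this, card_erase_of_mem ht, hn]; rfl
    have hA : ∀ e ∈ insert t G, ClosedAt (Function.update g c x) e := by
      intro e he
      rcases mem_insert.1 he with rfl | he
      · exact hx
      · exact closed_update (hodd e (hG he)) x (fun h => hcG.1 (h ▸ he)) (fun h => hcG.2 (h ▸ he))
          (hcl e he)
    have hC : ∀ s ∈ B \ insert t G, ∃ t', TAdj s t' ∧ t' ∉ insert t G ∧ (t' ∈ B → r t' < r s) := by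
      intro s hs
      obtain ⟨hsB, hsG⟩ := mem_sdiff.1 hs
      rw [mem_insert, not_or] at hsG
      have hs' : s ∈ B \ G := mem_sdiff.2 ⟨hsB, hsG.2⟩
      obtain ⟨s', k1, k2, k3⟩ := hr s hs'
      refine ⟨s', k1, ?_, k3⟩
      rw [mem_insert, not_or]
      refine ⟨?_, k2⟩
      rintro rfl
      have := k3 htB
      have := hmax s hs'
      omega
    obtain ⟨g', h1, h2⟩ := ih (insert t G) (Function.update g c x) hG' hn' hA hC
    refine ⟨g', h1, fun z hz => ?_⟩
    rw [h2 z (hz.imp (mem_insert_of_mem) (mem_insert_of_mem))]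
    apply Function.update_of_ne
    rintro rfl
    rcases hz with hz | hz
    · exact hcG.1 hz
    · exact hcG.2 hz

/-- joined by tiles outside `G` -/
def TR (G : Finset (ℤ × ℤ)) (x y : ℤ × ℤ) : Prop :=
  Relation.ReflTransGen (fun a b => TAdj a b ∧ b ∉ G) x y

lemma tadj_symm {a b : ℤ × ℤ} (h : TAdj a b) : TAdj b a := by
  obtain ⟨c, h1 | h1⟩ := h
  · exact ⟨c, Or.inr ⟨h1.2, h1.1⟩⟩
  · exact ⟨c, Or.inl ⟨h1.2, h1.1⟩⟩

lemma TR.symm {G : Finset (ℤ × ℤ)} {x y : ℤ × ℤ} (hx : x ∉ G) (h : TR G x y) : TR G y x := by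
  induction h with
  | refl => exact Relation.ReflTransGen.refl
  | @tail b c hab hbc ih =>
    refine Relation.ReflTransGen.head ⟨tadj_symm hbc.1, ?_⟩ ih
    rcases Relation.ReflTransGen.cases_tail hab with h1 | ⟨d, -, h2⟩
    · rw [h1]; exact hx
    · exact h2.2

/-- number of steps to the outside of `B` -/
def Lv (B G : Finset (ℤ × ℤ)) : ℕ → ℤ × ℤ → Prop
  | 0, t => t ∉ B
  | n + 1, t => ∃ t', TAdj t t' ∧ t' ∉ G ∧ Lv B G n t'

/-- **Global potential.** -/
theorem exists_pot (X : Env) {G : Finset (ℤ × ℤ)} (hG : G ⊆ X.E)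
    (h : ∀ (B : Finset (ℤ × ℤ)), ∀ t ∉ G, (t.1 + t.2) % 2 = 1 → ∃ t' ∉ B, TR G t t') :
    ∃ Hv Hf : ℤ × ℤ → ℂ, ∀ e ∈ G, PrimAt X.inc Hv Hf e := by
  classical
  -- a box
  obtain ⟨N, hN⟩ : ∃ N : ℤ, G ⊆ Bx (-N) N (-N) N := by
    obtain ⟨M, hM⟩ := (G.image (fun e => |e.1| + |e.2|)).exists_le
    refine ⟨M, fun e he => ?_⟩
    have h1 := hM _ (mem_image_of_mem _ he)
    have h2 := abs_nonneg e.1
    have h3 := abs_nonneg e.2
    have h4 := neg_abs_le e.1
    have h5 := le_abs_self e.1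
    have h6 := neg_abs_le e.2
    have h7 := le_abs_self e.2
    rw [mem_Bx]
    refine ⟨⟨by omega, by omega⟩, ⟨by omega, by omega⟩, X.odd e (hG he)⟩
  set B := Bx (-N) N (-N) N with hB
  have hodd : ∀ e ∈ B, (e.1 + e.2) % 2 = 1 := fun e he => (mem_Bx.1 he).2.2
  have hLv : ∀ t ∉ G, (t.1 + t.2) % 2 = 1 → ∃ n, Lv B G n t := by
    intro t ht hto
    obtain ⟨t', ht', hr⟩ := h B t ht hto
    induction hr using Relation.ReflTransGen.head_induction_on with
    | refl => exact ⟨0, ht'⟩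
    | head h1 _ ih =>
      obtain ⟨c, hc⟩ := h1.1
      obtain ⟨n, hn⟩ := ih h1.2 (by
        rcases hc with ⟨-, h3⟩ | ⟨-, h3⟩
        · rw [← h3]; exact H69.Q1.odd_lab c
        · rw [← h3, ← lab_pv ∅ c]; exact H69.Q1.odd_lab _)
      exact ⟨n + 1, _, h1.1, h1.2, hn⟩
  set r : ℤ × ℤ → ℕ := fun t => if ht : ∃ n, Lv B G n t then Nat.find ht else 0 with hr
  obtain ⟨g', h1, h2⟩ := extend_closed hodd r _ G X.inc hN rfl (fun e he => X.closed (hG he)) (by
    intro t ht
    obtain ⟨htB, htG⟩ := mem_sdiff.1 ht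
    have hex := hLv t htG (hodd t htB)
    have e1 : r t = Nat.find hex := by rw [hr]; simp only [dif_pos hex]
    have h3 := Nat.find_spec hex
    rcases Nat.eq_zero_or_pos (Nat.find hex) with h4 | h4
    · rw [h4] at h3
      exact absurd htB h3
    · obtain ⟨m, hm⟩ : ∃ m, Nat.find hex = m + 1 := ⟨Nat.find hex - 1, by omega⟩
      rw [hm] at h3
      obtain ⟨t', k1, k2, k3⟩ := h3
      refine ⟨t', k1, k2, fun _ => ?_⟩
      have hex' : ∃ n, Lv B G n t' := ⟨m, k3⟩
      have e2 : r t' = Nat.find hex' := by rw [hr]; simp only [dif_pos hex']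
      have := Nat.find_min' hex' k3
      omega)
  obtain ⟨Hv, Hf, hH⟩ := Pool.Agent.Q1.exists_prim g' (-N) N (-N) N h1
  refine ⟨Hv, Hf, fun e he => ?_⟩
  have heo := X.odd e (hG he)
  intro c hc
  rw [hH e (hN he) c hc, h2 c]
  rcases touch_iff' heo hc with h3 | h3
  · left; rw [h3]; exact he
  · right; rw [h3]; exact he

/-! ### Connectivity of the complement in a Dobrushin environment -/

/-- `G` has no pinch points relative to `E`: if two opposite labels at a vertex (face) are in `G`, one of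
the two others is in `E`. -/
structure NoPinch (E G : Finset (ℤ × ℤ)) : Prop where
  v : ∀ c, lab c ∈ G → lab (nxC (nxC c)) ∈ G → lab (nxC c) ∈ E ∨ lab (nxC (nxC (nxC c))) ∈ E
  f : ∀ c, lab c ∈ G → lab (nxO (nxO c)) ∈ G → lab (nxO c) ∈ E ∨ lab (nxO (nxO (nxO c))) ∈ E

lemma plab_nxO' (z : ℤ × ℤ) : plab (nxO z) = lab z := by
  have h := plab_nx {lab z} z
  unfold nx at h
  rwa [if_pos (mem_singleton_self _)] at h

lemma tadj_nxC (z : ℤ × ℤ) : TAdj (lab z) (lab (nxC z)) := ⟨nxC z, Or.inl ⟨plab_nxC' z, rfl⟩⟩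

lemma tadj_nxO (z : ℤ × ℤ) : TAdj (lab z) (lab (nxO z)) := ⟨nxO z, Or.inl ⟨plab_nxO' z, rfl⟩⟩

lemma nxC00 (x y : ℤ) : nxC (2 * x, 2 * y) = (2 * x + 1, 2 * y) := by
  unfold nxC; simp only; rw [if_pos (by omega), if_pos (by omega)]

lemma nxC10 (x y : ℤ) : nxC (2 * x + 1, 2 * y) = (2 * x + 1, 2 * y + 1) := by
  unfold nxC; simp only; rw [if_pos (by omega), if_neg (by omega)]

lemma nxC11 (x y : ℤ) : nxC (2 * x + 1, 2 * y + 1) = (2 * x, 2 * y + 1) := by
  unfold nxC; simp only; rw [if_neg (by omega), if_neg (by omega)]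
  exact Prod.ext (by simp only; ring) rfl

lemma nxC01 (x y : ℤ) : nxC (2 * x, 2 * y + 1) = (2 * x, 2 * y) := by
  unfold nxC; simp only; rw [if_neg (by omega), if_pos (by omega)]
  exact Prod.ext rfl (by simp only; ring)

lemma nxO00 (x y : ℤ) : nxO (2 * x, 2 * y) = (2 * x, 2 * y - 1) := by
  unfold nxO; simp only; rw [if_pos (by omega), if_pos (by omega)]

lemma nxO01 (x y : ℤ) : nxO (2 * x, 2 * y - 1) = (2 * x - 1, 2 * y - 1) := by
  unfold nxO; simp only; rw [if_neg (by omega), if_pos (by omega)]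

lemma nxO11 (x y : ℤ) : nxO (2 * x - 1, 2 * y - 1) = (2 * x - 1, 2 * y) := by
  unfold nxO; simp only; rw [if_neg (by omega), if_neg (by omega)]
  exact Prod.ext rfl (by simp only; ring)

lemma nxO10 (x y : ℤ) : nxO (2 * x - 1, 2 * y) = (2 * x, 2 * y) := by
  unfold nxO; simp only; rw [if_pos (by omega), if_neg (by omega)]
  exact Prod.ext (by simp only; ring) rfl

lemma four_vx (z : ℤ × ℤ) : ∃ x y : ℤ, vx z = (x, y) ∧ (z = (2 * x, 2 * y) ∨
    z = (2 * x + 1, 2 * y) ∨ z = (2 * x + 1, 2 * y + 1) ∨ z = (2 * x, 2 * y + 1)) := by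
  refine ⟨z.1 / 2, z.2 / 2, rfl, ?_⟩
  obtain ⟨a, b⟩ := z
  simp only [Prod.mk.injEq]
  omega

lemma four_fi (z : ℤ × ℤ) : ∃ x y : ℤ, fi z = (x, y) ∧ (z = (2 * x, 2 * y) ∨
    z = (2 * x, 2 * y - 1) ∨ z = (2 * x - 1, 2 * y - 1) ∨ z = (2 * x - 1, 2 * y)) := by
  refine ⟨(z.1 + 1) / 2, (z.2 + 1) / 2, rfl, ?_⟩
  obtain ⟨a, b⟩ := z
  simp only [Prod.mk.injEq]
  omega

lemma nxC_four (z : ℤ × ℤ) : nxC (nxC (nxC (nxC z))) = z := by
  obtain ⟨x, y, -, h | h | h | h⟩ := four_vx z <;> rw [h] <;>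
  simp only [nxC00, nxC10, nxC11, nxC01]

lemma nxO_four (z : ℤ × ℤ) : nxO (nxO (nxO (nxO z))) = z := by
  obtain ⟨x, y, -, h | h | h | h⟩ := four_fi z <;> rw [h] <;>
  simp only [nxO00, nxO10, nxO11, nxO01]

/-- corners at the same vertex -/
lemma same_vx {x y : ℤ × ℤ} (h : vx x = vx y) :
    y = x ∨ y = nxC x ∨ y = nxC (nxC x) ∨ y = nxC (nxC (nxC x)) := by
  obtain ⟨a, b, h1, h2⟩ := four_vx x
  obtain ⟨c, d, h3, h4⟩ := four_vx y
  rw [h1, h3, Prod.mk.injEq] at h
  obtain ⟨rfl, rfl⟩ := h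
  rcases h2 with h2 | h2 | h2 | h2 <;> rcases h4 with h4 | h4 | h4 | h4 <;> rw [h2, h4] <;>
  simp only [nxC00, nxC10, nxC11, nxC01, true_or, or_true]

/-- corners at the same face -/
lemma same_fi {x y : ℤ × ℤ} (h : fi x = fi y) :
    y = x ∨ y = nxO x ∨ y = nxO (nxO x) ∨ y = nxO (nxO (nxO x)) := by
  obtain ⟨a, b, h1, h2⟩ := four_fi x
  obtain ⟨c, d, h3, h4⟩ := four_fi y
  rw [h1, h3, Prod.mk.injEq] at h
  obtain ⟨rfl, rfl⟩ := h
  rcases h2 with h2 | h2 | h2 | h2 <;> rcases h4 with h4 | h4 | h4 | h4 <;> rw [h2, h4] <;>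
  simp only [nxO00, nxO10, nxO11, nxO01, true_or, or_true]

section dob
variable {E W G : Finset (ℤ × ℤ)} {c0 : ℤ × ℤ}

open Pool.Agent.Q1.M6c (Dobr pv_empty_nxC pv_full_nxO)
open Pool.Agent.H75.Four

lemma tr_vx (hp : NoPinch E G) (hG : G ⊆ E) {x y : ℤ × ℤ} (hx : lab x ∉ E) (hy : lab y ∉ E)
    (h : vx x = vx y) : TR G (lab x) (lab y) := by
  have hxG : lab x ∉ G := fun h1 => hx (hG h1)
  have hyG : lab y ∉ G := fun h1 => hy (hG h1)
  rcases same_vx h with rfl | rfl | rfl | rfl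
  · exact Relation.ReflTransGen.refl
  · exact Relation.ReflTransGen.single ⟨tadj_nxC x, hyG⟩
  · by_cases h1 : lab (nxC x) ∈ G
    · by_cases h3 : lab (nxC (nxC (nxC x))) ∈ G
      · exfalso
        rcases hp.v (nxC x) h1 h3 with h4 | h4
        · exact hy h4
        · rw [nxC_four] at h4; exact hx h4
      · refine Relation.ReflTransGen.head ⟨?_, h3⟩
          (Relation.ReflTransGen.single ⟨tadj_symm (tadj_nxC _), hyG⟩)
        have := tadj_nxC (nxC (nxC (nxC x)))
        rw [nxC_four] at this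
        exact tadj_symm this
    · exact Relation.ReflTransGen.head ⟨tadj_nxC x, h1⟩
        (Relation.ReflTransGen.single ⟨tadj_nxC _, hyG⟩)
  · refine Relation.ReflTransGen.single ⟨?_, hyG⟩
    have := tadj_nxC (nxC (nxC (nxC x)))
    rw [nxC_four] at this
    exact tadj_symm this

lemma tr_fi (hp : NoPinch E G) (hG : G ⊆ E) {x y : ℤ × ℤ} (hx : lab x ∉ E) (hy : lab y ∉ E)
    (h : fi x = fi y) : TR G (lab x) (lab y) := by
  have hxG : lab x ∉ G := fun h1 => hx (hG h1)
  have hyG : lab y ∉ G := fun h1 => hy (hG h1)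
  rcases same_fi h with rfl | rfl | rfl | rfl
  · exact Relation.ReflTransGen.refl
  · exact Relation.ReflTransGen.single ⟨tadj_nxO x, hyG⟩
  · by_cases h1 : lab (nxO x) ∈ G
    · by_cases h3 : lab (nxO (nxO (nxO x))) ∈ G
      · exfalso
        rcases hp.f (nxO x) h1 h3 with h4 | h4
        · exact hy h4
        · rw [nxO_four] at h4; exact hx h4
      · refine Relation.ReflTransGen.head ⟨?_, h3⟩
          (Relation.ReflTransGen.single ⟨tadj_symm (tadj_nxO _), hyG⟩)
        have := tadj_nxO (nxO (nxO (nxO x)))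
        rw [nxO_four] at this
        exact tadj_symm this
    · exact Relation.ReflTransGen.head ⟨tadj_nxO x, h1⟩
        (Relation.ReflTransGen.single ⟨tadj_nxO _, hyG⟩)
  · refine Relation.ReflTransGen.single ⟨?_, hyG⟩
    have := tadj_nxO (nxO (nxO (nxO x)))
    rw [nxO_four] at this
    exact tadj_symm this

lemma fi_nxC_opc (c : ℤ × ℤ) : fi (nxC c) = fi (opc c) := (nxC_opc c).2

/-- all labels outside `E` are joined by tiles outside `G` -/
theorem tr_root (h : Dobr E W c0) (hp : NoPinch E G) (hG : G ⊆ E) (z : ℤ × ℤ) (hz : lab z ∉ E) :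
    TR G (plab c0) (lab z) := by
  obtain ⟨y0, hy0, hy0'⟩ := pv_empty_nxC c0
  obtain ⟨y1, hy1, hy1'⟩ := pv_full_nxO c0
  have hW : ∀ v, Co W (vx c0) v → ∀ z, vx z = v → lab z ∉ E → TR G (plab c0) (lab z) := by
    intro v hv
    induction hv with
    | refl =>
      intro z hzv hz
      rw [← hy0]
      refine tr_vx hp hG (by rw [hy0]; exact h.root) hz ?_
      rw [hzv, ← hy0', vx_nxC]
    | @tail b c _ hbc ih =>
      intro z hzv hz
      -- the label between `b` and `c`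
      set l := b + c with hl
      have hlE : l ∉ E := fun h1 => disjoint_left.1 h.disj h1 hbc.2
      have hlo := h.oddW l hbc.2
      obtain ⟨h1, h2, h5, h6, h3, h4⟩ := opc_zu hlo
      have key : ∃ y, vx y = b ∧ vx (opc y) = c ∧ lab y = l := by
        rcases H69.Q1.ends_of_add hbc.1 hl.symm with ⟨k1, k2⟩ | ⟨k1, k2⟩
        · exact ⟨zu l, by rw [k1, ← h3], by rw [h1, k2, ← h4], h5⟩
        · exact ⟨zv l, by rw [k1, ← h4], by rw [h2, k2, ← h3], h6⟩
      obtain ⟨y, k1, k2, k3⟩ := key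
      have k4 : lab (opc y) = l := by rw [lab_opc, k3]
      refine (ih y k1 (by rw [k3]; exact hlE)).trans ?_
      rw [k3, ← k4]
      exact tr_vx hp hG (by rw [k4]; exact hlE) hz (by rw [k2, hzv])
  have hL : ∀ F : Finset (ℤ × ℤ), ∀ g, Co (du F (E ∪ W)) (fi c0) g → ∀ z, fi z = g → lab z ∉ E →
      TR G (plab c0) (lab z) := by
    intro F g hg
    induction hg with
    | refl =>
      intro z hzv hz
      rw [← hy1]
      refine tr_fi hp hG (by rw [hy1]; exact h.root) hz ?_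
      rw [hzv, ← hy1', fi_nxO]
    | @tail b c _ hbc ih =>
      intro z hzv hz
      obtain ⟨hu, hb⟩ := hbc
      rw [mem_du', mem_union, not_or] at hb
      set l := b + c - (1, 1) with hl
      have hlE : l ∉ E := hb.2.1
      have hlo : (l.1 + l.2) % 2 = 1 := by
        have := unit_cases hu
        rw [hl]
        simp only [Prod.fst_sub, Prod.snd_sub, Prod.fst_add, Prod.snd_add]
        omega
      obtain ⟨h1, h2, h5, h6, h3, h4⟩ := opc_zu hlo
      have key : ∃ y, fi y = b ∧ fi (opc y) = c ∧ lab y = l := by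
        have k0 : lab (zu l) = l := h5
        have k1 := fi_nxC (zu l)
        rw [fi_nxC_opc, k0] at k1
        have e1 : fi (zu l) + fi (opc (zu l)) = b + c := by
          rw [k1.2, hl]
          refine Prod.ext ?_ ?_ <;> simp only [Prod.fst_sub, Prod.snd_sub, Prod.fst_add,
            Prod.snd_add] <;> ring
        rcases H69.Q1.ends_of_add k1.1 e1 with ⟨k2, k3⟩ | ⟨k2, k3⟩ <;>
          rcases H69.Q1.ends_of_add hu rfl with ⟨k4, k5⟩ | ⟨k4, k5⟩
        · exact ⟨zu l, k2.trans k4.symm, k3.trans k5.symm, k0⟩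
        · exact ⟨opc (zu l), k3.trans k4.symm, by rw [opc_opc]; exact k2.trans k5.symm,
            by rw [lab_opc, k0]⟩
        · exact ⟨opc (zu l), k3.trans k4.symm, by rw [opc_opc]; exact k2.trans k5.symm,
            by rw [lab_opc, k0]⟩
        · exact ⟨zu l, k2.trans k4.symm, k3.trans k5.symm, k0⟩
      obtain ⟨y, k1, k2, k3⟩ := key
      have k4 : lab (opc y) = l := by rw [lab_opc, k3]
      refine (ih y k1 (by rw [k3]; exact hlE)).trans ?_
      rw [k3, ← k4]
      exact tr_fi hp hG (by rw [k4]; exact hlE) hz (by rw [k2, hzv])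
  by_cases hzW : lab z ∈ W
  · exact hW _ (h.wco z hzW) z rfl hz
  · obtain ⟨F, hF⟩ := h.lco z hz hzW
    exact hL F _ hF z rfl hz

/-- **Global potential in a Dobrushin environment.** -/
theorem pot_dobr {X : Env} (h : Dobr X.E W X.c0) (hp : NoPinch X.E G) (hG : G ⊆ X.E)
    (hcell : ∀ t ∈ X.E \ G, ∃ t' ∉ X.E, (t'.1 + t'.2) % 2 = 1 ∧ TR G t t') :
    ∃ Hv Hf : ℤ × ℤ → ℂ, ∀ e ∈ G, PrimAt X.inc Hv Hf e := by
  classical
  refine exists_pot X hG ?_
  intro B t ht hto
  obtain ⟨t0, ht0, hto0, h0⟩ : ∃ t' ∉ X.E, (t'.1 + t'.2) % 2 = 1 ∧ TR G t t' := by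
    by_cases h1 : t ∈ X.E
    · exact hcell t (mem_sdiff.2 ⟨h1, ht⟩)
    · exact ⟨t, h1, hto, Relation.ReflTransGen.refl⟩
  -- a far label
  obtain ⟨t1, ht1, hto1⟩ : ∃ t1 ∉ X.E ∪ B, (t1.1 + t1.2) % 2 = 1 := by
    obtain ⟨M, hM⟩ := ((X.E ∪ B).image Prod.fst).exists_le
    refine ⟨(2 * |M| + 1, 0), ?_, by simp only; omega⟩
    intro h1
    have h2 := hM _ (mem_image_of_mem _ h1)
    simp only at h2
    have := le_abs_self M
    have := abs_nonneg M
    omega
  rw [mem_union, not_or] at ht1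
  have e0 : ∀ l : ℤ × ℤ, (l.1 + l.2) % 2 = 1 → ∃ z, lab z = l := fun l hl =>
    ⟨in1 l, lab_in1 l hl⟩
  obtain ⟨z0, hz0⟩ := e0 t0 hto0
  obtain ⟨z1, hz1⟩ := e0 t1 hto1
  have k0 := tr_root h hp hG z0 (by rw [hz0]; exact ht0)
  have k1 := tr_root h hp hG z1 (by rw [hz1]; exact ht1.1)
  rw [hz0] at k0
  rw [hz1] at k1
  exact ⟨t1, ht1.2, h0.trans ((TR.symm (fun h2 => h.root (hG h2)) k0).trans k1)⟩

end dob

end Pool.Agent.H77.Q1
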