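import Mathlib
import Pool.Agent.H77.Q1.Pot

set_option autoImplicit false
open Finset

/-! **Cells.** The label `l` belongs to its base vertex `eu l` (left or lower end); the cell `q` of side
`n` consists of the labels with base vertex in `[n q, n q + n)²`. A cell is full if its labels are
random. In a Dobrushin environment there is one potential for all full cells. -/

namespace Pool.Agent.H77.Q1

open Pool.Agent.H75.Perc Pool.Agent.H75.TwoArm Pool.Agent.H75.Four
open Pool.Agent.Q1 (Env PrimAt)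
open Pool.Agent.Q1.Env (TAdj)
open Pool.Agent.Q1.M6c (Dobr)

/-- the cell of a label -/
def cel (n : ℤ) (l : ℤ × ℤ) : ℤ × ℤ := ((eu l).1 / n, (eu l).2 / n)

/-- all labels of the cell are in `E` -/
def Full (n : ℤ) (E : Finset (ℤ × ℤ)) (q : ℤ × ℤ) : Prop :=
  ∀ l : ℤ × ℤ, (l.1 + l.2) % 2 = 1 → cel n l = q → l ∈ E

lemma tadj_RU (x y : ℤ) : TAdj (2 * x + 1, 2 * y) (2 * x, 2 * y + 1) := by
  refine ⟨(2 * x + 1, 2 * y + 1), Or.inl ⟨?_, ?_⟩⟩
  · unfold plab; simp only; rw [if_neg (by omega), if_neg (by omega)]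
    exact Prod.ext rfl (by simp only; ring)
  · unfold lab; simp only; rw [if_neg (by omega), if_neg (by omega)]
    exact Prod.ext (by simp only; ring) rfl

lemma tadj_UR (x y : ℤ) : TAdj (2 * x, 2 * y + 1) (2 * x + 1, 2 * (y + 1)) := by
  refine ⟨(2 * x + 1, 2 * (y + 1)), Or.inl ⟨?_, ?_⟩⟩
  · unfold plab; simp only; rw [if_pos (by omega), if_neg (by omega)]
    exact Prod.ext (by simp only; ring) (by simp only; ring)
  · unfold lab; simp only; rw [if_pos (by omega), if_neg (by omega)]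

lemma tadj_RU' (x y : ℤ) : TAdj (2 * x + 1, 2 * y) (2 * (x + 1), 2 * y + 1) := by
  refine ⟨(2 * (x + 1), 2 * y + 1), Or.inr ⟨?_, ?_⟩⟩
  · unfold lab; simp only; rw [if_neg (by omega), if_pos (by omega)]
    exact Prod.ext (by simp only; ring) (by simp only; ring)
  · unfold plab; simp only; rw [if_neg (by omega), if_pos (by omega)]

lemma eu_R (x y : ℤ) : eu (2 * x + 1, 2 * y) = (x, y) := by
  unfold eu; exact Prod.ext (by simp only; omega) (by simp only; omega)

lemma eu_U (x y : ℤ) : eu (2 * x, 2 * y + 1) = (x, y) := by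
  unfold eu; exact Prod.ext (by simp only; omega) (by simp only; omega)

/-- a label is the right or the upper label of its base vertex -/
lemma label_cases {l : ℤ × ℤ} (hl : (l.1 + l.2) % 2 = 1) :
    ∃ x y : ℤ, eu l = (x, y) ∧ (l = (2 * x + 1, 2 * y) ∨ l = (2 * x, 2 * y + 1)) := by
  refine ⟨l.1 / 2, l.2 / 2, rfl, ?_⟩
  obtain ⟨a, b⟩ := l
  simp only [Prod.mk.injEq] at hl ⊢
  omega

/-- joined by tiles with base vertices in `V` -/
def VR (V : ℤ × ℤ → Prop) (x y : ℤ × ℤ) : Prop :=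
  Relation.ReflTransGen (fun a b => TAdj a b ∧ (V (eu a) ∧ V (eu b))) x y

lemma VR.symm {V : ℤ × ℤ → Prop} {x y : ℤ × ℤ} (h : VR V x y) : VR V y x := by
  induction h with
  | refl => exact Relation.ReflTransGen.refl
  | tail _ hbc ih => exact Relation.ReflTransGen.head ⟨tadj_symm hbc.1, hbc.2.2, hbc.2.1⟩ ih

lemma VR.up {V : ℤ × ℤ → Prop} {x y : ℤ} (h1 : V (x, y)) (h2 : V (x, y + 1)) :
    VR V (2 * x + 1, 2 * y) (2 * x + 1, 2 * (y + 1)) := by
  refine Relation.ReflTransGen.head ⟨tadj_RU x y, ?_, ?_⟩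
    (Relation.ReflTransGen.single ⟨tadj_UR x y, ?_, ?_⟩)
  · rw [eu_R]; exact h1
  · rw [eu_U]; exact h1
  · rw [eu_U]; exact h1
  · rw [eu_R]; exact h2

lemma VR.right {V : ℤ × ℤ → Prop} {x y : ℤ} (h1 : V (x, y)) (h2 : V (x + 1, y)) :
    VR V (2 * x + 1, 2 * y) (2 * (x + 1) + 1, 2 * y) := by
  refine Relation.ReflTransGen.head ⟨tadj_RU' x y, ?_, ?_⟩
    (Relation.ReflTransGen.single ⟨tadj_symm (tadj_RU (x + 1) y), ?_, ?_⟩)
  · rw [eu_R]; exact h1
  · rw [eu_U]; exact h2
  · rw [eu_U]; exact h2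
  · rw [eu_R]; exact h2

lemma VR.ups {V : ℤ × ℤ → Prop} {x y : ℤ} (k : ℕ) (h : ∀ i : ℤ, 0 ≤ i → i ≤ k → V (x, y + i)) :
    VR V (2 * x + 1, 2 * y) (2 * x + 1, 2 * (y + k)) := by
  induction k with
  | zero => simp only [Nat.cast_zero, add_zero]; exact Relation.ReflTransGen.refl
  | succ k ih =>
    refine (ih fun i h1 h2 => h i h1 (by push_cast; omega)).trans ?_
    have h1 := h k (by omega) (by push_cast; omega)
    have h2 := h (k + 1) (by omega) (by push_cast; omega)
    rw [← add_assoc] at h2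
    have := VR.up h1 h2
    push_cast
    rwa [← add_assoc]

lemma VR.rights {V : ℤ × ℤ → Prop} {x y : ℤ} (k : ℕ) (h : ∀ i : ℤ, 0 ≤ i → i ≤ k → V (x + i, y)) :
    VR V (2 * x + 1, 2 * y) (2 * (x + k) + 1, 2 * y) := by
  induction k with
  | zero => simp only [Nat.cast_zero, add_zero]; exact Relation.ReflTransGen.refl
  | succ k ih =>
    refine (ih fun i h1 h2 => h i h1 (by push_cast; omega)).trans ?_
    have h1 := h k (by omega) (by push_cast; omega)
    have h2 := h (k + 1) (by omega) (by push_cast; omega)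
    rw [← add_assoc] at h2
    have := VR.right h1 h2
    push_cast
    rwa [← add_assoc]

/-- labels with base vertices in a rectangle are joined -/
lemma vr_rect {V : ℤ × ℤ → Prop} {a b c d : ℤ}
    (hV : ∀ x y, a ≤ x → x ≤ b → c ≤ y → y ≤ d → V (x, y)) {l l' : ℤ × ℤ}
    (hl : (l.1 + l.2) % 2 = 1) (hl' : (l'.1 + l'.2) % 2 = 1)
    (h1 : inB a b c d (eu l)) (h2 : inB a b c d (eu l')) : VR V l l' := by
  have key : ∀ x y x' y', a ≤ x → x ≤ b → c ≤ y → y ≤ d → a ≤ x' → x' ≤ b → c ≤ y' → y' ≤ d →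
      VR V (2 * x + 1, 2 * y) (2 * x' + 1, 2 * y') := by
    have hx : ∀ x x' y, a ≤ x → x ≤ x' → x' ≤ b → c ≤ y → y ≤ d →
        VR V (2 * x + 1, 2 * y) (2 * x' + 1, 2 * y) := by
      intro x x' y k1 k2 k3 k4 k5
      obtain ⟨k, hk⟩ := Int.eq_ofNat_of_zero_le (show 0 ≤ x' - x by omega)
      have e : x' = x + k := by omega
      rw [e]
      exact VR.rights k fun i i1 i2 => hV _ _ (by omega) (by omega) k4 k5
    have hy : ∀ x y y', a ≤ x → x ≤ b → c ≤ y → y ≤ y' → y' ≤ d →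
        VR V (2 * x + 1, 2 * y) (2 * x + 1, 2 * y') := by
      intro x y y' k1 k2 k3 k4 k5
      obtain ⟨k, hk⟩ := Int.eq_ofNat_of_zero_le (show 0 ≤ y' - y by omega)
      have e : y' = y + k := by omega
      rw [e]
      exact VR.ups k fun i i1 i2 => hV _ _ k1 k2 (by omega) (by omega)
    intro x y x' y' k1 k2 k3 k4 k5 k6 k7 k8
    have s1 : VR V (2 * x + 1, 2 * y) (2 * x' + 1, 2 * y) := by
      rcases le_total x x' with h | h
      · exact hx _ _ _ k1 h k6 k3 k4
      · exact (hx _ _ _ k5 h k2 k3 k4).symm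
    have s2 : VR V (2 * x' + 1, 2 * y) (2 * x' + 1, 2 * y') := by
      rcases le_total y y' with h | h
      · exact hy _ _ _ k5 k6 k3 h k8
      · exact (hy _ _ _ k5 k6 k7 h k4).symm
    exact s1.trans s2
  have hR : ∀ l : ℤ × ℤ, (l.1 + l.2) % 2 = 1 → inB a b c d (eu l) →
      VR V l (2 * (eu l).1 + 1, 2 * (eu l).2) := by
    intro l hl h
    obtain ⟨x, y, e, h3 | h3⟩ := label_cases hl
    · rw [e, h3]; exact Relation.ReflTransGen.refl
    · rw [e] at h ⊢
      unfold inB at h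
      simp only at h
      have hv := hV x y (by omega) (by omega) (by omega) (by omega)
      rw [h3]
      refine Relation.ReflTransGen.single ⟨tadj_symm (tadj_RU x y), ?_, ?_⟩
      · rw [eu_U]; exact hv
      · rw [eu_R]; exact hv
  unfold inB at h1 h2
  exact ((hR l hl h1).trans (key _ _ _ _ (by omega) (by omega) (by omega) (by omega) (by omega)
    (by omega) (by omega) (by omega))).trans (hR l' hl' h2).symm

lemma cel_iff {n : ℤ} (hn : 1 ≤ n) {l q : ℤ × ℤ} : cel n l = q ↔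
    inB (n * q.1) (n * q.1 + n - 1) (n * q.2) (n * q.2 + n - 1) (eu l) := by
  have key : ∀ a b : ℤ, a / n = b ↔ n * b ≤ a ∧ a ≤ n * b + n - 1 := by
    intro a b
    have h1 := Int.emod_add_mul_ediv a n
    have h2 := Int.emod_nonneg a (show n ≠ 0 by omega)
    have h3 := Int.emod_lt_of_pos a (show 0 < n by omega)
    constructor
    · rintro rfl
      omega
    · rintro ⟨h4, h5⟩
      have e : a = b * n + (a - n * b) := by ring
      rw [e, Int.add_comm, Int.add_mul_ediv_right _ _ (by omega : n ≠ 0),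
        Int.ediv_eq_zero_of_lt (by omega) (by omega)]
      ring
  unfold cel inB
  rw [Prod.ext_iff]
  simp only
  rw [key, key]

/-- two labels with the same base vertex are in the same cell -/
lemma cel_eu {n : ℤ} {l l' : ℤ × ℤ} (h : eu l = eu l') : cel n l = cel n l' := by
  unfold cel; rw [h]

/-- the labels of the full cells -/
noncomputable def GF (n : ℤ) (E : Finset (ℤ × ℤ)) : Finset (ℤ × ℤ) :=
  @Finset.filter _ (fun l : ℤ × ℤ => (l.1 + l.2) % 2 = 1 ∧ Full n E (cel n l))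
    (Classical.decPred _) E

lemma mem_GF {n : ℤ} {E : Finset (ℤ × ℤ)} {l : ℤ × ℤ} : l ∈ GF n E ↔
    l ∈ E ∧ (l.1 + l.2) % 2 = 1 ∧ Full n E (cel n l) :=
  @mem_filter _ _ (Classical.decPred _) _ _

lemma GF_same {n : ℤ} {E : Finset (ℤ × ℤ)} {l l' : ℤ × ℤ} (hl : l ∈ GF n E)
    (hl' : (l'.1 + l'.2) % 2 = 1) (h : eu l = eu l') : l' ∈ E :=
  (mem_GF.1 hl).2.2 l' hl' (cel_eu h.symm)

lemma lab_types (x y : ℤ) : lab (2 * x, 2 * y) = (2 * x, 2 * y - 1) ∧
    lab (2 * x + 1, 2 * y) = (2 * x + 1, 2 * y) ∧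
    lab (2 * x + 1, 2 * y + 1) = (2 * x, 2 * y + 1) ∧
    lab (2 * x, 2 * y + 1) = (2 * x - 1, 2 * y) := by
  refine ⟨?_, ?_, ?_, ?_⟩ <;> unfold lab <;> simp only
  · rw [if_pos (by omega), if_pos (by omega)]
  · rw [if_pos (by omega), if_neg (by omega)]
  · rw [if_neg (by omega), if_neg (by omega)]
    exact Prod.ext (by simp only; ring) rfl
  · rw [if_neg (by omega), if_pos (by omega)]
    exact Prod.ext rfl (by simp only; ring)

lemma lab_typesf (x y : ℤ) : lab (2 * x, 2 * y) = (2 * x, 2 * y - 1) ∧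
    lab (2 * x, 2 * y - 1) = (2 * x - 1, 2 * y - 2) ∧
    lab (2 * x - 1, 2 * y - 1) = (2 * x - 2, 2 * y - 1) ∧
    lab (2 * x - 1, 2 * y) = (2 * x - 1, 2 * y) := by
  refine ⟨?_, ?_, ?_, ?_⟩ <;> unfold lab <;> simp only
  · rw [if_pos (by omega), if_pos (by omega)]
  · rw [if_neg (by omega), if_pos (by omega)]
    exact Prod.ext rfl (by simp only; ring)
  · rw [if_neg (by omega), if_neg (by omega)]
    exact Prod.ext (by simp only; ring) rfl
  · rw [if_pos (by omega), if_neg (by omega)]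

lemma noPinch_cells (n : ℤ) (E : Finset (ℤ × ℤ)) : NoPinch E (GF n E) := by
  constructor
  · intro c h1 h2
    obtain ⟨x, y, -, h | h | h | h⟩ := four_vx c <;> subst h <;>
      simp only [nxC00, nxC10, nxC11, nxC01, lab_types] at h1 h2 ⊢
    · exact Or.inl (GF_same h2 (by simp only; omega) (by rw [eu_U, eu_R]))
    · exact Or.inl (GF_same h1 (by simp only; omega) (by rw [eu_R, eu_U]))
    · exact Or.inr (GF_same h1 (by simp only; omega) (by rw [eu_U, eu_R]))
    · exact Or.inr (GF_same h2 (by simp only; omega) (by rw [eu_R, eu_U]))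
  · intro c h1 h2
    have e1 : ∀ x y : ℤ, eu (2 * x - 1, 2 * y - 2) = (x - 1, y - 1) := fun x y => by
      unfold eu; exact Prod.ext (by simp only; omega) (by simp only; omega)
    have e2 : ∀ x y : ℤ, eu (2 * x - 2, 2 * y - 1) = (x - 1, y - 1) := fun x y => by
      unfold eu; exact Prod.ext (by simp only; omega) (by simp only; omega)
    obtain ⟨x, y, -, h | h | h | h⟩ := four_fi c <;> subst h <;>
      simp only [nxO00, nxO10, nxO11, nxO01, lab_typesf] at h1 h2 ⊢
    · exact Or.inl (GF_same h2 (by simp only; omega) (by rw [e1, e2]))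
    · exact Or.inl (GF_same h1 (by simp only; omega) (by rw [e1, e2]))
    · exact Or.inr (GF_same h1 (by simp only; omega) (by rw [e1, e2]))
    · exact Or.inr (GF_same h2 (by simp only; omega) (by rw [e1, e2]))

/-- **Global potential on the full cells of a Dobrushin environment.** -/
theorem pot_cells {X : Env} {W : Finset (ℤ × ℤ)} (h : Dobr X.E W X.c0) {n : ℤ} (hn : 1 ≤ n) :
    ∃ Hv Hf : ℤ × ℤ → ℂ, ∀ e : ℤ × ℤ, (e.1 + e.2) % 2 = 1 → Full n X.E (cel n e) →
      PrimAt X.inc Hv Hf e := by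
  classical
  have hG : GF n X.E ⊆ X.E := fun l hl => (mem_GF.1 hl).1
  obtain ⟨Hv, Hf, hH⟩ := pot_dobr h (noPinch_cells n X.E) hG (by
    intro t ht
    obtain ⟨htE, htG⟩ := mem_sdiff.1 ht
    have hto := X.odd t htE
    have hnf : ¬ Full n X.E (cel n t) := fun h1 => htG (mem_GF.2 ⟨htE, hto, h1⟩)
    unfold Full at hnf
    push Not at hnf
    obtain ⟨t', ht'o, hcel, ht'E⟩ := hnf
    refine ⟨t', ht'E, ht'o, ?_⟩
    have h1 := (cel_iff hn (l := t) (q := cel n t)).1 rfl
    have h2 := (cel_iff hn (l := t') (q := cel n t)).1 hcel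
    have hV : VR (fun v => (v.1 / n, v.2 / n) = cel n t) t t' := by
      refine vr_rect (a := n * (cel n t).1) (b := n * (cel n t).1 + n - 1)
        (c := n * (cel n t).2) (d := n * (cel n t).2 + n - 1) ?_ hto ht'o h1 h2
      intro x y k1 k2 k3 k4
      have := (cel_iff hn (l := (2 * x + 1, 2 * y)) (q := cel n t)).2 (by
        rw [eu_R]
        exact ⟨⟨k1, k2⟩, ⟨k3, k4⟩⟩)
      unfold cel at this
      rw [eu_R] at this
      exact this
    refine Relation.ReflTransGen.mono ?_ _ _ hV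
    rintro a b ⟨k1, k2, k3⟩
    refine ⟨k1, fun k4 => ?_⟩
    have k5 := (mem_GF.1 k4).2.2
    have k6 : cel n b = cel n t := k3
    rw [k6] at k5
    exact ht'E (k5 t' ht'o hcel))
  exact ⟨Hv, Hf, fun e he hF => hH e (mem_GF.2 ⟨hF e he rfl, he, hF⟩)⟩

end Pool.Agent.H77.Q1
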