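import Mathlib
import Pool.Agent.Q1.M6c.Diff

set_option autoImplicit false
open Finset

/-! Common definitions for the maximum principle (chapter D): diamonds, chains, the value of a chain, the
class of rough Dobrushin environments with a chain and a fresh tip next to it. -/

namespace Pool.Agent.H77.Q1

open Pool.Agent.H75.Perc Pool.Agent.H75.TwoArm
open Pool.Agent.Q1 (Env)
open Pool.Agent.Q1.M6c (DEnvX Free)

/-- the diamond (labels of the star of the `L¹` ball of radius `ρ - 1` around the vertex `u`) -/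
noncomputable def Dm (u : ℤ × ℤ) (ρ : ℤ) : Finset (ℤ × ℤ) :=
  ((Icc (2 * u.1 - 2 * ρ) (2 * u.1 + 2 * ρ)) ×ˢ (Icc (2 * u.2 - 2 * ρ) (2 * u.2 + 2 * ρ))).filter
    fun l => (l.1 + l.2) % 2 = 1 ∧ |l.1 - 2 * u.1| + |l.2 - 2 * u.2| ≤ 2 * ρ - 1

lemma mem_Dm {u l : ℤ × ℤ} {ρ : ℤ} : l ∈ Dm u ρ ↔
    (l.1 + l.2) % 2 = 1 ∧ |l.1 - 2 * u.1| + |l.2 - 2 * u.2| ≤ 2 * ρ - 1 := by
  unfold Dm
  rw [mem_filter, mem_product, mem_Icc, mem_Icc]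
  constructor
  · exact fun h => h.2
  · intro h
    refine ⟨?_, h⟩
    rcases abs_cases (l.1 - 2 * u.1) with h1 | h1 <;>
      rcases abs_cases (l.2 - 2 * u.2) with h2 | h2 <;> omega

/-- the four extreme labels of the diamond -/
def Ext (u : ℤ × ℤ) (ρ : ℤ) : Finset (ℤ × ℤ) :=
  {(2 * u.1 + (2 * ρ - 1), 2 * u.2), (2 * u.1 - (2 * ρ - 1), 2 * u.2),
    (2 * u.1, 2 * u.2 + (2 * ρ - 1)), (2 * u.1, 2 * u.2 - (2 * ρ - 1))}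

lemma mem_Ext {u l : ℤ × ℤ} {ρ : ℤ} (hρ : 1 ≤ ρ) : l ∈ Ext u ρ ↔
    |l.1 - 2 * u.1| + |l.2 - 2 * u.2| = 2 * ρ - 1 ∧ (l.1 = 2 * u.1 ∨ l.2 = 2 * u.2) := by
  obtain ⟨a, b⟩ := l
  unfold Ext
  simp only [mem_insert, mem_singleton, Prod.mk.injEq]
  rcases abs_cases (a - 2 * u.1) with h1 | h1 <;>
    rcases abs_cases (b - 2 * u.2) with h2 | h2 <;> omega

/-- a chain with free diamonds of size `ρ` -/
structure Chn (E : Finset (ℤ × ℤ)) (u : ℕ → ℤ × ℤ) (k : ℕ) (ρ : ℤ) : Prop where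
  free : ∀ j ≤ k, Dm (u j) ρ ⊆ E
  step : ∀ j < k, 32 * |(u (j + 1)).1 - (u j).1| ≤ ρ ∧ 32 * |(u (j + 1)).2 - (u j).2| ≤ ρ

/-- there is a label outside `E` within distance `m` of the vertex `x` -/
def NearW (E : Finset (ℤ × ℤ)) (x : ℤ × ℤ) (m : ℤ) : Prop :=
  ∃ l : ℤ × ℤ, (l.1 + l.2) % 2 = 1 ∧ l ∉ E ∧ |l.1 - 2 * x.1| ≤ 2 * m ∧ |l.2 - 2 * x.2| ≤ 2 * m

/-- the value of a chain: the sum of the differences along it -/
noncomputable def val (X : Env) (u : ℕ → ℤ × ℤ) (k : ℕ) : ℂ := ∑ j ∈ range k, X.D (u j) (u (j + 1))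

/-- The tip label is in one of the diamonds of the chain, and is not extreme. -/
structure Tip (X : Env) (u : ℕ → ℤ × ℤ) (k : ℕ) (ρ : ℤ) : Prop where
  mem : ∃ i ≤ k, lab X.c0 ∈ Dm (u i) ρ
  ext : ∀ j ≤ k, lab X.c0 ∉ Ext (u j) ρ

/-- **The class of the maximum principle.** -/
structure CL (X : Env) (W : Finset (ℤ × ℤ)) (a : ℤ × ℤ) (N : ℤ) (u : ℕ → ℤ × ℤ) (k : ℕ)
    (ρ m : ℤ) : Prop where
  denv : DEnvX X W
  box : X.E ⊆ Bx (a.1 - N) (a.1 + N) (a.2 - N) (a.2 + N)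
  chn : Chn X.E u k ρ
  tip : Tip X u k ρ
  near : NearW X.E (u k) m

lemma Bx_sub_Dm {u : ℤ × ℤ} {r ρ : ℤ} (h : 2 * r ≤ ρ) :
    Bx (u.1 - r) (u.1 + r) (u.2 - r) (u.2 + r) ⊆ Dm u ρ := by
  intro l hl
  rw [mem_Bx] at hl
  rw [mem_Dm]
  refine ⟨hl.2.2, ?_⟩
  rcases abs_cases (l.1 - 2 * u.1) with h1 | h1 <;>
    rcases abs_cases (l.2 - 2 * u.2) with h2 | h2 <;> omega

lemma Dm_sub_Bx {u : ℤ × ℤ} {r ρ : ℤ} (h : ρ ≤ r) :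
    Dm u ρ ⊆ Bx (u.1 - r) (u.1 + r) (u.2 - r) (u.2 + r) := by
  intro l hl
  rw [mem_Dm] at hl
  rw [mem_Bx]
  rcases abs_cases (l.1 - 2 * u.1) with h1 | h1 <;>
    rcases abs_cases (l.2 - 2 * u.2) with h2 | h2 <;> omega

lemma Chn.free_box {E : Finset (ℤ × ℤ)} {u : ℕ → ℤ × ℤ} {k : ℕ} {ρ r : ℤ} (h : Chn E u k ρ)
    (hr : 2 * r ≤ ρ) {j : ℕ} (hj : j ≤ k) : Free E (u j) r :=
  (Bx_sub_Dm hr).trans (h.free j hj)

end Pool.Agent.H77.Q1
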