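import Mathlib
import Pool.Agent.H77.Q1.K3e
import Pool.Agent.H77.Q1.Cell0
import Pool.Agent.H77.Q1.Cls

set_option autoImplicit false
open Finset

/-! Interface of D3 (coloured cells and ties) with D4 and D8. -/

namespace Pool.Agent.H77.Q1

open Pool.Agent.H75.Perc Pool.Agent.H75.TwoArm Pool.Agent.H75.Four Pool.Agent.H69.Q1
open Pool.Agent.Q1 (Env)
open Pool.Agent.Q1.M6c (Dobr)

/-- a full cell with a 4-neighbour which is not full -/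
def Rng (n : ℤ) (E : Finset (ℤ × ℤ)) (q : ℤ × ℤ) : Prop :=
  Full n E q ∧ ∃ q', IsUnit4 (q' - q) ∧ ¬ Full n E q'

/-- **Coloured cells and ties.** `E`, `W`, `ct`: rough Dobrushin environment, `O` is opened, `C` is
closed, ties of size `r`; no label within `D0` (in label coordinates) of the tip label is coloured; the
coloured labels in full cells are in ring cells. -/
structure RC (n r D0 : ℤ) (E W : Finset (ℤ × ℤ)) (ct : ℤ × ℤ) (O C : Finset (ℤ × ℤ)) : Prop where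
  hO : O ⊆ E
  hC : C ⊆ E
  disj : Disjoint O C
  near : ∀ o ∈ O ∪ C, ∃ l : ℤ × ℤ, (l.1 + l.2) % 2 = 1 ∧ l ∉ E ∧ |l.1 - o.1| ≤ r ∧ |l.2 - o.2| ≤ r
  far : ∀ o ∈ O ∪ C, D0 ≤ |o.1 - (lab ct).1| ∨ D0 ≤ |o.2 - (lab ct).2|
  tieO : ∀ o ∈ O, ∀ v, (v = eu o ∨ v = ev o) → ∃ T, IsTie O W (vx ct) r v T
  tieC : ∀ M : ℤ, E ⊆ Pool.Agent.H75.TwoArm.BB (M - 1) → W ⊆ Pool.Agent.H75.TwoArm.BB (M - 1) →
    ∀ o ∈ C, ∀ g g', IsUnit4 (g' - g) → lbf g g' = o →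
      ∃ T, T ⊆ C ∧ (∀ m ∈ T, |m.1 + 1 - 2 * g.1| ≤ 2 * r - 2 ∧ |m.2 + 1 - 2 * g.2| ≤ 2 * r - 2) ∧
        Co (du (Pool.Agent.H75.TwoArm.BB M) ((E ∪ W) \ T)) g (fi ct)
  dob : Dobr (E \ (O ∪ C)) (W ∪ O) ct
  inn : ∀ o ∈ O ∪ C, Full n E (cel n o) → Rng n E (cel n o)

end Pool.Agent.H77.Q1
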