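import Mathlib
import Pool.Agent.H77.Q1.Cell0
import Pool.Agent.H77.Q1.Cls
import Pool.Agent.H77.Q1.RC
import Pool.Agent.H68.Q1.APAbs

set_option autoImplicit false
open Finset

/-! The potential on the full cells: differences inside boxes, between adjacent full cells, and from a
point down to a full cell next to the wall. -/

namespace Pool.Agent.H77.Q1

open Pool.Agent.H75.Perc Pool.Agent.H75.TwoArm Pool.Agent.H75.Four
open Pool.Agent.Q1 (Env PrimAt Qt)
open Pool.Agent.Q1.M6c (Dobr PlaneK Free InQ mm le_mm inQ_inB)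
open Pool.Agent.H68.Q1 (recd le_recd recd_nonneg seg_sum)

/-- `Hv`, `Hf` is a potential on the full cells of side `n` -/
def PotC (n : ℤ) (X : Env) (Hv Hf : ℤ × ℤ → ℂ) : Prop :=
  ∀ e : ℤ × ℤ, (e.1 + e.2) % 2 = 1 → Full n X.E (cel n e) → PrimAt X.inc Hv Hf e

/-- all labels of the box are in full cells -/
def FullB (n : ℤ) (E : Finset (ℤ × ℤ)) (x : ℤ × ℤ) (m : ℤ) : Prop :=
  ∀ l ∈ Bx (x.1 - m) (x.1 + m) (x.2 - m) (x.2 + m), Full n E (cel n l)

/-- centre of a cell -/
def ctc (n : ℤ) (q : ℤ × ℤ) : ℤ × ℤ := (n * q.1 + n / 2, n * q.2 + n / 2)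

variable {n : ℤ} {X : Env} {Hv Hf : ℤ × ℤ → ℂ} {N : ℕ}

lemma FullB.free {E : Finset (ℤ × ℤ)} {x : ℤ × ℤ} {m : ℤ} (h : FullB n E x m) : Free E x m := by
  intro l hl
  exact h l hl l (mem_Bx.1 hl).2.2 rfl

lemma PotC.prim (hH : PotC n X Hv Hf) {x : ℤ × ℤ} {m : ℤ} (h : FullB n X.E x m) :
    X.Prim (x.1 - m) (x.1 + m) (x.2 - m) (x.2 + m) Hv Hf :=
  fun e he => hH e (mem_Bx.1 he).2.2 (h e he)

/-- differences in the quarter of a box of full cells -/
lemma pot_box (hX : PlaneK X) (hH : PotC n X Hv Hf) {x u v : ℤ × ℤ} {m : ℕ}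
    (h : FullB n X.E x m) (hu : InQ x m u) (hv : InQ x m v) : ‖Hv v - Hv u‖ ≤ mm m := by
  rw [← Env.D_prim (hH.prim h) (inQ_inB hu) (inQ_inB hv)]
  exact le_mm hX h.free hu hv

lemma pot_box' (hX : PlaneK X) (hH : PotC n X Hv Hf) {x u v : ℤ × ℤ} {m : ℕ} (hm : 1 ≤ m)
    (hmN : m ≤ N) (h : FullB n X.E x m) (hu : InQ x m u) (hv : InQ x m v) :
    ‖Hv v - Hv u‖ ≤ recd mm N * (m : ℝ) ^ (2 / 3 : ℝ) :=
  (pot_box hX hH h hu hv).trans (le_recd mm hm hmN)

lemma inQ_of {x u : ℤ × ℤ} {m : ℕ} (h1 : 4 * |u.1 - x.1| ≤ m) (h2 : 4 * |u.2 - x.2| ≤ m) :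
    InQ x m u := ⟨h1, h2⟩

/-- a free box contains a box of full cells -/
lemma fullB_of_free (hn : 1 ≤ n) {E : Finset (ℤ × ℤ)} {x : ℤ × ℤ} {m r : ℤ} (h : Free E x m)
    (hr : r + n ≤ m) : FullB n E x r := by
  intro l hl l' ho hc
  apply h
  rw [mem_Bx] at hl ⊢
  have h1 := (cel_iff hn).1 hc
  have h2 := (cel_iff hn (l := l)).1 rfl
  unfold inB at h1 h2
  unfold eu at h1 h2
  simp only at h1 h2
  refine ⟨⟨?_, ?_⟩, ⟨?_, ?_⟩, ho⟩ <;> omega

/-- differences in a free box -/
lemma pot_free (hn : 1 ≤ n) (hX : PlaneK X) (hH : PotC n X Hv Hf) {x u v : ℤ × ℤ} {m : ℕ}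
    (hm : 2 * n ≤ m) (hmN : m ≤ N) (h : Free X.E x m) (hu : InQ x m u) (hv : InQ x m v) :
    ‖Hv v - Hv u‖ ≤ recd mm N * (m : ℝ) ^ (2 / 3 : ℝ) := by
  have hF : FullB n X.E x (m - n) := fullB_of_free hn h (by omega)
  have hB : ∀ w, InQ x m w → inB (x.1 - (m - n)) (x.1 + (m - n)) (x.2 - (m - n)) (x.2 + (m - n)) w := by
    intro w hw
    have h1 := hw.1.bounds
    have h2 := hw.2.bounds
    unfold inB
    omega
  rw [← Env.D_prim (hH.prim hF) (hB u hu) (hB v hv)]
  exact (le_mm hX h hu hv).trans (le_recd mm (by omega) hmN)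

/-- step between horizontally adjacent full cells -/
lemma step_hor (hn : 64 ≤ n) (hnN : n ≤ N) (hX : PlaneK X) (hH : PotC n X Hv Hf) {q : ℤ × ℤ}
    (h1 : Full n X.E q) (h2 : Full n X.E (q.1 + 1, q.2)) :
    ‖Hv (ctc n (q.1 + 1, q.2)) - Hv (ctc n q)‖ ≤ 16 * recd mm N * (n : ℝ) ^ (2 / 3 : ℝ) := by
  obtain ⟨m, hm⟩ := Int.eq_ofNat_of_zero_le (show 0 ≤ n / 2 - 1 by omega)
  have hR := recd_nonneg mm N
  have hmn : (m : ℝ) ^ (2 / 3 : ℝ) ≤ (n : ℝ) ^ (2 / 3 : ℝ) := by
    apply Real.rpow_le_rpow (by positivity) _ (by norm_num)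
    have : (m : ℤ) ≤ n := by omega
    exact_mod_cast this
  set x : ℕ → ℤ × ℤ := fun i => (n * q.1 + n / 2 + n * i / 16, n * q.2 + n / 2) with hx
  have e0 : x 0 = ctc n q := by
    rw [hx]; unfold ctc
    refine Prod.ext ?_ rfl
    simp only; push_cast; omega
  have e16 : x 16 = ctc n (q.1 + 1, q.2) := by
    rw [hx]; unfold ctc
    refine Prod.ext ?_ rfl
    simp only
    have : n * (q.1 + 1) = n * q.1 + n := by ring
    rw [this]; push_cast; omega
  have hFB : ∀ i ≤ 16, FullB n X.E (x i) m := by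
    intro i hi l hl
    rw [mem_Bx, hx] at hl
    simp only at hl
    have hni : n * (i : ℤ) / 16 ≤ n := by
      have : n * (i : ℤ) ≤ n * 16 := mul_le_mul_of_nonneg_left (by exact_mod_cast hi) (by omega)
      omega
    have hni0 : 0 ≤ n * (i : ℤ) / 16 := by
      have : 0 ≤ n * (i : ℤ) := by positivity
      omega
    set A := n * q.1 with hA
    set B := n * q.2 with hB
    set Z := n * (i : ℤ) / 16 with hZ
    have hel : (eu l).1 = l.1 / 2 ∧ (eu l).2 = l.2 / 2 := ⟨rfl, rfl⟩
    by_cases hc : (eu l).1 ≤ A + n - 1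
    · have : cel n l = q := by
        rw [cel_iff (by omega)]
        unfold inB
        rw [← hA, ← hB]
        omega
      rw [this]; exact h1
    · have : cel n l = (q.1 + 1, q.2) := by
        rw [cel_iff (by omega)]
        unfold inB
        simp only
        have e : n * (q.1 + 1) = A + n := by rw [hA]; ring
        rw [e, ← hB]
        omega
      rw [this]; exact h2
  have hst : ∀ i < 16, ‖Hv (x (i + 1)) - Hv (x i)‖ ≤ recd mm N * (n : ℝ) ^ (2 / 3 : ℝ) := by
    intro i hi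
    refine (pot_box' (N := N) hX hH (x := x i) (m := m) (by omega) (by omega) (hFB i hi.le) ?_
      ?_).trans (mul_le_mul_of_nonneg_left hmn hR)
    · exact inQ_of (by simp) (by simp)
    · rw [hx]
      refine inQ_of ?_ (by simp)
      simp only
      have e : n * ((i + 1 : ℕ) : ℤ) = n * i + n := by push_cast; ring
      rw [e]
      set Y := n * (i : ℤ) with hY
      have : |n * q.1 + n / 2 + (Y + n) / 16 - (n * q.1 + n / 2 + Y / 16)| = (Y + n) / 16 - Y / 16 := by
        rw [abs_of_nonneg (by omega)]; ring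
      rw [this]
      omega
  have key : ∀ i ≤ 16, ‖Hv (x i) - Hv (x 0)‖ ≤ i * (recd mm N * (n : ℝ) ^ (2 / 3 : ℝ)) := by
    intro i
    induction i with
    | zero => intro _; simp
    | succ i ih =>
      intro hi
      have e : Hv (x (i + 1)) - Hv (x 0) = (Hv (x (i + 1)) - Hv (x i)) + (Hv (x i) - Hv (x 0)) := by
        ring
      rw [e]
      refine (norm_add_le _ _).trans ?_
      have := ih (by omega)
      have := hst i (by omega)
      push_cast
      linarith
  have := key 16 le_rfl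
  rw [e16, e0] at this
  push_cast at this
  linarith

/-- step between vertically adjacent full cells -/
lemma step_ver (hn : 64 ≤ n) (hnN : n ≤ N) (hX : PlaneK X) (hH : PotC n X Hv Hf) {q : ℤ × ℤ}
    (h1 : Full n X.E q) (h2 : Full n X.E (q.1, q.2 + 1)) :
    ‖Hv (ctc n (q.1, q.2 + 1)) - Hv (ctc n q)‖ ≤ 16 * recd mm N * (n : ℝ) ^ (2 / 3 : ℝ) := by
  obtain ⟨m, hm⟩ := Int.eq_ofNat_of_zero_le (show 0 ≤ n / 2 - 1 by omega)
  have hR := recd_nonneg mm N
  have hmn : (m : ℝ) ^ (2 / 3 : ℝ) ≤ (n : ℝ) ^ (2 / 3 : ℝ) := by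
    apply Real.rpow_le_rpow (by positivity) _ (by norm_num)
    have : (m : ℤ) ≤ n := by omega
    exact_mod_cast this
  set x : ℕ → ℤ × ℤ := fun i => (n * q.1 + n / 2, n * q.2 + n / 2 + n * i / 16) with hx
  have e0 : x 0 = ctc n q := by
    rw [hx]; unfold ctc
    refine Prod.ext rfl ?_
    simp only; push_cast; omega
  have e16 : x 16 = ctc n (q.1, q.2 + 1) := by
    rw [hx]; unfold ctc
    refine Prod.ext rfl ?_
    simp only
    have : n * (q.2 + 1) = n * q.2 + n := by ring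
    rw [this]; push_cast; omega
  have hFB : ∀ i ≤ 16, FullB n X.E (x i) m := by
    intro i hi l hl
    rw [mem_Bx, hx] at hl
    simp only at hl
    have hni : n * (i : ℤ) / 16 ≤ n := by
      have : n * (i : ℤ) ≤ n * 16 := mul_le_mul_of_nonneg_left (by exact_mod_cast hi) (by omega)
      omega
    have hni0 : 0 ≤ n * (i : ℤ) / 16 := by
      have : 0 ≤ n * (i : ℤ) := by positivity
      omega
    set A := n * q.1 with hA
    set B := n * q.2 with hB
    set Z := n * (i : ℤ) / 16 with hZ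
    have hel : (eu l).1 = l.1 / 2 ∧ (eu l).2 = l.2 / 2 := ⟨rfl, rfl⟩
    by_cases hc : (eu l).2 ≤ B + n - 1
    · have : cel n l = q := by
        rw [cel_iff (by omega)]
        unfold inB
        rw [← hA, ← hB]
        omega
      rw [this]; exact h1
    · have : cel n l = (q.1, q.2 + 1) := by
        rw [cel_iff (by omega)]
        unfold inB
        simp only
        have e : n * (q.2 + 1) = B + n := by rw [hB]; ring
        rw [e, ← hA]
        omega
      rw [this]; exact h2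
  have hst : ∀ i < 16, ‖Hv (x (i + 1)) - Hv (x i)‖ ≤ recd mm N * (n : ℝ) ^ (2 / 3 : ℝ) := by
    intro i hi
    refine (pot_box' (N := N) hX hH (x := x i) (m := m) (by omega) (by omega) (hFB i hi.le) ?_
      ?_).trans (mul_le_mul_of_nonneg_left hmn hR)
    · exact inQ_of (by simp) (by simp)
    · rw [hx]
      refine inQ_of (by simp) ?_
      simp only
      have e : n * ((i + 1 : ℕ) : ℤ) = n * i + n := by push_cast; ring
      rw [e]
      set Y := n * (i : ℤ) with hY
      have : |n * q.2 + n / 2 + (Y + n) / 16 - (n * q.2 + n / 2 + Y / 16)| = (Y + n) / 16 - Y / 16 := by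
        rw [abs_of_nonneg (by omega)]; ring
      rw [this]
      omega
  have key : ∀ i ≤ 16, ‖Hv (x i) - Hv (x 0)‖ ≤ i * (recd mm N * (n : ℝ) ^ (2 / 3 : ℝ)) := by
    intro i
    induction i with
    | zero => intro _; simp
    | succ i ih =>
      intro hi
      have e : Hv (x (i + 1)) - Hv (x 0) = (Hv (x (i + 1)) - Hv (x i)) + (Hv (x i) - Hv (x 0)) := by
        ring
      rw [e]
      refine (norm_add_le _ _).trans ?_
      have := ih (by omega)
      have := hst i (by omega)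
      push_cast
      linarith
  have := key 16 le_rfl
  rw [e16, e0] at this
  push_cast at this
  linarith

/-- step between adjacent full cells -/
theorem step_adj (hn : 64 ≤ n) (hnN : n ≤ N) (hX : PlaneK X) (hH : PotC n X Hv Hf) {q q' : ℤ × ℤ}
    (h1 : Full n X.E q) (h2 : Full n X.E q') (hu : IsUnit4 (q' - q)) :
    ‖Hv (ctc n q') - Hv (ctc n q)‖ ≤ 16 * recd mm N * (n : ℝ) ^ (2 / 3 : ℝ) := by
  obtain ⟨a, b⟩ := q
  obtain ⟨c, d⟩ := q'
  rcases unit_cases hu with ⟨h3, h4⟩ | ⟨h3, h4⟩ | ⟨h3, h4⟩ | ⟨h3, h4⟩ <;> simp only at h3 h4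
  · subst h3; subst h4
    exact step_hor hn hnN hX hH h1 h2
  · subst h3; subst h4
    exact step_ver hn hnN hX hH h1 h2
  · have e : a = c + 1 := by omega
    subst e; subst h4
    rw [norm_sub_rev]
    exact step_hor hn hnN hX hH h2 h1
  · have e : b = d + 1 := by omega
    subst e; subst h3
    rw [norm_sub_rev]
    exact step_ver hn hnN hX hH h2 h1

/-- the cell of a vertex -/
def cv (n : ℤ) (v : ℤ × ℤ) : ℤ × ℤ := (v.1 / n, v.2 / n)

/-- joined by full cells -/
def CC (n : ℤ) (E : Finset (ℤ × ℤ)) (q q' : ℤ × ℤ) : Prop :=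
  Relation.ReflTransGen (fun a b => IsUnit4 (b - a) ∧ Full n E a ∧ Full n E b) q q'

lemma CC.symm {E : Finset (ℤ × ℤ)} {q q' : ℤ × ℤ} (h : CC n E q q') : CC n E q' q := by
  induction h with
  | refl => exact Relation.ReflTransGen.refl
  | @tail b c _ hbc ih =>
    refine Relation.ReflTransGen.head ⟨?_, hbc.2.2, hbc.2.1⟩ ih
    have := isUnit4_neg hbc.1
    rwa [neg_sub] at this

lemma div_bd (hn : 1 ≤ n) (a : ℤ) : n * (a / n) ≤ a ∧ a ≤ n * (a / n) + n - 1 := by
  have h1 := Int.emod_add_mul_ediv a n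
  have h2 := Int.emod_nonneg a (show n ≠ 0 by omega)
  have h3 := Int.emod_lt_of_pos a (show 0 < n by omega)
  omega

lemma div_eq_iff' (hn : 1 ≤ n) (a b : ℤ) : a / n = b ↔ n * b ≤ a ∧ a ≤ n * b + n - 1 := by
  constructor
  · rintro rfl
    exact div_bd hn a
  · rintro ⟨h4, h5⟩
    have e : a = b * n + (a - n * b) := by ring
    rw [e, Int.add_comm, Int.add_mul_ediv_right _ _ (by omega : n ≠ 0),
      Int.ediv_eq_zero_of_lt (by omega) (by omega)]
    ring

lemma div_succ (hn : 1 ≤ n) (a : ℤ) : (a + 1) / n = a / n ∨ (a + 1) / n = a / n + 1 := by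
  have h := div_bd hn a
  by_cases h1 : a + 1 ≤ n * (a / n) + n - 1
  · left
    rw [div_eq_iff' hn]
    omega
  · right
    rw [div_eq_iff' hn]
    have : n * (a / n + 1) = n * (a / n) + n := by ring
    omega

lemma full_cv (hn : 1 ≤ n) {E : Finset (ℤ × ℤ)} {x v : ℤ × ℤ} {m : ℤ} (h : Free E x m)
    (h1 : |v.1 - x.1| + n ≤ m) (h2 : |v.2 - x.2| + n ≤ m) : Full n E (cv n v) := by
  intro l ho hc
  apply h
  rw [mem_Bx]
  have h3 := (cel_iff hn).1 hc
  have h4 := div_bd hn v.1
  have h5 := div_bd hn v.2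
  unfold cv inB eu at h3
  simp only at h3
  rcases abs_cases (v.1 - x.1) with h6 | h6 <;> rcases abs_cases (v.2 - x.2) with h7 | h7 <;>
  refine ⟨⟨?_, ?_⟩, ⟨?_, ?_⟩, ho⟩ <;> omega

/-- vertices in a free box are in joined cells -/
lemma cc_free (hn : 1 ≤ n) {E : Finset (ℤ × ℤ)} {x u v : ℤ × ℤ} {m : ℤ} (h : Free E x m)
    (h1 : |u.1 - x.1| + n ≤ m) (h2 : |u.2 - x.2| + n ≤ m) (h3 : |v.1 - x.1| + n ≤ m)
    (h4 : |v.2 - x.2| + n ≤ m) : CC n E (cv n u) (cv n v) := by
  have hor : ∀ (k : ℕ) (a b : ℤ), |a - x.1| + n ≤ m → |a + k - x.1| + n ≤ m → |b - x.2| + n ≤ m →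
      CC n E (cv n (a, b)) (cv n (a + k, b)) := by
    intro k
    induction k with
    | zero => intro a b _ _ _; simp only [Nat.cast_zero, add_zero]; exact Relation.ReflTransGen.refl
    | succ k ih =>
      intro a b ha hk hb
      have hk' : |a + k - x.1| + n ≤ m := by
        push_cast at hk
        rcases abs_cases (a - x.1) with h6 | h6 <;> rcases abs_cases (a + (k + 1) - x.1) with h7 | h7 <;>
          rcases abs_cases (a + k - x.1) with h8 | h8 <;> omega
      refine (ih a b ha hk' hb).trans ?_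
      have f1 := full_cv hn h (v := (a + k, b)) hk' hb
      have f2 := full_cv hn h (v := (a + ((k + 1 : ℕ) : ℤ), b)) hk hb
      have e : a + ((k + 1 : ℕ) : ℤ) = a + k + 1 := by push_cast; ring
      rw [e] at f2 ⊢
      rcases div_succ hn (a + k) with h5 | h5
      · have : cv n (a + k + 1, b) = cv n (a + k, b) := by
          unfold cv; simp only [h5]
        rw [this]
      · refine Relation.ReflTransGen.single ⟨?_, f1, f2⟩
        left
        unfold cv
        refine Prod.ext ?_ ?_ <;> simp only [Prod.fst_sub, Prod.snd_sub] <;> omega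
  have ver : ∀ (k : ℕ) (a b : ℤ), |b - x.2| + n ≤ m → |b + k - x.2| + n ≤ m → |a - x.1| + n ≤ m →
      CC n E (cv n (a, b)) (cv n (a, b + k)) := by
    intro k
    induction k with
    | zero => intro a b _ _ _; simp only [Nat.cast_zero, add_zero]; exact Relation.ReflTransGen.refl
    | succ k ih =>
      intro a b hb hk ha
      have hk' : |b + k - x.2| + n ≤ m := by
        push_cast at hk
        rcases abs_cases (b - x.2) with h6 | h6 <;> rcases abs_cases (b + (k + 1) - x.2) with h7 | h7 <;>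
          rcases abs_cases (b + k - x.2) with h8 | h8 <;> omega
      refine (ih a b hb hk' ha).trans ?_
      have f1 := full_cv hn h (v := (a, b + k)) ha hk'
      have f2 := full_cv hn h (v := (a, b + ((k + 1 : ℕ) : ℤ))) ha hk
      have e : b + ((k + 1 : ℕ) : ℤ) = b + k + 1 := by push_cast; ring
      rw [e] at f2 ⊢
      rcases div_succ hn (b + k) with h5 | h5
      · have : cv n (a, b + k + 1) = cv n (a, b + k) := by
          unfold cv; simp only [h5]
        rw [this]
      · refine Relation.ReflTransGen.single ⟨?_, f1, f2⟩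
        right; left
        unfold cv
        refine Prod.ext ?_ ?_ <;> simp only [Prod.fst_sub, Prod.snd_sub] <;> omega
  obtain ⟨a, b⟩ := u
  obtain ⟨c, d⟩ := v
  simp only at h1 h2 h3 h4
  have s1 : CC n E (cv n (a, b)) (cv n (c, b)) := by
    rcases le_total a c with h5 | h5
    · obtain ⟨k, hk⟩ := Int.eq_ofNat_of_zero_le (show 0 ≤ c - a by omega)
      have e : c = a + k := by omega
      rw [e] at h3 ⊢
      exact hor k a b h1 h3 h2
    · obtain ⟨k, hk⟩ := Int.eq_ofNat_of_zero_le (show 0 ≤ a - c by omega)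
      have e : a = c + k := by omega
      rw [e] at h1 ⊢
      exact (hor k c b h3 h1 h2).symm
  have s2 : CC n E (cv n (c, b)) (cv n (c, d)) := by
    rcases le_total b d with h5 | h5
    · obtain ⟨k, hk⟩ := Int.eq_ofNat_of_zero_le (show 0 ≤ d - b by omega)
      have e : d = b + k := by omega
      rw [e] at h4 ⊢
      exact ver k c b h2 h4 h3
    · obtain ⟨k, hk⟩ := Int.eq_ofNat_of_zero_le (show 0 ≤ b - d by omega)
      have e : b = d + k := by omega
      rw [e] at h2 ⊢
      exact (ver k c d h4 h2 h3).symm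
  exact s1.trans s2

/-- a path of cells -/
lemma cell_path : ∀ (k : ℕ) (q q' : ℤ × ℤ), |q'.1 - q.1| + |q'.2 - q.2| = k →
    ∃ c : ℕ → ℤ × ℤ, c 0 = q ∧ c k = q' ∧ ∀ i < k, IsUnit4 (c (i + 1) - c i) := by
  intro k
  induction k with
  | zero =>
    intro q q' h
    have h1 := abs_nonneg (q'.1 - q.1)
    have h2 := abs_nonneg (q'.2 - q.2)
    have h3 : q'.1 - q.1 = 0 := abs_eq_zero.1 (by push_cast at h; omega)
    have h4 : q'.2 - q.2 = 0 := abs_eq_zero.1 (by push_cast at h; omega)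
    exact ⟨fun _ => q, rfl, Prod.ext (by simp only; omega) (by simp only; omega),
      fun i hi => absurd hi (by omega)⟩
  | succ k ih =>
    intro q q' h
    obtain ⟨q1, hu, hd⟩ : ∃ q1 : ℤ × ℤ, IsUnit4 (q1 - q) ∧ |q'.1 - q1.1| + |q'.2 - q1.2| = k := by
      push_cast at h
      by_cases h1 : q'.1 = q.1
      · rcases lt_trichotomy q'.2 q.2 with h2 | h2 | h2
        · refine ⟨(q.1, q.2 - 1), Or.inr (Or.inr (Or.inr ?_)), ?_⟩
          · refine Prod.ext ?_ ?_ <;> simp only [Prod.fst_sub, Prod.snd_sub] <;> omega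
          · simp only
            rcases abs_cases (q'.1 - q.1) with h6 | h6 <;> rcases abs_cases (q'.2 - q.2) with h7 | h7 <;>
              rcases abs_cases (q'.2 - (q.2 - 1)) with h8 | h8 <;> omega
        · exfalso
          rw [h1, h2] at h
          simp at h
          omega
        · refine ⟨(q.1, q.2 + 1), Or.inr (Or.inl ?_), ?_⟩
          · refine Prod.ext ?_ ?_ <;> simp only [Prod.fst_sub, Prod.snd_sub] <;> omega
          · simp only
            rcases abs_cases (q'.1 - q.1) with h6 | h6 <;> rcases abs_cases (q'.2 - q.2) with h7 | h7 <;>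
              rcases abs_cases (q'.2 - (q.2 + 1)) with h8 | h8 <;> omega
      · rcases lt_or_gt_of_ne h1 with h2 | h2
        · refine ⟨(q.1 - 1, q.2), Or.inr (Or.inr (Or.inl ?_)), ?_⟩
          · refine Prod.ext ?_ ?_ <;> simp only [Prod.fst_sub, Prod.snd_sub] <;> omega
          · simp only
            rcases abs_cases (q'.1 - q.1) with h6 | h6 <;>
              rcases abs_cases (q'.1 - (q.1 - 1)) with h8 | h8 <;> omega
        · refine ⟨(q.1 + 1, q.2), Or.inl ?_, ?_⟩
          · refine Prod.ext ?_ ?_ <;> simp only [Prod.fst_sub, Prod.snd_sub] <;> omega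
          · simp only
            rcases abs_cases (q'.1 - q.1) with h6 | h6 <;>
              rcases abs_cases (q'.1 - (q.1 + 1)) with h8 | h8 <;> omega
    obtain ⟨c, h1, h2, h3⟩ := ih q1 q' hd
    refine ⟨fun i => if i = 0 then q else c (i - 1), rfl, by simp [h2], ?_⟩
    intro i hi
    rcases Nat.eq_zero_or_pos i with h0 | h0
    · subst h0
      simpa [h1] using hu
    · have e1 : i ≠ 0 := by omega
      simp only [e1, Nat.add_eq_zero_iff, one_ne_zero, and_false, if_false, Nat.add_sub_cancel]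
      have := h3 (i - 1) (by omega)
      rwa [Nat.sub_add_cancel h0] at this

/-- first exit from the full cells along a path of cells -/
lemma cell_walk (hn : 64 ≤ n) (hnN : n ≤ N) (hX : PlaneK X) (hH : PotC n X Hv Hf) {k : ℕ}
    {c : ℕ → ℤ × ℤ} (hc : ∀ i < k, IsUnit4 (c (i + 1) - c i)) (h0 : Full n X.E (c 0))
    (hk : ¬ Full n X.E (c k)) : ∃ q, Full n X.E q ∧ (∃ q', IsUnit4 (q' - q) ∧ ¬ Full n X.E q') ∧
      CC n X.E (c 0) q ∧
      ‖Hv (ctc n q) - Hv (ctc n (c 0))‖ ≤ k * (16 * recd mm N * (n : ℝ) ^ (2 / 3 : ℝ)) := by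
  classical
  have hex : ∃ j, j ≤ k ∧ ¬ Full n X.E (c j) := ⟨k, le_rfl, hk⟩
  set j := Nat.find hex with hj
  obtain ⟨hjk, hjF⟩ := Nat.find_spec hex
  have hmin : ∀ i < j, Full n X.E (c i) := by
    intro i hi
    by_contra h1
    exact Nat.find_min hex hi ⟨by omega, h1⟩
  have hj0 : j ≠ 0 := fun h1 => hjF (by rw [← hj, h1]; exact h0)
  have hR := recd_nonneg mm N
  have key : ∀ i < j, CC n X.E (c 0) (c i) ∧
      ‖Hv (ctc n (c i)) - Hv (ctc n (c 0))‖ ≤ i * (16 * recd mm N * (n : ℝ) ^ (2 / 3 : ℝ)) := by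
    intro i
    induction i with
    | zero => intro _; exact ⟨Relation.ReflTransGen.refl, by simp⟩
    | succ i ih =>
      intro hi
      obtain ⟨h1, h2⟩ := ih (by omega)
      have hu := hc i (by omega)
      have f1 := hmin i (by omega)
      have f2 := hmin (i + 1) hi
      refine ⟨h1.tail ⟨hu, f1, f2⟩, ?_⟩
      have h3 := step_adj hn hnN hX hH f1 f2 hu
      have e : Hv (ctc n (c (i + 1))) - Hv (ctc n (c 0)) =
        (Hv (ctc n (c (i + 1))) - Hv (ctc n (c i))) + (Hv (ctc n (c i)) - Hv (ctc n (c 0))) := by ring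
      rw [e]
      refine (norm_add_le _ _).trans ?_
      push_cast
      linarith
  obtain ⟨h1, h2⟩ := key (j - 1) (by omega)
  have e : j - 1 + 1 = j := by omega
  have hu := hc (j - 1) (by omega)
  rw [e] at hu
  refine ⟨c (j - 1), hmin _ (by omega), ⟨c j, hu, hjF⟩, h1, h2.trans ?_⟩
  refine mul_le_mul_of_nonneg_right ?_ (by positivity)
  exact_mod_cast (by omega : j - 1 ≤ k)


lemma fl {d M a b : ℤ} (hM : 0 < M) (hd : |d| ≤ M) (hab : a ≤ b) :
    |d * b / M - d * a / M| ≤ b - a := by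
  obtain ⟨h1, h2⟩ := abs_le.1 hd
  have h3 : d * b ≤ d * a + (b - a) * M := by nlinarith
  have h4 : d * a ≤ d * b + (b - a) * M := by nlinarith
  have h5 := Int.ediv_le_ediv hM h3
  have h6 := Int.ediv_le_ediv hM h4
  rw [Int.add_mul_ediv_right _ _ (by omega : M ≠ 0)] at h5 h6
  rw [abs_le]
  omega

/-- **From a point down to a ring cell next to the wall.** -/
theorem near_wall (hn : 64 ≤ n) {m : ℕ} (hm : 16 * n ≤ m) (hmN : m ≤ N) (hX : PlaneK X)
    (hH : PotC n X Hv Hf) {x : ℤ × ℤ} (hF : Free X.E x m) {l : ℤ × ℤ} (hl : (l.1 + l.2) % 2 = 1)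
    (hlE : l ∉ X.E) (h1 : |l.1 - 2 * x.1| ≤ 2 * (m + 1)) (h2 : |l.2 - 2 * x.2| ≤ 2 * (m + 1)) :
    ∃ q, Rng n X.E q ∧ CC n X.E (cv n x) q ∧
      ‖Hv x - Hv (ctc n q)‖ ≤ 577 * recd mm N * (m : ℝ) ^ (2 / 3 : ℝ) := by
  obtain ⟨t0, ht0⟩ := Int.eq_ofNat_of_zero_le (show 0 ≤ 16 * n by omega)
  have hR := recd_nonneg mm N
  set y : ℤ × ℤ := eu l with hy
  have hye : y.1 = l.1 / 2 ∧ y.2 = l.2 / 2 := ⟨rfl, rfl⟩
  set M : ℤ := m + 1 with hM
  have hM0 : 0 < M := by omega
  have hd1 : |y.1 - x.1| ≤ M := by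
    rw [abs_le] at h1 ⊢
    omega
  have hd2 : |y.2 - x.2| ≤ M := by
    rw [abs_le] at h2 ⊢
    omega
  set X' : ℕ → ℤ × ℤ := fun t => (x.1 + (y.1 - x.1) * (m - t) / M, x.2 + (y.2 - x.2) * (m - t) / M)
    with hX'
  have hXm : X' m = x := by
    rw [hX']
    refine Prod.ext ?_ ?_ <;> simp
  have hXst : ∀ t s : ℕ, s ≤ t → |(X' s).1 - (X' t).1| ≤ t - s ∧ |(X' s).2 - (X' t).2| ≤ t - s := by
    intro t s hst
    rw [hX']
    simp only
    have g1 := fl (a := (m : ℤ) - t) (b := (m : ℤ) - s) hM0 hd1 (by omega)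
    have g2 := fl (a := (m : ℤ) - t) (b := (m : ℤ) - s) hM0 hd2 (by omega)
    constructor
    · have e : x.1 + (y.1 - x.1) * ((m : ℤ) - s) / M - (x.1 + (y.1 - x.1) * ((m : ℤ) - t) / M) =
        (y.1 - x.1) * ((m : ℤ) - s) / M - (y.1 - x.1) * ((m : ℤ) - t) / M := by ring
      rw [e]; omega
    · have e : x.2 + (y.2 - x.2) * ((m : ℤ) - s) / M - (x.2 + (y.2 - x.2) * ((m : ℤ) - t) / M) =
        (y.2 - x.2) * ((m : ℤ) - s) / M - (y.2 - x.2) * ((m : ℤ) - t) / M := by ring
      rw [e]; omega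
  have hXy : ∀ t : ℕ, |y.1 - (X' t).1| ≤ t + 1 ∧ |y.2 - (X' t).2| ≤ t + 1 := by
    intro t
    rw [hX']
    simp only
    have g1 := fl (a := (m : ℤ) - t) (b := M) hM0 hd1 (by omega)
    have g2 := fl (a := (m : ℤ) - t) (b := M) hM0 hd2 (by omega)
    rw [Int.mul_ediv_cancel _ (by omega : M ≠ 0)] at g1 g2
    constructor
    · have e : y.1 - (x.1 + (y.1 - x.1) * ((m : ℤ) - t) / M) =
        y.1 - x.1 - (y.1 - x.1) * ((m : ℤ) - t) / M := by ring
      rw [e]; omega
    · have e : y.2 - (x.2 + (y.2 - x.2) * ((m : ℤ) - t) / M) =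
        y.2 - x.2 - (y.2 - x.2) * ((m : ℤ) - t) / M := by ring
      rw [e]; omega
  have hFt : ∀ t : ℕ, t ≤ m → Free X.E (X' t) t := by
    intro t ht
    obtain ⟨g1, g2⟩ := hXst m t ht
    rw [hXm] at g1 g2
    exact hF.mono (by omega) (by omega)
  -- from x to X' t0
  have hsum := seg_sum (h := fun t => Hv (X' (min t m))) (r := recd mm N) (t0 := t0) hR
    (by omega) (by
      intro t s hs ht
      have htm : (t0 : ℤ) ≤ m := by omega
      set t' := min t m with ht'
      set s' := min (t - s) m with hs'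
      have e1 : s' ≤ t' := by omega
      have e2 : 4 * (t' - s') ≤ t' := by omega
      have e3 : t0 ≤ t' := by omega
      obtain ⟨g1, g2⟩ := hXst t' s' e1
      have := pot_free (n := n) (by omega) hX hH (N := N) (x := X' t') (u := X' s') (v := X' t')
        (m := t') (by omega) (by omega) (hFt t' (by omega)) (inQ_of (by omega) (by omega))
        (inQ_of (by simp) (by simp))
      refine this.trans (mul_le_mul_of_nonneg_left ?_ hR)
      exact Real.rpow_le_rpow (by positivity) (by exact_mod_cast (by omega : t' ≤ t)) (by norm_num))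
    m (by omega)
  have hm1 : min m m = m := min_self m
  have hm2 : min t0 m = t0 := by omega
  simp only [hm1, hm2, hXm] at hsum
  set x0 := X' t0 with hx0
  have hF0 := hFt t0 (by omega)
  rw [← hx0] at hF0
  -- to the centre of the cell
  have hcx : |(ctc n (cv n x0)).1 - x0.1| ≤ n ∧ |(ctc n (cv n x0)).2 - x0.2| ≤ n := by
    have g1 := div_bd (show 1 ≤ n by omega) x0.1
    have g2 := div_bd (show 1 ≤ n by omega) x0.2
    unfold ctc cv
    simp only
    constructor <;> rw [abs_le] <;> omega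
  have hc : ‖Hv (ctc n (cv n x0)) - Hv x0‖ ≤ recd mm N * (t0 : ℝ) ^ (2 / 3 : ℝ) :=
    pot_free (n := n) (by omega) hX hH (N := N) (x := x0) (m := t0) (by omega) (by omega) hF0
      (inQ_of (by simp) (by simp)) (inQ_of (by omega) (by omega))
  -- the walk
  obtain ⟨k, hk⟩ := Int.eq_ofNat_of_zero_le
    (show 0 ≤ |(cv n y).1 - (cv n x0).1| + |(cv n y).2 - (cv n x0).2| by positivity)
  obtain ⟨c, hc0, hck, hcs⟩ := cell_path k (cv n x0) (cv n y) hk
  have hk36 : k ≤ 34 := by
    have g1 := (hXy t0).1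
    have g2 := (hXy t0).2
    rw [← hx0] at g1 g2
    have key : ∀ a b : ℤ, |a - b| ≤ t0 + 1 → |a / n - b / n| ≤ 17 := by
      intro a b hab
      have h3 := div_bd (show 1 ≤ n by omega) a
      have h4 := div_bd (show 1 ≤ n by omega) b
      rw [abs_le] at hab ⊢
      constructor
      · by_contra h5
        push Not at h5
        have h6 : n * (a / n) ≤ n * (b / n - 18) :=
          mul_le_mul_of_nonneg_left (by omega) (by omega)
        have e : n * (b / n - 18) = n * (b / n) - 18 * n := by ring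
        omega
      · by_contra h5
        push Not at h5
        have h6 : n * (b / n) ≤ n * (a / n - 18) :=
          mul_le_mul_of_nonneg_left (by omega) (by omega)
        have e : n * (a / n - 18) = n * (a / n) - 18 * n := by ring
        omega
    have k1 := key _ _ g1
    have k2 := key _ _ g2
    unfold cv at hk
    simp only at hk
    omega
  have hfull : Full n X.E (c 0) := by
    rw [hc0]
    exact full_cv (by omega) hF0 (by simp; omega) (by simp; omega)
  have hnf : ¬ Full n X.E (c k) := by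
    rw [hck]
    intro h3
    exact hlE (h3 l hl rfl)
  obtain ⟨q, hq1, hq2, hq3, hq4⟩ := cell_walk hn (N := N) (by omega) hX hH hcs hfull hnf
  rw [hc0] at hq3 hq4
  refine ⟨q, ⟨hq1, hq2⟩, ?_, ?_⟩
  · refine Relation.ReflTransGen.trans ?_ hq3
    have key : ∀ s : ℕ, t0 + s ≤ m → CC n X.E (cv n (X' (t0 + s))) (cv n x0) := by
      intro s
      induction s with
      | zero => intro _; exact Relation.ReflTransGen.refl
      | succ s ih =>
        intro hs
        refine Relation.ReflTransGen.trans ?_ (ih (by omega))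
        obtain ⟨g1, g2⟩ := hXst (t0 + (s + 1)) (t0 + s) (by omega)
        refine cc_free (by omega) (hFt (t0 + (s + 1)) hs) (by simp; omega) (by simp; omega)
          ?_ ?_ <;> push_cast at g1 g2 ⊢ <;> omega
    have := key (m - t0) (by omega)
    rw [show t0 + (m - t0) = m by omega, hXm] at this
    exact this
  · have e : Hv x - Hv (ctc n q) = (Hv x - Hv x0) - (Hv (ctc n (cv n x0)) - Hv x0) -
      (Hv (ctc n q) - Hv (ctc n (cv n x0))) := by ring
    rw [e]
    refine (norm_sub_le _ _).trans ?_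
    have h3 := norm_sub_le (Hv x - Hv x0) (Hv (ctc n (cv n x0)) - Hv x0)
    have h4 : (t0 : ℝ) ^ (2 / 3 : ℝ) ≤ (m : ℝ) ^ (2 / 3 : ℝ) :=
      Real.rpow_le_rpow (by positivity) (by exact_mod_cast (by omega : t0 ≤ m)) (by norm_num)
    have h5 : (n : ℝ) ^ (2 / 3 : ℝ) ≤ (m : ℝ) ^ (2 / 3 : ℝ) := by
      refine Real.rpow_le_rpow (by exact_mod_cast (by omega : (0 : ℤ) ≤ n)) ?_ (by norm_num)
      exact_mod_cast (by omega : n ≤ (m : ℤ))
    have h6 : (0 : ℝ) ≤ (m : ℝ) ^ (2 / 3 : ℝ) := by positivity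
    have h7 : recd mm N * (t0 : ℝ) ^ (2 / 3 : ℝ) ≤ recd mm N * (m : ℝ) ^ (2 / 3 : ℝ) :=
      mul_le_mul_of_nonneg_left h4 hR
    have h8 : (k : ℝ) * (16 * recd mm N * (n : ℝ) ^ (2 / 3 : ℝ)) ≤
        34 * (16 * recd mm N * (m : ℝ) ^ (2 / 3 : ℝ)) := by
      refine mul_le_mul (by exact_mod_cast hk36) ?_ (by positivity) (by norm_num)
      exact mul_le_mul_of_nonneg_left h5 (by positivity)
    linarith

end Pool.Agent.H77.Q1
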