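import Mathlib
import Pool.Agent.H77.Q1.Near
import Pool.Agent.Q1.M6c.Flat

set_option autoImplicit false
open Finset

/-! The assembly of `(*)` (two points near the wall) from the coloured cells (`CELLS`), the comparison
(`COMP`) and the wall sum (`WALL`). -/

namespace Pool.Agent.H77.Q1

open Pool.Agent.H75.Perc Pool.Agent.H75.TwoArm Pool.Agent.H75.Four
open Pool.Agent.Q1 (Env PrimAt Qt)
open Pool.Agent.Q1.M6c (Dobr DEnvX PlaneK PlaneEnv Free InQ mm le_mm inQ_inB)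
open Pool.Agent.H68.Q1 (recd le_recd recd_nonneg seg_sum)

/-- a cell of one colour of wall -/
def Sol (n : ℤ) (E W : Finset (ℤ × ℤ)) (q : ℤ × ℤ) : Prop :=
  (∀ l : ℤ × ℤ, (l.1 + l.2) % 2 = 1 → cel n l = q → l ∈ W) ∨
  (∀ l : ℤ × ℤ, (l.1 + l.2) % 2 = 1 → cel n l = q → l ∉ E ∧ l ∉ W)

/-- D3: coloured cells and ties exist -/
def CELLS : Prop := ∃ c1 : ℤ, 1 ≤ c1 ∧ ∀ (n D0 : ℤ) (E W : Finset (ℤ × ℤ)) (ct : ℤ × ℤ),
  64 ≤ n → c1 * n ≤ D0 → Dobr E W ct → lab ct ∈ E → ∃ O C : Finset (ℤ × ℤ),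
    RC n (c1 * n) D0 E W ct O C ∧
    ∀ q, Rng n E q → (∀ l : ℤ × ℤ, (l.1 + l.2) % 2 = 1 → cel n l = q →
        D0 + c1 * n ≤ |l.1 - (lab ct).1| ∨ D0 + c1 * n ≤ |l.2 - (lab ct).2|) →
      (∀ l : ℤ × ℤ, (l.1 + l.2) % 2 = 1 → cel n l = q → l ∈ O) ∨
      (∀ l : ℤ × ℤ, (l.1 + l.2) % 2 = 1 → cel n l = q → l ∈ C)

/-- D8: the steps of the chain before and after the flattening -/
def COMP : Prop := ∃ δ : ℝ, 0 < δ ∧ δ < 1 ∧ ∀ A : ℤ, ∃ CA : ℝ, ∀ (X : Env)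
  (W : Finset (ℤ × ℤ)) (a : ℤ × ℤ) (N : ℤ) (u : ℕ → ℤ × ℤ) (k : ℕ) (ρ m r D1 n : ℤ) (k0 ρ' : ℕ)
  (O C : Finset (ℤ × ℤ)), CL X W a N u k ρ m → (k : ℤ) ≤ A → N ≤ A * ρ → 1000 ≤ ρ →
  8 * (ρ' : ℤ) ≤ ρ → ρ < 8 * ρ' + 8 → RC n r (64 * D1 + 100) X.E W X.c0 O C → 1 ≤ D1 → 1 ≤ r →
  4 ^ k0 * r ≤ D1 → 64 * 4 ^ k0 * r ≤ ρ → ∀ j < k,
    ‖(X.flatten (O ∪ C) O).D (u j) (u (j + 1)) - X.D (u j) (u (j + 1))‖ ≤
      CA * (1 - δ) ^ k0 * mm ρ'

/-- D4: the wall sum; `S`: spot cells (they contain the cells near the tip), `F`: all ring cells -/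
def WALL : Prop := ∃ C : ℝ, 0 < C ∧ ∀ (n : ℤ) (N : ℕ) (X : Env) (W S F : Finset (ℤ × ℤ))
  (Hv Hf : ℤ × ℤ → ℂ) (q1 q2 : ℤ × ℤ), 64 ≤ n → n ≤ N → DEnvX X W → PotC n X Hv Hf →
  lab X.c0 ∈ X.E → (∀ q : ℤ × ℤ, |q.1 - (cel n (lab X.c0)).1| ≤ 3 →
    |q.2 - (cel n (lab X.c0)).2| ≤ 3 → q ∈ S) →
  Rng n X.E q1 → Rng n X.E q2 → CC n X.E q1 q2 → (∀ q, Rng n X.E q → q ∈ F) →
  (∀ q, Rng n X.E q → q ∉ S → ∀ q', IsUnit4 (q' - q) → ¬ Full n X.E q' → Sol n X.E W q') →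
    ‖Hv (ctc n q1) - Hv (ctc n q2)‖ ≤
      C * (1 + #S) * recd mm N * (n : ℝ) ^ (2 / 3 : ℝ) + C * #F * (n : ℝ) ^ (2 / 3 : ℝ)

/-- **(∗) Two points near the wall.** -/
def STAR : Prop := ∃ C : ℝ, 0 < C ∧ ∀ (κ ε : ℝ) (A : ℕ), 0 < κ → κ < 1 → 0 < ε →
  ∃ (N0 : ℕ) (C' : ℝ), ∀ (N : ℕ) (X : Env) (W : Finset (ℤ × ℤ)) (a : ℤ × ℤ) (u : ℕ → ℤ × ℤ)
    (k : ℕ), N0 ≤ N → k ≤ A → CL X W a N u k ⌊κ * N / 4⌋ ⌊κ * N⌋ → NearW X.E (u 0) ⌊κ * N⌋ →
    ‖val X u k‖ ≤ (C * κ ^ (2 / 3 : ℝ) + ε) * recd mm N * (N : ℝ) ^ (2 / 3 : ℝ) +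
      C' * (N : ℝ) ^ (2 / 3 : ℝ)

/-- the flattened environment -/
lemma flat_denv {X : Env} {W : Finset (ℤ × ℤ)} {n r D0 : ℤ} {O C : Finset (ℤ × ℤ)}
    (hX : DEnvX X W) (h : RC n r D0 X.E W X.c0 O C) :
    DEnvX (X.flatten (O ∪ C) O) (W ∪ O) := by
  have h1 : PlaneEnv (X.flatten (O ∪ C) O) (W ∪ O) := by
    have := hX.toPlaneEnv.freeze (X.E \ (O ∪ C)) O
    have e : O ∩ (X.E \ (X.E \ (O ∪ C))) = O := by
      refine inter_eq_left.2 fun e he => ?_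
      exact mem_sdiff.2 ⟨h.hO he, fun h => (mem_sdiff.1 h).2 (mem_union_left _ he)⟩
    rw [e] at this
    exact this
  exact ⟨h1, by rw [Env.flatten_E]; exact h.dob⟩

lemma cell_label (n : ℤ) (hn : 1 ≤ n) (q : ℤ × ℤ) :
    cel n (2 * (n * q.1) + 1, 2 * (n * q.2)) = q := by
  rw [cel_iff hn]
  unfold inB eu
  simp only
  omega

/-- the condition of the wall sum -/
lemma spot_ok {n r D0 D0' : ℤ} {E W O C : Finset (ℤ × ℤ)} {ct : ℤ × ℤ} {s : ℤ} (hn : 1 ≤ n)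
    (hd : Dobr E W ct) (h : RC n r D0 E W ct O C) (hcol : ∀ q, Rng n E q →
      (∀ l : ℤ × ℤ, (l.1 + l.2) % 2 = 1 → cel n l = q →
        D0' ≤ |l.1 - (lab ct).1| ∨ D0' ≤ |l.2 - (lab ct).2|) →
      (∀ l : ℤ × ℤ, (l.1 + l.2) % 2 = 1 → cel n l = q → l ∈ O) ∨
      (∀ l : ℤ × ℤ, (l.1 + l.2) % 2 = 1 → cel n l = q → l ∈ C)) (hs : D0' ≤ 2 * n * (s - 3))
    {q q' : ℤ × ℤ} (hq : Rng n (E \ (O ∪ C)) q)
    (hqS : q ∉ (Icc ((cel n (lab ct)).1 - s) ((cel n (lab ct)).1 + s)) ×ˢ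
      (Icc ((cel n (lab ct)).2 - s) ((cel n (lab ct)).2 + s)))
    (hu : IsUnit4 (q' - q)) (hnf : ¬ Full n (E \ (O ∪ C)) q') :
    Sol n (E \ (O ∪ C)) (W ∪ O) q' := by
  -- cells far from the tip
  have hfar : ∀ p : ℤ × ℤ, (s ≤ |p.1 - (cel n (lab ct)).1| ∨ s ≤ |p.2 - (cel n (lab ct)).2|) →
      ∀ l : ℤ × ℤ, (l.1 + l.2) % 2 = 1 → cel n l = p →
        D0' ≤ |l.1 - (lab ct).1| ∨ D0' ≤ |l.2 - (lab ct).2| := by
    intro p hp l hl hlp
    have g1 := (cel_iff hn).1 hlp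
    have g2 := (cel_iff hn (l := lab ct)).1 rfl
    set t := cel n (lab ct) with ht
    unfold inB eu at g1 g2
    simp only at g1 g2
    have key : ∀ x y a b : ℤ, n * x ≤ a / 2 → a / 2 ≤ n * x + n - 1 → n * y ≤ b / 2 →
        b / 2 ≤ n * y + n - 1 → s ≤ |x - y| → D0' ≤ |a - b| := by
      intro x y a b e1 e2 e3 e4 e5
      rcases le_abs.1 e5 with e6 | e6
      · have h1 : n * (y + s) ≤ n * x := mul_le_mul_of_nonneg_left (by omega) (by omega)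
        refine le_trans ?_ (le_abs_self _)
        have e7 : n * (y + s) = n * y + n * s := by ring
        have e8 : 2 * n * (s - 3) = 2 * (n * s) - 6 * n := by ring
        omega
      · have h1 : n * (x + s) ≤ n * y := mul_le_mul_of_nonneg_left (by omega) (by omega)
        refine le_trans ?_ (neg_le_abs _)
        have e7 : n * (x + s) = n * x + n * s := by ring
        have e8 : 2 * n * (s - 3) = 2 * (n * s) - 6 * n := by ring
        omega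
    rcases hp with hp | hp
    · exact Or.inl (key _ _ _ _ (by omega) (by omega) (by omega) (by omega) hp)
    · exact Or.inr (key _ _ _ _ (by omega) (by omega) (by omega) (by omega) hp)
  rw [mem_product, mem_Icc, mem_Icc] at hqS
  set t := cel n (lab ct) with ht
  have hqf : s + 1 ≤ |q.1 - t.1| ∨ s + 1 ≤ |q.2 - t.2| := by
    by_contra h1
    push Not at h1
    apply hqS
    obtain ⟨h2, h3⟩ := h1
    rw [abs_lt] at h2 h3
    omega
  by_cases hf : Full n E q'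
  · -- coloured
    have h1 : ∃ l : ℤ × ℤ, (l.1 + l.2) % 2 = 1 ∧ cel n l = q' ∧ l ∈ O ∪ C := by
      unfold Full at hnf
      push Not at hnf
      obtain ⟨l, h2, h3, h4⟩ := hnf
      refine ⟨l, h2, h3, ?_⟩
      by_contra h5
      exact h4 (mem_sdiff.2 ⟨hf l h2 h3, h5⟩)
    obtain ⟨l, h2, h3, h4⟩ := h1
    have h5 := h.inn l h4 (by rw [h3]; exact hf)
    rw [h3] at h5
    have h6 : s ≤ |q'.1 - t.1| ∨ s ≤ |q'.2 - t.2| := by
      rcases unit_cases hu with ⟨g1, g2⟩ | ⟨g1, g2⟩ | ⟨g1, g2⟩ | ⟨g1, g2⟩ <;> rw [g1, g2] <;>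
      rcases hqf with g3 | g3
      all_goals first
        | (left; rcases le_abs.1 g3 with g4 | g4
           · exact le_trans (by omega) (le_abs_self _)
           · exact le_trans (by omega) (neg_le_abs _))
        | (right; rcases le_abs.1 g3 with g4 | g4
           · exact le_trans (by omega) (le_abs_self _)
           · exact le_trans (by omega) (neg_le_abs _))
    rcases hcol q' h5 (hfar q' h6) with h7 | h7
    · left
      intro l hl hlc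
      exact mem_union_right _ (h7 l hl hlc)
    · right
      intro l hl hlc
      have h8 := h7 l hl hlc
      refine ⟨fun h9 => (mem_sdiff.1 h9).2 (mem_union_right _ h8), fun h9 => ?_⟩
      rcases mem_union.1 h9 with h9 | h9
      · exact disjoint_left.1 hd.disj (h.hC h8) h9
      · exact disjoint_left.1 h.disj h9 h8
  · exfalso
    have h1 : Rng n E q := by
      refine ⟨fun l hl hlc => (mem_sdiff.1 (hq.1 l hl hlc)).1, q', hu, hf⟩
    have h2 := hcol q h1 (hfar q (by omega))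
    set l : ℤ × ℤ := (2 * (n * q.1) + 1, 2 * (n * q.2)) with hl
    have h3 : cel n l = q := cell_label n hn q
    have h4 : (l.1 + l.2) % 2 = 1 := by rw [hl]; simp only; omega
    have h5 := (mem_sdiff.1 (hq.1 l h4 h3)).2
    rcases h2 with h2 | h2
    · exact h5 (mem_union_left _ (h2 l h4 h3))
    · exact h5 (mem_union_right _ (h2 l h4 h3))


lemma free_flat {X : Env} {O C : Finset (ℤ × ℤ)} {W : Finset (ℤ × ℤ)} {n r D0 ρ ρ2 : ℤ}
    {x : ℤ × ℤ} (hd : Dm x ρ ⊆ X.E) (h : RC n r D0 X.E W X.c0 O C) (hr : 2 * (ρ2 + r) ≤ ρ)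
    (hr0 : 0 ≤ r) : Free (X.E \ (O ∪ C)) x ρ2 := by
  have hF : Bx (x.1 - (ρ2 + r)) (x.1 + (ρ2 + r)) (x.2 - (ρ2 + r)) (x.2 + (ρ2 + r)) ⊆ X.E :=
    (Bx_sub_Dm hr).trans hd
  intro l hl
  have hl' := hl
  rw [mem_Bx] at hl'
  refine mem_sdiff.2 ⟨hF (mem_Bx.2 (by omega)), fun h1 => ?_⟩
  obtain ⟨l', h2, h3, h4, h5⟩ := h.near l h1
  apply h3
  apply hF
  rw [mem_Bx]
  rw [abs_le] at h4 h5
  omega

/-- the value of a chain is the difference of the potential -/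
lemma chain_val {n : ℤ} (hn : 1 ≤ n) {X : Env} {Hv Hf : ℤ × ℤ → ℂ} (hH : PotC n X Hv Hf)
    {u : ℕ → ℤ × ℤ} {ρ2 : ℤ} : ∀ k : ℕ, (∀ j ≤ k, Free X.E (u j) ρ2) →
    (∀ j < k, |(u (j + 1)).1 - (u j).1| + n ≤ ρ2 ∧ |(u (j + 1)).2 - (u j).2| + n ≤ ρ2) →
    (∑ j ∈ range k, X.D (u j) (u (j + 1)) = Hv (u k) - Hv (u 0)) ∧
      CC n X.E (cv n (u 0)) (cv n (u k)) := by
  intro k
  induction k with
  | zero => intro _ _; exact ⟨by simp, Relation.ReflTransGen.refl⟩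
  | succ k ih =>
    intro h1 h2
    obtain ⟨h3, h4⟩ := ih (fun j hj => h1 j (by omega)) (fun j hj => h2 j (by omega))
    obtain ⟨h5, h6⟩ := h2 k (by omega)
    have hρ : n ≤ ρ2 := by
      have := abs_nonneg ((u (k + 1)).1 - (u k).1)
      omega
    constructor
    · rw [sum_range_succ, h3]
      have hF : FullB n X.E (u k) (ρ2 - n) := fullB_of_free hn (h1 k (by omega)) (by omega)
      rw [Env.D_prim (hH.prim hF) (u := u k) (v := u (k + 1)) (by unfold inB; omega) ?_]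
      · ring
      · have h7 := abs_le.1 (show |(u (k + 1)).1 - (u k).1| ≤ ρ2 - n by omega)
        have h8 := abs_le.1 (show |(u (k + 1)).2 - (u k).2| ≤ ρ2 - n by omega)
        unfold inB
        omega
    · refine h4.trans (cc_free hn (h1 k (by omega)) ?_ ?_ h5 h6)
      · simp; omega
      · simp; omega

lemma end_wall {n : ℤ} (hn : 64 ≤ n) {X : Env} {Hv Hf : ℤ × ℤ → ℂ} {N : ℕ} (hX : PlaneK X)
    (hH : PotC n X Hv Hf) {x : ℤ × ℤ} {ρ2 : ℤ} {m1 : ℕ} (hF : Free X.E x ρ2) (hρ : 16 * n ≤ ρ2)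
    (hw : NearW X.E x m1) (hm : m1 ≤ N) : ∃ q, Rng n X.E q ∧ CC n X.E (cv n x) q ∧
      ‖Hv x - Hv (ctc n q)‖ ≤ 577 * recd mm N * (m1 : ℝ) ^ (2 / 3 : ℝ) := by
  classical
  obtain ⟨l, h1, h2, h3, h4⟩ := hw
  have hex : ∃ m : ℕ, ¬ Free X.E x m := by
    refine ⟨m1, fun h => h2 (h ?_)⟩
    rw [mem_Bx]
    rw [abs_le] at h3 h4
    omega
  set m0 := Nat.find hex with hm0
  have hs : ¬ Free X.E x m0 := Nat.find_spec hex
  have hle : m0 ≤ m1 := Nat.find_min' hex (fun h => h2 (h (by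
    rw [mem_Bx]
    rw [abs_le] at h3 h4
    omega)))
  have hgt : ρ2 < m0 := by
    by_contra h5
    exact hs (hF.mono (by simp; omega) (by simp; omega))
  obtain ⟨m, hm'⟩ : ∃ m, m0 = m + 1 := ⟨m0 - 1, by omega⟩
  have hFm : Free X.E x m := by
    by_contra h5
    exact Nat.find_min hex (m := m) (by omega) h5
  rw [hm'] at hs
  unfold Free at hs
  rw [not_subset] at hs
  obtain ⟨l', h5, h6⟩ := hs
  rw [mem_Bx] at h5
  push_cast at h5
  obtain ⟨q, k1, k2, k3⟩ := near_wall hn (m := m) (N := N) (by omega) (by omega) hX hH hFm h5.2.2 h6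
    (by rw [abs_le]; omega) (by rw [abs_le]; omega)
  refine ⟨q, k1, k2, k3.trans ?_⟩
  have hR := recd_nonneg mm N
  refine mul_le_mul_of_nonneg_left ?_ (by positivity)
  exact Real.rpow_le_rpow (by positivity) (by exact_mod_cast (by omega : m ≤ m1)) (by norm_num)


lemma card_cells {n : ℤ} {N : ℕ} {η : ℝ} (hη : 0 < η) (hn : 0 < n) (hnN : η * N / 2 ≤ n) (a : ℤ) :
    (#(Icc ((a - N - 1) / n) ((a + N) / n)) : ℝ) ≤ 4 / η + 2 := by
  rw [Int.card_Icc]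
  have h1 := div_bd (show 1 ≤ n by omega) (a - N - 1)
  have h2 := div_bd (show 1 ≤ n by omega) (a + N)
  set x := (a - N - 1) / n with hx
  set y := (a + N) / n with hy
  have h3 : n * (y - x) ≤ 2 * N + n := by
    have e : n * (y - x) = n * y - n * x := by ring
    omega
  have hnr : (0 : ℝ) < n := by exact_mod_cast hn
  have h4 : (n : ℝ) * ((y : ℝ) - x) ≤ 2 * N + n := by exact_mod_cast h3
  have h5 : (y : ℝ) - x ≤ 4 / η + 1 := by
    by_contra h6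
    push Not at h6
    have h7 : (n : ℝ) * (4 / η + 1) < n * ((y : ℝ) - x) := mul_lt_mul_of_pos_left h6 hnr
    have h8 : (2 : ℝ) * N ≤ n * (4 / η) := by
      calc (2 : ℝ) * N = (η * N / 2) * (4 / η) := by field_simp; ring
        _ ≤ n * (4 / η) := mul_le_mul_of_nonneg_right hnN (by positivity)
    nlinarith
  have h9 : (((y + 1 - x).toNat : ℕ) : ℝ) ≤ max ((y : ℝ) + 1 - x) 0 := by
    rcases le_total 0 (y + 1 - x) with h | h
    · refine le_trans (le_of_eq ?_) (le_max_left _ _)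
      have : (((y + 1 - x).toNat : ℕ) : ℤ) = y + 1 - x := Int.toNat_of_nonneg h
      exact_mod_cast congrArg (Int.cast : ℤ → ℝ) this
    · rw [Int.toNat_of_nonpos h]; simp
  refine h9.trans (max_le (by linarith) (by positivity))

/-- **Assembly of (∗).** -/
theorem star_of (h1 : CELLS) (h2 : COMP) (h3 : WALL) : STAR := by
  classical
  obtain ⟨c1, hc1, hcells⟩ := h1
  obtain ⟨δ, hδ0, hδ1, hcomp⟩ := h2
  obtain ⟨C4, hC4, hwall⟩ := h3
  refine ⟨1154, by norm_num, ?_⟩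
  intro κ ε A hκ hκ1 hε
  obtain ⟨CA, hCA⟩ := hcomp (A + ⌈8 / κ⌉)
  obtain ⟨k0, hk0⟩ : ∃ k0 : ℕ, A * (|CA| * (1 - δ) ^ k0) ≤ ε / 2 := by
    have hy : 0 < ε / 2 / (A * |CA| + 1) := by positivity
    obtain ⟨k0, hk⟩ := exists_pow_lt_of_lt_one hy (show 1 - δ < 1 by linarith)
    refine ⟨k0, ?_⟩
    rw [lt_div_iff₀ (by positivity)] at hk
    have : 0 ≤ (1 - δ) ^ k0 := pow_nonneg (by linarith) _
    nlinarith
  set B : ℤ := 4 ^ k0 * c1 with hB
  have hB1 : c1 ≤ B := by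
    have : (1 : ℤ) ≤ 4 ^ k0 := one_le_pow₀ (by norm_num)
    nlinarith
  set s : ℤ := 33 * B + 10 with hs
  obtain ⟨η, hη0, hη1, hη2, hη3⟩ : ∃ η : ℝ, 0 < η ∧ η ≤ 1 ∧ η ≤ κ / (512 * B) ∧
      C4 * (1 + (2 * s + 1) ^ 2) * η ^ (2 / 3 : ℝ) ≤ ε / 2 := by
    have hB0 : (0 : ℝ) < B := by exact_mod_cast (by omega : 0 < B)
    have hK0 : 0 < C4 * (1 + (2 * (s : ℝ) + 1) ^ 2) := by positivity
    set K := C4 * (1 + (2 * (s : ℝ) + 1) ^ 2) with hK
    have hy : 0 < ε / 2 / K := by positivity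
    refine ⟨min 1 (min (κ / (512 * B)) ((ε / 2 / K) ^ (3 / 2 : ℝ))), ?_, min_le_left _ _,
      (min_le_right _ _).trans (min_le_left _ _), ?_⟩
    · exact lt_min one_pos (lt_min (by positivity) (by positivity))
    · have h4 : (min 1 (min (κ / (512 * B)) ((ε / 2 / K) ^ (3 / 2 : ℝ)))) ^ (2 / 3 : ℝ) ≤
          ((ε / 2 / K) ^ (3 / 2 : ℝ)) ^ (2 / 3 : ℝ) := by
        refine Real.rpow_le_rpow ?_ ((min_le_right _ _).trans (min_le_right _ _)) (by norm_num)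
        exact le_min zero_le_one (le_min (by positivity) (by positivity))
      rw [← Real.rpow_mul hy.le] at h4
      norm_num at h4
      calc K * _ ≤ K * (ε / 2 / K) := mul_le_mul_of_nonneg_left (by norm_num; exact h4) hK0.le
        _ = ε / 2 := by field_simp
  refine ⟨⌈64 / η + 4004 / κ + 10⌉₊, C4 * (4 / η + 2) ^ 2, ?_⟩
  intro N X W a u k hN hkA hCL hw0
  have hNr : 64 / η + 4004 / κ + 10 ≤ N := (Nat.le_ceil _).trans (by exact_mod_cast hN)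
  have hp1 : 0 < 64 / η := by positivity
  have hp2 : 0 < 4004 / κ := by positivity
  have hηN : 64 ≤ η * N := by
    have : 64 / η ≤ N := by linarith
    rw [div_le_iff₀ hη0] at this
    linarith
  have hκN : 4004 ≤ κ * N := by
    have : 4004 / κ ≤ N := by linarith
    rw [div_le_iff₀ hκ] at this
    linarith
  have hN0 : (0 : ℝ) ≤ N := Nat.cast_nonneg _
  set n : ℤ := ⌊η * N⌋ with hn
  have hn64 : 64 ≤ n := Int.le_floor.2 (by exact_mod_cast hηN)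
  have hnhi : (n : ℝ) ≤ η * N := Int.floor_le _
  have hnlo : η * N / 2 ≤ n := by
    have := Int.lt_floor_add_one (η * N)
    rw [← hn] at this
    linarith
  have hnN : n ≤ N := by
    have : (n : ℝ) ≤ N := hnhi.trans (by nlinarith)
    exact_mod_cast this
  set ρ : ℤ := ⌊κ * N / 4⌋ with hρ
  have hρhi : (ρ : ℝ) ≤ κ * N / 4 := Int.floor_le _
  have hρlo : κ * N / 8 ≤ ρ := by
    have := Int.lt_floor_add_one (κ * N / 4)
    rw [← hρ] at this
    linarith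
  have hρ1000 : 1000 ≤ ρ := Int.le_floor.2 (by push_cast; linarith)
  have hBn : 64 * (B * n) ≤ ρ := by
    have h4 : (64 : ℝ) * (B * n) ≤ κ * N / 8 := by
      have hB0 : (0 : ℝ) < B := by exact_mod_cast (by omega : 0 < B)
      have h5 : (n : ℝ) ≤ κ / (512 * B) * N :=
        hnhi.trans (mul_le_mul_of_nonneg_right hη2 hN0)
      calc (64 : ℝ) * (B * n) ≤ 64 * (B * (κ / (512 * B) * N)) := by gcongr
        _ = κ * N / 8 := by field_simp; ring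
    have : ((64 * (B * n) : ℤ) : ℝ) ≤ ρ := by push_cast; linarith
    exact_mod_cast this
  obtain ⟨ρ', hρ'⟩ := Int.eq_ofNat_of_zero_le (show 0 ≤ ρ / 8 by omega)
  obtain ⟨m1, hm1⟩ := Int.eq_ofNat_of_zero_le (show 0 ≤ ⌊κ * N⌋ from Int.floor_nonneg.2 (by positivity))
  have hm1r : (m1 : ℝ) ≤ κ * N := by
    have : ((⌊κ * N⌋ : ℤ) : ℝ) ≤ κ * N := Int.floor_le _
    rw [hm1] at this
    exact_mod_cast this
  have hm1N : m1 ≤ N := by
    have : (m1 : ℝ) ≤ N := hm1r.trans (by nlinarith)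
    exact_mod_cast this
  rw [hm1] at hw0
  have hwk : NearW X.E (u k) m1 := by rw [← hm1]; exact hCL.near
  -- the coloured cells
  have htip : lab X.c0 ∈ X.E := by
    obtain ⟨i, hi, h4⟩ := hCL.tip.mem
    exact hCL.chn.free i hi h4
  have hn1 : 1 ≤ n := by omega
  have hcn : c1 * n ≤ B * n := mul_le_mul_of_nonneg_right hB1 (by omega)
  have hc1n : n ≤ c1 * n := by nlinarith
  obtain ⟨O, C, hRC, hcol⟩ := hcells n (64 * (B * n) + 100) X.E W X.c0 hn64 (by omega)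
    hCL.denv.dob htip
  set Q := X.flatten (O ∪ C) O with hQ
  have hQE : Q.E = X.E \ (O ∪ C) := Env.flatten_E
  have hQd : DEnvX Q (W ∪ O) := flat_denv hCL.denv hRC
  obtain ⟨Hv, Hf, hH⟩ := pot_cells hQd.dob hn1
  have hH' : PotC n Q Hv Hf := hH
  have hQK : PlaneK Q := ⟨_, hQd.toPlaneEnv⟩
  -- boxes
  set ρ2 : ℤ := ρ / 4 with hρ2
  have hfree : ∀ j ≤ k, Free Q.E (u j) ρ2 := by
    intro j hj
    rw [hQE]
    exact free_flat (hCL.chn.free j hj) hRC (by omega) (by omega)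
  have hstep : ∀ j < k, |(u (j + 1)).1 - (u j).1| + n ≤ ρ2 ∧ |(u (j + 1)).2 - (u j).2| + n ≤ ρ2 := by
    intro j hj
    obtain ⟨h4, h5⟩ := hCL.chn.step j hj
    omega
  obtain ⟨hval, hCC⟩ := chain_val hn1 hH' k hfree hstep
  -- the two ends
  have hNW : ∀ x, NearW X.E x m1 → NearW Q.E x m1 := by
    intro x hx
    obtain ⟨l, h4, h5, h6, h7⟩ := hx
    refine ⟨l, h4, fun h8 => h5 ?_, h6, h7⟩
    rw [hQE] at h8
    exact (mem_sdiff.1 h8).1
  obtain ⟨q0, a1, a2, a3⟩ := end_wall hn64 (N := N) hQK hH' (hfree 0 (by omega)) (by omega)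
    (hNW _ hw0) hm1N
  obtain ⟨qk, b1, b2, b3⟩ := end_wall hn64 (N := N) hQK hH' (hfree k le_rfl) (by omega)
    (hNW _ hwk) hm1N
  have hCCq : CC n Q.E q0 qk := (a2.symm.trans hCC).trans b2
  -- the wall sum
  set t := cel n (lab X.c0) with ht
  set S : Finset (ℤ × ℤ) := (Icc (t.1 - s) (t.1 + s)) ×ˢ (Icc (t.2 - s) (t.2 + s)) with hS
  set F : Finset (ℤ × ℤ) := (Icc ((a.1 - N - 1) / n) ((a.1 + N) / n)) ×ˢ
    (Icc ((a.2 - N - 1) / n) ((a.2 + N) / n)) with hF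
  have hSc : (#S : ℝ) = (2 * s + 1) ^ 2 := by
    have h4 : (#S : ℤ) = (2 * s + 1) ^ 2 := by
      rw [hS, card_product, Int.card_Icc, Int.card_Icc]
      push_cast
      rw [Int.toNat_of_nonneg (by omega), Int.toNat_of_nonneg (by omega)]
      ring
    exact_mod_cast h4
  have hFc : (#F : ℝ) ≤ (4 / η + 2) ^ 2 := by
    rw [hF, card_product]
    push_cast
    rw [sq]
    have h4 := card_cells (N := N) hη0 (by omega) hnlo a.1
    have h5 := card_cells (N := N) hη0 (by omega) hnlo a.2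
    exact mul_le_mul h4 h5 (by positivity) (by positivity)
  have hQF : ∀ q, Rng n Q.E q → q ∈ F := by
    intro q hq
    have h4 := hq.1 _ (by simp only; omega) (cell_label n hn1 q)
    rw [hQE] at h4
    have h5 := hCL.box (mem_sdiff.1 h4).1
    rw [mem_Bx] at h5
    simp only at h5
    obtain ⟨⟨h6, h7⟩, ⟨h8, h9⟩, -⟩ := h5
    have key : ∀ x b : ℤ, 2 * (b - N) ≤ 2 * (n * x) + 1 → 2 * (n * x) ≤ 2 * (b + N) →
        (b - N - 1) / n ≤ x ∧ x ≤ (b + N) / n := by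
      intro x b g1 g2
      constructor
      · have g3 := Int.ediv_le_ediv (show 0 < n by omega) (show b - N - 1 ≤ n * x by omega)
        rwa [Int.mul_ediv_cancel_left _ (by omega : n ≠ 0)] at g3
      · have g3 := Int.ediv_le_ediv (show 0 < n by omega) (show n * x ≤ b + N by omega)
        rwa [Int.mul_ediv_cancel_left _ (by omega : n ≠ 0)] at g3
    rw [hF, mem_product, mem_Icc, mem_Icc]
    exact ⟨key _ _ (by omega) (by omega), key _ _ (by omega) (by omega)⟩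
  have hspot : ∀ q, Rng n Q.E q → q ∉ S → ∀ q', IsUnit4 (q' - q) → ¬ Full n Q.E q' →
      Sol n Q.E (W ∪ O) q' := by
    intro q g1 g2 q' g3 g4
    rw [hQE] at g1 g4 ⊢
    refine spot_ok (s := s) hn1 hCL.denv.dob hRC hcol ?_ g1 g2 g3 g4
    have e : 2 * n * (s - 3) = 66 * (B * n) + 14 * n := by rw [hs]; ring
    omega
  have hc0 : Q.c0 = X.c0 := rfl
  have htipQ : lab Q.c0 ∈ Q.E := by
    rw [hQE, hc0]
    refine mem_sdiff.2 ⟨htip, fun h4 => ?_⟩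
    have h5 := hRC.far _ h4
    simp only [sub_self, abs_zero] at h5
    omega
  have hS3 : ∀ q : ℤ × ℤ, |q.1 - (cel n (lab Q.c0)).1| ≤ 3 → |q.2 - (cel n (lab Q.c0)).2| ≤ 3 →
      q ∈ S := by
    intro q g1 g2
    rw [hc0, ← ht] at g1 g2
    rw [abs_le] at g1 g2
    rw [hS, mem_product, mem_Icc, mem_Icc]
    omega
  have hW := hwall n N Q (W ∪ O) S F Hv Hf q0 qk hn64 hnN hQd hH' htipQ hS3 a1 b1 hCCq hQF hspot
  -- the comparison
  have hcmp : ∀ j < k, ‖Q.D (u j) (u (j + 1)) - X.D (u j) (u (j + 1))‖ ≤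
      CA * (1 - δ) ^ k0 * mm ρ' := by
    have h4 : (N : ℤ) ≤ (A + ⌈8 / κ⌉) * ρ := by
      have h5 : (8 / κ : ℝ) ≤ ⌈8 / κ⌉ := Int.le_ceil _
      have h6 : (N : ℝ) ≤ (8 / κ) * ρ := by
        calc (N : ℝ) = (8 / κ) * (κ * N / 8) := by field_simp
          _ ≤ _ := mul_le_mul_of_nonneg_left hρlo (by positivity)
      have h7 : (8 / κ) * (ρ : ℝ) ≤ ⌈8 / κ⌉ * ρ :=
        mul_le_mul_of_nonneg_right h5 (by exact_mod_cast (by omega : 0 ≤ ρ))
      have h8 : (N : ℤ) ≤ ⌈8 / κ⌉ * ρ := by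
        have : (N : ℝ) ≤ ((⌈8 / κ⌉ * ρ : ℤ) : ℝ) := by push_cast; linarith
        exact_mod_cast this
      have h9 : 0 ≤ (A : ℤ) * ρ := mul_nonneg (by omega) (by omega)
      linarith [add_mul (A : ℤ) ⌈8 / κ⌉ ρ]
    have h5 : 0 ≤ ⌈8 / κ⌉ := Int.ceil_nonneg (by positivity)
    refine hCA X W a N u k ρ ⌊κ * N⌋ (c1 * n) (B * n) n k0 ρ' O C hCL (by omega) h4 hρ1000
      (by omega) (by omega) hRC (by nlinarith) (by omega) ?_ ?_
    · rw [hB]; exact le_of_eq (by ring)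
    · have e : 64 * 4 ^ k0 * (c1 * n) = 64 * (B * n) := by rw [hB]; ring
      rw [e]; exact hBn
  -- the sum
  have hR := recd_nonneg mm N
  set R := recd mm N with hRdef
  set P := (N : ℝ) ^ (2 / 3 : ℝ) with hP
  have hP0 : 0 ≤ P := by positivity
  have hNpos : 1 ≤ N := by
    have : (1 : ℝ) ≤ N := by linarith
    exact_mod_cast this
  have hmmρ : mm ρ' ≤ R * P := by
    have h4 : (ρ' : ℤ) ≤ N := by
      have h5 : (ρ : ℝ) ≤ N := hρhi.trans (by nlinarith)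
      have h6 : ρ ≤ N := by exact_mod_cast h5
      omega
    refine (le_recd mm (by omega) (by exact_mod_cast h4)).trans (mul_le_mul_of_nonneg_left ?_ hR)
    exact Real.rpow_le_rpow (by positivity) (by exact_mod_cast h4) (by norm_num)
  have hm1P : (m1 : ℝ) ^ (2 / 3 : ℝ) ≤ κ ^ (2 / 3 : ℝ) * P := by
    rw [hP, ← Real.mul_rpow hκ.le hN0]
    exact Real.rpow_le_rpow (by positivity) hm1r (by norm_num)
  have hnP : (n : ℝ) ^ (2 / 3 : ℝ) ≤ η ^ (2 / 3 : ℝ) * P := by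
    rw [hP, ← Real.mul_rpow hη0.le hN0]
    exact Real.rpow_le_rpow (by exact_mod_cast (by omega : 0 ≤ n)) hnhi (by norm_num)
  have hnP' : (n : ℝ) ^ (2 / 3 : ℝ) ≤ P := by
    refine hnP.trans ?_
    have : η ^ (2 / 3 : ℝ) ≤ 1 := Real.rpow_le_one hη0.le hη1 (by norm_num)
    nlinarith
  have hn0 : 0 ≤ (n : ℝ) ^ (2 / 3 : ℝ) := Real.rpow_nonneg (by exact_mod_cast (by omega : 0 ≤ n)) _
  -- the parts
  have p1 : ‖val X u k - (Hv (u k) - Hv (u 0))‖ ≤ ε / 2 * R * P := by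
    rw [← hval]
    unfold val
    rw [← sum_sub_distrib]
    refine (norm_sum_le _ _).trans ?_
    have h4 : ∀ j ∈ range k, ‖X.D (u j) (u (j + 1)) - Q.D (u j) (u (j + 1))‖ ≤
        |CA| * (1 - δ) ^ k0 * (R * P) := by
      intro j hj
      rw [norm_sub_rev]
      have hpow : 0 ≤ (1 - δ) ^ k0 := pow_nonneg (by linarith) _
      refine (hcmp j (mem_range.1 hj)).trans ?_
      refine mul_le_mul ?_ hmmρ (Pool.Agent.Q1.M6c.mm_nonneg _) (by positivity)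
      exact mul_le_mul_of_nonneg_right (le_abs_self _) hpow
    refine (sum_le_sum h4).trans ?_
    rw [sum_const, card_range, nsmul_eq_mul]
    have h5 : (k : ℝ) ≤ A := by exact_mod_cast hkA
    have hpow : 0 ≤ (1 - δ) ^ k0 := pow_nonneg (by linarith) _
    calc (k : ℝ) * (|CA| * (1 - δ) ^ k0 * (R * P)) ≤ A * (|CA| * (1 - δ) ^ k0 * (R * P)) :=
          mul_le_mul_of_nonneg_right h5 (by positivity)
      _ = A * (|CA| * (1 - δ) ^ k0) * (R * P) := by ring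
      _ ≤ ε / 2 * (R * P) := mul_le_mul_of_nonneg_right hk0 (by positivity)
      _ = ε / 2 * R * P := by ring
  have p2 : ‖Hv (u k) - Hv (u 0)‖ ≤ 1154 * κ ^ (2 / 3 : ℝ) * R * P +
      (ε / 2 * R * P + C4 * (4 / η + 2) ^ 2 * P) := by
    have e : Hv (u k) - Hv (u 0) = (Hv (u k) - Hv (ctc n qk)) - (Hv (u 0) - Hv (ctc n q0)) -
      (Hv (ctc n q0) - Hv (ctc n qk)) := by ring
    rw [e]
    have t1 := norm_sub_le ((Hv (u k) - Hv (ctc n qk)) - (Hv (u 0) - Hv (ctc n q0)))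
      (Hv (ctc n q0) - Hv (ctc n qk))
    have t2 := norm_sub_le (Hv (u k) - Hv (ctc n qk)) (Hv (u 0) - Hv (ctc n q0))
    have t3 : 577 * R * (m1 : ℝ) ^ (2 / 3 : ℝ) ≤ 577 * R * (κ ^ (2 / 3 : ℝ) * P) :=
      mul_le_mul_of_nonneg_left hm1P (by positivity)
    have t4 : C4 * (1 + #S) * R * (n : ℝ) ^ (2 / 3 : ℝ) ≤ ε / 2 * R * P := by
      rw [hSc]
      calc C4 * (1 + (2 * (s : ℝ) + 1) ^ 2) * R * (n : ℝ) ^ (2 / 3 : ℝ)
          ≤ C4 * (1 + (2 * (s : ℝ) + 1) ^ 2) * R * (η ^ (2 / 3 : ℝ) * P) :=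
            mul_le_mul_of_nonneg_left hnP (by positivity)
        _ = C4 * (1 + (2 * (s : ℝ) + 1) ^ 2) * η ^ (2 / 3 : ℝ) * (R * P) := by ring
        _ ≤ ε / 2 * (R * P) := mul_le_mul_of_nonneg_right hη3 (by positivity)
        _ = ε / 2 * R * P := by ring
    have t5 : C4 * #F * (n : ℝ) ^ (2 / 3 : ℝ) ≤ C4 * (4 / η + 2) ^ 2 * P := by
      refine mul_le_mul ?_ hnP' hn0 (by positivity)
      exact mul_le_mul_of_nonneg_left hFc hC4.le
    linarith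
  have e : val X u k = (val X u k - (Hv (u k) - Hv (u 0))) + (Hv (u k) - Hv (u 0)) := by ring
  rw [e]
  have t1 := norm_add_le (val X u k - (Hv (u k) - Hv (u 0))) (Hv (u k) - Hv (u 0))
  have e2 : (1154 * κ ^ (2 / 3 : ℝ) + ε) * R * P =
      1154 * κ ^ (2 / 3 : ℝ) * R * P + ε / 2 * R * P + ε / 2 * R * P := by ring
  rw [e2]
  linarith

end Pool.Agent.H77.Q1
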