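import Mathlib
import Pool.Agent.H49.Q1.KDist
import Pool.Agent.H23.Q1.FillDob
import Pool.Agent.H77.Q1.K3e
import Pool.Agent.Q1.M6c.Diff

set_option autoImplicit false
open Finset

/-! Increments at corners next to a flat wall: half plane one-arm bound, both colours of wall. -/

namespace Pool.Agent.H77.Q1

open Pool.Agent.H75.Perc Pool.Agent.H75.TwoArm Pool.Agent.H75.Four Pool.Agent.H69.Q1
open Pool.Agent.H75.TwoArm.StrandAux hiding vx_nxC
open Pool.Agent.H99.NC (PrP PrP_half)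
open Pool.Agent.Q1 (Env DCo)
open Pool.Agent.Q1.M6c (Dobr DEnvX PlaneEnv co_nx_step dco_nx_step)
open Pool.Agent.H49.Q1 (Sd Thin CJ FB HB far kpoint_dist FB_Sd mem_HB mem_FB HB_B HB_R HB_T HB_L)
open Pool.Agent.H23.Q1 (cla dco_clamp cla_face)

/-- one arm at a flat piece of the boundary -/
theorem arm1 : ∃ C : ℝ, 1 ≤ C ∧ ∀ (x : ℤ × ℤ) (k r : ℤ) (E W : Finset (ℤ × ℤ)), 1 ≤ r →
    Thin (Sd k x) E W r → Pr E (CJ W (fun v => far x v r) x) ≤ C * (r : ℝ) ^ (-(1 / 3) : ℝ) := by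
  obtain ⟨C, hC, h⟩ := kpoint_dist
  refine ⟨C, hC, ?_⟩
  intro x k r E W hr hT
  have := h ({()} : Finset Unit) (fun _ => x) (fun _ => k) (fun _ => r) (fun _ _ => hr)
    (fun i _ j _ hij => absurd (Subsingleton.elim i j) hij) (E := E) (W := W) (fun _ _ => hT)
    (fun _ v => far x v r) (fun _ _ v hv => hv)
  simpa using this

/-- one arm from the neighbour `x` of the point `x'` of a flat piece of the boundary -/
theorem arm2 : ∃ C : ℝ, 1 ≤ C ∧ ∀ (x x' : ℤ × ℤ) (k r : ℤ) (E W : Finset (ℤ × ℤ)), 1 ≤ r →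
    Thin (Sd k x') E W r → IsUnit4 (x' - x) → x + x' ∈ E →
    Pr E (CJ W (fun v => far x' v r) x) ≤ C * (r : ℝ) ^ (-(1 / 3) : ℝ) := by
  obtain ⟨C, hC, h⟩ := arm1
  refine ⟨2 * C, by linarith, ?_⟩
  intro x x' k r E W hr hT hu he
  have h1 := h x' k r E W hr hT
  have h2 := Pr_harris E (CJ_inc' W (fun v => far x' v r) x) (B := fun ω => x + x' ∈ ω)
    (fun ω ω' h h' => h h')
  have h3 : Pr E (fun ω => CJ W (fun v => far x' v r) x ω ∧ x + x' ∈ ω) ≤
      Pr E (CJ W (fun v => far x' v r) x') := by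
    refine Pr_mono fun ω _ hω => ?_
    obtain ⟨⟨v, hv, hc⟩, hm⟩ := hω
    refine ⟨v, hv, Co.trans ?_ hc⟩
    refine Co.symm (Relation.ReflTransGen.single ⟨hu, mem_union_left _ hm⟩)
  rw [Pr_edge he] at h2
  linarith
where
  CJ_inc' (W : Finset (ℤ × ℤ)) (J : ℤ × ℤ → Prop) (x : ℤ × ℤ) : Inc (CJ W J x) :=
    Pool.Agent.H49.Q1.CJ_inc W J x

/-- the side of the wall -/
def kd (d : ℤ × ℤ) : ℤ :=
  if d = (0, -1) then 0 else if d = (1, 0) then 1 else if d = (0, 1) then 2 else 3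

lemma thin_of {x d : ℤ × ℤ} {r : ℤ} {E W : Finset (ℤ × ℤ)} (hd : IsUnit4 d)
    (h : ∀ e : ℤ × ℤ, (e.1 + e.2) % 2 = 1 → |e.1 - 2 * x.1| ≤ 2 * r → |e.2 - 2 * x.2| ≤ 2 * r →
      (e ∈ E → (e.1 - 2 * x.1) * d.1 + (e.2 - 2 * x.2) * d.2 ≤ 0) ∧ e ∉ W) :
    Thin (Sd (kd d) x) E W r := by
  intro e he
  rw [FB_Sd] at he
  have he' := he
  rw [mem_Bx] at he'
  obtain ⟨h1, h2⟩ := h e he'.2.2 (by rw [abs_le]; omega) (by rw [abs_le]; omega)
  refine ⟨fun h3 => ?_, h2⟩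
  have h4 := h1 h3
  rcases hd with rfl | rfl | rfl | rfl
  · have e1 : Sd (kd (1, 0)) x = Pool.Agent.H49.Q1.sR x := by unfold kd Sd; simp
    rw [e1, HB_R, mem_Bx]
    simp only at h4
    omega
  · have e1 : Sd (kd (0, 1)) x = Pool.Agent.H49.Q1.sT x := by unfold kd Sd; simp
    rw [e1, HB_T, mem_Bx]
    simp only at h4
    omega
  · have e1 : Sd (kd (-1, 0)) x = Pool.Agent.H49.Q1.sL x := by unfold kd Sd; simp
    rw [e1, HB_L, mem_Bx]
    simp only at h4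
    omega
  · have e1 : Sd (kd (0, -1)) x = Pool.Agent.H49.Q1.sB x := by unfold kd Sd; simp
    rw [e1, HB_B, mem_Bx]
    simp only at h4
    omega

/-! ### Visits -/

section
variable {X : Env} {W : Finset (ℤ × ℤ)}

lemma co_visit (h : PlaneEnv X W) {ω : Finset (ℤ × ℤ)} (hω : ω ⊆ X.E) (i : ℕ) :
    Co (ω ∪ W) (vx X.c0) (vx (X.z ω i)) := by
  rw [h.zz ω hω]
  induction i with
  | zero => exact Co.refl _ _
  | succ i ih =>
    rw [Function.iterate_succ_apply']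
    exact ih.trans (co_nx_step (fun h => h))

lemma dco_visit (h : PlaneEnv X W) {ω : Finset (ℤ × ℤ)} (hω : ω ⊆ X.E) (i : ℕ) :
    DCo (ω ∪ W) (fi X.c0) (fi (X.z ω i)) := by
  rw [h.zz ω hω]
  induction i with
  | zero => exact DCo.refl _ _
  | succ i ih =>
    rw [Function.iterate_succ_apply']
    exact ih.trans (dco_nx_step (fun h => h))

end


/-- a box containing a finite set of labels -/
lemma exists_BB' {S : Finset (ℤ × ℤ)} (h : ∀ e ∈ S, (e.1 + e.2) % 2 = 1) :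
    ∃ M : ℤ, 1 ≤ M ∧ S ⊆ Pool.Agent.H75.TwoArm.BB (M - 1) := by
  refine ⟨∑ e ∈ S, (|e.1| + |e.2|) + 1, ?_, ?_⟩
  · have : 0 ≤ ∑ e ∈ S, (|e.1| + |e.2|) := sum_nonneg fun e _ => by positivity
    omega
  · intro e he
    have h1 : |e.1| + |e.2| ≤ ∑ e ∈ S, (|e.1| + |e.2|) :=
      single_le_sum (f := fun e : ℤ × ℤ => |e.1| + |e.2|) (fun e _ => by positivity) he
    have h2 := h e he
    have h3 := neg_abs_le e.1
    have h4 := le_abs_self e.1
    have h5 := neg_abs_le e.2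
    have h6 := le_abs_self e.2
    have h7 := abs_nonneg e.1
    have h8 := abs_nonneg e.2
    rw [mem_BB']
    omega

/-- corners at a closed wall -/
theorem inc_closed : ∃ C : ℝ, 1 ≤ C ∧ ∀ (X : Env) (W : Finset (ℤ × ℤ)) (x z : ℤ × ℤ) (k r : ℤ),
    PlaneEnv X W → 1 ≤ r → vx z = x → far x (vx X.c0) r → Thin (Sd k x) X.E W r →
    ‖X.inc z‖ ≤ C * (r : ℝ) ^ (-(1 / 3) : ℝ) := by
  obtain ⟨C, hC, h⟩ := arm1
  refine ⟨C, hC, ?_⟩
  intro X W x z k r hX hr hz hf hT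
  refine (X.inc_norm z).trans ?_
  rw [PrP_half]
  refine le_trans (Pr_mono fun ω hω h1 => ?_) (h x k r X.E W hr hT)
  obtain ⟨i, -, hi⟩ := h1
  refine ⟨vx X.c0, hf, ?_⟩
  have := co_visit hX hω i
  rw [hi, hz] at this
  exact this.symm

/-- corners next to a point of a closed wall -/
theorem inc_closed2 : ∃ C : ℝ, 1 ≤ C ∧ ∀ (X : Env) (W : Finset (ℤ × ℤ)) (x x' z : ℤ × ℤ) (k r : ℤ),
    PlaneEnv X W → 1 ≤ r → vx z = x → IsUnit4 (x' - x) → x + x' ∈ X.E → far x' (vx X.c0) r →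
    Thin (Sd k x') X.E W r → ‖X.inc z‖ ≤ C * (r : ℝ) ^ (-(1 / 3) : ℝ) := by
  obtain ⟨C, hC, h⟩ := arm2
  refine ⟨C, hC, ?_⟩
  intro X W x x' z k r hX hr hz hu he hf hT
  refine (X.inc_norm z).trans ?_
  rw [PrP_half]
  refine le_trans (Pr_mono fun ω hω h1 => ?_) (h x x' k r X.E W hr hT hu he)
  obtain ⟨i, -, hi⟩ := h1
  refine ⟨vx X.c0, hf, ?_⟩
  have := co_visit hX hω i
  rw [hi, hz] at this
  exact this.symm

/-- corners next to a face at a wired wall -/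
theorem inc_wired2 : ∃ C : ℝ, 1 ≤ C ∧ ∀ (X : Env) (W : Finset (ℤ × ℤ)) (f f' z d : ℤ × ℤ) (r : ℤ),
    PlaneEnv X W → lab X.c0 ∈ X.E → 1 ≤ r → fi z = f → IsUnit4 (f' - f) → lbf f f' ∈ X.E →
    far f' (fi X.c0) r → IsUnit4 d →
    (∀ e : ℤ × ℤ, (e.1 + e.2) % 2 = 1 → |e.1 + 1 - 2 * f'.1| ≤ 2 * r →
      |e.2 + 1 - 2 * f'.2| ≤ 2 * r →
      (e ∈ X.E → (e.1 + 1 - 2 * f'.1) * d.1 + (e.2 + 1 - 2 * f'.2) * d.2 ≤ 0) ∧ e ∈ X.E ∪ W) →
    ‖X.inc z‖ ≤ C * (r : ℝ) ^ (-(1 / 3) : ℝ) := by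
  obtain ⟨C, hC, h⟩ := arm2
  refine ⟨C, hC, ?_⟩
  intro X W f f' z d r hX htip hr hz hu he hf hd hreg
  obtain ⟨M, hM, hEW⟩ := exists_BB' (S := X.E ∪ W) (by
    intro e he
    rcases mem_union.1 he with h1 | h1
    · exact X.odd e h1
    · exact hX.oddW e h1)
  have hBM : H75.TwoArm.BB (M - 1) ⊆ H75.TwoArm.BB M := by
    intro l hl
    rw [mem_BB'] at hl ⊢
    omega
  have hEM : ∀ l ∈ X.E, l ∈ H75.TwoArm.BB M := fun l hl => hBM (hEW (mem_union_left _ hl))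
  set Ws := (H75.TwoArm.BB M \ (X.E ∪ W)).map dl with hWs
  refine (X.inc_norm z).trans ?_
  rw [PrP_half]
  have h1 : Pr X.E (fun ω => ∃ i < X.len ω, X.z ω i = z) ≤
      Pr X.E (fun ω => CJ Ws (fun v => far (tr f') v r) (tr f) ((X.E \ ω).map dl)) := by
    refine Pr_mono fun ω hω h1 => ?_
    obtain ⟨i, -, hi⟩ := h1
    refine ⟨tr (fi X.c0), ?_, ?_⟩
    · unfold far tr at *
      simp only
      exact hf.symm
    · have e1 : (X.E \ ω).map dl ∪ Ws = (H75.TwoArm.BB M \ (ω ∪ W)).map dl := by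
        rw [hWs, ← map_union]
        congr 1
        ext l
        have k1 := hEM l
        have k2 : l ∈ X.E → l ∉ W := fun h3 h4 => disjoint_left.1 hX.disj h3 h4
        have k3 : l ∈ ω → l ∈ X.E := fun h3 => hω h3
        simp only [mem_union, mem_sdiff]
        tauto
      rw [e1, co_dl]
      have hη : ω ∪ W ⊆ H75.TwoArm.BB (M - 1) := (union_subset_union_left hω).trans hEW
      have h2 := dco_clamp hM hη (dco_visit hX hω i)
      rw [hi, hz] at h2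
      have h3 : Co (du (H75.TwoArm.BB M) (ω ∪ W)) (cla M (fi X.c0)) (fi X.c0) := by
        refine cla_face hη (fi_nxC X.c0).1 ?_
        rw [lbf_nxC]
        exact hEM _ htip
      have h4 : Co (du (H75.TwoArm.BB M) (ω ∪ W)) (cla M f) f :=
        cla_face hη hu (hEM _ he)
      exact (h4.symm.trans h2.symm).trans h3
  refine h1.trans ?_
  rw [DecayAux.Pr_compl X.E (fun ω => CJ Ws (fun v => far (tr f') v r) (tr f) (ω.map dl)),
    ← Pr_map]
  refine h (tr f) (tr f') (kd (tr d)) r (X.E.map dl) Ws hr ?_ (unit_tr.2 hu) ?_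
  · have hd' : IsUnit4 (tr d) := by
      rcases hd with rfl | rfl | rfl | rfl
      · right; left; rfl
      · left; rfl
      · right; right; right; rfl
      · right; right; left; rfl
    refine thin_of hd' ?_
    intro m hm h2 h3
    have e1 : dl (m.2 - 1, m.1 - 1) = m := by
      rw [dl_apply]
      refine Prod.ext ?_ ?_ <;> simp only <;> omega
    obtain ⟨k1, k2⟩ := hreg (m.2 - 1, m.1 - 1) (by simp only; omega)
      (by simp only [tr] at h2 h3 ⊢; rw [abs_le] at h3 ⊢; omega)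
      (by simp only [tr] at h2 h3 ⊢; rw [abs_le] at h2 ⊢; omega)
    constructor
    · intro h4
      rw [← e1, mem_map' dl] at h4
      have k3 := k1 h4
      simp only [tr] at k3 ⊢
      have e2 : m.2 - 1 + 1 = m.2 := by ring
      have e3 : m.1 - 1 + 1 = m.1 := by ring
      rw [e2, e3] at k3
      linarith
    · intro h4
      rw [← e1, hWs, mem_map' dl, mem_sdiff] at h4
      exact h4.2 k2
  · rw [← dl_lbf, mem_map' dl]
    exact he

end Pool.Agent.H77.Q1
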