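import Mathlib
import Pool.Agent.H77.Q1.Arm
import Pool.Agent.H77.Q1.Star

set_option autoImplicit false
open Finset

/-! The potential along a solid side of a full cell. -/

namespace Pool.Agent.H77.Q1

open Pool.Agent.H75.Perc Pool.Agent.H75.TwoArm Pool.Agent.H75.Four Pool.Agent.H69.Q1
open Pool.Agent.Q1 (Env PrimAt Qt corners_h corners_v)
open Pool.Agent.Q1.M6c (Dobr DEnvX PlaneK PlaneEnv Free InQ mm le_mm inQ_inB)
open Pool.Agent.H68.Q1 (recd le_recd recd_nonneg seg_sum)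
open Pool.Agent.H49.Q1 (Sd Thin far)

/-- the vertex of the cell `q` at position `p` along the side `d` and depth `h` -/
def pt (n : ℤ) (q d : ℤ × ℤ) (p h : ℤ) : ℤ × ℤ :=
  if d = (0, -1) then (n * q.1 + p, n * q.2 + h)
  else if d = (0, 1) then (n * q.1 + p, n * q.2 + n - 1 - h)
  else if d = (-1, 0) then (n * q.1 + h, n * q.2 + p)
  else (n * q.1 + n - 1 - h, n * q.2 + p)

/-- the middle of the side -/
def wp (n : ℤ) (q d : ℤ × ℤ) : ℤ × ℤ := pt n q d (n / 2) 0

lemma pt_B (n : ℤ) (q : ℤ × ℤ) (p h : ℤ) : pt n q (0, -1) p h = (n * q.1 + p, n * q.2 + h) := by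
  unfold pt; rw [if_pos rfl]

lemma pt_T (n : ℤ) (q : ℤ × ℤ) (p h : ℤ) :
    pt n q (0, 1) p h = (n * q.1 + p, n * q.2 + n - 1 - h) := by
  unfold pt; rw [if_neg (by decide), if_pos rfl]

lemma pt_L (n : ℤ) (q : ℤ × ℤ) (p h : ℤ) : pt n q (-1, 0) p h = (n * q.1 + h, n * q.2 + p) := by
  unfold pt; rw [if_neg (by decide), if_neg (by decide), if_pos rfl]

lemma pt_R (n : ℤ) (q : ℤ × ℤ) (p h : ℤ) :
    pt n q (1, 0) p h = (n * q.1 + n - 1 - h, n * q.2 + p) := by
  unfold pt; rw [if_neg (by decide), if_neg (by decide), if_neg (by decide)]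

lemma lab_near (c : ℤ × ℤ) : (c.1 - 1 ≤ (lab c).1 ∧ (lab c).1 ≤ c.1 + 1) ∧
    (c.2 - 1 ≤ (lab c).2 ∧ (lab c).2 ≤ c.2 + 1) := by
  unfold lab
  split_ifs <;> simp only <;> omega

/-- the tip is far from the cell -/
def TipFar (n : ℤ) (X : Env) (q : ℤ × ℤ) : Prop :=
  3 ≤ |q.1 - (cel n (lab X.c0)).1| ∨ 3 ≤ |q.2 - (cel n (lab X.c0)).2|

lemma tip_far {n : ℤ} (hn : 64 ≤ n) {X : Env} {q y v : ℤ × ℤ} {r : ℤ} (hq : TipFar n X q)
    (h1 : n * q.1 - 2 ≤ y.1 ∧ y.1 ≤ n * q.1 + n + 2) (h2 : n * q.2 - 2 ≤ y.2 ∧ y.2 ≤ n * q.2 + n + 2)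
    (hr : r ≤ n) (hv : v = vx X.c0 ∨ v = fi X.c0) : far y v r := by
  have h3 := (cel_iff (show 1 ≤ n by omega) (l := lab X.c0)).1 rfl
  have h4 := lab_near X.c0
  unfold TipFar at hq
  set t := cel n (lab X.c0) with ht
  unfold inB eu at h3
  simp only at h3
  have hv' : ((X.c0).1 / 2 ≤ v.1 ∧ v.1 ≤ (X.c0).1 / 2 + 1) ∧
      ((X.c0).2 / 2 ≤ v.2 ∧ v.2 ≤ (X.c0).2 / 2 + 1) := by
    rcases hv with rfl | rfl
    · unfold vx; simp only; omega
    · unfold fi; simp only; omega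
  have key : ∀ a b c e l w : ℤ, n * b ≤ l / 2 → l / 2 ≤ n * b + n - 1 → c - 1 ≤ l → l ≤ c + 1 →
      c / 2 ≤ w → w ≤ c / 2 + 1 → n * a - 2 ≤ e → e ≤ n * a + n + 2 → 3 ≤ |a - b| → r ≤ |e - w| := by
    intro a b c e l w g1 g2 g3 g4 g5 g6 g7 g8 g9
    rcases le_abs.1 g9 with g | g
    · have h5 : n * (b + 3) ≤ n * a := mul_le_mul_of_nonneg_left (by omega) (by omega)
      have h6 : n * (b + 3) = n * b + 3 * n := by ring
      exact le_trans (by omega) (le_abs_self _)
    · have h5 : n * (a + 3) ≤ n * b := mul_le_mul_of_nonneg_left (by omega) (by omega)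
      have h6 : n * (a + 3) = n * a + 3 * n := by ring
      exact le_trans (by omega) (neg_le_abs _)
  unfold far
  rcases hq with hq | hq
  · left
    exact key _ _ _ _ _ _ (by omega) (by omega) h4.1.1 h4.1.2 hv'.1.1 hv'.1.2 h1.1 h1.2 hq
  · right
    exact key _ _ _ _ _ _ (by omega) (by omega) h4.2.1 h4.2.2 hv'.2.1 hv'.2.2 h2.1 h2.2 hq

section
variable {n : ℤ} {X : Env} {Hv Hf : ℤ × ℤ → ℂ}

/-- horizontal step through the face above (`j = 1`) or below (`j = 0`) -/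
lemma step_h (hH : PotC n X Hv Hf) {x y : ℤ} (hF : Full n X.E (cel n (2 * x + 1, 2 * y))) :
    (Hv (x + 1, y) - Hv (x, y) = X.inc (2 * x + 2, 2 * y) - X.inc (2 * x + 1, 2 * y)) ∧
    (Hv (x + 1, y) - Hv (x, y) = X.inc (2 * x + 2, 2 * y + 1) - X.inc (2 * x + 1, 2 * y + 1)) := by
  have h := hH (2 * x + 1, 2 * y) (by simp only; omega) hF
  obtain ⟨e1, e2, e3, e4⟩ := corners_h x y
  have h1 := h (2 * x + 1, 2 * y) (Or.inl e1.symm)
  have h2 := h (2 * x + 2, 2 * y + 1) (Or.inr (Or.inl e2.symm))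
  have h3 := h (2 * x + 1, 2 * y + 1) (Or.inr (Or.inr (Or.inl (by rw [e1, e3]))))
  have h4 := h (2 * x + 2, 2 * y) (Or.inr (Or.inr (Or.inr (by rw [e2, e4]))))
  have v1 : vx (2 * x + 1, 2 * y) = (x, y) := by unfold vx; refine Prod.ext ?_ ?_ <;> simp only <;> omega
  have v2 : vx (2 * x + 2, 2 * y + 1) = (x + 1, y) := by
    unfold vx; refine Prod.ext ?_ ?_ <;> simp only <;> omega
  have v3 : vx (2 * x + 1, 2 * y + 1) = (x, y) := by
    unfold vx; refine Prod.ext ?_ ?_ <;> simp only <;> omega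
  have v4 : vx (2 * x + 2, 2 * y) = (x + 1, y) := by
    unfold vx; refine Prod.ext ?_ ?_ <;> simp only <;> omega
  have f1 : fi (2 * x + 1, 2 * y) = (x + 1, y) := by
    unfold fi; refine Prod.ext ?_ ?_ <;> simp only <;> omega
  have f2 : fi (2 * x + 2, 2 * y + 1) = (x + 1, y + 1) := by
    unfold fi; refine Prod.ext ?_ ?_ <;> simp only <;> omega
  have f3 : fi (2 * x + 1, 2 * y + 1) = (x + 1, y + 1) := by
    unfold fi; refine Prod.ext ?_ ?_ <;> simp only <;> omega
  have f4 : fi (2 * x + 2, 2 * y) = (x + 1, y) := by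
    unfold fi; refine Prod.ext ?_ ?_ <;> simp only <;> omega
  rw [v1, f1] at h1
  rw [v2, f2] at h2
  rw [v3, f3] at h3
  rw [v4, f4] at h4
  constructor
  · linear_combination h4 - h1
  · linear_combination h2 - h3

/-- vertical step through the face on the right or on the left -/
lemma step_v (hH : PotC n X Hv Hf) {x y : ℤ} (hF : Full n X.E (cel n (2 * x, 2 * y + 1))) :
    (Hv (x, y + 1) - Hv (x, y) = X.inc (2 * x, 2 * y + 2) - X.inc (2 * x, 2 * y + 1)) ∧
    (Hv (x, y + 1) - Hv (x, y) = X.inc (2 * x + 1, 2 * y + 2) - X.inc (2 * x + 1, 2 * y + 1)) := by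
  have h := hH (2 * x, 2 * y + 1) (by simp only; omega) hF
  obtain ⟨e1, e2, e3, e4⟩ := corners_v x y
  have h1 := h (2 * x, 2 * y + 2) (Or.inl e1.symm)
  have h2 := h (2 * x + 1, 2 * y + 1) (Or.inr (Or.inl e2.symm))
  have h3 := h (2 * x + 1, 2 * y + 2) (Or.inr (Or.inr (Or.inl (by rw [e1, e3]))))
  have h4 := h (2 * x, 2 * y + 1) (Or.inr (Or.inr (Or.inr (by rw [e2, e4]))))
  have v1 : vx (2 * x, 2 * y + 2) = (x, y + 1) := by
    unfold vx; refine Prod.ext ?_ ?_ <;> simp only <;> omega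
  have v2 : vx (2 * x + 1, 2 * y + 1) = (x, y) := by
    unfold vx; refine Prod.ext ?_ ?_ <;> simp only <;> omega
  have v3 : vx (2 * x + 1, 2 * y + 2) = (x, y + 1) := by
    unfold vx; refine Prod.ext ?_ ?_ <;> simp only <;> omega
  have v4 : vx (2 * x, 2 * y + 1) = (x, y) := by
    unfold vx; refine Prod.ext ?_ ?_ <;> simp only <;> omega
  have f1 : fi (2 * x, 2 * y + 2) = (x, y + 1) := by
    unfold fi; refine Prod.ext ?_ ?_ <;> simp only <;> omega
  have f2 : fi (2 * x + 1, 2 * y + 1) = (x + 1, y + 1) := by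
    unfold fi; refine Prod.ext ?_ ?_ <;> simp only <;> omega
  have f3 : fi (2 * x + 1, 2 * y + 2) = (x + 1, y + 1) := by
    unfold fi; refine Prod.ext ?_ ?_ <;> simp only <;> omega
  have f4 : fi (2 * x, 2 * y + 1) = (x, y + 1) := by
    unfold fi; refine Prod.ext ?_ ?_ <;> simp only <;> omega
  rw [v1, f1] at h1
  rw [v2, f2] at h2
  rw [v3, f3] at h3
  rw [v4, f4] at h4
  constructor
  · linear_combination h1 - h4
  · linear_combination h3 - h2

lemma step_h_le (hH : PotC n X Hv Hf) {x y : ℤ} (hF : Full n X.E (cel n (2 * x + 1, 2 * y))) :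
    ‖Hv (x + 1, y) - Hv (x, y)‖ ≤ 2 := by
  rw [(step_h hH hF).1]
  refine (norm_sub_le _ _).trans ?_
  have h1 := Pool.Agent.Q1.Env.inc_norm_le_one X (2 * x + 2, 2 * y)
  have h2 := Pool.Agent.Q1.Env.inc_norm_le_one X (2 * x + 1, 2 * y)
  linarith

lemma step_v_le (hH : PotC n X Hv Hf) {x y : ℤ} (hF : Full n X.E (cel n (2 * x, 2 * y + 1))) :
    ‖Hv (x, y + 1) - Hv (x, y)‖ ≤ 2 := by
  rw [(step_v hH hF).1]
  refine (norm_sub_le _ _).trans ?_
  have h1 := Pool.Agent.Q1.Env.inc_norm_le_one X (2 * x, 2 * y + 2)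
  have h2 := Pool.Agent.Q1.Env.inc_norm_le_one X (2 * x, 2 * y + 1)
  linarith

end


lemma cel_reg {n : ℤ} (hn : 1 ≤ n) {e q : ℤ × ℤ} {X0 Y0 : ℤ} (hX : n * q.1 = X0)
    (hY : n * q.2 = Y0) : cel n e = q ↔
      (X0 ≤ e.1 / 2 ∧ e.1 / 2 ≤ X0 + n - 1) ∧ (Y0 ≤ e.2 / 2 ∧ e.2 / 2 ≤ Y0 + n - 1) := by
  rw [cel_iff hn]
  unfold inB eu
  rw [hX, hY]

/-- **One step along a solid side.** -/
theorem wall_step : ∃ C : ℝ, 1 ≤ C ∧ ∀ (n : ℤ) (X : Env) (W : Finset (ℤ × ℤ))
    (Hv Hf : ℤ × ℤ → ℂ) (q d : ℤ × ℤ) (p r : ℤ), 64 ≤ n → DEnvX X W → PotC n X Hv Hf →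
    lab X.c0 ∈ X.E → IsUnit4 d → Full n X.E q → Sol n X.E W (q + d) → TipFar n X q → 1 ≤ r →
    r ≤ p → p + r ≤ n - 2 →
    ‖Hv (pt n q d (p + 1) 0) - Hv (pt n q d p 0)‖ ≤ C * (r : ℝ) ^ (-(1 / 3) : ℝ) := by
  obtain ⟨C1, hC1, h1⟩ := inc_closed
  obtain ⟨C2, hC2, h2⟩ := inc_closed2
  obtain ⟨C3, hC3, h3⟩ := inc_wired2
  refine ⟨2 * (C1 + C2 + C3), by linarith, ?_⟩
  intro n X W Hv Hf q d p r hn hX hH htip hd hq hs hfar hr hrp hpr
  have hn1 : 1 ≤ n := by omega
  have hP : PlaneEnv X W := hX.toPlaneEnv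
  set X0 := n * q.1 with hX0
  set Y0 := n * q.2 with hY0
  have hin : ∀ e : ℤ × ℤ, (e.1 + e.2) % 2 = 1 → X0 ≤ e.1 / 2 → e.1 / 2 ≤ X0 + n - 1 →
      Y0 ≤ e.2 / 2 → e.2 / 2 ≤ Y0 + n - 1 → e ∈ X.E ∧ e ∉ W := by
    intro e he g1 g2 g3 g4
    have g5 : e ∈ X.E := hq e he ((cel_reg hn1 hX0.symm hY0.symm).2 ⟨⟨g1, g2⟩, g3, g4⟩)
    exact ⟨g5, fun g6 => disjoint_left.1 hX.disj g5 g6⟩
  have hrp0 : 0 ≤ (r : ℝ) ^ (-(1 / 3) : ℝ) :=
    Real.rpow_nonneg (by exact_mod_cast (by omega : (0 : ℤ) ≤ r)) _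
  have fin2 : ∀ (a b : ℂ) (C : ℝ), C ≤ C1 + C2 + C3 → ‖a‖ ≤ C * (r : ℝ) ^ (-(1 / 3) : ℝ) →
      ‖b‖ ≤ C * (r : ℝ) ^ (-(1 / 3) : ℝ) →
      ‖a - b‖ ≤ 2 * (C1 + C2 + C3) * (r : ℝ) ^ (-(1 / 3) : ℝ) := by
    intro a b C g1 g2 g3
    have g4 := mul_le_mul_of_nonneg_right g1 hrp0
    have g5 := norm_sub_le a b
    linarith
  have tf : ∀ y v : ℤ × ℤ, (X0 - 2 ≤ y.1 ∧ y.1 ≤ X0 + n + 2) → (Y0 - 2 ≤ y.2 ∧ y.2 ≤ Y0 + n + 2) →
      (v = vx X.c0 ∨ v = fi X.c0) → far y v r := by
    intro y v g1 g2 g3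
    exact tip_far hn hfar g1 g2 (by omega) g3
  have hL : IsUnit4 d := hd
  rcases hd with rfl | rfl | rfl | rfl
  · -- right
    have hq' : q + (1, 0) = (q.1 + 1, q.2) := by
      refine Prod.ext ?_ ?_ <;> simp
    rw [hq'] at hs
    have hreg : ∀ e : ℤ × ℤ, cel n e = (q.1 + 1, q.2) ↔
        (X0 + n ≤ e.1 / 2 ∧ e.1 / 2 ≤ X0 + n + n - 1) ∧ (Y0 ≤ e.2 / 2 ∧ e.2 / 2 ≤ Y0 + n - 1) :=
      fun e => cel_reg hn1 (by simp only; rw [hX0]; ring) hY0.symm
    rw [pt_R, pt_R]
    have hx : ∃ x, x = n * q.1 + n - 1 - 0 := ⟨_, rfl⟩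
    obtain ⟨x, hx⟩ := hx
    have hy : ∃ y, y = n * q.2 + p := ⟨_, rfl⟩
    obtain ⟨y, hy⟩ := hy
    have e1 : n * q.2 + (p + 1) = y + 1 := by omega
    rw [← hx, ← hy, e1]
    have hFull : Full n X.E (cel n (2 * x, 2 * y + 1)) := by
      have : cel n (2 * x, 2 * y + 1) = q := by
        rw [cel_reg hn1 hX0.symm hY0.symm]; simp only; omega
      rw [this]; exact hq
    rcases hs with hs | hs
    · -- wired
      rw [(step_v hH hFull).1]
      have key : ∀ z : ℤ × ℤ, fi z = (x, y + 1) → ‖X.inc z‖ ≤ C3 * (r : ℝ) ^ (-(1 / 3) : ℝ) := by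
        intro z hz
        refine h3 X W (x, y + 1) (x + 1, y + 1) z (1, 0) r hP htip hr hz ?_ ?_ ?_ hL ?_
        · left; refine Prod.ext ?_ ?_ <;> simp
        · have : lbf (x, y + 1) (x + 1, y + 1) = (2 * x, 2 * y + 1) := by
            unfold lbf; refine Prod.ext ?_ ?_ <;>
              simp only [Prod.fst_add, Prod.snd_add, Prod.fst_sub, Prod.snd_sub] <;> ring
          rw [this]
          exact (hin _ (by simp only; omega) (by simp only; omega) (by simp only; omega)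
            (by simp only; omega) (by simp only; omega)).1
        · exact tf _ _ (by simp only; omega) (by simp only; omega) (Or.inr rfl)
        · intro e he g1 g2
          simp only at g1 g2 ⊢
          rw [abs_le] at g1 g2
          by_cases hc : e.1 / 2 ≤ X0 + n - 1
          · have g3 := hin e he (by omega) hc (by omega) (by omega)
            exact ⟨fun _ => by omega, mem_union_left _ g3.1⟩
          · have g3 := hs e he ((hreg e).2 (by omega))
            exact ⟨fun g4 => absurd g3 (fun g5 => disjoint_left.1 hX.disj g4 g5),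
              mem_union_right _ g3⟩
      refine fin2 _ _ C3 (by linarith) (key _ ?_) (key _ ?_) <;>
      · unfold fi; refine Prod.ext ?_ ?_ <;> simp only <;> omega
    · -- closed
      rw [(step_v hH hFull).1]
      have key : ∀ (z : ℤ × ℤ) (y' : ℤ), (y' = y ∨ y' = y + 1) → vx z = (x, y') →
          ‖X.inc z‖ ≤ C2 * (r : ℝ) ^ (-(1 / 3) : ℝ) := by
        intro z y' hy' hz
        refine h2 X W (x, y') (x + 1, y') z (kd (1, 0)) r hP hr hz ?_ ?_ ?_ ?_
        · left; refine Prod.ext ?_ ?_ <;> simp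
        · have : ((x, y') : ℤ × ℤ) + (x + 1, y') = (2 * x + 1, 2 * y') := by
            refine Prod.ext ?_ ?_ <;> simp only [Prod.fst_add, Prod.snd_add] <;> ring
          rw [this]
          exact (hin _ (by simp only; omega) (by simp only; omega) (by simp only; omega)
            (by simp only; omega) (by simp only; omega)).1
        · exact tf _ _ (by simp only; omega) (by simp only; omega) (Or.inl rfl)
        · refine thin_of hL ?_
          intro e he g1 g2
          simp only at g1 g2 ⊢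
          rw [abs_le] at g1 g2
          by_cases hc : e.1 / 2 ≤ X0 + n - 1
          · have g3 := hin e he (by omega) hc (by omega) (by omega)
            exact ⟨fun _ => by omega, g3.2⟩
          · have g3 := hs e he ((hreg e).2 (by omega))
            exact ⟨fun g4 => absurd g4 g3.1, g3.2⟩
      refine fin2 _ _ C2 (by linarith) (key _ (y + 1) (Or.inr rfl) ?_) (key _ y (Or.inl rfl) ?_) <;>
      · unfold vx; refine Prod.ext ?_ ?_ <;> simp only <;> omega
  · -- top
    have hq' : q + (0, 1) = (q.1, q.2 + 1) := by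
      refine Prod.ext ?_ ?_ <;> simp
    rw [hq'] at hs
    have hreg : ∀ e : ℤ × ℤ, cel n e = (q.1, q.2 + 1) ↔
        (X0 ≤ e.1 / 2 ∧ e.1 / 2 ≤ X0 + n - 1) ∧
        (Y0 + n ≤ e.2 / 2 ∧ e.2 / 2 ≤ Y0 + n + n - 1) :=
      fun e => cel_reg hn1 hX0.symm (by simp only; rw [hY0]; ring)
    rw [pt_T, pt_T]
    obtain ⟨x, hx⟩ : ∃ x, x = n * q.1 + p := ⟨_, rfl⟩
    obtain ⟨y, hy⟩ : ∃ y, y = n * q.2 + n - 1 - 0 := ⟨_, rfl⟩
    have e1 : n * q.1 + (p + 1) = x + 1 := by omega
    rw [← hx, ← hy, e1]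
    have hFull : Full n X.E (cel n (2 * x + 1, 2 * y)) := by
      have : cel n (2 * x + 1, 2 * y) = q := by
        rw [cel_reg hn1 hX0.symm hY0.symm]; simp only; omega
      rw [this]; exact hq
    rcases hs with hs | hs
    · -- wired
      rw [(step_h hH hFull).1]
      have key : ∀ z : ℤ × ℤ, fi z = (x + 1, y) → ‖X.inc z‖ ≤ C3 * (r : ℝ) ^ (-(1 / 3) : ℝ) := by
        intro z hz
        refine h3 X W (x + 1, y) (x + 1, y + 1) z (0, 1) r hP htip hr hz ?_ ?_ ?_ hL ?_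
        · right; left; refine Prod.ext ?_ ?_ <;> simp
        · have : lbf (x + 1, y) (x + 1, y + 1) = (2 * x + 1, 2 * y) := by
            unfold lbf; refine Prod.ext ?_ ?_ <;>
              simp only [Prod.fst_add, Prod.snd_add, Prod.fst_sub, Prod.snd_sub] <;> ring
          rw [this]
          exact (hin _ (by simp only; omega) (by simp only; omega) (by simp only; omega)
            (by simp only; omega) (by simp only; omega)).1
        · exact tf _ _ (by simp only; omega) (by simp only; omega) (Or.inr rfl)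
        · intro e he g1 g2
          simp only at g1 g2 ⊢
          rw [abs_le] at g1 g2
          by_cases hc : e.2 / 2 ≤ Y0 + n - 1
          · have g3 := hin e he (by omega) (by omega) (by omega) hc
            exact ⟨fun _ => by omega, mem_union_left _ g3.1⟩
          · have g3 := hs e he ((hreg e).2 (by omega))
            exact ⟨fun g4 => absurd g3 (fun g5 => disjoint_left.1 hX.disj g4 g5),
              mem_union_right _ g3⟩
      refine fin2 _ _ C3 (by linarith) (key _ ?_) (key _ ?_) <;>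
      · unfold fi; refine Prod.ext ?_ ?_ <;> simp only <;> omega
    · -- closed
      rw [(step_h hH hFull).1]
      have key : ∀ (z : ℤ × ℤ) (x' : ℤ), (x' = x ∨ x' = x + 1) → vx z = (x', y) →
          ‖X.inc z‖ ≤ C2 * (r : ℝ) ^ (-(1 / 3) : ℝ) := by
        intro z x' hx' hz
        refine h2 X W (x', y) (x', y + 1) z (kd (0, 1)) r hP hr hz ?_ ?_ ?_ ?_
        · right; left; refine Prod.ext ?_ ?_ <;> simp
        · have : ((x', y) : ℤ × ℤ) + (x', y + 1) = (2 * x', 2 * y + 1) := by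
            refine Prod.ext ?_ ?_ <;> simp only [Prod.fst_add, Prod.snd_add] <;> ring
          rw [this]
          exact (hin _ (by simp only; omega) (by simp only; omega) (by simp only; omega)
            (by simp only; omega) (by simp only; omega)).1
        · exact tf _ _ (by simp only; omega) (by simp only; omega) (Or.inl rfl)
        · refine thin_of hL ?_
          intro e he g1 g2
          simp only at g1 g2 ⊢
          rw [abs_le] at g1 g2
          by_cases hc : e.2 / 2 ≤ Y0 + n - 1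
          · have g3 := hin e he (by omega) (by omega) (by omega) hc
            exact ⟨fun _ => by omega, g3.2⟩
          · have g3 := hs e he ((hreg e).2 (by omega))
            exact ⟨fun g4 => absurd g4 g3.1, g3.2⟩
      refine fin2 _ _ C2 (by linarith) (key _ (x + 1) (Or.inr rfl) ?_) (key _ x (Or.inl rfl) ?_) <;>
      · unfold vx; refine Prod.ext ?_ ?_ <;> simp only <;> omega
  · -- left
    have hq' : q + (-1, 0) = (q.1 - 1, q.2) := by
      refine Prod.ext ?_ ?_ <;> simp only [Prod.fst_add, Prod.snd_add] <;> ring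
    rw [hq'] at hs
    have hreg : ∀ e : ℤ × ℤ, cel n e = (q.1 - 1, q.2) ↔
        (X0 - n ≤ e.1 / 2 ∧ e.1 / 2 ≤ X0 - n + n - 1) ∧
        (Y0 ≤ e.2 / 2 ∧ e.2 / 2 ≤ Y0 + n - 1) :=
      fun e => cel_reg hn1 (by simp only; rw [hX0]; ring) hY0.symm
    rw [pt_L, pt_L]
    obtain ⟨x, hx⟩ : ∃ x, x = n * q.1 + 0 := ⟨_, rfl⟩
    obtain ⟨y, hy⟩ : ∃ y, y = n * q.2 + p := ⟨_, rfl⟩
    have e1 : n * q.2 + (p + 1) = y + 1 := by omega
    rw [← hx, ← hy, e1]
    have hFull : Full n X.E (cel n (2 * x, 2 * y + 1)) := by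
      have : cel n (2 * x, 2 * y + 1) = q := by
        rw [cel_reg hn1 hX0.symm hY0.symm]; simp only; omega
      rw [this]; exact hq
    rcases hs with hs | hs
    · -- wired
      rw [(step_v hH hFull).2]
      have key : ∀ z : ℤ × ℤ, fi z = (x + 1, y + 1) →
          ‖X.inc z‖ ≤ C3 * (r : ℝ) ^ (-(1 / 3) : ℝ) := by
        intro z hz
        refine h3 X W (x + 1, y + 1) (x, y + 1) z (-1, 0) r hP htip hr hz ?_ ?_ ?_ hL ?_
        · right; right; left
          refine Prod.ext ?_ ?_ <;> simp only [Prod.fst_sub, Prod.snd_sub] <;> ring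
        · have : lbf (x + 1, y + 1) (x, y + 1) = (2 * x, 2 * y + 1) := by
            unfold lbf; refine Prod.ext ?_ ?_ <;>
              simp only [Prod.fst_add, Prod.snd_add, Prod.fst_sub, Prod.snd_sub] <;> ring
          rw [this]
          exact (hin _ (by simp only; omega) (by simp only; omega) (by simp only; omega)
            (by simp only; omega) (by simp only; omega)).1
        · exact tf _ _ (by simp only; omega) (by simp only; omega) (Or.inr rfl)
        · intro e he g1 g2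
          simp only at g1 g2 ⊢
          rw [abs_le] at g1 g2
          by_cases hc : X0 ≤ e.1 / 2
          · have g3 := hin e he hc (by omega) (by omega) (by omega)
            exact ⟨fun _ => by omega, mem_union_left _ g3.1⟩
          · have g3 := hs e he ((hreg e).2 (by omega))
            exact ⟨fun g4 => absurd g3 (fun g5 => disjoint_left.1 hX.disj g4 g5),
              mem_union_right _ g3⟩
      refine fin2 _ _ C3 (by linarith) (key _ ?_) (key _ ?_) <;>
      · unfold fi; refine Prod.ext ?_ ?_ <;> simp only <;> omega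
    · -- closed
      rw [(step_v hH hFull).1]
      have key : ∀ (z : ℤ × ℤ) (y' : ℤ), (y' = y ∨ y' = y + 1) → vx z = (x, y') →
          ‖X.inc z‖ ≤ C1 * (r : ℝ) ^ (-(1 / 3) : ℝ) := by
        intro z y' hy' hz
        refine h1 X W (x, y') z (kd (-1, 0)) r hP hr hz ?_ ?_
        · exact tf _ _ (by simp only; omega) (by simp only; omega) (Or.inl rfl)
        · refine thin_of hL ?_
          intro e he g1 g2
          simp only at g1 g2 ⊢
          rw [abs_le] at g1 g2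
          by_cases hc : X0 ≤ e.1 / 2
          · have g3 := hin e he hc (by omega) (by omega) (by omega)
            exact ⟨fun _ => by omega, g3.2⟩
          · have g3 := hs e he ((hreg e).2 (by omega))
            exact ⟨fun g4 => absurd g4 g3.1, g3.2⟩
      refine fin2 _ _ C1 (by linarith) (key _ (y + 1) (Or.inr rfl) ?_) (key _ y (Or.inl rfl) ?_) <;>
      · unfold vx; refine Prod.ext ?_ ?_ <;> simp only <;> omega
  · -- bottom
    have hq' : q + (0, -1) = (q.1, q.2 - 1) := by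
      refine Prod.ext ?_ ?_ <;> simp only [Prod.fst_add, Prod.snd_add] <;> ring
    rw [hq'] at hs
    have hreg : ∀ e : ℤ × ℤ, cel n e = (q.1, q.2 - 1) ↔
        (X0 ≤ e.1 / 2 ∧ e.1 / 2 ≤ X0 + n - 1) ∧
        (Y0 - n ≤ e.2 / 2 ∧ e.2 / 2 ≤ Y0 - n + n - 1) :=
      fun e => cel_reg hn1 hX0.symm (by simp only; rw [hY0]; ring)
    rw [pt_B, pt_B]
    obtain ⟨x, hx⟩ : ∃ x, x = n * q.1 + p := ⟨_, rfl⟩
    obtain ⟨y, hy⟩ : ∃ y, y = n * q.2 + 0 := ⟨_, rfl⟩
    have e1 : n * q.1 + (p + 1) = x + 1 := by omega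
    rw [← hx, ← hy, e1]
    have hFull : Full n X.E (cel n (2 * x + 1, 2 * y)) := by
      have : cel n (2 * x + 1, 2 * y) = q := by
        rw [cel_reg hn1 hX0.symm hY0.symm]; simp only; omega
      rw [this]; exact hq
    rcases hs with hs | hs
    · -- wired
      rw [(step_h hH hFull).2]
      have key : ∀ z : ℤ × ℤ, fi z = (x + 1, y + 1) →
          ‖X.inc z‖ ≤ C3 * (r : ℝ) ^ (-(1 / 3) : ℝ) := by
        intro z hz
        refine h3 X W (x + 1, y + 1) (x + 1, y) z (0, -1) r hP htip hr hz ?_ ?_ ?_ hL ?_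
        · right; right; right
          refine Prod.ext ?_ ?_ <;> simp only [Prod.fst_sub, Prod.snd_sub] <;> ring
        · have : lbf (x + 1, y + 1) (x + 1, y) = (2 * x + 1, 2 * y) := by
            unfold lbf; refine Prod.ext ?_ ?_ <;>
              simp only [Prod.fst_add, Prod.snd_add, Prod.fst_sub, Prod.snd_sub] <;> ring
          rw [this]
          exact (hin _ (by simp only; omega) (by simp only; omega) (by simp only; omega)
            (by simp only; omega) (by simp only; omega)).1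
        · exact tf _ _ (by simp only; omega) (by simp only; omega) (Or.inr rfl)
        · intro e he g1 g2
          simp only at g1 g2 ⊢
          rw [abs_le] at g1 g2
          by_cases hc : Y0 ≤ e.2 / 2
          · have g3 := hin e he (by omega) (by omega) hc (by omega)
            exact ⟨fun _ => by omega, mem_union_left _ g3.1⟩
          · have g3 := hs e he ((hreg e).2 (by omega))
            exact ⟨fun g4 => absurd g3 (fun g5 => disjoint_left.1 hX.disj g4 g5),
              mem_union_right _ g3⟩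
      refine fin2 _ _ C3 (by linarith) (key _ ?_) (key _ ?_) <;>
      · unfold fi; refine Prod.ext ?_ ?_ <;> simp only <;> omega
    · -- closed
      rw [(step_h hH hFull).1]
      have key : ∀ (z : ℤ × ℤ) (x' : ℤ), (x' = x ∨ x' = x + 1) → vx z = (x', y) →
          ‖X.inc z‖ ≤ C1 * (r : ℝ) ^ (-(1 / 3) : ℝ) := by
        intro z x' hx' hz
        refine h1 X W (x', y) z (kd (0, -1)) r hP hr hz ?_ ?_
        · exact tf _ _ (by simp only; omega) (by simp only; omega) (Or.inl rfl)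
        · refine thin_of hL ?_
          intro e he g1 g2
          simp only at g1 g2 ⊢
          rw [abs_le] at g1 g2
          by_cases hc : Y0 ≤ e.2 / 2
          · have g3 := hin e he (by omega) (by omega) hc (by omega)
            exact ⟨fun _ => by omega, g3.2⟩
          · have g3 := hs e he ((hreg e).2 (by omega))
            exact ⟨fun g4 => absurd g4 g3.1, g3.2⟩
      refine fin2 _ _ C1 (by linarith) (key _ (x + 1) (Or.inr rfl) ?_) (key _ x (Or.inl rfl) ?_) <;>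
      · unfold vx; refine Prod.ext ?_ ?_ <;> simp only <;> omega


/-! ### Sums -/

lemma pow_step (m : ℕ) : (3 / 2 : ℝ) * (m : ℝ) ^ (2 / 3 : ℝ) + ((m + 1 : ℕ) : ℝ) ^ (-(1 / 3) : ℝ) ≤
    3 / 2 * ((m + 1 : ℕ) : ℝ) ^ (2 / 3 : ℝ) := by
  have hM : (0 : ℝ) < ((m + 1 : ℕ) : ℝ) := by positivity
  set M : ℝ := ((m + 1 : ℕ) : ℝ) with hMdef
  have hm : (m : ℝ) = M * (1 + (-1 / M)) := by
    rw [hMdef]; push_cast; field_simp; ring
  have h1M : 1 ≤ M := by rw [hMdef]; push_cast; linarith [(Nat.cast_nonneg m : (0 : ℝ) ≤ m)]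
  have h0 : -1 ≤ -1 / M := by
    rw [le_div_iff₀ hM]; linarith
  have h1 : (1 + -1 / M) ^ (2 / 3 : ℝ) ≤ 1 + 2 / 3 * (-1 / M) :=
    rpow_one_add_le_one_add_mul_self h0 (by norm_num) (by norm_num)
  have h2 : (m : ℝ) ^ (2 / 3 : ℝ) = M ^ (2 / 3 : ℝ) * (1 + -1 / M) ^ (2 / 3 : ℝ) := by
    rw [hm, Real.mul_rpow hM.le (by linarith)]
  have h3 : M ^ (2 / 3 : ℝ) = M ^ (-(1 / 3) : ℝ) * M := by
    rw [← Real.rpow_add_one hM.ne']
    norm_num
  have h4 : 0 ≤ M ^ (2 / 3 : ℝ) := by positivity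
  have h5 := mul_le_mul_of_nonneg_left h1 h4
  rw [h2]
  have h6 : M ^ (2 / 3 : ℝ) * (2 / 3 * (-1 / M)) = -(2 / 3) * M ^ (-(1 / 3) : ℝ) := by
    rw [h3]; field_simp
  nlinarith

lemma tele_sum {G : ℕ → ℂ} {C : ℝ} (hC : 0 ≤ C) (J : ℕ) (h0 : 1 ≤ J → ‖G 1 - G 0‖ ≤ 2)
    (h : ∀ j : ℕ, 1 ≤ j → j < J → ‖G (j + 1) - G j‖ ≤ C * (j : ℝ) ^ (-(1 / 3) : ℝ)) :
    ‖G J - G 0‖ ≤ 2 + C * (3 / 2) * (J : ℝ) ^ (2 / 3 : ℝ) := by
  have key : ∀ j : ℕ, j + 1 ≤ J → ‖G (j + 1) - G 0‖ ≤ 2 + C * (3 / 2) * (j : ℝ) ^ (2 / 3 : ℝ) := by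
    intro j
    induction j with
    | zero =>
      intro hj
      have := h0 hj
      have h1 : 0 ≤ C * (3 / 2) * ((0 : ℕ) : ℝ) ^ (2 / 3 : ℝ) := by positivity
      rw [zero_add]
      linarith
    | succ j ih =>
      intro hj
      have h1 := ih (by omega)
      have h2 := h (j + 1) (by omega) (by omega)
      have h3 := mul_le_mul_of_nonneg_left (pow_step j) hC
      have e : G (j + 1 + 1) - G 0 = (G (j + 1 + 1) - G (j + 1)) + (G (j + 1) - G 0) := by ring
      rw [e]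
      refine (norm_add_le _ _).trans ?_
      linarith
  rcases Nat.eq_zero_or_pos J with h1 | h1
  · subst h1
    simp
  · have h2 := key (J - 1) (by omega)
    rw [Nat.sub_add_cancel h1] at h2
    have h3 : ((J - 1 : ℕ) : ℝ) ^ (2 / 3 : ℝ) ≤ (J : ℝ) ^ (2 / 3 : ℝ) :=
      Real.rpow_le_rpow (by positivity) (by exact_mod_cast (by omega : J - 1 ≤ J)) (by norm_num)
    have h4 := mul_le_mul_of_nonneg_left h3 (show 0 ≤ C * (3 / 2) by positivity)
    linarith

/-- adjacent vertices -/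
lemma step_le {n : ℤ} {X : Env} {Hv Hf : ℤ × ℤ → ℂ} (hH : PotC n X Hv Hf) {u v : ℤ × ℤ}
    (huv : IsUnit4 (v - u)) (hF : Full n X.E (cel n (u + v))) : ‖Hv v - Hv u‖ ≤ 2 := by
  obtain ⟨a, b⟩ := u
  obtain ⟨c, d⟩ := v
  rcases unit_cases huv with ⟨h3, h4⟩ | ⟨h3, h4⟩ | ⟨h3, h4⟩ | ⟨h3, h4⟩ <;> simp only at h3 h4
  · subst h3; subst h4
    refine step_h_le hH ?_
    have e : ((a, d) : ℤ × ℤ) + (a + 1, d) = (2 * a + 1, 2 * d) := by
      refine Prod.ext ?_ ?_ <;> simp only [Prod.fst_add, Prod.snd_add] <;> ring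
    rwa [e] at hF
  · subst h3; subst h4
    refine step_v_le hH ?_
    have e : ((c, b) : ℤ × ℤ) + (c, b + 1) = (2 * c, 2 * b + 1) := by
      refine Prod.ext ?_ ?_ <;> simp only [Prod.fst_add, Prod.snd_add] <;> ring
    rwa [e] at hF
  · have e1 : a = c + 1 := by omega
    subst e1; subst h4
    rw [norm_sub_rev]
    refine step_h_le hH ?_
    have e : ((c + 1, d) : ℤ × ℤ) + (c, d) = (2 * c + 1, 2 * d) := by
      refine Prod.ext ?_ ?_ <;> simp only [Prod.fst_add, Prod.snd_add] <;> ring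
    rwa [e] at hF
  · have e1 : b = d + 1 := by omega
    subst e1; subst h3
    rw [norm_sub_rev]
    refine step_v_le hH ?_
    have e : ((c, d + 1) : ℤ × ℤ) + (c, d) = (2 * c, 2 * d + 1) := by
      refine Prod.ext ?_ ?_ <;> simp only [Prod.fst_add, Prod.snd_add] <;> ring
    rwa [e] at hF

/-- trivial steps along the side and in depth -/
lemma pt_step {n : ℤ} (hn : 1 ≤ n) {X : Env} {Hv Hf : ℤ × ℤ → ℂ} (hH : PotC n X Hv Hf)
    {q d : ℤ × ℤ} (hd : IsUnit4 d) (hq : Full n X.E q) {p h : ℤ} (hp : 0 ≤ p) (hh : 0 ≤ h)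
    (hh' : h ≤ n - 1) (hp' : p ≤ n - 1) :
    (p + 1 ≤ n - 1 → ‖Hv (pt n q d (p + 1) h) - Hv (pt n q d p h)‖ ≤ 2) ∧
    (h + 1 ≤ n - 1 → ‖Hv (pt n q d p (h + 1)) - Hv (pt n q d p h)‖ ≤ 2) := by
  have hfull : ∀ e : ℤ × ℤ, (n * q.1 ≤ e.1 / 2 ∧ e.1 / 2 ≤ n * q.1 + n - 1) →
      (n * q.2 ≤ e.2 / 2 ∧ e.2 / 2 ≤ n * q.2 + n - 1) → Full n X.E (cel n e) := by
    intro e g1 g2
    rw [(cel_reg hn rfl rfl).2 ⟨g1, g2⟩]
    exact hq
  have un : ∀ a b c e : ℤ, (c = a + 1 ∧ e = b) ∨ (c = a ∧ e = b + 1) ∨ (c + 1 = a ∧ e = b) ∨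
      (c = a ∧ e + 1 = b) → IsUnit4 ((c, e) - ((a, b) : ℤ × ℤ)) := by
    intro a b c e h
    unfold IsUnit4
    simp only [Prod.mk_sub_mk, Prod.mk.injEq]
    omega
  rcases hd with rfl | rfl | rfl | rfl
  · constructor <;> intro g <;> rw [pt_R, pt_R] <;> refine step_le hH (un _ _ _ _ (by omega)) ?_ <;>
    refine hfull _ ?_ ?_ <;> simp only [Prod.fst_add, Prod.snd_add] <;> omega
  · constructor <;> intro g <;> rw [pt_T, pt_T] <;> refine step_le hH (un _ _ _ _ (by omega)) ?_ <;>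
    refine hfull _ ?_ ?_ <;> simp only [Prod.fst_add, Prod.snd_add] <;> omega
  · constructor <;> intro g <;> rw [pt_L, pt_L] <;> refine step_le hH (un _ _ _ _ (by omega)) ?_ <;>
    refine hfull _ ?_ ?_ <;> simp only [Prod.fst_add, Prod.snd_add] <;> omega
  · constructor <;> intro g <;> rw [pt_B, pt_B] <;> refine step_le hH (un _ _ _ _ (by omega)) ?_ <;>
    refine hfull _ ?_ ?_ <;> simp only [Prod.fst_add, Prod.snd_add] <;> omega

/-- **Half a solid side.** -/
theorem half_side : ∃ C : ℝ, 1 ≤ C ∧ ∀ (n : ℤ) (X : Env) (W : Finset (ℤ × ℤ))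
    (Hv Hf : ℤ × ℤ → ℂ) (q d : ℤ × ℤ), 64 ≤ n → DEnvX X W → PotC n X Hv Hf →
    lab X.c0 ∈ X.E → IsUnit4 d → Full n X.E q → Sol n X.E W (q + d) → TipFar n X q →
    ‖Hv (pt n q d (n - 1) 0) - Hv (wp n q d)‖ ≤ C * (n : ℝ) ^ (2 / 3 : ℝ) ∧
    ‖Hv (pt n q d 0 0) - Hv (wp n q d)‖ ≤ C * (n : ℝ) ^ (2 / 3 : ℝ) := by
  obtain ⟨C, hC, h⟩ := wall_step
  refine ⟨2 + C * (3 / 2), by linarith, ?_⟩
  intro n X W Hv Hf q d hn hX hH htip hd hq hs hfar
  have hn0 : (0 : ℝ) < n := by exact_mod_cast (by omega : 0 < n)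
  have hn1 : (1 : ℝ) ≤ (n : ℝ) ^ (2 / 3 : ℝ) :=
    Real.one_le_rpow (by exact_mod_cast (by omega : 1 ≤ n)) (by norm_num)
  have fin : ∀ J : ℕ, (J : ℤ) ≤ n → 2 + C * (3 / 2) * (J : ℝ) ^ (2 / 3 : ℝ) ≤
      (2 + C * (3 / 2)) * (n : ℝ) ^ (2 / 3 : ℝ) := by
    intro J hJ
    have h3 : (J : ℝ) ^ (2 / 3 : ℝ) ≤ (n : ℝ) ^ (2 / 3 : ℝ) :=
      Real.rpow_le_rpow (by positivity) (by exact_mod_cast hJ) (by norm_num)
    have h4 := mul_le_mul_of_nonneg_left h3 (show 0 ≤ C * (3 / 2) by positivity)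
    linarith
  have hst := fun {p : ℤ} (hp : 0 ≤ p) (hp' : p ≤ n - 1) =>
    (pt_step (n := n) (by omega) hH hd hq hp le_rfl (by omega) hp').1
  constructor
  · obtain ⟨J, hJ⟩ := Int.eq_ofNat_of_zero_le (show 0 ≤ n - 1 - n / 2 by omega)
    have key := tele_sum (G := fun j : ℕ => Hv (pt n q d (n - 1 - j) 0)) (C := C) (by linarith) J
      (by
        intro _
        have g1 := hst (p := n - 2) (by omega) (by omega) (by omega)
        rw [norm_sub_rev]
        have e1 : n - 1 - ((0 : ℕ) : ℤ) = n - 2 + 1 := by push_cast; ring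
        have e2 : n - 1 - ((1 : ℕ) : ℤ) = n - 2 := by push_cast; ring
        rw [e1, e2]
        exact g1)
      (by
        intro j hj1 hj2
        have g1 := h n X W Hv Hf q d (n - 1 - (j + 1)) j hn hX hH htip hd hq hs hfar (by omega)
          (by omega) (by omega)
        rw [norm_sub_rev]
        have e1 : n - 1 - ((j : ℕ) : ℤ) = n - 1 - (j + 1) + 1 := by ring
        have e2 : n - 1 - ((j + 1 : ℕ) : ℤ) = n - 1 - (j + 1) := by push_cast; ring
        rw [e1, e2]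
        exact_mod_cast g1)
    rw [norm_sub_rev]
    have e1 : n - 1 - (J : ℤ) = n / 2 := by omega
    simp only [e1] at key
    have e2 : n - 1 - ((0 : ℕ) : ℤ) = n - 1 := by push_cast; ring
    rw [e2] at key
    exact key.trans (fin J (by omega))
  · obtain ⟨J, hJ⟩ := Int.eq_ofNat_of_zero_le (show 0 ≤ n / 2 by omega)
    have key := tele_sum (G := fun j : ℕ => Hv (pt n q d j 0)) (C := C) (by linarith) J
      (by
        intro _
        have g1 := hst (p := 0) (by omega) (by omega) (by omega)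
        simpa using g1)
      (by
        intro j hj1 hj2
        have g1 := h n X W Hv Hf q d j j hn hX hH htip hd hq hs hfar (by omega)
          (by omega) (by omega)
        push_cast
        exact_mod_cast g1)
    rw [norm_sub_rev]
    unfold wp
    rw [hJ]
    simp only [Nat.cast_zero] at key
    exact key.trans (fin J (by omega))


/-! ### From one side to the next -/

/-- the corner vertex of the cell between the sides `d` and `t` -/
def en (n : ℤ) (q d t : ℤ × ℤ) : ℤ × ℤ :=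
  (n * q.1 + (if d.1 + t.1 = 1 then n - 1 else 0), n * q.2 + (if d.2 + t.2 = 1 then n - 1 else 0))

lemma en_comm (n : ℤ) (q d t : ℤ × ℤ) : en n q d t = en n q t d := by
  unfold en
  rw [add_comm d.1, add_comm d.2]

theorem half_side' : ∃ C : ℝ, 1 ≤ C ∧ ∀ (n : ℤ) (X : Env) (W : Finset (ℤ × ℤ))
    (Hv Hf : ℤ × ℤ → ℂ) (q d t : ℤ × ℤ), 64 ≤ n → DEnvX X W → PotC n X Hv Hf →
    lab X.c0 ∈ X.E → IsUnit4 d → IsUnit4 t → d.1 * t.1 + d.2 * t.2 = 0 → Full n X.E q →
    Sol n X.E W (q + d) → TipFar n X q →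
    ‖Hv (en n q d t) - Hv (wp n q d)‖ ≤ C * (n : ℝ) ^ (2 / 3 : ℝ) := by
  obtain ⟨C, hC, h⟩ := half_side
  refine ⟨C, hC, ?_⟩
  intro n X W Hv Hf q d t hn hX hH htip hd ht hdt hq hs hfar
  obtain ⟨h1, h2⟩ := h n X W Hv Hf q d hn hX hH htip hd hq hs hfar
  have key : en n q d t = pt n q d (n - 1) 0 ∨ en n q d t = pt n q d 0 0 := by
    rcases hd with rfl | rfl | rfl | rfl <;> rcases ht with rfl | rfl | rfl | rfl <;>
    first
    | (exfalso; simp at hdt; done)
    | (left; (first | rw [pt_R] | rw [pt_T] | rw [pt_L] | rw [pt_B]); unfold en;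
       refine Prod.ext ?_ ?_ <;> norm_num <;> omega)
    | (right; (first | rw [pt_R] | rw [pt_T] | rw [pt_L] | rw [pt_B]); unfold en;
       refine Prod.ext ?_ ?_ <;> norm_num <;> omega)
  rcases key with e | e
  · rw [e]; exact h1
  · rw [e]; exact h2


lemma en_step {n : ℤ} (hn : 1 ≤ n) {q d t : ℤ × ℤ} (hd : IsUnit4 d) (ht : IsUnit4 t)
    (hdt : d.1 * t.1 + d.2 * t.2 = 0) : IsUnit4 (en n (q + t) d (-t) - en n q d t) ∧
      (cel n (en n q d t + en n (q + t) d (-t)) = q ∨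
        cel n (en n q d t + en n (q + t) d (-t)) = q + t) := by
  have m1 : n * (q.1 + 1) = n * q.1 + n := by ring
  have m2 : n * (q.2 + 1) = n * q.2 + n := by ring
  have m3 : n * (q.1 + -1) = n * q.1 - n := by ring
  have m4 : n * (q.2 + -1) = n * q.2 - n := by ring
  rw [cel_reg hn rfl rfl, cel_reg hn rfl rfl]
  unfold en IsUnit4
  rcases hd with rfl | rfl | rfl | rfl <;> rcases ht with rfl | rfl | rfl | rfl <;>
  first
  | (exfalso; simp at hdt; done)
  | (simp only [Prod.fst_add, Prod.snd_add, Prod.fst_neg, Prod.snd_neg, Prod.mk_sub_mk,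
       Prod.mk.injEq, m1, m2, m3, m4, add_zero, neg_zero]
     norm_num
     omega)

lemma neg_unit {t : ℤ × ℤ} (ht : IsUnit4 t) : IsUnit4 (-t) := by
  rcases ht with rfl | rfl | rfl | rfl
  · right; right; left; rfl
  · right; right; right; rfl
  · left; rfl
  · right; left; rfl

/-- **From one solid side to the next.** -/
theorem side_next : ∃ C : ℝ, 1 ≤ C ∧ ∀ (n : ℤ) (X : Env) (W : Finset (ℤ × ℤ))
    (Hv Hf : ℤ × ℤ → ℂ) (q d t : ℤ × ℤ), 64 ≤ n → DEnvX X W → PotC n X Hv Hf →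
    lab X.c0 ∈ X.E → IsUnit4 d → IsUnit4 t → d.1 * t.1 + d.2 * t.2 = 0 → Full n X.E q →
    Sol n X.E W (q + d) → TipFar n X q →
    (Full n X.E (q + t) → Sol n X.E W (q + t + d) → TipFar n X (q + t) →
      ‖Hv (wp n (q + t) d) - Hv (wp n q d)‖ ≤ C * (n : ℝ) ^ (2 / 3 : ℝ)) ∧
    (Sol n X.E W (q + t) → ‖Hv (wp n q t) - Hv (wp n q d)‖ ≤ C * (n : ℝ) ^ (2 / 3 : ℝ)) ∧
    (Full n X.E (q + t) → Full n X.E (q + t + d) → TipFar n X (q + t + d) →
      ‖Hv (wp n (q + t + d) (-t)) - Hv (wp n q d)‖ ≤ C * (n : ℝ) ^ (2 / 3 : ℝ)) := by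
  obtain ⟨C, hC, h⟩ := half_side'
  refine ⟨2 * C + 4, by linarith, ?_⟩
  intro n X W Hv Hf q d t hn hX hH htip hd ht hdt hq hs hfar
  have hn1 : (1 : ℝ) ≤ (n : ℝ) ^ (2 / 3 : ℝ) :=
    Real.one_le_rpow (by exact_mod_cast (by omega : 1 ≤ n)) (by norm_num)
  have h0 := h n X W Hv Hf q d t hn hX hH htip hd ht hdt hq hs hfar
  have hnt := neg_unit ht
  have hnd := neg_unit hd
  have key : Full n X.E (q + t) → ‖Hv (en n (q + t) d (-t)) - Hv (en n q d t)‖ ≤ 2 := by
    intro h1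
    obtain ⟨h2, h3⟩ := en_step (n := n) (q := q) (by omega) hd ht hdt
    refine step_le hH h2 ?_
    rcases h3 with h3 | h3
    · rw [h3]; exact hq
    · rw [h3]; exact h1
  refine ⟨?_, ?_, ?_⟩
  · intro h1 h2 h3
    have h4 := h n X W Hv Hf (q + t) d (-t) hn hX hH htip hd hnt
      (by simp only [Prod.fst_neg, Prod.snd_neg]; linarith) h1 h2 h3
    have h5 := key h1
    have e : Hv (wp n (q + t) d) - Hv (wp n q d) = -(Hv (en n (q + t) d (-t)) -
      Hv (wp n (q + t) d)) + (Hv (en n (q + t) d (-t)) - Hv (en n q d t)) +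
      (Hv (en n q d t) - Hv (wp n q d)) := by ring
    rw [e]
    refine (norm_add_le _ _).trans ?_
    have h6 := norm_add_le (-(Hv (en n (q + t) d (-t)) - Hv (wp n (q + t) d)))
      (Hv (en n (q + t) d (-t)) - Hv (en n q d t))
    rw [norm_neg] at h6
    nlinarith
  · intro h1
    have h4 := h n X W Hv Hf q t d hn hX hH htip ht hd (by linarith) hq h1 hfar
    rw [en_comm] at h4
    have e : Hv (wp n q t) - Hv (wp n q d) = -(Hv (en n q d t) - Hv (wp n q t)) +
      (Hv (en n q d t) - Hv (wp n q d)) := by ring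
    rw [e]
    refine (norm_add_le _ _).trans ?_
    rw [norm_neg]
    nlinarith
  · intro h1 h2 h3
    have hs' : Sol n X.E W (q + t + d + -t) := by
      have : q + t + d + -t = q + d := by abel
      rw [this]; exact hs
    have h4 := h n X W Hv Hf (q + t + d) (-t) (-d) hn hX hH htip hnt hnd
      (by simp only [Prod.fst_neg, Prod.snd_neg]; linarith) h2 hs' h3
    have h5 := key h1
    have h6 : ‖Hv (en n (q + t + d) (-t) (-d)) - Hv (en n (q + t) (-t) d)‖ ≤ 2 := by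
      obtain ⟨g2, g3⟩ := en_step (n := n) (q := q + t) (d := -t) (t := d) (by omega) hnt hd
        (by simp only [Prod.fst_neg, Prod.snd_neg]; linarith)
      refine step_le hH g2 ?_
      rcases g3 with g3 | g3
      · rw [g3]; exact h1
      · rw [g3]; exact h2
    rw [en_comm n (q + t) (-t) d] at h6
    have e : Hv (wp n (q + t + d) (-t)) - Hv (wp n q d) =
      -(Hv (en n (q + t + d) (-t) (-d)) - Hv (wp n (q + t + d) (-t))) +
      (Hv (en n (q + t + d) (-t) (-d)) - Hv (en n (q + t) d (-t))) +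
      (Hv (en n (q + t) d (-t)) - Hv (en n q d t)) + (Hv (en n q d t) - Hv (wp n q d)) := by ring
    rw [e]
    refine (norm_add_le _ _).trans ?_
    have h7 := norm_add_le (-(Hv (en n (q + t + d) (-t) (-d)) - Hv (wp n (q + t + d) (-t))) +
      (Hv (en n (q + t + d) (-t) (-d)) - Hv (en n (q + t) d (-t))))
      (Hv (en n (q + t) d (-t)) - Hv (en n q d t))
    have h8 := norm_add_le (-(Hv (en n (q + t + d) (-t) (-d)) - Hv (wp n (q + t + d) (-t))))
      (Hv (en n (q + t + d) (-t) (-d)) - Hv (en n (q + t) d (-t)))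
    rw [norm_neg] at h8
    nlinarith

/-! ### From the centre to the side -/

/-- **From the centre of a cell to the middle of a side.** -/
theorem side_centre {n : ℤ} {N : ℕ} {X : Env} {Hv Hf : ℤ × ℤ → ℂ} {q d : ℤ × ℤ} (hn : 64 ≤ n)
    (hnN : n ≤ N) (hX : PlaneK X) (hH : PotC n X Hv Hf) (hd : IsUnit4 d) (hq : Full n X.E q) :
    ‖Hv (ctc n q) - Hv (wp n q d)‖ ≤ (128 + 32 * recd mm N) * (n : ℝ) ^ (2 / 3 : ℝ) := by
  have hR := recd_nonneg mm N
  have hn1 : (1 : ℝ) ≤ (n : ℝ) ^ (2 / 3 : ℝ) :=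
    Real.one_le_rpow (by exact_mod_cast (by omega : 1 ≤ n)) (by norm_num)
  -- the centre
  obtain ⟨h0, hh0, hh1, hc⟩ : ∃ h0 : ℕ, (h0 : ℤ) ≤ n / 2 ∧ 31 ≤ h0 ∧
      ctc n q = pt n q d (n / 2) h0 := by
    obtain ⟨a, ha⟩ := Int.eq_ofNat_of_zero_le (show 0 ≤ n / 2 by omega)
    obtain ⟨b, hb⟩ := Int.eq_ofNat_of_zero_le (show 0 ≤ n - 1 - n / 2 by omega)
    unfold ctc
    rcases hd with rfl | rfl | rfl | rfl
    · refine ⟨b, by omega, by omega, ?_⟩
      rw [pt_R]; refine Prod.ext ?_ ?_ <;> simp only <;> omega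
    · refine ⟨b, by omega, by omega, ?_⟩
      rw [pt_T]; refine Prod.ext ?_ ?_ <;> simp only <;> omega
    · refine ⟨a, by omega, by omega, ?_⟩
      rw [pt_L]; refine Prod.ext ?_ ?_ <;> simp only <;> omega
    · refine ⟨a, by omega, by omega, ?_⟩
      rw [pt_B]; refine Prod.ext ?_ ?_ <;> simp only <;> omega
  -- trivial steps
  have triv : ∀ j : ℕ, j ≤ h0 → ‖Hv (pt n q d (n / 2) j) - Hv (pt n q d (n / 2) 0)‖ ≤ 2 * j := by
    intro j
    induction j with
    | zero => intro _; simp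
    | succ j ih =>
      intro hj
      have h1 := ih (by omega)
      have h2 := (pt_step (n := n) (by omega) hH hd hq (p := n / 2) (h := j) (by omega) (by omega)
        (by omega) (by omega)).2 (by omega)
      have e : Hv (pt n q d (n / 2) ((j + 1 : ℕ) : ℤ)) - Hv (pt n q d (n / 2) 0) =
        (Hv (pt n q d (n / 2) ((j : ℤ) + 1)) - Hv (pt n q d (n / 2) j)) +
        (Hv (pt n q d (n / 2) j) - Hv (pt n q d (n / 2) 0)) := by push_cast; ring
      rw [e]
      refine (norm_add_le _ _).trans ?_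
      push_cast
      linarith
  have hb : ∀ t : ℕ, 1 ≤ t → t ≤ h0 → FullB n X.E (pt n q d (n / 2) t) ((t - 1 : ℕ) : ℤ) := by
    intro t ht ht' l hl
    rw [mem_Bx] at hl
    have : cel n l = q := by
      rw [cel_reg (by omega) rfl rfl]
      rcases hd with rfl | rfl | rfl | rfl
      · rw [pt_R] at hl; simp only at hl; push_cast [Nat.cast_sub ht] at hl; omega
      · rw [pt_T] at hl; simp only at hl; push_cast [Nat.cast_sub ht] at hl; omega
      · rw [pt_L] at hl; simp only at hl; push_cast [Nat.cast_sub ht] at hl; omega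
      · rw [pt_B] at hl; simp only at hl; push_cast [Nat.cast_sub ht] at hl; omega
    rw [this]; exact hq
  have hQ : ∀ t s : ℕ, s ≤ t → 8 * (t - s) ≤ t → 64 ≤ t →
      InQ (pt n q d (n / 2) t) (t - 1) (pt n q d (n / 2) s) := by
    intro t s h1 h2 h3
    have key : ∀ a b : ℤ, (a = b ∨ |a - b| = t - s) → 4 * |a - b| ≤ ((t - 1 : ℕ) : ℤ) := by
      intro a b hab
      rcases hab with rfl | hab
      · simp
      · rw [hab]; omega
    rcases hd with rfl | rfl | rfl | rfl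
    · rw [pt_R, pt_R]
      refine inQ_of (key _ _ (Or.inr ?_)) (key _ _ (Or.inl rfl))
      have e : n * q.1 + n - 1 - (s : ℤ) - (n * q.1 + n - 1 - t) = (t : ℤ) - s := by ring
      rw [e, abs_of_nonneg (by omega)]
    · rw [pt_T, pt_T]
      refine inQ_of (key _ _ (Or.inl rfl)) (key _ _ (Or.inr ?_))
      have e : n * q.2 + n - 1 - (s : ℤ) - (n * q.2 + n - 1 - t) = (t : ℤ) - s := by ring
      rw [e, abs_of_nonneg (by omega)]
    · rw [pt_L, pt_L]
      refine inQ_of (key _ _ (Or.inr ?_)) (key _ _ (Or.inl rfl))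
      have e : n * q.1 + (s : ℤ) - (n * q.1 + t) = -((t : ℤ) - s) := by ring
      rw [e, abs_neg, abs_of_nonneg (by omega)]
    · rw [pt_B, pt_B]
      refine inQ_of (key _ _ (Or.inl rfl)) (key _ _ (Or.inr ?_))
      have e : n * q.2 + (s : ℤ) - (n * q.2 + t) = -((t : ℤ) - s) := by ring
      rw [e, abs_neg, abs_of_nonneg (by omega)]
  rw [hc]
  unfold wp
  by_cases h64 : h0 < 64
  · have h1 := triv h0 le_rfl
    have h2 : (h0 : ℝ) ≤ 64 := by exact_mod_cast h64.le
    nlinarith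
  · push Not at h64
    have h1 := triv 64 h64
    have hsum := seg_sum (h := fun t => Hv (pt n q d (n / 2) ((min t h0 : ℕ) : ℤ)))
      (r := recd mm N) (t0 := 64) hR le_rfl (by
        intro t s hs ht
        set t' := min t h0 with ht'
        set s' := min (t - s) h0 with hs'
        have g1 : s' ≤ t' := by omega
        have g2 : 8 * (t' - s') ≤ t' := by omega
        have g3 : 64 ≤ t' := by omega
        have := pot_box' (N := N) hX hH (x := pt n q d (n / 2) t') (u := pt n q d (n / 2) s')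
          (v := pt n q d (n / 2) t') (m := t' - 1) (by omega) (by omega) (hb t' (by omega) (by omega))
          (hQ t' s' g1 g2 g3) (hQ t' t' le_rfl (by omega) g3)
        refine this.trans (mul_le_mul_of_nonneg_left ?_ hR)
        exact Real.rpow_le_rpow (by positivity) (by exact_mod_cast (by omega : t' - 1 ≤ t))
          (by norm_num)) h0 h64
    simp only [min_self, min_eq_left h64] at hsum
    have h2 : (h0 : ℝ) ^ (2 / 3 : ℝ) ≤ (n : ℝ) ^ (2 / 3 : ℝ) := by
      refine Real.rpow_le_rpow (by positivity) ?_ (by norm_num)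
      exact_mod_cast (by omega : (h0 : ℤ) ≤ n)
    have h3 := mul_le_mul_of_nonneg_left h2 (show 0 ≤ 32 * recd mm N by positivity)
    have e : Hv (pt n q d (n / 2) h0) - Hv (pt n q d (n / 2) 0) =
      (Hv (pt n q d (n / 2) h0) - Hv (pt n q d (n / 2) ((64 : ℕ) : ℤ))) +
      (Hv (pt n q d (n / 2) ((64 : ℕ) : ℤ)) - Hv (pt n q d (n / 2) 0)) := by ring
    rw [e]
    refine (norm_add_le _ _).trans ?_
    push_cast at h1 hsum ⊢
    nlinarith

end Pool.Agent.H77.Q1
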