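import Mathlib
import Pool.Agent.H77.Q1.Star
import Pool.Agent.H30.Cell.Final

set_option autoImplicit false
open Finset

/-! `CELLS` holds (helper30's `exists_RC`). -/

namespace Pool.Agent.H77.Q1

open Pool.Agent.H75.Perc Pool.Agent.H75.TwoArm Pool.Agent.H75.Four
open Pool.Agent.Q1.M6c (Dobr)

theorem cells_ok : CELLS := by
  refine ⟨4, by norm_num, ?_⟩
  intro n D0 E W ct hn _ hd hct
  obtain ⟨O, C, h1, h2, -, -⟩ := Pool.Agent.H30.Cell.exists_RC (show 1 ≤ n by omega) hd hct D0
  exact ⟨O, C, h1, h2⟩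

/-- `(∗)` from the comparison and the wall sum -/
theorem star_of' (h2 : COMP) (h3 : WALL) : STAR := star_of cells_ok h2 h3

end Pool.Agent.H77.Q1
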