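import Mathlib
import Pool.Agent.H77.Q1.Star
import Pool.Agent.H68.Q1.Explore

set_option autoImplicit false
open Finset hiding val

/-! The maximum principle step from `STAR` and `RAY`. -/

namespace Pool.Agent.H77.Q1

open Pool.Agent.H75.Perc Pool.Agent.H75.TwoArm Pool.Agent.H75.Four
open Pool.Agent.Q1 (Env PrimAt Qt)
open Pool.Agent.Q1.M6c (Dobr DEnvX PlaneK PlaneEnv Free InQ mm le_mm inQ_inB)
open Pool.Agent.H68.Q1 (recd le_recd recd_nonneg seg_sum explore Sup68 le_Sup68 Sup68_le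
  Sup68_nonneg)

/-- the good ray -/
def RAY : Prop := ∀ δ0 : ℝ, 0 < δ0 → δ0 < 1 → ∃ c1 : ℝ, 0 < c1 ∧ c1 ≤ 1 ∧ ∀ κ : ℝ, 0 < κ →
  κ < δ0 / 1000 → ∃ N0 : ℕ, ∀ (N : ℕ) (X : Env) (W : Finset (ℤ × ℤ)) (a z : ℤ × ℤ), N0 ≤ N →
  DEnvX X W → X.E ⊆ Bx (a.1 - N) (a.1 + N) (a.2 - N) (a.2 + N) →
  Free X.E z ⌊δ0 * N⌋ → ∃ (k : ℕ) (v : ℕ → ℤ × ℤ), (k : ℝ) ≤ 1000 / κ ∧ v 0 = z ∧
    (∀ j < k, 32 * |(v (j + 1)).1 - (v j).1| ≤ ⌊κ * N / 4⌋ ∧
      32 * |(v (j + 1)).2 - (v j).2| ≤ ⌊κ * N / 4⌋) ∧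
    (∀ j ≤ k, Free X.E (v j) (2 * ⌊κ * N / 4⌋)) ∧ NearW X.E (v k) ⌊κ * N⌋ ∧
    Pr X.E (Pool.Agent.H68.Q1.Hit X v k ⌊κ * N / 4⌋) ≤ 1 - c1

/-! ### Joining chains -/

lemma dm_of_free {E : Finset (ℤ × ℤ)} {x : ℤ × ℤ} {ρ r : ℤ} (h : Free E x r) (hr : ρ ≤ r) :
    Dm x ρ ⊆ E := (Dm_sub_Bx hr).trans h

lemma D_rev_step {X : Env} {x y : ℤ × ℤ} {ρ : ℤ} (h : Dm x ρ ⊆ X.E)
    (h1 : 32 * |y.1 - x.1| ≤ ρ) (h2 : 32 * |y.2 - x.2| ≤ ρ) : X.D y x = - X.D x y := by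
  have hB : Bx (x.1 - ρ / 2) (x.1 + ρ / 2) (x.2 - ρ / 2) (x.2 + ρ / 2) ⊆ X.E :=
    (Bx_sub_Dm (by omega)).trans h
  have h0 := abs_nonneg (y.1 - x.1)
  have h3 := abs_le.1 (show |y.1 - x.1| ≤ ρ / 2 by omega)
  have h4 := abs_le.1 (show |y.2 - x.2| ≤ ρ / 2 by omega)
  have := Env.D_symm hB (u := x) (v := y) (by unfold inB; omega) (by unfold inB; omega)
  exact this


/-- the chain `v` backwards, then `u` -/
def jn (v u : ℕ → ℤ × ℤ) (k' : ℕ) (j : ℕ) : ℤ × ℤ := if j ≤ k' then v (k' - j) else u (j - k')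

lemma jn_zero (v u : ℕ → ℤ × ℤ) (k' : ℕ) : jn v u k' 0 = v k' := by
  unfold jn; rw [if_pos (Nat.zero_le _)]; rfl

lemma jn_end {v u : ℕ → ℤ × ℤ} (h0 : v 0 = u 0) (k' k : ℕ) : jn v u k' (k' + k) = u k := by
  unfold jn
  rcases Nat.eq_zero_or_pos k with h | h
  · subst h
    rw [if_pos (by omega), add_zero, Nat.sub_self, h0]
  · rw [if_neg (by omega), Nat.add_sub_cancel_left]

lemma jn_chn {E : Finset (ℤ × ℤ)} {v u : ℕ → ℤ × ℤ} {k' k : ℕ} {ρ : ℤ} (h0 : v 0 = u 0)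
    (hv : ∀ j ≤ k', Dm (v j) ρ ⊆ E) (hvs : ∀ j < k', 32 * |(v (j + 1)).1 - (v j).1| ≤ ρ ∧
      32 * |(v (j + 1)).2 - (v j).2| ≤ ρ) (hu : Chn E u k ρ) : Chn E (jn v u k') (k' + k) ρ := by
  constructor
  · intro j hj
    unfold jn
    split_ifs with h
    · exact hv _ (by omega)
    · exact hu.free _ (by omega)
  · intro j hj
    unfold jn
    by_cases h1 : j + 1 ≤ k'
    · rw [if_pos h1, if_pos (by omega)]
      have h2 := hvs (k' - (j + 1)) (by omega)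
      rw [show k' - (j + 1) + 1 = k' - j by omega] at h2
      rw [abs_sub_comm, abs_sub_comm (v (k' - (j + 1))).2]
      exact h2
    · by_cases h2 : j ≤ k'
      · have h3 : j = k' := by omega
        subst h3
        rw [if_neg (by omega), if_pos le_rfl, Nat.sub_self, h0, show j + 1 - j = 0 + 1 by omega]
        exact hu.step 0 (by omega)
      · rw [if_neg h1, if_neg h2, show j + 1 - k' = j - k' + 1 by omega]
        exact hu.step _ (by omega)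

lemma jn_val {X : Env} {v u : ℕ → ℤ × ℤ} {k' : ℕ} {ρ : ℤ} (h0 : v 0 = u 0)
    (hv : ∀ j ≤ k', Dm (v j) ρ ⊆ X.E) (hvs : ∀ j < k', 32 * |(v (j + 1)).1 - (v j).1| ≤ ρ ∧
      32 * |(v (j + 1)).2 - (v j).2| ≤ ρ) (k : ℕ) :
    val X (jn v u k') (k' + k) = val X u k - val X v k' := by
  have h1 : ∀ i ≤ k', ∑ j ∈ range i, X.D (jn v u k' j) (jn v u k' (j + 1)) =
      - ∑ j ∈ range i, X.D (v (k' - (j + 1))) (v (k' - (j + 1) + 1)) := by
    intro i hi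
    rw [← sum_neg_distrib]
    refine sum_congr rfl fun j hj => ?_
    have hj' := mem_range.1 hj
    unfold jn
    rw [if_pos (by omega), if_pos (by omega)]
    obtain ⟨h2, h3⟩ := hvs (k' - (j + 1)) (by omega)
    have h4 := D_rev_step (X := X) (x := v (k' - (j + 1))) (y := v (k' - (j + 1) + 1))
      (hv _ (by omega)) h2 h3
    rw [show k' - (j + 1) + 1 = k' - j by omega] at h4 ⊢
    exact h4
  unfold val
  rw [sum_range_add, h1 k' le_rfl]
  have h2 : ∑ j ∈ range k', X.D (v (k' - (j + 1))) (v (k' - (j + 1) + 1)) =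
      ∑ j ∈ range k', X.D (v j) (v (j + 1)) := by
    have := sum_range_reflect (fun j => X.D (v j) (v (j + 1))) k'
    rw [← this]
    refine sum_congr rfl fun j hj => ?_
    have hj' := mem_range.1 hj
    rw [show k' - 1 - j = k' - (j + 1) by omega]
  rw [h2]
  have h3 : ∑ x ∈ range k, X.D (jn v u k' (k' + x)) (jn v u k' (k' + x + 1)) =
      ∑ j ∈ range k, X.D (u j) (u (j + 1)) := by
    refine sum_congr rfl fun j _ => ?_
    rw [jn_end h0, show k' + j + 1 = k' + (j + 1) by ring, jn_end h0]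
  rw [h3]
  ring

lemma tip_off {X : Env} {W : Finset (ℤ × ℤ)} (hX : DEnvX X W) {x : ℤ × ℤ} {ρ : ℤ} (hρ : 1 ≤ ρ)
    (h : Free X.E x (2 * ρ)) : lab X.c0 ∉ Ext x ρ := by
  intro h1
  rw [mem_Ext hρ] at h1
  apply hX.dob.root
  apply h
  have ho := Pool.Agent.H69.Q1.odd_lab X.c0
  have h2 : ((plab X.c0).1 + (plab X.c0).2) % 2 = 1 := by
    unfold plab
    split_ifs <;> simp only <;> omega
  have h3 : ((plab X.c0).1 - 2 ≤ (lab X.c0).1 ∧ (lab X.c0).1 ≤ (plab X.c0).1 + 2) ∧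
      ((plab X.c0).2 - 2 ≤ (lab X.c0).2 ∧ (lab X.c0).2 ≤ (plab X.c0).2 + 2) := by
    unfold plab lab
    split_ifs <;> simp only <;> omega
  rw [mem_Bx]
  have h4 := abs_nonneg ((lab X.c0).1 - 2 * x.1)
  have h5 := abs_nonneg ((lab X.c0).2 - 2 * x.2)
  have h6 := abs_le.1 (show |(lab X.c0).1 - 2 * x.1| ≤ 2 * ρ - 1 by omega)
  have h7 := abs_le.1 (show |(lab X.c0).2 - 2 * x.2| ≤ 2 * ρ - 1 by omega)
  refine ⟨⟨?_, ?_⟩, ⟨?_, ?_⟩, h2⟩ <;> omega

/-- the joined chain is in the class -/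
lemma jn_CL {X : Env} {W : Finset (ℤ × ℤ)} {a : ℤ × ℤ} {N : ℤ} {u v : ℕ → ℤ × ℤ} {k k' : ℕ}
    {ρ m : ℤ} (hρ : 1 ≤ ρ) (h : CL X W a N u k ρ m) (h0 : v 0 = u 0)
    (hv : ∀ j ≤ k', Free X.E (v j) (2 * ρ)) (hvs : ∀ j < k', 32 * |(v (j + 1)).1 - (v j).1| ≤ ρ ∧
      32 * |(v (j + 1)).2 - (v j).2| ≤ ρ) : CL X W a N (jn v u k') (k' + k) ρ m := by
  have hv' : ∀ j ≤ k', Dm (v j) ρ ⊆ X.E := fun j hj => dm_of_free (hv j hj) (by omega)
  refine ⟨h.denv, h.box, jn_chn h0 hv' hvs h.chn, ?_, ?_⟩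
  · constructor
    · obtain ⟨i, hi, h1⟩ := h.tip.mem
      refine ⟨k' + i, by omega, ?_⟩
      rw [jn_end h0]; exact h1
    · intro j hj
      unfold jn
      split_ifs with h1
      · exact tip_off h.denv hρ (hv _ (by omega))
      · exact h.tip.ext _ (by omega)
  · rw [jn_end h0]; exact h.near


/-! ### The segment towards the wall -/

lemma seg_pts (m : ℕ) {x y : ℤ × ℤ} (h1 : |y.1 - x.1| ≤ m + 1) (h2 : |y.2 - x.2| ≤ m + 1) :
    ∃ X' : ℕ → ℤ × ℤ, X' m = x ∧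
      (∀ t s : ℕ, s ≤ t → |(X' s).1 - (X' t).1| ≤ t - s ∧ |(X' s).2 - (X' t).2| ≤ t - s) ∧
      ∀ t : ℕ, |y.1 - (X' t).1| ≤ t + 1 ∧ |y.2 - (X' t).2| ≤ t + 1 := by
  set M : ℤ := m + 1 with hM
  have hM0 : 0 < M := by omega
  set X' : ℕ → ℤ × ℤ := fun t => (x.1 + (y.1 - x.1) * (m - t) / M, x.2 + (y.2 - x.2) * (m - t) / M)
    with hX'
  refine ⟨X', ?_, ?_, ?_⟩
  · rw [hX']
    refine Prod.ext ?_ ?_ <;> simp
  · intro t s hst
    rw [hX']
    simp only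
    have g1 := fl (a := (m : ℤ) - t) (b := (m : ℤ) - s) hM0 h1 (by omega)
    have g2 := fl (a := (m : ℤ) - t) (b := (m : ℤ) - s) hM0 h2 (by omega)
    constructor
    · have e : x.1 + (y.1 - x.1) * ((m : ℤ) - s) / M - (x.1 + (y.1 - x.1) * ((m : ℤ) - t) / M) =
        (y.1 - x.1) * ((m : ℤ) - s) / M - (y.1 - x.1) * ((m : ℤ) - t) / M := by ring
      rw [e]; omega
    · have e : x.2 + (y.2 - x.2) * ((m : ℤ) - s) / M - (x.2 + (y.2 - x.2) * ((m : ℤ) - t) / M) =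
        (y.2 - x.2) * ((m : ℤ) - s) / M - (y.2 - x.2) * ((m : ℤ) - t) / M := by ring
      rw [e]; omega
  · intro t
    rw [hX']
    simp only
    have g1 := fl (a := (m : ℤ) - t) (b := M) hM0 h1 (by omega)
    have g2 := fl (a := (m : ℤ) - t) (b := M) hM0 h2 (by omega)
    rw [Int.mul_ediv_cancel _ (by omega : M ≠ 0)] at g1 g2
    constructor
    · have e : y.1 - (x.1 + (y.1 - x.1) * ((m : ℤ) - t) / M) =
        y.1 - x.1 - (y.1 - x.1) * ((m : ℤ) - t) / M := by ring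
      rw [e]; omega
    · have e : y.2 - (x.2 + (y.2 - x.2) * ((m : ℤ) - t) / M) =
        y.2 - x.2 - (y.2 - x.2) * ((m : ℤ) - t) / M := by ring
      rw [e]; omega

/-- **The segment towards the nearest label outside `E`.** -/
theorem seg_chain {X : Env} (hX : PlaneK X) {N : ℕ} {z l : ℤ × ℤ} {m0 t1 s : ℕ} (hs : 1 ≤ s)
    (h64 : 64 ≤ t1) (ht : t1 ≤ m0) (hN : m0 ≤ N) (hF : Free X.E z m0)
    (h1 : |l.1 - 2 * z.1| ≤ 2 * (m0 + 1)) (h2 : |l.2 - 2 * z.2| ≤ 2 * (m0 + 1)) :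
    ∃ (k : ℕ) (v : ℕ → ℤ × ℤ), v 0 = z ∧ k * s ≤ m0 - t1 + s ∧
      (∀ j < k, |(v (j + 1)).1 - (v j).1| ≤ s ∧ |(v (j + 1)).2 - (v j).2| ≤ s) ∧
      (∀ j ≤ k, Free X.E (v j) t1) ∧
      (|l.1 - 2 * (v k).1| ≤ 2 * (t1 + 2) ∧ |l.2 - 2 * (v k).2| ≤ 2 * (t1 + 2)) ∧
      ‖val X v k‖ ≤ 32 * recd mm N * (m0 : ℝ) ^ (2 / 3 : ℝ) := by
  have hR := recd_nonneg mm N
  have hye : (eu l).1 = l.1 / 2 ∧ (eu l).2 = l.2 / 2 := ⟨rfl, rfl⟩
  obtain ⟨x, hxm, hxs, hxy⟩ := seg_pts m0 (x := z) (y := eu l)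
    (by rw [abs_le] at h1 ⊢; omega) (by rw [abs_le] at h2 ⊢; omega)
  have hFt : ∀ t : ℕ, t ≤ m0 → Free X.E (x t) t := by
    intro t ht
    obtain ⟨g1, g2⟩ := hxs m0 t ht
    rw [hxm] at g1 g2
    exact hF.mono (by omega) (by omega)
  -- additivity inside a box
  have hadd : ∀ t : ℕ, t ≤ m0 → ∀ t' : ℕ, ∀ b : ℕ, t' ≤ b → b ≤ t →
      ∑ i ∈ Ico t' b, X.D (x i) (x (i + 1)) = X.D (x t') (x b) := by
    intro t htm t' b hb
    have hin : ∀ i : ℕ, i ≤ t → inB ((x t).1 - t) ((x t).1 + t) ((x t).2 - t) ((x t).2 + t) (x i) := by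
      intro i hi
      obtain ⟨g1, g2⟩ := hxs t i hi
      rw [abs_le] at g1 g2
      unfold inB
      omega
    induction b, hb using Nat.le_induction with
    | base => intro _; simp [Env.D_self]
    | succ b hb ih =>
      intro hbt
      rw [sum_Ico_succ_top hb, ih (by omega)]
      exact Env.D_add (hFt t htm) (hin t' (by omega)) (hin b (by omega)) (hin (b + 1) hbt)
  set H : ℕ → ℂ := fun t => ∑ i ∈ Ico t1 (min t m0), X.D (x i) (x (i + 1)) with hH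
  have hHd : ∀ t t' : ℕ, t1 ≤ t' → t' ≤ t → t ≤ m0 → H t - H t' = X.D (x t') (x t) := by
    intro t t' g1 g2 g3
    rw [hH]
    simp only
    rw [min_eq_left g3, min_eq_left (g2.trans g3), ← hadd t g3 t' t g2 le_rfl,
      ← sum_Ico_consecutive _ g1 g2]
    ring
  have hHm : ∀ t, H t = H (min t m0) := by
    intro t
    rw [hH]
    simp only
    rw [min_assoc, min_self]
  have hsum := seg_sum (h := H) (r := recd mm N) (t0 := t1) hR h64 (by
      intro t s' hs' hts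
      rw [hHm t, hHm (t - s')]
      set a := min t m0 with ha
      set b := min (t - s') m0 with hb
      rw [hHd a b (by omega) (by omega) (by omega)]
      obtain ⟨g1, g2⟩ := hxs a b (by omega)
      have g3 := le_mm hX (hFt a (by omega)) (u := x b) (v := x a)
        (inQ_of (by omega) (by omega)) (inQ_of (by simp) (by simp))
      refine g3.trans ((le_recd mm (by omega) (by omega : a ≤ N)).trans
        (mul_le_mul_of_nonneg_left ?_ hR))
      exact Real.rpow_le_rpow (by positivity) (by exact_mod_cast (by omega : a ≤ t)) (by norm_num))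
    m0 ht
  -- the coarse chain
  set τ : ℕ → ℕ := fun j => max (m0 - j * s) t1 with hτ
  have hτ0 : τ 0 = m0 := by rw [hτ]; simp only; omega
  have hτle : ∀ j, τ j ≤ m0 := by intro j; rw [hτ]; simp only; omega
  have hτge : ∀ j, t1 ≤ τ j := by intro j; rw [hτ]; simp only; omega
  have hτd : ∀ j, τ (j + 1) ≤ τ j ∧ τ j - τ (j + 1) ≤ s := by
    intro j
    rw [hτ]
    simp only
    have : (j + 1) * s = j * s + s := by ring
    rw [this]
    omega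
  obtain ⟨k, hk1, hk2⟩ : ∃ k : ℕ, k * s ≤ m0 - t1 + s ∧ m0 - t1 ≤ k * s := by
    refine ⟨(m0 - t1) / s + 1, ?_, ?_⟩
    · have := Nat.div_mul_le_self (m0 - t1) s
      rw [add_mul, one_mul]; omega
    · have := Nat.lt_div_mul_add (a := m0 - t1) (show 0 < s by omega)
      rw [add_mul, one_mul]; omega
  have hτk : τ k = t1 := by rw [hτ]; simp only; omega
  refine ⟨k, fun j => x (τ j), by simp only; rw [hτ0, hxm], hk1, ?_, ?_, ?_, ?_⟩
  · intro j _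
    obtain ⟨g1, g2⟩ := hxs (τ j) (τ (j + 1)) (hτd j).1
    have g3 := (hτd j).2
    have g4 := (hτd j).1
    simp only
    omega
  · intro j _
    refine (hFt (τ j) (hτle j)).mono ?_ ?_ <;> simp <;> exact hτge j
  · simp only
    rw [hτk]
    obtain ⟨g1, g2⟩ := hxy t1
    rw [hye.1, abs_le] at g1
    rw [hye.2, abs_le] at g2
    rw [abs_le, abs_le]
    omega
  · have hval : val X (fun j => x (τ j)) k = -(H m0 - H t1) := by
      have key : ∀ i : ℕ, ∑ j ∈ range i, X.D (x (τ j)) (x (τ (j + 1))) = -(H m0 - H (τ i)) := by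
        intro i
        induction i with
        | zero => simp [hτ0]
        | succ i ih =>
          rw [sum_range_succ, ih]
          have g1 := hHd (τ i) (τ (i + 1)) (hτge _) (hτd i).1 (hτle _)
          have g2 : X.D (x (τ i)) (x (τ (i + 1))) = - X.D (x (τ (i + 1))) (x (τ i)) := by
            obtain ⟨g3, g4⟩ := hxs (τ i) (τ (i + 1)) (hτd i).1
            rw [abs_le] at g3 g4
            refine Env.D_symm (hFt (τ i) (hτle i)) ?_ ?_ <;> unfold inB <;> omega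
          rw [g2, ← g1]
          ring
      unfold val
      rw [key k, hτk]
    rw [hval, norm_neg]
    exact hsum


/-! ### The maximum principle step -/

/-- the largest free box around a point with a label outside `E` nearby -/
lemma exists_m0 {E : Finset (ℤ × ℤ)} {x : ℤ × ℤ} {M : ℤ} (h0 : Free E x 0) (hM : ¬ Free E x M)
    (hM0 : 0 ≤ M) : ∃ (m0 : ℕ) (l : ℤ × ℤ), (m0 : ℤ) < M ∧ Free E x m0 ∧ (l.1 + l.2) % 2 = 1 ∧
      l ∉ E ∧ |l.1 - 2 * x.1| ≤ 2 * (m0 + 1) ∧ |l.2 - 2 * x.2| ≤ 2 * (m0 + 1) := by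
  classical
  obtain ⟨M', rfl⟩ := Int.eq_ofNat_of_zero_le hM0
  have hex : ∃ m : ℕ, ¬ Free E x m := ⟨M', hM⟩
  set m1 := Nat.find hex with hm1
  have hs : ¬ Free E x m1 := Nat.find_spec hex
  have hle : m1 ≤ M' := Nat.find_min' hex hM
  have hpos : m1 ≠ 0 := by
    intro h; rw [h] at hs; exact hs h0
  obtain ⟨m, hm'⟩ : ∃ m, m1 = m + 1 := ⟨m1 - 1, by omega⟩
  have hFm : Free E x m := by
    by_contra h5
    exact Nat.find_min hex (m := m) (by omega) h5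
  rw [hm'] at hs
  unfold Free at hs
  rw [not_subset] at hs
  obtain ⟨l', h5, h6⟩ := hs
  rw [mem_Bx] at h5
  push_cast at h5
  exact ⟨m, l', by omega, hFm, h5.2.2, h6, by rw [abs_le]; omega, by rw [abs_le]; omega⟩

/-- **The maximum principle step** in the form of `ap_abs2`. -/
theorem mp_of (hS : STAR) (hR : RAY) : ∃ C : ℝ, 0 ≤ C ∧ ∀ δ0 : ℝ, 0 < δ0 → δ0 < 1 →
    ∃ c1 : ℝ, 0 < c1 ∧ ∃ κ0 : ℝ, 0 < κ0 ∧ ∀ κ : ℝ, 0 < κ → κ < κ0 → ∀ ε : ℝ, 0 < ε →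
    ∃ (N0 : ℕ) (C' : ℝ), ∀ N : ℕ, N0 ≤ N →
      Sup68 κ N ≤ C' * (N : ℝ) ^ (2 / 3 : ℝ) + max (C * recd mm N * (δ0 * N) ^ (2 / 3 : ℝ))
        ((1 - c1) * Sup68 κ N) + (C * κ ^ (2 / 3 : ℝ) + ε) * recd mm N * (N : ℝ) ^ (2 / 3 : ℝ) := by
  obtain ⟨Cs, hCs, hstar⟩ := hS
  refine ⟨Cs + 32, by linarith, ?_⟩
  intro δ0 hδ0 hδ1
  obtain ⟨c1, hc0, hc1, hray⟩ := hR δ0 hδ0 hδ1
  refine ⟨c1, hc0, δ0 / 1000, by positivity, ?_⟩
  intro κ hκ hκδ ε hε
  have hκ1 : κ < 1 := by linarith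
  obtain ⟨N1, hray⟩ := hray κ hκ hκδ
  obtain ⟨N2, C', hstar⟩ := hstar κ (ε / 2) ⌈3000 / κ⌉₊ hκ hκ1 (by positivity)
  obtain ⟨N3, hexp⟩ := explore κ (ε / 2) ⌈3000 / κ⌉₊ hκ hκ1 (by positivity)
  refine ⟨max (max N1 N2) (max N3 ⌈100000 / κ⌉₊), |C'|, ?_⟩
  intro N hN
  have hN1 : N1 ≤ N := ((le_max_left _ _).trans (le_max_left _ _)).trans hN
  have hN2 : N2 ≤ N := ((le_max_right _ _).trans (le_max_left _ _)).trans hN
  have hN3 : N3 ≤ N := ((le_max_left _ _).trans (le_max_right _ _)).trans hN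
  have hN4 : ⌈100000 / κ⌉₊ ≤ N := ((le_max_right _ _).trans (le_max_right _ _)).trans hN
  have hκN : 100000 ≤ κ * N := by
    have h1 : 100000 / κ ≤ N := (Nat.le_ceil _).trans (by exact_mod_cast hN4)
    rw [div_le_iff₀ hκ] at h1
    linarith
  have hN0 : (0 : ℝ) ≤ N := Nat.cast_nonneg _
  have hRn := recd_nonneg mm N
  set R := recd mm N with hRdef
  set P := (N : ℝ) ^ (2 / 3 : ℝ) with hP
  have hP0 : 0 ≤ P := by positivity
  have hSup := Sup68_nonneg κ N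
  set S := Sup68 κ N with hSdef
  have hκp : 0 ≤ κ ^ (2 / 3 : ℝ) := by positivity
  have hRP : 0 ≤ R * P := mul_nonneg hRn hP0
  have hQ : 0 ≤ (Cs + 32) * R * (δ0 * N) ^ (2 / 3 : ℝ) := by positivity
  have hmaxl := le_max_left ((Cs + 32) * R * (δ0 * N) ^ (2 / 3 : ℝ)) ((1 - c1) * S)
  have hmaxr := le_max_right ((Cs + 32) * R * (δ0 * N) ^ (2 / 3 : ℝ)) ((1 - c1) * S)
  set Q := (Cs + 32) * R * (δ0 * N) ^ (2 / 3 : ℝ) with hQdef
  have hCP : 0 ≤ |C'| * P := by positivity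
  have hEP : 0 ≤ ((Cs + 32) * κ ^ (2 / 3 : ℝ) + ε) * R * P := by positivity
  -- STAR in a convenient form
  have star : ∀ (X : Env) (W : Finset (ℤ × ℤ)) (a : ℤ × ℤ) (u : ℕ → ℤ × ℤ) (k : ℕ),
      (k : ℝ) ≤ 3000 / κ → CL X W a N u k ⌊κ * N / 4⌋ ⌊κ * N⌋ → NearW X.E (u 0) ⌊κ * N⌋ →
      ‖val X u k‖ ≤ (Cs * κ ^ (2 / 3 : ℝ) + ε / 2) * R * P + |C'| * P := by
    intro X W a u k hk hC hw
    refine (hstar N X W a u k hN2 ?_ hC hw).trans ?_
    · exact_mod_cast hk.trans (Nat.le_ceil _)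
    · have := mul_le_mul_of_nonneg_right (le_abs_self C') hP0
      linarith
  refine Sup68_le (by linarith) ?_
  intro X W a u k hC hk
  have hk' : (k : ℝ) ≤ 3000 / κ := hk.trans (div_le_div_of_nonneg_right (by norm_num) hκ.le)
  obtain ⟨ρ, hρdef⟩ : ∃ ρ : ℤ, ρ = ⌊κ * N / 4⌋ := ⟨_, rfl⟩
  obtain ⟨m, hmdef⟩ : ∃ m : ℤ, m = ⌊κ * N⌋ := ⟨_, rfl⟩
  have hρhi : (ρ : ℝ) ≤ κ * N / 4 := by rw [hρdef]; exact Int.floor_le _
  have hρlo : κ * N / 4 < ρ + 1 := by rw [hρdef]; exact Int.lt_floor_add_one _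
  have hmhi : (m : ℝ) ≤ κ * N := by rw [hmdef]; exact Int.floor_le _
  have hmlo : κ * N < m + 1 := by rw [hmdef]; exact Int.lt_floor_add_one _
  have hρ1 : 10000 ≤ ρ := by
    have : (10000 : ℝ) < ρ + 1 := by linarith
    have h1 : ((10000 : ℤ) : ℝ) < ((ρ + 1 : ℤ) : ℝ) := by push_cast; linarith
    have := Int.cast_lt.1 h1
    omega
  have hρm : 2 * ρ + 2 ≤ m := by
    have h1 : ((2 * ρ + 2 : ℤ) : ℝ) < ((m + 1 : ℤ) : ℝ) := by push_cast; linarith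
    have := Int.cast_lt.1 h1
    omega
  rw [← hρdef, ← hmdef] at hC
  -- joining with a chain
  have join : ∀ (v : ℕ → ℤ × ℤ) (k' : ℕ), (k' : ℝ) ≤ 1000 / κ → v 0 = u 0 →
      (∀ j ≤ k', Free X.E (v j) (2 * ρ)) →
      (∀ j < k', 32 * |(v (j + 1)).1 - (v j).1| ≤ ρ ∧ 32 * |(v (j + 1)).2 - (v j).2| ≤ ρ) →
      NearW X.E (v k') m →
      ‖val X u k‖ ≤ ‖val X v k'‖ + ((Cs * κ ^ (2 / 3 : ℝ) + ε / 2) * R * P + |C'| * P) := by
    intro v k' hk1 hv0 hvF hvs hvn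
    have hCL := jn_CL (by omega) hC hv0 hvF hvs
    have h1 := star X W a (jn v u k') (k' + k) (by
      push_cast
      have e : 3000 / κ = 1000 / κ + 2000 / κ := by ring
      rw [e]; linarith) (by rw [← hρdef, ← hmdef]; exact hCL)
      (by rw [jn_zero, ← hmdef]; exact hvn)
    rw [jn_val hv0 (fun j hj => dm_of_free (hvF j hj) (by omega)) hvs k] at h1
    have e : val X u k = (val X u k - val X v k') + val X v k' := by ring
    rw [e]
    refine (norm_add_le _ _).trans ?_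
    linarith
  by_cases hfree : Free X.E (u 0) ⌊δ0 * N⌋
  · -- the ray
    obtain ⟨k', v, g1, g2, g3, g4, g5, g6⟩ := hray N X W a (u 0) hN1 hC.denv hC.box hfree
    have h1 := join v k' g1 g2 (by rw [hρdef]; exact g4) (by rw [hρdef]; exact g3)
      (by rw [hmdef]; exact g5)
    have hk3 : k' ≤ ⌈3000 / κ⌉₊ := by
      have h5 : (k' : ℝ) ≤ 3000 / κ := g1.trans (div_le_div_of_nonneg_right (by norm_num) hκ.le)
      exact_mod_cast h5.trans (Nat.le_ceil _)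
    have h2 := hexp N X W a v k' hN3 hC.denv hC.box hk3 g4 g3 g5 S hSup (by
      intro Y W' hY _
      exact le_Sup68 hκ hY (g1.trans (div_le_div_of_nonneg_right (by norm_num) hκ.le)))
    have h3 : Pr X.E (Pool.Agent.H68.Q1.Hit X v k' ⌊κ * N / 4⌋) * S ≤ (1 - c1) * S :=
      mul_le_mul_of_nonneg_right g6 hSup
    rw [← hRdef, ← hP] at h2
    have e1 : ((Cs + 32) * κ ^ (2 / 3 : ℝ) + ε) * R * P = (Cs * κ ^ (2 / 3 : ℝ) + ε / 2) * R * P +
      ε / 2 * R * P + 32 * κ ^ (2 / 3 : ℝ) * (R * P) := by ring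
    have e2 : 0 ≤ 32 * κ ^ (2 / 3 : ℝ) * (R * P) := by positivity
    rw [e1]
    linarith
  · -- close to the wall
    have hδN : 0 ≤ ⌊δ0 * N⌋ := Int.floor_nonneg.2 (by positivity)
    have h0free : Free X.E (u 0) 0 := by
      have := hC.chn.free_box (r := 0) (by omega) (Nat.zero_le k)
      exact this
    obtain ⟨m0, l, g1, g2, g3, g4, g5, g6⟩ := exists_m0 h0free hfree hδN
    have hm0 : (m0 : ℝ) ≤ δ0 * N := by
      have h1 : ((m0 : ℤ) : ℝ) ≤ ((⌊δ0 * N⌋ : ℤ) : ℝ) := Int.cast_le.2 g1.le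
      have h2 : ((⌊δ0 * N⌋ : ℤ) : ℝ) ≤ δ0 * N := Int.floor_le _
      push_cast at h1
      linarith
    have hm0N : m0 ≤ N := by
      have : (m0 : ℝ) ≤ N := hm0.trans (by nlinarith)
      exact_mod_cast this
    obtain ⟨t1, ht1⟩ := Int.eq_ofNat_of_zero_le (show 0 ≤ m - 2 by omega)
    have e1 : ((Cs + 32) * κ ^ (2 / 3 : ℝ) + ε) * R * P = (Cs * κ ^ (2 / 3 : ℝ) + ε / 2) * R * P +
      ε / 2 * R * P + 32 * κ ^ (2 / 3 : ℝ) * (R * P) := by ring
    have e2 : 0 ≤ 32 * κ ^ (2 / 3 : ℝ) * (R * P) := by positivity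
    have e3 : 0 ≤ ε / 2 * R * P := by positivity
    by_cases hlt : m0 ≤ t1
    · have h1 := star X W a u k hk' (by rw [← hρdef, ← hmdef]; exact hC) (by
        rw [← hmdef]
        exact ⟨l, g3, g4, by omega, by omega⟩)
      rw [e1]
      linarith
    · push Not at hlt
      obtain ⟨s, hs⟩ := Int.eq_ofNat_of_zero_le (show 0 ≤ ρ / 32 by omega)
      obtain ⟨k', v, b1, b2, b3, b4, b5, b6⟩ := seg_chain (N := N) (X := X)
        ⟨W, hC.denv.toPlaneEnv⟩ (z := u 0) (l := l) (m0 := m0) (t1 := t1) (s := s) (by omega)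
        (by omega) (by omega) hm0N g2 g5 g6
      have hk1 : (k' : ℝ) ≤ 1000 / κ := by
        have h1 : (k' : ℝ) * s ≤ m0 + s := by
          have : k' * s ≤ m0 + s := b2.trans (by omega)
          exact_mod_cast this
        have h2 : κ * N / 256 ≤ s := by
          have h3 : ρ ≤ 32 * (s : ℤ) + 31 := by omega
          have h4 : (ρ : ℝ) ≤ 32 * s + 31 := by exact_mod_cast h3
          linarith
        have hs0 : (0 : ℝ) < s := by linarith
        rw [le_div_iff₀ hκ]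
        have h5 : (k' : ℝ) ≤ m0 / s + 1 := by
          rw [div_add_one hs0.ne', le_div_iff₀ hs0]
          linarith
        have h6 : (m0 : ℝ) / s ≤ 256 / κ := by
          rw [div_le_div_iff₀ hs0 hκ]
          have h7 : (m0 : ℝ) ≤ N := by exact_mod_cast hm0N
          nlinarith
        have h7 : (k' : ℝ) * κ ≤ (256 / κ + 1) * κ :=
          mul_le_mul_of_nonneg_right (h5.trans (by linarith)) hκ.le
        have h8 : (256 / κ + 1) * κ = 256 + κ := by field_simp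
        linarith
      have hF2 : ∀ j ≤ k', Free X.E (v j) (2 * ρ) := by
        intro j hj
        refine (b4 j hj).mono ?_ ?_ <;> simp <;> omega
      have h1 := join v k' hk1 b1 hF2 (by
        intro j hj
        obtain ⟨c1', c2'⟩ := b3 j hj
        constructor <;> omega) ⟨l, g3, g4, by omega, by omega⟩
      have h2 : 32 * R * (m0 : ℝ) ^ (2 / 3 : ℝ) ≤ Q := by
        have h3 : (m0 : ℝ) ^ (2 / 3 : ℝ) ≤ (δ0 * N) ^ (2 / 3 : ℝ) :=
          Real.rpow_le_rpow (by positivity) hm0 (by norm_num)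
        have h4 : 0 ≤ (δ0 * N) ^ (2 / 3 : ℝ) := by positivity
        have h5 := mul_le_mul_of_nonneg_left h3 (show 0 ≤ 32 * R by positivity)
        have h6 : 0 ≤ Cs * R * (δ0 * N) ^ (2 / 3 : ℝ) := by positivity
        rw [hQdef]
        nlinarith
      rw [e1]
      linarith

end Pool.Agent.H77.Q1
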