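import Mathlib
import Pool.Agent.H77.Q1.MP

set_option autoImplicit false
open Finset hiding val

/-! The first step (`hFS` of `ap_abs2`) from `D1P`, `STAR` and `RAY`. -/

namespace Pool.Agent.H77.Q1

open Pool.Agent.H75.Perc Pool.Agent.H75.TwoArm Pool.Agent.H75.Four
open Pool.Agent.Q1 (Env PrimAt Qt)
open Pool.Agent.Q1.M6c (Dobr DEnvX PlaneK PlaneEnv Free InQ mm le_mm mm_le mm_nonneg inQ_inB)
open Pool.Agent.H68.Q1 (recd le_recd recd_nonneg seg_sum explore Sup68 le_Sup68 Sup68_le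
  Sup68_nonneg)

/-- **D1** (helper67): the first step for one piece. -/
def D1P : Prop := ∃ C : ℝ, 0 < C ∧ ∀ N r : ℕ, 1 ≤ r → 2 * r ≤ N → ∀ (X : Env) (p u v : ℤ × ℤ),
  PlaneK X → Free X.E p N → InQ p r u → InQ p r v → ∀ B : ℝ,
  (∀ (V : Env) (W : Finset (ℤ × ℤ)), DEnvX V W →
    V.E ⊆ Bx (p.1 - N) (p.1 + N) (p.2 - N) (p.2 + N) → Free V.E p r → ‖V.D u v‖ ≤ B) →
  ‖X.D u v‖ ≤ B + C * ((r : ℝ) / N) ^ (5 / 4 : ℝ) * mm r

/-- one coordinate of the path -/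
def cl1 (a b : ℤ) (x : ℤ) : ℤ := if a ≤ b then min (a + x) b else max (a - x) b

lemma cl1_zero (a b : ℤ) : cl1 a b 0 = a := by
  unfold cl1; split_ifs <;> omega

lemma cl1_end {a b x : ℤ} (h : |b - a| ≤ x) : cl1 a b x = b := by
  rw [abs_le] at h
  unfold cl1; split_ifs <;> omega

lemma cl1_step (a b : ℤ) {x s : ℤ} (hs : 0 ≤ s) : |cl1 a b (x + s) - cl1 a b x| ≤ s := by
  rw [abs_le]
  unfold cl1; split_ifs <;> omega

lemma cl1_mem {a b x lo hi : ℤ} (hx : 0 ≤ x) (ha : lo ≤ a ∧ a ≤ hi) (hb : lo ≤ b ∧ b ≤ hi) :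
    lo ≤ cl1 a b x ∧ cl1 a b x ≤ hi := by
  unfold cl1; split_ifs <;> omega

/-- the straight path with steps `s` -/
def sp (u v : ℤ × ℤ) (s : ℕ) (j : ℕ) : ℤ × ℤ := (cl1 u.1 v.1 (j * s), cl1 u.2 v.2 (j * s))

lemma sp_zero (u v : ℤ × ℤ) (s : ℕ) : sp u v s 0 = u := by
  unfold sp
  refine Prod.ext ?_ ?_ <;> simp [cl1_zero]

lemma sp_end {u v : ℤ × ℤ} {s k : ℕ} (h1 : |v.1 - u.1| ≤ k * s) (h2 : |v.2 - u.2| ≤ k * s) :
    sp u v s k = v := by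
  unfold sp
  refine Prod.ext ?_ ?_
  · exact cl1_end h1
  · exact cl1_end h2

lemma sp_step (u v : ℤ × ℤ) (s j : ℕ) : |(sp u v s (j + 1)).1 - (sp u v s j).1| ≤ s ∧
    |(sp u v s (j + 1)).2 - (sp u v s j).2| ≤ s := by
  unfold sp
  have e : (((j + 1 : ℕ) : ℤ)) * s = j * s + s := by push_cast; ring
  simp only [e]
  exact ⟨cl1_step _ _ (by omega), cl1_step _ _ (by omega)⟩

lemma sp_mem {u v p : ℤ × ℤ} {s : ℕ} (j : ℕ) {r : ℤ} (hu : |u.1 - p.1| ≤ r ∧ |u.2 - p.2| ≤ r)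
    (hv : |v.1 - p.1| ≤ r ∧ |v.2 - p.2| ≤ r) :
    |(sp u v s j).1 - p.1| ≤ r ∧ |(sp u v s j).2 - p.2| ≤ r := by
  obtain ⟨h1, h2⟩ := hu
  obtain ⟨h3, h4⟩ := hv
  rw [abs_le] at h1 h2 h3 h4
  have g1 := cl1_mem (x := j * s) (by positivity) (a := u.1) (b := v.1) (lo := p.1 - r)
    (hi := p.1 + r) (by omega) (by omega)
  have g2 := cl1_mem (x := j * s) (by positivity) (a := u.2) (b := v.2) (lo := p.2 - r)
    (hi := p.2 + r) (by omega) (by omega)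
  unfold sp
  rw [abs_le, abs_le]
  simp only
  omega

/-- the value of the straight path -/
lemma sp_val {X : Env} {u v p : ℤ × ℤ} {s k : ℕ} {r : ℤ} (hF : Free X.E p r)
    (hu : |u.1 - p.1| ≤ r ∧ |u.2 - p.2| ≤ r) (hv : |v.1 - p.1| ≤ r ∧ |v.2 - p.2| ≤ r)
    (h1 : |v.1 - u.1| ≤ k * s) (h2 : |v.2 - u.2| ≤ k * s) :
    val X (sp u v s) k = X.D u v := by
  have key : ∀ i : ℕ, ∑ j ∈ range i, X.D (sp u v s j) (sp u v s (j + 1)) = X.D u (sp u v s i) := by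
    intro i
    have hin : ∀ i : ℕ, inB (p.1 - r) (p.1 + r) (p.2 - r) (p.2 + r) (sp u v s i) := by
      intro i
      obtain ⟨g1, g2⟩ := sp_mem (s := s) i hu hv
      rw [abs_le] at g1 g2
      unfold inB
      omega
    induction i with
    | zero => simp [sp_zero, Env.D_self]
    | succ i ih =>
      rw [sum_range_succ, ih]
      have h0 := hin 0
      rw [sp_zero] at h0
      exact Env.D_add hF h0 (hin i) (hin (i + 1))
  unfold val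
  rw [key k, sp_end h1 h2]


lemma jn_free {E : Finset (ℤ × ℤ)} {v u : ℕ → ℤ × ℤ} {k' k : ℕ} {r : ℤ}
    (hv : ∀ j ≤ k', Free E (v j) r) (hu : ∀ j ≤ k, Free E (u j) r) :
    ∀ j ≤ k' + k, Free E (jn v u k' j) r := by
  intro j hj
  unfold jn
  split_ifs with h
  · exact hv _ (by omega)
  · exact hu _ (by omega)

lemma NearW.anti {E E' : Finset (ℤ × ℤ)} {x : ℤ × ℤ} {m : ℤ} (h : NearW E x m) (hE : E' ⊆ E) :
    NearW E' x m := by
  obtain ⟨l, h1, h2, h3, h4⟩ := h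
  exact ⟨l, h1, fun h5 => h2 (hE h5), h3, h4⟩

/-- **Differences in a free box of a Dobrushin environment.** -/
theorem vd_bound (hS : STAR) (hR : RAY) : ∃ Cs : ℝ, 0 < Cs ∧ ∀ δ : ℝ, 0 < δ → δ < 1 →
    ∀ κ : ℝ, 0 < κ → κ < δ / 8000 → ∀ ε : ℝ, 0 < ε → ∃ (N0 : ℕ) (C' : ℝ), 0 ≤ C' ∧ ∀ N : ℕ,
    N0 ≤ N → ∀ r : ℕ, δ * N / 6 ≤ r → r ≤ N → ∀ (V : Env) (W : Finset (ℤ × ℤ))
    (a p u v : ℤ × ℤ), DEnvX V W → V.E ⊆ Bx (a.1 - N) (a.1 + N) (a.2 - N) (a.2 + N) →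
    Free V.E p r → InQ p r u → InQ p r v →
    ‖V.D u v‖ ≤ 2 * Sup68 κ N + (Cs * κ ^ (2 / 3 : ℝ) + ε) * recd mm N * (N : ℝ) ^ (2 / 3 : ℝ) +
      C' * (N : ℝ) ^ (2 / 3 : ℝ) := by
  obtain ⟨Cs, hCs, hstar⟩ := hS
  refine ⟨Cs, hCs, ?_⟩
  intro δ hδ0 hδ1 κ hκ hκδ ε hε
  obtain ⟨c1, hc0, hc1, hray⟩ := hR (δ / 8) (by positivity) (by linarith)
  obtain ⟨N1, hray⟩ := hray κ hκ (by linarith)
  have hκ1 : κ < 1 := by linarith
  obtain ⟨N2, C', hstar⟩ := hstar κ (ε / 4) ⌈3000 / κ⌉₊ hκ hκ1 (by positivity)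
  obtain ⟨N3, hexp⟩ := explore κ (ε / 4) ⌈3000 / κ⌉₊ hκ hκ1 (by positivity)
  refine ⟨max (max N1 N2) (max N3 ⌈100000 / κ⌉₊), |C'|, abs_nonneg _, ?_⟩
  intro N hN r hr hrN V W a p u v hV hbox hF hu hv
  have hN1 : N1 ≤ N := ((le_max_left _ _).trans (le_max_left _ _)).trans hN
  have hN2 : N2 ≤ N := ((le_max_right _ _).trans (le_max_left _ _)).trans hN
  have hN3 : N3 ≤ N := ((le_max_left _ _).trans (le_max_right _ _)).trans hN
  have hN4 : ⌈100000 / κ⌉₊ ≤ N := ((le_max_right _ _).trans (le_max_right _ _)).trans hN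
  have hκN : 100000 ≤ κ * N := by
    have h1 : 100000 / κ ≤ N := (Nat.le_ceil _).trans (by exact_mod_cast hN4)
    rw [div_le_iff₀ hκ] at h1
    linarith
  have hN0 : (0 : ℝ) ≤ N := Nat.cast_nonneg _
  have hRn := recd_nonneg mm N
  set R := recd mm N with hRdef
  set P := (N : ℝ) ^ (2 / 3 : ℝ) with hP
  have hP0 : 0 ≤ P := by positivity
  have hSup := Sup68_nonneg κ N
  set S := Sup68 κ N with hSdef
  have hRP : 0 ≤ R * P := mul_nonneg hRn hP0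
  have hκp : 0 ≤ κ ^ (2 / 3 : ℝ) := by positivity
  obtain ⟨ρ, hρdef⟩ : ∃ ρ : ℤ, ρ = ⌊κ * N / 4⌋ := ⟨_, rfl⟩
  obtain ⟨m, hmdef⟩ : ∃ m : ℤ, m = ⌊κ * N⌋ := ⟨_, rfl⟩
  have hρhi : (ρ : ℝ) ≤ κ * N / 4 := by rw [hρdef]; exact Int.floor_le _
  have hρlo : κ * N / 4 < ρ + 1 := by rw [hρdef]; exact Int.lt_floor_add_one _
  have hρ1 : 10000 ≤ ρ := by
    have h1 : ((10000 : ℤ) : ℝ) < ((ρ + 1 : ℤ) : ℝ) := by push_cast; linarith
    have := Int.cast_lt.1 h1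
    omega
  have hρr : 8 * ρ ≤ r := by
    have h1 : ((8 * ρ : ℤ) : ℝ) ≤ ((r : ℤ) : ℝ) := by push_cast; nlinarith
    exact_mod_cast h1
  obtain ⟨hu1, hu2⟩ : 4 * |u.1 - p.1| ≤ r ∧ 4 * |u.2 - p.2| ≤ r := hu
  obtain ⟨hv1, hv2⟩ : 4 * |v.1 - p.1| ≤ r ∧ 4 * |v.2 - p.2| ≤ r := hv
  -- the rays
  have hz : ∀ z : ℤ × ℤ, 4 * |z.1 - p.1| ≤ r → 4 * |z.2 - p.2| ≤ r →
      Free V.E z ⌊δ / 8 * N⌋ := by
    intro z h1 h2
    have h3 : 4 * ⌊δ / 8 * N⌋ ≤ 3 * (r : ℤ) := by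
      have h4 : ((⌊δ / 8 * N⌋ : ℤ) : ℝ) ≤ δ / 8 * N := Int.floor_le _
      have h5 : ((4 * ⌊δ / 8 * N⌋ : ℤ) : ℝ) ≤ ((3 * (r : ℤ) : ℤ) : ℝ) := by push_cast; linarith
      exact_mod_cast h5
    exact hF.mono (by omega) (by omega)
  obtain ⟨k1, v1, a1, a2, a3, a4, a5, a6⟩ := hray N V W a u hN1 hV hbox (hz u hu1 hu2)
  obtain ⟨k2, v2, b1, b2, b3, b4, b5, b6⟩ := hray N V W a v hN1 hV hbox (hz v hv1 hv2)
  rw [← hρdef] at a3 a4 b3 b4
  rw [← hmdef] at a5 b5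
  -- the straight path
  obtain ⟨s, hs⟩ := Int.eq_ofNat_of_zero_le (show 0 ≤ ρ / 32 by omega)
  have hs0 : 0 < s := by omega
  obtain ⟨k0, hk0, hk0'⟩ : ∃ k0 : ℕ, (r : ℤ) ≤ 2 * (k0 * s) ∧ (k0 : ℝ) ≤ 200 / κ := by
    refine ⟨r / s + 1, ?_, ?_⟩
    · have := Nat.lt_div_mul_add (a := r) hs0
      have e : (((r / s + 1 : ℕ) : ℤ)) * s = ((r / s * s + s : ℕ) : ℤ) := by push_cast; ring
      rw [e]
      omega
    · have h1 : ((r / s : ℕ) : ℝ) ≤ (r : ℝ) / s := Nat.cast_div_le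
      have hs0r : (0 : ℝ) < s := by exact_mod_cast hs0
      have h2 : κ * N / 160 ≤ s := by
        have h3 : ρ ≤ 32 * (s : ℤ) + 31 := by omega
        have h4 : (ρ : ℝ) ≤ 32 * s + 31 := by exact_mod_cast h3
        linarith
      have h3 : (r : ℝ) / s ≤ 160 / κ := by
        rw [div_le_div_iff₀ hs0r hκ]
        have h7 : (r : ℝ) ≤ N := by exact_mod_cast hrN
        nlinarith
      have h4 : 1 ≤ 40 / κ := by
        rw [le_div_iff₀ hκ]; linarith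
      have e : 200 / κ = 160 / κ + 40 / κ := by ring
      push_cast
      rw [e]
      linarith
  set c := sp u v s with hc
  have hc0' : c 0 = u := sp_zero u v s
  have hcu : |v.1 - u.1| ≤ k0 * s := by
    rw [abs_le]
    have h1 := abs_le.1 (show |u.1 - p.1| ≤ (r : ℤ) / 4 by omega)
    have h2 := abs_le.1 (show |v.1 - p.1| ≤ (r : ℤ) / 4 by omega)
    omega
  have hcv : |v.2 - u.2| ≤ k0 * s := by
    rw [abs_le]
    have h1 := abs_le.1 (show |u.2 - p.2| ≤ (r : ℤ) / 4 by omega)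
    have h2 := abs_le.1 (show |v.2 - p.2| ≤ (r : ℤ) / 4 by omega)
    omega
  have hcend : c k0 = v := sp_end hcu hcv
  have hcF : ∀ j ≤ k0, Free V.E (c j) (2 * ρ) := by
    intro j _
    obtain ⟨g1, g2⟩ := sp_mem (u := u) (v := v) (p := p) (s := s) j (r := (r : ℤ) / 4)
      ⟨by omega, by omega⟩ ⟨by omega, by omega⟩
    rw [← hc] at g1 g2
    exact hF.mono (by omega) (by omega)
  have hcs : ∀ j < k0, 32 * |(c (j + 1)).1 - (c j).1| ≤ ρ ∧ 32 * |(c (j + 1)).2 - (c j).2| ≤ ρ := by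
    intro j _
    obtain ⟨g1, g2⟩ := sp_step u v s j
    rw [← hc] at g1 g2
    constructor <;> omega
  have hcval : val V c k0 = V.D u v := by
    have hr4 : (r : ℤ) / 4 ≤ r := by omega
    exact sp_val hF ⟨by omega, by omega⟩ ⟨by omega, by omega⟩ hcu hcv
  have dm : ∀ {w : ℕ → ℤ × ℤ} {k : ℕ}, (∀ j ≤ k, Free V.E (w j) (2 * ρ)) →
      ∀ j ≤ k, Dm (w j) ρ ⊆ V.E := fun h j hj => dm_of_free (h j hj) (by omega)
  -- e: from v back to u and to the wall; J: from wall to wall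
  have he0 : c 0 = v1 0 := by rw [hc0', a2]
  set e := jn c v1 k0 with hedef
  have heF := jn_free (k := k1) hcF a4
  have hec := jn_chn (E := V.E) he0 (dm hcF) hcs ⟨dm a4, a3⟩
  have heval : val V e (k0 + k1) = val V v1 k1 - val V c k0 := jn_val he0 (dm hcF) hcs k1
  have he0' : e 0 = v := by rw [hedef, jn_zero, hcend]
  have hee : e (k0 + k1) = v1 k1 := jn_end he0 k0 k1
  have hJ0 : e 0 = v2 0 := by rw [he0', b2]
  set J := jn e v2 (k0 + k1) with hJdef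
  have hJF := jn_free (k := k2) heF b4
  have hJc := jn_chn (E := V.E) hJ0 (dm heF) hec.step ⟨dm b4, b3⟩
  have hJval : val V J (k0 + k1 + k2) = val V v2 k2 - val V e (k0 + k1) :=
    jn_val hJ0 (dm heF) hec.step k2
  have hJ0' : J 0 = v1 k1 := by rw [hJdef, jn_zero, hee]
  have hJe : J (k0 + k1 + k2) = v2 k2 := jn_end hJ0 (k0 + k1) k2
  have hlen : ((k0 + k1 + k2 : ℕ) : ℝ) ≤ 3000 / κ := by
    have e1 : 3000 / κ = 200 / κ + 1000 / κ + 1000 / κ + 800 / κ := by ring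
    have e2 : 0 ≤ 800 / κ := by positivity
    push_cast
    rw [e1]
    linarith
  have hlen' : k0 + k1 + k2 ≤ ⌈3000 / κ⌉₊ := by exact_mod_cast hlen.trans (Nat.le_ceil _)
  -- the rays
  have ray : ∀ (w : ℕ → ℤ × ℤ) (k : ℕ), (k : ℝ) ≤ 1000 / κ →
      (∀ j ≤ k, Free V.E (w j) (2 * ρ)) → (∀ j < k, 32 * |(w (j + 1)).1 - (w j).1| ≤ ρ ∧
        32 * |(w (j + 1)).2 - (w j).2| ≤ ρ) → NearW V.E (w k) m →
      ‖val V w k‖ ≤ S + ε / 4 * R * P := by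
    intro w k hk hwF hws hwn
    rw [hρdef] at hwF hws
    rw [hmdef] at hwn
    have hk3 : k ≤ ⌈3000 / κ⌉₊ := by
      have h5 : (k : ℝ) ≤ 3000 / κ := hk.trans (div_le_div_of_nonneg_right (by norm_num) hκ.le)
      exact_mod_cast h5.trans (Nat.le_ceil _)
    refine (hexp N V W a w k hN3 hV hbox hk3 hwF hws hwn S hSup (by
      intro Y W' hY _
      exact le_Sup68 hκ hY (hk.trans (div_le_div_of_nonneg_right (by norm_num) hκ.le)))).trans ?_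
    have h1 := mul_le_mul_of_nonneg_right
      (Pr_le_one V.E (Pool.Agent.H68.Q1.Hit V w k ⌊κ * N / 4⌋)) hSup
    linarith
  have r1 := ray v1 k1 a1 a4 a3 a5
  have r2 := ray v2 k2 b1 b4 b3 b5
  have hB0 : 0 ≤ (Cs * κ ^ (2 / 3 : ℝ) + ε / 4) * R * P + |C'| * P := by positivity
  have r3 : ‖val V J (k0 + k1 + k2)‖ ≤ (Cs * κ ^ (2 / 3 : ℝ) + ε / 4) * R * P + |C'| * P +
      ε / 4 * R * P := by
    rw [hρdef] at hJF hJc
    have hst := hJc.step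
    refine (hexp N V W a J (k0 + k1 + k2) hN3 hV hbox hlen' hJF hst
      (by rw [hJe, ← hmdef]; exact b5) _ hB0 (by
      intro Y W' hY hYE
      have h1 := hstar N Y W' a J (k0 + k1 + k2) hN2 hlen' hY
        (by rw [hJ0', ← hmdef]; exact a5.anti hYE)
      have h2 := mul_le_mul_of_nonneg_right (le_abs_self C') hP0
      linarith)).trans ?_
    have h1 := mul_le_mul_of_nonneg_right
      (Pr_le_one V.E (Pool.Agent.H68.Q1.Hit V J (k0 + k1 + k2) ⌊κ * N / 4⌋)) hB0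
    linarith
  have hfin : V.D u v = val V J (k0 + k1 + k2) - val V v2 k2 + val V v1 k1 := by
    rw [hJval, heval, hcval]; ring
  rw [hfin]
  refine (norm_add_le _ _).trans ?_
  have h1 := norm_sub_le (val V J (k0 + k1 + k2)) (val V v2 k2)
  have e1 : (Cs * κ ^ (2 / 3 : ℝ) + ε) * R * P = (Cs * κ ^ (2 / 3 : ℝ) + ε / 4) * R * P +
    3 * (ε / 4 * R * P) := by ring
  rw [e1]
  linarith


/-- **The first step** in the form of `ap_abs2`. -/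
theorem fs_of (hD : D1P) (hS : STAR) (hR : RAY) : ∃ C a : ℝ, 0 ≤ C ∧ 1 / 3 < a ∧ ∀ δ : ℝ,
    0 < δ → δ < 1 → ∃ κ0 : ℝ, 0 < κ0 ∧ ∀ κ : ℝ, 0 < κ → κ < κ0 → ∀ ε : ℝ, 0 < ε →
    ∃ (N0 : ℕ) (C' : ℝ), ∀ N : ℕ, N0 ≤ N → mm N ≤ C' * (N : ℝ) ^ (2 / 3 : ℝ) +
      C / δ * (C * δ ^ a * recd mm N * (δ * N) ^ (2 / 3 : ℝ) +
        (C * κ ^ (2 / 3 : ℝ) + ε) * recd mm N * (N : ℝ) ^ (2 / 3 : ℝ) + 2 * Sup68 κ N) := by
  obtain ⟨C1, hC1, hd1⟩ := hD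
  obtain ⟨Cs, hCs, hvd⟩ := vd_bound hS hR
  refine ⟨20 + C1 + Cs, 5 / 4, by linarith, by norm_num, ?_⟩
  intro δ hδ0 hδ1
  refine ⟨δ / 8000, by positivity, ?_⟩
  intro κ hκ hκδ ε hε
  obtain ⟨N1, C', hC', hvd⟩ := hvd δ hδ0 hδ1 κ hκ hκδ ε hε
  refine ⟨max N1 ⌈10000 / δ⌉₊, 10 / δ * C', ?_⟩
  intro N hN
  have hN1 : N1 ≤ N := (le_max_left _ _).trans hN
  have hN2 : ⌈10000 / δ⌉₊ ≤ N := (le_max_right _ _).trans hN
  have hδN : 10000 ≤ δ * N := by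
    have h1 : 10000 / δ ≤ N := (Nat.le_ceil _).trans (by exact_mod_cast hN2)
    rw [div_le_iff₀ hδ0] at h1
    linarith
  have hN0 : (0 : ℝ) ≤ N := Nat.cast_nonneg _
  have hNbig : (10000 : ℝ) ≤ N := by nlinarith
  have hRn := recd_nonneg mm N
  set R := recd mm N with hRdef
  set P := (N : ℝ) ^ (2 / 3 : ℝ) with hP
  have hP0 : 0 ≤ P := by positivity
  have hSup := Sup68_nonneg κ N
  set S := Sup68 κ N with hSdef
  have hRP : 0 ≤ R * P := mul_nonneg hRn hP0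
  have hκp : 0 ≤ κ ^ (2 / 3 : ℝ) := by positivity
  set Q := (δ * N) ^ (2 / 3 : ℝ) with hQ
  have hQ0 : 0 ≤ Q := by positivity
  have hδp : 0 ≤ δ ^ (5 / 4 : ℝ) := by positivity
  set r := ⌊δ * N / 4⌋₊ with hr
  have hrhi : (r : ℝ) ≤ δ * N / 4 := Nat.floor_le (by positivity)
  have hrlo : δ * N / 4 < r + 1 := Nat.lt_floor_add_one _
  have hr4 : 4 * r ≤ N := by
    have : ((4 * r : ℕ) : ℝ) ≤ N := by push_cast; nlinarith
    exact_mod_cast this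
  have hr1 : 2000 ≤ r := by
    have : (2000 : ℝ) ≤ r := by linarith
    exact_mod_cast this
  set N' := N / 2 with hN'
  set s := r / 4 with hs
  have hs0 : 0 < s := by omega
  set k := N / 2 / s + 1 with hk
  have hks : N ≤ 2 * (k * s) + 1 := by
    have := Nat.lt_div_mul_add (a := N / 2) hs0
    have e : k * s = N / 2 / s * s + s := by rw [hk]; ring
    rw [e]
    omega
  have hkr : (k : ℝ) ≤ 10 / δ := by
    have hs0r : (0 : ℝ) < s := by exact_mod_cast hs0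
    have h1 : ((N / 2 / s : ℕ) : ℝ) ≤ ((N / 2 : ℕ) : ℝ) / s := Nat.cast_div_le
    have h2 : ((N / 2 : ℕ) : ℝ) ≤ N / 2 := Nat.cast_div_le
    have h3 : δ * N / 17 ≤ s := by
      have h4 : r ≤ 4 * s + 3 := by omega
      have h5 : (r : ℝ) ≤ 4 * s + 3 := by exact_mod_cast h4
      linarith
    have h4 : ((N / 2 : ℕ) : ℝ) / s ≤ 9 / δ := by
      rw [div_le_div_iff₀ hs0r hδ0]
      nlinarith
    have h5 : 1 ≤ 1 / δ := by
      rw [le_div_iff₀ hδ0]; linarith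
    have e : 10 / δ = 9 / δ + 1 / δ := by ring
    rw [hk, e]
    push_cast
    linarith
  have hratio : ((r : ℝ) / (N' : ℕ)) ^ (5 / 4 : ℝ) ≤ δ ^ (5 / 4 : ℝ) := by
    refine Real.rpow_le_rpow (by positivity) ?_ (by norm_num)
    have h1 : (N : ℝ) ≤ 2 * (N' : ℕ) + 1 := by
      have : N ≤ 2 * N' + 1 := by omega
      exact_mod_cast this
    have h2 : (0 : ℝ) < (N' : ℕ) := by linarith
    rw [div_le_iff₀ h2]
    nlinarith
  have hmmr : mm r ≤ R * Q := by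
    refine (le_recd mm (by omega) (by omega : r ≤ N)).trans (mul_le_mul_of_nonneg_left ?_ hRn)
    exact Real.rpow_le_rpow (by positivity) (by nlinarith) (by norm_num)
  have hmm0 := mm_nonneg r
  set Bd := 2 * S + (Cs * κ ^ (2 / 3 : ℝ) + ε) * R * P + C' * P with hBd
  have hBd0 : 0 ≤ Bd := by positivity
  have hT0 : 0 ≤ (20 + C1 + Cs) / δ * ((20 + C1 + Cs) * δ ^ (5 / 4 : ℝ) * R * Q +
        ((20 + C1 + Cs) * κ ^ (2 / 3 : ℝ) + ε) * R * P + 2 * S) := by positivity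
  have hT1 : 0 ≤ 10 / δ * C' * P := by positivity
  refine mm_le (by linarith) ?_
  intro X p u v hX hF hu hv
  obtain ⟨hu1, hu2⟩ : 4 * |u.1 - p.1| ≤ N ∧ 4 * |u.2 - p.2| ≤ N := hu
  obtain ⟨hv1, hv2⟩ : 4 * |v.1 - p.1| ≤ N ∧ 4 * |v.2 - p.2| ≤ N := hv
  have hb1 := abs_le.1 (show |u.1 - p.1| ≤ (N : ℤ) / 4 by omega)
  have hb2 := abs_le.1 (show |u.2 - p.2| ≤ (N : ℤ) / 4 by omega)
  have hb3 := abs_le.1 (show |v.1 - p.1| ≤ (N : ℤ) / 4 by omega)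
  have hb4 := abs_le.1 (show |v.2 - p.2| ≤ (N : ℤ) / 4 by omega)
  have hks' : (N : ℤ) ≤ 2 * (k * s) + 1 := by exact_mod_cast hks
  have hval := sp_val (X := X) (u := u) (v := v) (s := s) (k := k) hF ⟨by omega, by omega⟩
    ⟨by omega, by omega⟩ (by rw [abs_le]; omega) (by rw [abs_le]; omega)
  rw [← hval]
  have hpiece : ∀ j ∈ range k, ‖X.D (sp u v s j) (sp u v s (j + 1))‖ ≤
      Bd + C1 * (δ ^ (5 / 4 : ℝ) * (R * Q)) := by
    intro j _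
    obtain ⟨g1, g2⟩ := sp_mem (u := u) (v := v) (p := p) (s := s) j (r := (N : ℤ) / 4)
      ⟨by omega, by omega⟩ ⟨by omega, by omega⟩
    obtain ⟨g3, g4⟩ := sp_step u v s j
    set c := sp u v s j with hc
    set c' := sp u v s (j + 1) with hc'
    have hFc : Free X.E c (N' : ℕ) := hF.mono (by omega) (by omega)
    have hq1 : InQ c r c := inQ_of (by simp) (by simp)
    have hq2 : InQ c r c' := inQ_of (by omega) (by omega)
    have h1 := hd1 N' r (by omega) (by omega) X c c c' hX hFc hq1 hq2 Bd (by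
      intro V W hV hbox hFV
      refine hvd N hN1 r (by linarith) (by omega) V W c c c c' hV (hbox.trans ?_) hFV hq1 hq2
      intro l hl
      rw [mem_Bx] at hl ⊢
      omega)
    refine h1.trans ?_
    have h2 : C1 * ((r : ℝ) / (N' : ℕ)) ^ (5 / 4 : ℝ) * mm r ≤
        C1 * (δ ^ (5 / 4 : ℝ) * (R * Q)) := by
      rw [mul_assoc]
      exact mul_le_mul_of_nonneg_left (mul_le_mul hratio hmmr hmm0 hδp) hC1.le
    linarith
  have hsum : ‖val X (sp u v s) k‖ ≤ 10 / δ * (Bd + C1 * (δ ^ (5 / 4 : ℝ) * (R * Q))) := by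
    unfold val
    refine (norm_sum_le _ _).trans ((sum_le_sum hpiece).trans ?_)
    rw [sum_const, card_range, nsmul_eq_mul]
    exact mul_le_mul_of_nonneg_right hkr (by positivity)
  refine hsum.trans ?_
  rw [hBd]
  have e1 : 10 / δ * (2 * S + (Cs * κ ^ (2 / 3 : ℝ) + ε) * R * P + C' * P +
      C1 * (δ ^ (5 / 4 : ℝ) * (R * Q))) = 10 / δ * C' * P +
      10 / δ * (C1 * δ ^ (5 / 4 : ℝ) * R * Q + (Cs * κ ^ (2 / 3 : ℝ) + ε) * R * P + 2 * S) := by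
    ring
  rw [e1]
  have h1 : 10 / δ ≤ (20 + C1 + Cs) / δ := div_le_div_of_nonneg_right (by linarith) hδ0.le
  have h2 : C1 * δ ^ (5 / 4 : ℝ) * R * Q ≤ (20 + C1 + Cs) * δ ^ (5 / 4 : ℝ) * R * Q := by
    have : 0 ≤ δ ^ (5 / 4 : ℝ) * R * Q := by positivity
    nlinarith
  have h3 : (Cs * κ ^ (2 / 3 : ℝ) + ε) * R * P ≤
      ((20 + C1 + Cs) * κ ^ (2 / 3 : ℝ) + ε) * R * P := by
    have : 0 ≤ κ ^ (2 / 3 : ℝ) * (R * P) := by positivity
    nlinarith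
  have h4 : 0 ≤ C1 * δ ^ (5 / 4 : ℝ) * R * Q + (Cs * κ ^ (2 / 3 : ℝ) + ε) * R * P + 2 * S := by
    positivity
  have h5 := mul_le_mul h1 (show C1 * δ ^ (5 / 4 : ℝ) * R * Q +
    (Cs * κ ^ (2 / 3 : ℝ) + ε) * R * P + 2 * S ≤ (20 + C1 + Cs) * δ ^ (5 / 4 : ℝ) * R * Q +
    ((20 + C1 + Cs) * κ ^ (2 / 3 : ℝ) + ε) * R * P + 2 * S by linarith) h4 (by positivity)
  linarith

/-- **AP for the plane class** from D1, RAY and STAR. -/
theorem ap_of (hD : D1P) (hS : STAR) (hR : RAY) : Pool.Agent.Q1.AP PlaneK := by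
  obtain ⟨C, _, h⟩ := Pool.Agent.H68.Q1.ap_abs2 (fs_of hD hS hR) (mp_of hS hR)
  exact Pool.Agent.Q1.M6c.AP_of_mm h

end Pool.Agent.H77.Q1
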