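import Mathlib
import Pool.Agent.H77.Q1.FS
import Pool.Agent.H77.Q1.StarC
import Pool.Agent.H30.Cell.WallOk
import Pool.Agent.H68.Q1.Ray

set_option autoImplicit false

/-! Chapter D: AP for the plane environments from the two open statements `D1P`, `COMP`. -/

namespace Pool.Agent.H77.Q1

theorem ray_ok : RAY := fun δ0 h0 h1 => Pool.Agent.H68.Q1.ray δ0 h0 h1

theorem star_of_comp (hC : COMP) : STAR := star_of' hC Pool.Agent.H30.Cell.wall_ok

theorem ap_plane (hD : D1P) (hC : COMP) : Pool.Agent.Q1.AP Pool.Agent.Q1.M6c.PlaneK :=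
  ap_of hD (star_of_comp hC) ray_ok

end Pool.Agent.H77.Q1
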