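import Mathlib
import Pool.Agent.H77.Q1.Approach

set_option autoImplicit false
open Finset

/-! Module M5 of Q1, for B3 and C2: the boundary of the explored dual cluster seen from the other side,
and ties of the boundary of a hull to it.

`P1` = faces joined to `f1` by closed labels of `ω ∪ W`, off the root edge `e0`;
`Kb` = labels of `ω ∪ W` with exactly one face in `P1` (it joins `x` to `t`). -/

namespace Pool.Agent.H77.Q1

open Pool.Agent.H75.Perc Pool.Agent.H75.TwoArm Pool.Agent.H75.Four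

/-- faces joined to `f2` by labels of the box off the root edge through faces without `P` -/
def RS (M : ℤ) (e0 : ℤ × ℤ) (P : ℤ × ℤ → Prop) (f2 g : ℤ × ℤ) : Prop :=
  Relation.ReflTransGen (fun g g' => IsUnit4 (g' - g) ∧ lbf g g' ∈ H75.TwoArm.BB M ∧
    lbf g g' ≠ e0 ∧ ¬ P g') f2 g

lemma RS.not {M : ℤ} {e0 : ℤ × ℤ} {P : ℤ × ℤ → Prop} {f2 g : ℤ × ℤ} (h : RS M e0 P f2 g)
    (h2 : ¬ P f2) : ¬ P g := by
  unfold RS at h
  induction h with
  | refl => exact h2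
  | tail _ hbc _ => exact hbc.2.2.2

/-- open boundary of the dual cluster of `f1` in `ω ∪ W` -/
noncomputable def Kc (M : ℤ) (e0 : ℤ × ℤ) (W : Finset (ℤ × ℤ)) (f1 : ℤ × ℤ)
    (ω : Finset (ℤ × ℤ)) : Finset (ℤ × ℤ) := Kb M e0 W ∅ f1 ω

/-- faces of the label `l` -/
def FaceOf (l g : ℤ × ℤ) : Prop := ∃ g' : ℤ × ℤ, IsUnit4 (g' - g) ∧ lbf g g' = l

section
variable {M : ℤ} {e0 : ℤ × ℤ} {E W ω : Finset (ℤ × ℤ)} {f1 f2 x t : ℤ × ℤ}

lemma mem_Kc {l : ℤ × ℤ} : l ∈ Kc M e0 W f1 ω ↔ l ∈ ω ∪ W ∧ Bdy (Dc M e0 (ω ∪ W) f1) l := by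
  classical
  unfold Kc Kb
  rw [mem_filter, union_empty]

/-- The standing hypotheses: `x` and `t` are joined in `ω ∪ W`. -/
structure Joined (M : ℤ) (e0 : ℤ × ℤ) (ω W : Finset (ℤ × ℤ)) (f1 f2 x t : ℤ × ℤ) : Prop where
  odd : (e0.1 + e0.2) % 2 = 1
  mem : e0 ∈ H75.TwoArm.BB (M - 1)
  sub : ω ∪ W ⊆ H75.TwoArm.BB (M - 1)
  nmem : e0 ∉ ω ∪ W
  fac : Fac e0 f1 f2
  ends : Ends e0 x t
  co : Co (ω ∪ W) x t

lemma Joined.f2_not (h : Joined M e0 ω W f1 f2 x t) : ¬ Dc M e0 (ω ∪ W) f1 f2 := fun h1 =>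
  (dual_iff' h.odd h.mem h.sub h.nmem h.fac h.ends).2 h1 h.co

lemma Joined.kc (h : Joined M e0 ω W f1 f2 x t) : Co (Kc M e0 W f1 ω) x t := by
  refine kb_conn h.odd h.mem ?_ ?_ h.fac h.ends ?_
  · rw [union_empty]; exact h.sub
  · rw [union_empty]; exact h.nmem
  · rw [union_empty]; exact h.co

/-- a label with one face in the cluster and the other one visible from `f2` is joined to `t` -/
lemma vis (h : Joined M e0 ω W f1 f2 x t) {φ ζ : ℤ × ℤ} (hu : IsUnit4 (ζ - φ))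
    (hφ : Dc M e0 (ω ∪ W) f1 φ) (hζ : RS M e0 (Dc M e0 (ω ∪ W) f1) f2 ζ)
    (hB : lbf φ ζ ∈ H75.TwoArm.BB M) (hne : lbf φ ζ ≠ e0) :
    lbf φ ζ ∈ Kc M e0 W f1 ω ∧ Co (Kc M e0 W f1 ω) (eu (lbf φ ζ)) t ∧
      Co (Kc M e0 W f1 ω) (ev (lbf φ ζ)) t := by
  classical
  set m := lbf φ ζ with hm
  have hζP := hζ.not h.f2_not
  have hmK : m ∈ Kc M e0 W f1 ω := by
    rw [mem_Kc]
    refine ⟨?_, φ, ζ, hu, rfl, hφ, hζP⟩
    by_contra h1
    exact hζP (Relation.ReflTransGen.tail hφ (ad_dc.2 ⟨hu, hB, hne, h1⟩))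
  set Bt := (Kc M e0 W f1 ω).filter (fun l => Co (Kc M e0 W f1 ω) (eu l) t) with hBt
  have hBtK : Bt ⊆ Kc M e0 W f1 ω := filter_subset _ _
  have hKω : Kc M e0 W f1 ω ⊆ ω ∪ W := fun l hl => (mem_Kc.1 hl).1
  have hcoBt : Co Bt x t := by
    have h1 := h.kc
    have h2 := co_strong (T := Kc M e0 W f1 ω) (W := ∅) (v := x) (t := t)
      (by rw [union_empty]; exact h1) (fun l => Co (Kc M e0 W f1 ω) (eu l) t)
      (fun l _ h3 => by rw [union_empty] at h3; exact h3)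
    rwa [union_empty] at h2
  have hmBt : m ∈ Bt := by
    by_contra hmn
    have h1 : Dc M e0 Bt f1 φ := hφ.anti (hBtK.trans hKω)
    have h2 : Dc M e0 Bt φ ζ := Relation.ReflTransGen.single (ad_dc.2 ⟨hu, hB, hne, hmn⟩)
    have h3 : Dc M e0 Bt f2 ζ := by
      have hζ' := hζ
      unfold RS at hζ'
      clear h2
      suffices hs : ∀ g, Relation.ReflTransGen (fun g g' => IsUnit4 (g' - g) ∧
          lbf g g' ∈ H75.TwoArm.BB M ∧ lbf g g' ≠ e0 ∧ ¬ Dc M e0 (ω ∪ W) f1 g') f2 g →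
          ¬ Dc M e0 (ω ∪ W) f1 g ∧ Dc M e0 Bt f2 g from (hs ζ hζ').2
      intro g hg
      induction hg with
      | refl => exact ⟨h.f2_not, Dc.refl _⟩
      | @tail b c _ hbc ih =>
        refine ⟨hbc.2.2.2, Relation.ReflTransGen.tail ih.2
          (ad_dc.2 ⟨hbc.1, hbc.2.1, hbc.2.2.1, ?_⟩)⟩
        intro h4
        obtain ⟨g1, g2, h5, h6, h7, -⟩ := (mem_Kc.1 (hBtK h4)).2
        rcases faces_unique h5 hbc.1 h6 with rfl | rfl
        · exact ih.1 h7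
        · exact hbc.2.2.2 h7
    exact (dual_iff' h.odd h.mem ((hBtK.trans hKω).trans h.sub)
      (fun h4 => h.nmem (hKω (hBtK h4))) h.fac h.ends).2 ((h1.trans h2).trans h3.symm) hcoBt
  have hme := (mem_filter.1 hmBt).2
  have hodd : (m.1 + m.2) % 2 = 1 := (mem_Bx.1 (h.sub (hKω hmK))).2.2
  have h4 := PivAux.eu_ev hodd
  refine ⟨hmK, hme, Co.trans (Co.symm (Relation.ReflTransGen.single ⟨h4.1, ?_⟩)) hme⟩
  rw [h4.2]
  exact hmK

/-- `g` is one of the four faces around the vertex `z` -/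
def Ar (z g : ℤ × ℤ) : Prop :=
  g = z ∨ g = (z.1 + 1, z.2) ∨ g = (z.1 + 1, z.2 + 1) ∨ g = (z.1, z.2 + 1)

/-- the vertex `z` lies in the box of radius `r` -/
def VB (r : ℤ) (z : ℤ × ℤ) : Prop := |z.1| ≤ r ∧ |z.2| ≤ r

lemma around_of_label {l g z : ℤ × ℤ} (hg : FaceOf l g) (hz : z = eu l ∨ z = ev l) : Ar z g := by
  obtain ⟨g', h1, h2⟩ := hg
  have h3 := unit_cases h1
  subst h2
  unfold Ar
  unfold lbf eu ev at hz
  simp only [Prod.ext_iff, Prod.fst_sub, Prod.snd_sub, Prod.fst_add, Prod.snd_add] at hz ⊢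
  omega

/-- the labels around a vertex `z` of the box -/
lemma ring_step {z g g' : ℤ × ℤ} (hz : VB (M - 1) z) (h : IsUnit4 (g' - g)) (h1 : Ar z g)
    (h2 : Ar z g') : lbf g g' ∈ H75.TwoArm.BB M ∧ (z = eu (lbf g g') ∨ z = ev (lbf g g')) := by
  have h3 := unit_cases h
  unfold VB at hz
  rw [abs_le, abs_le] at hz
  unfold Ar at h1 h2
  unfold H75.TwoArm.BB
  rw [mem_Bx]
  unfold lbf eu ev
  simp only [Prod.ext_iff, Prod.fst_sub, Prod.snd_sub, Prod.fst_add, Prod.snd_add] at h1 h2 ⊢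
  omega

/-- either all faces around `z` are visible from `f2` or `z` is joined to `t` -/
lemma rot (h : Joined M e0 ω W f1 f2 x t) {z : ℤ × ℤ} (hz : VB (M - 1) z)
    (ha : ∃ g, Ar z g ∧ RS M e0 (Dc M e0 (ω ∪ W) f1) f2 g) :
    (∀ g, Ar z g → RS M e0 (Dc M e0 (ω ∪ W) f1) f2 g) ∨ Co (Kc M e0 W f1 ω) z t := by
  by_cases hx : z = x
  · right; rw [hx]; exact h.kc
  by_cases ht : z = t
  · right; rw [ht]; exact Co.refl _ _
  have hne : ∀ g g' : ℤ × ℤ, IsUnit4 (g' - g) → Ar z g → Ar z g' → lbf g g' ≠ e0 := by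
    intro g g' h1 h2 h3 h4
    have h5 := (ring_step hz h1 h2 h3).2
    rw [h4] at h5
    rcases h.ends with ⟨h6, h7⟩ | ⟨h6, h7⟩
    · rcases h5 with h5 | h5
      · exact hx (h5.trans h6.symm)
      · exact ht (h5.trans h7.symm)
    · rcases h5 with h5 | h5
      · exact ht (h5.trans h6.symm)
      · exact hx (h5.trans h7.symm)
  have step : ∀ g g' : ℤ × ℤ, IsUnit4 (g' - g) → Ar z g → Ar z g' →
      ¬ Co (Kc M e0 W f1 ω) z t → RS M e0 (Dc M e0 (ω ∪ W) f1) f2 g →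
      RS M e0 (Dc M e0 (ω ∪ W) f1) f2 g' := by
    intro g g' h1 h2 h3 hc h4
    obtain ⟨h5, h6⟩ := ring_step hz h1 h2 h3
    refine Relation.ReflTransGen.tail h4 ⟨h1, h5, hne g g' h1 h2 h3, ?_⟩
    intro h7
    apply hc
    have h8 := vis h (unit4_neg h1) h7 h4 (by rw [lbf_comm]; exact h5)
      (by rw [lbf_comm]; exact hne g g' h1 h2 h3)
    rw [lbf_comm] at h8
    rcases h6 with h6 | h6
    · rw [h6]; exact h8.2.1
    · rw [h6]; exact h8.2.2
  by_cases hc : Co (Kc M e0 W f1 ω) z t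
  · exact Or.inr hc
  left
  have u1 : IsUnit4 (((z.1 + 1, z.2) : ℤ × ℤ) - z) := by
    unfold IsUnit4
    simp only [Prod.ext_iff, Prod.fst_sub, Prod.snd_sub]
    omega
  have u2 : IsUnit4 (((z.1 + 1, z.2 + 1) : ℤ × ℤ) - (z.1 + 1, z.2)) := by
    unfold IsUnit4
    simp only [Prod.ext_iff, Prod.fst_sub, Prod.snd_sub]
    omega
  have u3 : IsUnit4 (((z.1, z.2 + 1) : ℤ × ℤ) - (z.1 + 1, z.2 + 1)) := by
    unfold IsUnit4
    simp only [Prod.ext_iff, Prod.fst_sub, Prod.snd_sub]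
    omega
  have u4 : IsUnit4 (z - ((z.1, z.2 + 1) : ℤ × ℤ)) := by
    unfold IsUnit4
    simp only [Prod.ext_iff, Prod.fst_sub, Prod.snd_sub]
    omega
  have a0 : Ar z z := Or.inl rfl
  have a1 : Ar z (z.1 + 1, z.2) := Or.inr (Or.inl rfl)
  have a2 : Ar z (z.1 + 1, z.2 + 1) := Or.inr (Or.inr (Or.inl rfl))
  have a3 : Ar z (z.1, z.2 + 1) := Or.inr (Or.inr (Or.inr rfl))
  have s1 := step _ _ u1 a0 a1 hc
  have s2 := step _ _ u2 a1 a2 hc
  have s3 := step _ _ u3 a2 a3 hc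
  have s4 := step _ _ u4 a3 a0 hc
  obtain ⟨g, hg, hR⟩ := ha
  have all : RS M e0 (Dc M e0 (ω ∪ W) f1) f2 z ∧ RS M e0 (Dc M e0 (ω ∪ W) f1) f2 (z.1 + 1, z.2) ∧
      RS M e0 (Dc M e0 (ω ∪ W) f1) f2 (z.1 + 1, z.2 + 1) ∧
      RS M e0 (Dc M e0 (ω ∪ W) f1) f2 (z.1, z.2 + 1) := by
    rcases hg with rfl | rfl | rfl | rfl <;> tauto
  rintro g' (rfl | rfl | rfl | rfl)
  · exact all.1
  · exact all.2.1
  · exact all.2.2.1
  · exact all.2.2.2

/-- **TIE LEMMA**, arbitrary end. A path in `Q` from a vertex visible from `f2` has an unexplored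
part which ends at the open boundary of the cluster, or the whole path is unexplored. -/
theorem tie' (h : Joined M e0 ω W f1 f2 x t) {Q : Finset (ℤ × ℤ)}
    (hQ : Q ⊆ H75.TwoArm.BB (M - 1)) {z z' : ℤ × ℤ} (hz : VB (M - 1) z)
    (ha : ∃ g, Ar z g ∧ RS M e0 (Dc M e0 (ω ∪ W) f1) f2 g) (hzz : Co Q z z') :
    ∃ T y, T ⊆ Q ∧ (∀ l ∈ T, ¬ Tou (Dc M e0 (ω ∪ W) f1) l) ∧ Co T z y ∧
      (Co (Kc M e0 W f1 ω) y t ∨
        (y = z' ∧ ∀ g, Ar z' g → RS M e0 (Dc M e0 (ω ∪ W) f1) f2 g)) := by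
  classical
  induction hzz using Relation.ReflTransGen.head_induction_on with
  | refl =>
    rcases rot h hz ha with h1 | h1
    · exact ⟨∅, z', empty_subset _, fun l hl => absurd hl (notMem_empty l), Co.refl _ _,
        Or.inr ⟨rfl, h1⟩⟩
    · exact ⟨∅, z', empty_subset _, fun l hl => absurd hl (notMem_empty l), Co.refl _ _,
        Or.inl h1⟩
  | @head a b hab hbc ih =>
    rcases rot h hz ha with h1 | h1
    · have hl : a + b ∈ Q := hab.2
      have hu := unit_cases hab.1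
      have hB := mem_Bx.1 (hQ hl)
      simp only [Prod.fst_add, Prod.snd_add] at hB
      have hea : (a = eu (a + b) ∨ a = ev (a + b)) ∧ (b = eu (a + b) ∨ b = ev (a + b)) := by
        unfold eu ev
        simp only [Prod.ext_iff, Prod.fst_add, Prod.snd_add]
        omega
      have hnT : ¬ Tou (Dc M e0 (ω ∪ W) f1) (a + b) := by
        rintro ⟨g, g', h2, h3, h4⟩
        exact (h1 g (around_of_label ⟨g', h2, h3⟩ hea.1)).not h.f2_not h4
      have hb : VB (M - 1) b := by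
        unfold VB
        rw [abs_le, abs_le]
        omega
      -- a common face
      obtain ⟨g, g', hg1, hg2⟩ : ∃ g g' : ℤ × ℤ, IsUnit4 (g' - g) ∧ lbf g g' = a + b := by
        rcases hu with hu | hu | hu | hu
        · exact ⟨b, (b.1, b.2 + 1), by
            unfold IsUnit4; simp only [Prod.ext_iff, Prod.fst_sub, Prod.snd_sub]; omega, by
            unfold lbf
            simp only [Prod.ext_iff, Prod.fst_sub, Prod.snd_sub, Prod.fst_add, Prod.snd_add]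
            omega⟩
        · exact ⟨b, (b.1 + 1, b.2), by
            unfold IsUnit4; simp only [Prod.ext_iff, Prod.fst_sub, Prod.snd_sub]; omega, by
            unfold lbf
            simp only [Prod.ext_iff, Prod.fst_sub, Prod.snd_sub, Prod.fst_add, Prod.snd_add]
            omega⟩
        · exact ⟨a, (a.1, a.2 + 1), by
            unfold IsUnit4; simp only [Prod.ext_iff, Prod.fst_sub, Prod.snd_sub]; omega, by
            unfold lbf
            simp only [Prod.ext_iff, Prod.fst_sub, Prod.snd_sub, Prod.fst_add, Prod.snd_add]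
            omega⟩
        · exact ⟨a, (a.1 + 1, a.2), by
            unfold IsUnit4; simp only [Prod.ext_iff, Prod.fst_sub, Prod.snd_sub]; omega, by
            unfold lbf
            simp only [Prod.ext_iff, Prod.fst_sub, Prod.snd_sub, Prod.fst_add, Prod.snd_add]
            omega⟩
      obtain ⟨T, y, h2, h3, h4, h5⟩ := ih hb
        ⟨g, around_of_label ⟨g', hg1, hg2⟩ hea.2, h1 g (around_of_label ⟨g', hg1, hg2⟩ hea.1)⟩
      refine ⟨insert (a + b) T, y, insert_subset hl h2, ?_, ?_, h5⟩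
      · intro l hl'
        rcases mem_insert.1 hl' with rfl | hl'
        · exact hnT
        · exact h3 l hl'
      · exact Co.trans (Relation.ReflTransGen.single ⟨hab.1, mem_insert_self _ _⟩)
          (h4.mono (subset_insert _ _))
    · exact ⟨∅, a, empty_subset _, fun l hl => absurd hl (notMem_empty l), Co.refl _ _,
        Or.inl h1⟩

/-- **TIE LEMMA.** A path in `Q` from a vertex visible from `f2` to a vertex at the cluster contains
an unexplored part which ends at the open boundary of the cluster. -/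
theorem tie (h : Joined M e0 ω W f1 f2 x t) {Q : Finset (ℤ × ℤ)}
    (hQ : Q ⊆ H75.TwoArm.BB (M - 1)) {z z' : ℤ × ℤ} (hz : VB (M - 1) z)
    (ha : ∃ g, Ar z g ∧ RS M e0 (Dc M e0 (ω ∪ W) f1) f2 g) (hzz : Co Q z z')
    (hz' : ∃ g, Ar z' g ∧ Dc M e0 (ω ∪ W) f1 g) :
    ∃ T y, T ⊆ Q ∧ (∀ l ∈ T, ¬ Tou (Dc M e0 (ω ∪ W) f1) l) ∧ Co T z y ∧
      Co (Kc M e0 W f1 ω) y t := by
  obtain ⟨T, y, h1, h2, h3, h4 | ⟨-, h4⟩⟩ := tie' h hQ hz ha hzz
  · exact ⟨T, y, h1, h2, h3, h4⟩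
  · obtain ⟨g, h5, h6⟩ := hz'
    exact absurd h6 ((h4 g h5).not h.f2_not)

/-- `A` is attached to the side of `f2` -/
def RAtt (M : ℤ) (e0 : ℤ × ℤ) (E W : Finset (ℤ × ℤ)) (f2 : ℤ × ℤ) (A : Finset (ℤ × ℤ)) : Prop :=
  ∀ a ∈ A, ∀ g, FaceOf a g → Dc M e0 ((E \ A) ∪ W) f2 g

/-- A hull `A` (attached, avoided by a connection from `x` to `t`): its faces are not in the cluster
and are visible from `f2`. -/
lemma hull_faces (h : Joined M e0 ω W f1 f2 x t) (hωE : ω ⊆ E) {A : Finset (ℤ × ℤ)}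
    (hA : RAtt M e0 E W f2 A) (hX : Co ((ω \ A) ∪ W) x t) {a g : ℤ × ℤ} (ha : a ∈ A)
    (hg : FaceOf a g) :
    ¬ Dc M e0 (ω ∪ W) f1 g ∧ RS M e0 (Dc M e0 (ω ∪ W) f1) f2 g := by
  have hsub : (ω \ A) ∪ W ⊆ ω ∪ W := union_subset_union sdiff_subset subset_rfl
  have hsub2 : (ω \ A) ∪ W ⊆ (E \ A) ∪ W :=
    union_subset_union (sdiff_subset_sdiff hωE subset_rfl) subset_rfl
  have hno : ∀ g, Dc M e0 ((E \ A) ∪ W) f2 g → ¬ Dc M e0 (ω ∪ W) f1 g := by
    intro g h1 h2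
    exact (dual_iff' h.odd h.mem (hsub.trans h.sub) (fun h3 => h.nmem (hsub h3)) h.fac h.ends).2
      ((h2.anti hsub).trans (h1.anti hsub2).symm) hX
  have hRS : ∀ g, Dc M e0 ((E \ A) ∪ W) f2 g → RS M e0 (Dc M e0 (ω ∪ W) f1) f2 g := by
    intro g hg
    unfold Dc at hg
    induction hg with
    | refl => exact Relation.ReflTransGen.refl
    | @tail b c hab hbc ih =>
      have h1 := ad_dc.1 hbc
      exact Relation.ReflTransGen.tail ih ⟨h1.1, h1.2.1, h1.2.2.1,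
        hno c (Relation.ReflTransGen.tail hab hbc)⟩
  exact ⟨hno g (hA a ha g hg), hRS g (hA a ha g hg)⟩

/-- Maximality: if `A ∪ Q` is not avoided then a label of `Q \ A` is open and has a face in the
cluster. -/
lemma hull_max (h : Joined M e0 ω W f1 f2 x t) (hωE : ω ⊆ E) {A Q : Finset (ℤ × ℤ)}
    (hA : RAtt M e0 E W f2 A) (hX : Co ((ω \ A) ∪ W) x t)
    (hn : ¬ Co ((ω \ (A ∪ Q)) ∪ W) x t) :
    ∃ m ∈ Q \ A, m ∈ ω ∧ Tou (Dc M e0 (ω ∪ W) f1) m := by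
  have hsub : (ω \ (A ∪ Q)) ∪ W ⊆ ω ∪ W := union_subset_union sdiff_subset subset_rfl
  have hd := (dual_iff' h.odd h.mem (hsub.trans h.sub) (fun h3 => h.nmem (hsub h3)) h.fac
    h.ends).1 hn
  obtain ⟨z, z', hz, hz', hzz, -, -⟩ := exit_co (X := Dc M e0 (ω ∪ W) f1)
    (show Co _ f1 f2 from hd) (Dc.refl _) h.f2_not
  have h1 := ad_dc.1 hzz
  have h2 : lbf z z' ∈ ω ∪ W := by
    by_contra h2
    exact hz' (Relation.ReflTransGen.tail hz (ad_dc.2 ⟨h1.1, h1.2.1, h1.2.2.1, h2⟩))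
  have h3 := h1.2.2.2
  rw [mem_union, not_or, mem_sdiff] at h3
  have h4 : lbf z z' ∈ ω := by
    rcases mem_union.1 h2 with h4 | h4
    · exact h4
    · exact absurd h4 h3.2
  have h5 : lbf z z' ∈ A ∪ Q := by
    by_contra h5
    exact h3.1 ⟨h4, h5⟩
  have h6 : lbf z z' ∉ A := fun h6 => (hull_faces h hωE hA hX h6 ⟨z', h1.1, rfl⟩).1 hz
  refine ⟨lbf z z', mem_sdiff.2 ⟨?_, h6⟩, h4, z, z', h1.1, rfl, hz⟩
  rcases mem_union.1 h5 with h7 | h7
  · exact absurd h7 h6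
  · exact h7

/-- **Ties of the boundary of a hull** `A`: `Q` is a piece such that `A ∪ Q` is not avoided, `v` a
vertex incident to a label of `A` and joined inside `Q \ A` to all labels of `Q \ A`. -/
theorem hull_tie (h : Joined M e0 ω W f1 f2 x t) (hωE : ω ⊆ E) {A Q : Finset (ℤ × ℤ)}
    (hA : RAtt M e0 E W f2 A) (hX : Co ((ω \ A) ∪ W) x t)
    (hn : ¬ Co ((ω \ (A ∪ Q)) ∪ W) x t) (hAM : A ⊆ H75.TwoArm.BB (M - 1))
    (hQ : Q ⊆ H75.TwoArm.BB (M - 1)) {v : ℤ × ℤ} (hv : ∃ a ∈ A, v = eu a ∨ v = ev a)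
    (hco : ∀ m ∈ Q \ A, Co (Q \ A) v (eu m)) :
    ∃ T y, T ⊆ Q \ A ∧ (∀ l ∈ T, ¬ Tou (Dc M e0 (ω ∪ W) f1) l) ∧ Co T v y ∧
      Co (Kc M e0 W f1 ω) y t := by
  obtain ⟨m, hm, hmω, g, g', hg1, hg2, hg3⟩ := hull_max h hωE hA hX hn
  obtain ⟨a, ha, hva⟩ := hv
  have hab := mem_Bx.1 (hAM ha)
  have hvB : VB (M - 1) v := by
    unfold VB
    rw [abs_le, abs_le]
    rcases hva with rfl | rfl
    · unfold eu; simp only; omega
    · unfold ev; simp only; omega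
  -- a face of `a`
  obtain ⟨c, c', hc1, hc2⟩ : ∃ c c' : ℤ × ℤ, IsUnit4 (c' - c) ∧ lbf c c' = a := by
    have h3 := PivAux.fi_zu_zv (e := a) hab.2.2
    exact ⟨fi (zu a), fi (zv a), h3.1, h3.2⟩
  refine tie h (sdiff_subset.trans hQ) hvB ⟨c, around_of_label ⟨c', hc1, hc2⟩ hva,
    (hull_faces h hωE hA hX ha ⟨c', hc1, hc2⟩).2⟩ (hco m hm) ⟨g, ?_, hg3⟩
  exact around_of_label ⟨g', hg1, hg2⟩ (Or.inl rfl)

end

end Pool.Agent.H77.Q1
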