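import Mathlib
import Pool.Agent.Q1.M5.Defs
import Pool.Agent.H52.Q1.Side
import Pool.Agent.H77.Q1.Tie
import Pool.Agent.H77.Q1.Approach

set_option autoImplicit false
open Finset

/-! Module M5 of Q1: the parts of the free arc of a type before and after a flat vertex are separated
(SEP), coarse grid. -/

namespace Pool.Agent.H77.Q1

open Pool.Agent.Q1.M4 Pool.Agent.Q1.M5
open Pool.Agent.H75.Perc (dir dir_cases inB)
open Pool.Agent.H49.Q1 (onCell far)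


/-- the gaps of the lines `a0, ..., a1` are at least `w` -/
def Gap (X : ℤ → ℤ) (a0 a1 w : ℤ) : Prop := ∀ a, a0 ≤ a → a < a1 → w ≤ X (a + 1) - X a

lemma Gap.le {X : ℤ → ℤ} {a0 a1 w : ℤ} (h : Gap X a0 a1 w) (hX : StrictMono X) {i j : ℤ}
    (hij : i < j) (h0 : a0 ≤ i) (h1 : j ≤ a1) : w ≤ X j - X i := by
  have h2 := h i h0 (by omega)
  have h3 := hX.monotone (show i + 1 ≤ j by omega)
  omega

/-- the bounding box of the cells -/
def Box4 (Q : Finset Cell) (a0 a1 b0 b1 : ℤ) : Prop :=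
  ∀ c ∈ Q, (a0 ≤ c.1 ∧ c.1 < a1) ∧ (b0 ≤ c.2 ∧ c.2 < b1)

lemma exists_Box4 (Q : Finset Cell) : ∃ a0 a1 b0 b1 : ℤ, Box4 Q a0 a1 b0 b1 := by
  classical
  induction Q using Finset.induction_on with
  | empty => exact ⟨0, 0, 0, 0, fun c hc => absurd hc (notMem_empty c)⟩
  | insert c Q _ ih =>
    obtain ⟨a0, a1, b0, b1, h⟩ := ih
    refine ⟨min a0 c.1, max a1 (c.1 + 1), min b0 c.2, max b1 (c.2 + 1), fun d hd => ?_⟩
    rcases mem_insert.1 hd with rfl | hd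
    · omega
    · have := h d hd
      omega

/-- horizontal closed segment -/
def HS (X Y : ℤ → ℤ) (i j : ℤ) (v : ℤ × ℤ) : Prop := v.2 = Y j ∧ X i ≤ v.1 ∧ v.1 ≤ X (i + 1)

/-- vertical closed segment -/
def VS (X Y : ℤ → ℤ) (i j : ℤ) (v : ℤ × ℤ) : Prop := v.1 = X i ∧ Y j ≤ v.2 ∧ v.2 ≤ Y (j + 1)

/-- sup distance at least `w` -/
def Apt (w : ℤ) (p q : ℤ × ℤ) : Prop := w ≤ |p.1 - q.1| ∨ w ≤ |p.2 - q.2|

lemma Apt.symm {w : ℤ} {p q : ℤ × ℤ} (h : Apt w p q) : Apt w q p := by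
  unfold Apt at *
  rwa [abs_sub_comm, abs_sub_comm q.2]

lemma apt1 {w : ℤ} {p q : ℤ × ℤ} (h : w ≤ p.1 - q.1 ∨ w ≤ q.1 - p.1) : Apt w p q := by
  left
  rcases abs_cases (p.1 - q.1) with ⟨h4, h5⟩ | ⟨h4, h5⟩ <;> omega

lemma apt2 {w : ℤ} {p q : ℤ × ℤ} (h : w ≤ p.2 - q.2 ∨ w ≤ q.2 - p.2) : Apt w p q := by
  right
  rcases abs_cases (p.2 - q.2) with ⟨h4, h5⟩ | ⟨h4, h5⟩ <;> omega

section
variable {X Y : ℤ → ℤ} {a0 a1 b0 b1 w : ℤ}

lemma hs_hs (hX : StrictMono X) (hY : StrictMono Y) (gX : Gap X a0 a1 w) (gY : Gap Y b0 b1 w)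
    {i j i' j' : ℤ} {p q : ℤ × ℤ} (hp : HS X Y i j p) (hq : HS X Y i' j' q)
    (h1 : a0 ≤ i ∧ i + 1 ≤ a1) (h2 : b0 ≤ j ∧ j ≤ b1) (h3 : a0 ≤ i' ∧ i' + 1 ≤ a1)
    (h4 : b0 ≤ j' ∧ j' ≤ b1)
    (hne : ¬ ((i = i' ∨ i = i' + 1 ∨ i + 1 = i') ∧ j = j')) : Apt w p q := by
  obtain ⟨p1, p2, p3⟩ := hp
  obtain ⟨q1, q2, q3⟩ := hq
  rcases lt_trichotomy j j' with h | h | h
  · have := gY.le hY h h2.1 h4.2
    exact apt2 (Or.inr (by omega))
  · rcases lt_trichotomy i i' with h5 | h5 | h5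
    · have h6 : i + 1 < i' := by omega
      have := gX.le hX h6 (by omega) (by omega)
      exact apt1 (Or.inr (by omega))
    · omega
    · have h6 : i' + 1 < i := by omega
      have := gX.le hX h6 (by omega) (by omega)
      exact apt1 (Or.inl (by omega))
  · have := gY.le hY h h4.1 h2.2
    exact apt2 (Or.inl (by omega))

lemma vs_vs (hX : StrictMono X) (hY : StrictMono Y) (gX : Gap X a0 a1 w) (gY : Gap Y b0 b1 w)
    {i j i' j' : ℤ} {p q : ℤ × ℤ} (hp : VS X Y i j p) (hq : VS X Y i' j' q)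
    (h1 : a0 ≤ i ∧ i ≤ a1) (h2 : b0 ≤ j ∧ j + 1 ≤ b1) (h3 : a0 ≤ i' ∧ i' ≤ a1)
    (h4 : b0 ≤ j' ∧ j' + 1 ≤ b1)
    (hne : ¬ (i = i' ∧ (j = j' ∨ j = j' + 1 ∨ j + 1 = j'))) : Apt w p q := by
  obtain ⟨p1, p2, p3⟩ := hp
  obtain ⟨q1, q2, q3⟩ := hq
  rcases lt_trichotomy i i' with h | h | h
  · have := gX.le hX h h1.1 h3.2
    exact apt1 (Or.inr (by omega))
  · rcases lt_trichotomy j j' with h5 | h5 | h5
    · have h6 : j + 1 < j' := by omega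
      have := gY.le hY h6 (by omega) (by omega)
      exact apt2 (Or.inr (by omega))
    · omega
    · have h6 : j' + 1 < j := by omega
      have := gY.le hY h6 (by omega) (by omega)
      exact apt2 (Or.inl (by omega))
  · have := gX.le hX h h3.1 h1.2
    exact apt1 (Or.inl (by omega))

lemma hs_vs (hX : StrictMono X) (hY : StrictMono Y) (gX : Gap X a0 a1 w) (gY : Gap Y b0 b1 w)
    {i j i' j' : ℤ} {p q : ℤ × ℤ} (hp : HS X Y i j p) (hq : VS X Y i' j' q)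
    (h1 : a0 ≤ i ∧ i + 1 ≤ a1) (h2 : b0 ≤ j ∧ j ≤ b1) (h3 : a0 ≤ i' ∧ i' ≤ a1)
    (h4 : b0 ≤ j' ∧ j' + 1 ≤ b1)
    (hne : ¬ ((i' = i ∨ i' = i + 1) ∧ (j = j' ∨ j = j' + 1))) : Apt w p q := by
  obtain ⟨p1, p2, p3⟩ := hp
  obtain ⟨q1, q2, q3⟩ := hq
  rcases lt_or_ge i' i with h | h
  · have := gX.le hX h (by omega) (by omega)
    exact apt1 (Or.inl (by omega))
  · rcases lt_or_ge (i + 1) i' with h5 | h5
    · have := gX.le hX h5 (by omega) (by omega)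
      exact apt1 (Or.inr (by omega))
    · rcases lt_or_ge j j' with h6 | h6
      · have := gY.le hY h6 (by omega) (by omega)
        exact apt2 (Or.inr (by omega))
      · have h7 : j' + 1 < j := by omega
        have := gY.le hY h7 (by omega) (by omega)
        exact apt2 (Or.inl (by omega))

/-- a side as a segment -/
lemma side_seg {s : Cell × ℤ} {v : ℤ × ℤ} (h : sV X Y s v) : ∃ i j : ℤ,
    (HS X Y i j v ∧ (s.1.1 = i ∧ (s.1.2 = j ∨ s.1.2 = j - 1)) ∧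
      ((tail s = (i, j) ∧ head s = (i + 1, j)) ∨ (head s = (i, j) ∧ tail s = (i + 1, j)))) ∨
    (VS X Y i j v ∧ (s.1.2 = j ∧ (s.1.1 = i ∨ s.1.1 = i - 1)) ∧
      ((tail s = (i, j) ∧ head s = (i, j + 1)) ∨ (head s = (i, j) ∧ tail s = (i, j + 1)))) := by
  obtain ⟨⟨c1, c2⟩, k⟩ := s
  unfold sV onCell inB at h
  simp only at h
  obtain ⟨h0, h1, h2, h3, h4⟩ := h
  have hk4 : k % 4 = 0 ∨ k % 4 = 1 ∨ k % 4 = 2 ∨ k % 4 = 3 := by omega
  rcases hk4 with hk | hk | hk | hk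
  · refine ⟨c1, c2, Or.inl ⟨⟨h1 hk, by omega, by omega⟩, ⟨rfl, Or.inl rfl⟩, Or.inl ⟨?_, ?_⟩⟩⟩
    · unfold tail; rw [if_pos hk]
    · unfold head tail; rw [if_pos hk, H52.Q1.dir0 hk]; simp
  · refine ⟨c1 + 1, c2, Or.inr ⟨⟨h2 hk, by omega, by omega⟩, ⟨rfl, Or.inr (by simp)⟩,
      Or.inl ⟨?_, ?_⟩⟩⟩
    · unfold tail; rw [if_neg (by omega), if_pos hk]; simp
    · unfold head tail; rw [if_neg (by omega), if_pos hk, H52.Q1.dir1 hk]; simp
  · refine ⟨c1, c2 + 1, Or.inl ⟨⟨h3 hk, by omega, by omega⟩, ⟨rfl, Or.inr (by simp)⟩,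
      Or.inr ⟨?_, ?_⟩⟩⟩
    · unfold head tail
      rw [if_neg (by omega), if_neg (by omega), if_pos hk, H52.Q1.dir2 hk]; simp
    · unfold tail; rw [if_neg (by omega), if_neg (by omega), if_pos hk]; simp
  · refine ⟨c1, c2, Or.inr ⟨⟨h4 hk, by omega, by omega⟩, ⟨rfl, Or.inl rfl⟩, Or.inr ⟨?_, ?_⟩⟩⟩
    · unfold head tail
      rw [if_neg (by omega), if_neg (by omega), if_neg (by omega), H52.Q1.dir3 hk]; simp
    · unfold tail; rw [if_neg (by omega), if_neg (by omega), if_neg (by omega)]; simp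

/-- Sides without a common vertex are far from each other. -/
lemma side_side (hX : StrictMono X) (hY : StrictMono Y) (gX : Gap X a0 a1 w) (gY : Gap Y b0 b1 w)
    {s s' : Cell × ℤ} (h1 : (a0 ≤ s.1.1 ∧ s.1.1 < a1) ∧ (b0 ≤ s.1.2 ∧ s.1.2 < b1))
    (h2 : (a0 ≤ s'.1.1 ∧ s'.1.1 < a1) ∧ (b0 ≤ s'.1.2 ∧ s'.1.2 < b1))
    (t1 : tail s ≠ tail s') (t2 : tail s ≠ head s') (t3 : head s ≠ tail s')
    (t4 : head s ≠ head s') {p q : ℤ × ℤ} (hp : sV X Y s p) (hq : sV X Y s' q) : Apt w p q := by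
  obtain ⟨i, j, h3⟩ := side_seg hp
  obtain ⟨i', j', h4⟩ := side_seg hq
  rcases h3 with ⟨h3, ⟨h5, h6⟩, h7⟩ | ⟨h3, ⟨h5, h6⟩, h7⟩ <;>
  rcases h4 with ⟨h4, ⟨g5, g6⟩, g7⟩ | ⟨h4, ⟨g5, g6⟩, g7⟩
  · refine hs_hs hX hY gX gY h3 h4 (by omega) (by omega) (by omega) (by omega) ?_
    rintro ⟨e1, rfl⟩
    rcases h7 with ⟨u1, u2⟩ | ⟨u1, u2⟩ <;> rcases g7 with ⟨u3, u4⟩ | ⟨u3, u4⟩ <;>
      simp only [u1, u2, u3, u4, ne_eq, Prod.mk.injEq, and_true] at t1 t2 t3 t4 <;> omega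
  · refine hs_vs hX hY gX gY h3 h4 (by omega) (by omega) (by omega) (by omega) ?_
    rintro ⟨e1, e2⟩
    rcases h7 with ⟨u1, u2⟩ | ⟨u1, u2⟩ <;> rcases g7 with ⟨u3, u4⟩ | ⟨u3, u4⟩ <;>
      simp only [u1, u2, u3, u4, ne_eq, Prod.mk.injEq] at t1 t2 t3 t4 <;> omega
  · refine (hs_vs hX hY gX gY h4 h3 (by omega) (by omega) (by omega) (by omega) ?_).symm
    rintro ⟨e1, e2⟩
    rcases h7 with ⟨u1, u2⟩ | ⟨u1, u2⟩ <;> rcases g7 with ⟨u3, u4⟩ | ⟨u3, u4⟩ <;>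
      simp only [u1, u2, u3, u4, ne_eq, Prod.mk.injEq] at t1 t2 t3 t4 <;> omega
  · refine vs_vs hX hY gX gY h3 h4 (by omega) (by omega) (by omega) (by omega) ?_
    rintro ⟨rfl, e1⟩
    rcases h7 with ⟨u1, u2⟩ | ⟨u1, u2⟩ <;> rcases g7 with ⟨u3, u4⟩ | ⟨u3, u4⟩ <;>
      simp only [u1, u2, u3, u4, ne_eq, Prod.mk.injEq, true_and] at t1 t2 t3 t4 <;> omega

end

/-- `v` lies in the rectangle spanned by `p` and `q` -/
def Btw (p v q : ℤ × ℤ) : Prop :=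
  ((p.1 ≤ v.1 ∧ v.1 ≤ q.1) ∨ (q.1 ≤ v.1 ∧ v.1 ≤ p.1)) ∧
  ((p.2 ≤ v.2 ∧ v.2 ≤ q.2) ∨ (q.2 ≤ v.2 ∧ v.2 ≤ p.2))

lemma head_side (P : PType) (n : ℕ) : head (P.side n) = P.vert (n + 1) := by
  unfold PType.vert
  rw [P.side_succ n, head_eq_tail_next]

lemma vert_ne (P : PType) {n n' : ℕ} (hn : n < P.N) (hn' : n' < P.N) (h : n ≠ n') :
    P.vert n ≠ P.vert n' := by
  intro h1
  have h2 := tail_inj P.good (P.isSide n) (P.isSide n') h1
  exact h (P.inj n hn n' hn' h2.1 h2.2)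

/-- Two sides of the free arc without a common vertex. -/
lemma free_apart (P : PType) {X Y : ℤ → ℤ} {a0 a1 b0 b1 w : ℤ} (hX : StrictMono X)
    (hY : StrictMono Y) (hQ : Box4 P.Q a0 a1 b0 b1) (gX : Gap X a0 a1 w) (gY : Gap Y b0 b1 w)
    {n n' : ℕ} (hn : n + 1 < n') (hn' : n' + 1 < P.N) {p q : ℤ × ℤ}
    (hp : sV X Y (P.side n) p) (hq : sV X Y (P.side n') q) : Apt w p q := by
  refine side_side hX hY gX gY (hQ _ (P.isSide n).1) (hQ _ (P.isSide n').1) ?_ ?_ ?_ ?_ hp hq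
  · exact vert_ne P (by omega) (by omega) (by omega)
  · rw [head_side]
    exact vert_ne P (by omega) (by omega) (by omega)
  · rw [head_side]
    exact vert_ne P (by omega) (by omega) (by omega)
  · rw [head_side, head_side]
    exact vert_ne P (by omega) (by omega) (by omega)

/-- The sides before and after a flat vertex. -/
lemma flat_btw (P : PType) {X Y : ℤ → ℤ} {n0 : ℕ} (h0 : FlatV P n0) {p q : ℤ × ℤ}
    (hp : sV X Y (P.side (n0 - 1)) p) (hq : sV X Y (P.side n0) q) : Btw p (lv P X Y n0) q := by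
  obtain ⟨⟨a, b⟩, hab⟩ : ∃ v : ℤ × ℤ, P.vert n0 = v := ⟨_, rfl⟩
  have hc := H52.Q1.flatV_cells h0 hab
  have hk := h0.2.2
  unfold sV onCell inB at hp hq
  unfold Btw lv lpt
  rw [hab]
  obtain ⟨p0, p1, p2, p3, p4⟩ := hp
  obtain ⟨q0, q1, q2, q3, q4⟩ := hq
  have e1 : a - 1 + 1 = a := by ring
  have e2 : b - 1 + 1 = b := by ring
  rcases hc with ⟨⟨k1, d1, d2⟩, -⟩ | ⟨⟨k1, d1, d2⟩, -⟩ | ⟨⟨k1, d1, d2⟩, -⟩ | ⟨⟨k1, d1, d2⟩, -⟩
  · have h1 := p1 (by rw [hk]; exact k1)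
    have h2 := q1 k1
    rw [d2] at p0 h1
    rw [d1] at q0 h2
    simp only [e1] at p0 q0 h1 h2 ⊢
    omega
  · have h1 := p2 (by rw [hk]; exact k1)
    have h2 := q2 k1
    rw [d2] at p0 h1
    rw [d1] at q0 h2
    simp only [e1, e2] at p0 q0 h1 h2 ⊢
    omega
  · have h1 := p3 (by rw [hk]; exact k1)
    have h2 := q3 k1
    rw [d2] at p0 h1
    rw [d1] at q0 h2
    simp only [e1, e2] at p0 q0 h1 h2 ⊢
    omega
  · have h1 := p4 (by rw [hk]; exact k1)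
    have h2 := q4 k1
    rw [d2] at p0 h1
    rw [d1] at q0 h2
    simp only [e2] at p0 q0 h1 h2 ⊢
    omega

/-- **SEP.** The parts of the free arc before and after a flat vertex: two points of them have sup
distance at least `w`, or the vertex lies between them. -/
theorem sep (P : PType) {X Y : ℤ → ℤ} {a0 a1 b0 b1 w : ℤ} (hX : StrictMono X)
    (hY : StrictMono Y) (hQ : Box4 P.Q a0 a1 b0 b1) (gX : Gap X a0 a1 w) (gY : Gap Y b0 b1 w)
    {n0 n n' : ℕ} (h0 : FlatV P n0) (hn : n < n0) (hn' : n0 ≤ n') (hm : n' < P.m) {p q : ℤ × ℤ}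
    (hp : sV X Y (P.side n) p) (hq : sV X Y (P.side n') q) :
    Apt w p q ∨ (n + 1 = n0 ∧ n' = n0 ∧ Btw p (lv P X Y n0) q) := by
  have hmN := P.hmN
  rcases Nat.lt_or_ge (n + 1) n' with h | h
  · exact Or.inl (free_apart P hX hY hQ gX gY h (by omega) hp hq)
  · have e1 : n = n0 - 1 := by omega
    have e2 : n' = n0 := by omega
    subst e1 e2
    exact Or.inr ⟨by omega, rfl, flat_btw P h0 hp hq⟩

/-- faces next to the closed sides `n1 ≤ n < n2` -/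
def CorF (P : PType) (X Y : ℤ → ℤ) (n1 n2 : ℕ) (g : ℤ × ℤ) : Prop :=
  ∃ n, n1 ≤ n ∧ n < n2 ∧ ∃ p, sV X Y (P.side n) p ∧ Ar p g

lemma ar_dist {p g : ℤ × ℤ} (h : Ar p g) : (p.1 ≤ g.1 ∧ g.1 ≤ p.1 + 1) ∧ (p.2 ≤ g.2 ∧ g.2 ≤ p.2 + 1) := by
  rcases h with rfl | rfl | rfl | rfl <;> simp

lemma not_far {D : ℤ} {v g : ℤ × ℤ} (h : ¬ Far D v g) :
    (v.1 - D < g.1 ∧ g.1 < v.1 + D) ∧ (v.2 - D < g.2 ∧ g.2 < v.2 + D) := by
  unfold Far at h
  rw [not_or, not_le, not_le, abs_lt, abs_lt] at h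
  omega

/-- **SEP for the two corridors.** A point at distance more than `D` from the flat vertex is `D`-far
from all faces next to the free arc before the vertex, or from all faces next to the free arc after
it. -/
theorem sep_far (P : PType) {X Y : ℤ → ℤ} {a0 a1 b0 b1 w : ℤ} (hX : StrictMono X)
    (hY : StrictMono Y) (hQ : Box4 P.Q a0 a1 b0 b1) (gX : Gap X a0 a1 w) (gY : Gap Y b0 b1 w)
    {n0 : ℕ} (h0 : FlatV P n0) {D : ℤ} (hD : 2 * D < w) {v : ℤ × ℤ}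
    (hv : far (lv P X Y n0) v (D + 1)) :
    (∀ g, CorF P X Y 0 n0 g → Far D v g) ∨ (∀ g, CorF P X Y n0 P.m g → Far D v g) := by
  by_contra hcon
  rw [not_or] at hcon
  push Not at hcon
  obtain ⟨⟨g, ⟨n, -, hn, p, hp, hpg⟩, hg⟩, ⟨g', ⟨n', hn', hm, q, hq, hqg⟩, hg'⟩⟩ := hcon
  have h1 := ar_dist hpg
  have h2 := ar_dist hqg
  have h3 := not_far hg
  have h4 := not_far hg'
  rcases sep P hX hY hQ gX gY h0 hn hn' hm hp hq with h5 | ⟨-, -, h5⟩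
  · unfold Apt at h5
    rcases abs_cases (p.1 - q.1) with ⟨h6, -⟩ | ⟨h6, -⟩ <;>
    rcases abs_cases (p.2 - q.2) with ⟨h7, -⟩ | ⟨h7, -⟩ <;> omega
  · unfold Btw at h5
    unfold far at hv
    rcases abs_cases ((lv P X Y n0).1 - v.1) with ⟨h6, -⟩ | ⟨h6, -⟩ <;>
    rcases abs_cases ((lv P X Y n0).2 - v.2) with ⟨h7, -⟩ | ⟨h7, -⟩ <;> omega

/-! ### Gaps of the cells of the domain -/

/-- the columns and rows of the cells of `Q` have width at least `w` -/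
def CGap (Q : Finset Cell) (X Y : ℤ → ℤ) (w : ℤ) : Prop :=
  ∀ c ∈ Q, w ≤ X (c.1 + 1) - X c.1 ∧ w ≤ Y (c.2 + 1) - Y c.2

lemma adj4_step {c d : Cell} (h : Adj4 c d) : (c.1 - 1 ≤ d.1 ∧ d.1 ≤ c.1 + 1) ∧
    (c.2 - 1 ≤ d.2 ∧ d.2 ≤ c.2 + 1) := by
  obtain ⟨k, rfl⟩ := h
  rcases dir_cases k with ⟨_, e⟩ | ⟨_, e⟩ | ⟨_, e⟩ | ⟨_, e⟩ <;> rw [e] <;>
    simp only [Prod.fst_add, Prod.snd_add] <;> omega

lemma column_ex {Q : Finset Cell} {c d : Cell} (hc : c ∈ Q)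
    (h : Relation.ReflTransGen (fun a b => Adj4 a b ∧ b ∈ (Q : Set Cell)) c d) {a : ℤ}
    (h1 : c.1 ≤ a) (h2 : a ≤ d.1) : ∃ e ∈ Q, e.1 = a := by
  induction h with
  | refl => exact ⟨c, hc, by omega⟩
  | @tail b d _ hbd ih =>
    rcases le_or_gt a b.1 with h3 | h3
    · exact ih h3
    · have := adj4_step hbd.1
      exact ⟨d, hbd.2, by omega⟩

lemma row_ex {Q : Finset Cell} {c d : Cell} (hc : c ∈ Q)
    (h : Relation.ReflTransGen (fun a b => Adj4 a b ∧ b ∈ (Q : Set Cell)) c d) {a : ℤ}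
    (h1 : c.2 ≤ a) (h2 : a ≤ d.2) : ∃ e ∈ Q, e.2 = a := by
  induction h with
  | refl => exact ⟨c, hc, by omega⟩
  | @tail b d _ hbd ih =>
    rcases le_or_gt a b.2 with h3 | h3
    · exact ih h3
    · have := adj4_step hbd.1
      exact ⟨d, hbd.2, by omega⟩

lemma CGap.box {Q : Finset Cell} (hQ : Good Q) {X Y : ℤ → ℤ} {w : ℤ} (h : CGap Q X Y w) :
    ∃ a0 a1 b0 b1 : ℤ, Box4 Q a0 a1 b0 b1 ∧ Gap X a0 a1 w ∧ Gap Y b0 b1 w := by
  obtain ⟨c1, h1, m1⟩ := exists_min_image Q (fun c => c.1) hQ.ne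
  obtain ⟨c2, h2, m2⟩ := exists_max_image Q (fun c => c.1) hQ.ne
  obtain ⟨c3, h3, m3⟩ := exists_min_image Q (fun c => c.2) hQ.ne
  obtain ⟨c4, h4, m4⟩ := exists_max_image Q (fun c => c.2) hQ.ne
  refine ⟨c1.1, c2.1 + 1, c3.2, c4.2 + 1, fun c hc => ?_, fun a ha ha' => ?_, fun a ha ha' => ?_⟩
  · have e1 := m1 c hc
    have e2 := m2 c hc
    have e3 := m3 c hc
    have e4 := m4 c hc
    omega
  · obtain ⟨e, he, rfl⟩ := column_ex h1 (hQ.conn c1 (mem_coe.2 h1) c2 (mem_coe.2 h2)) ha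
      (by omega)
    exact (h e he).1
  · obtain ⟨e, he, rfl⟩ := row_ex h3 (hQ.conn c3 (mem_coe.2 h3) c4 (mem_coe.2 h4)) ha
      (by omega)
    exact (h e he).2

/-- **SEP** with the gaps of the cells. -/
theorem sep_cells (P : PType) {X Y : ℤ → ℤ} {w : ℤ} (hX : StrictMono X)
    (hY : StrictMono Y) (hw : CGap P.Q X Y w)
    {n0 n n' : ℕ} (h0 : FlatV P n0) (hn : n < n0) (hn' : n0 ≤ n') (hm : n' < P.m) {p q : ℤ × ℤ}
    (hp : sV X Y (P.side n) p) (hq : sV X Y (P.side n') q) :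
    Apt w p q ∨ (n + 1 = n0 ∧ n' = n0 ∧ Btw p (lv P X Y n0) q) := by
  obtain ⟨a0, a1, b0, b1, h1, h2, h3⟩ := hw.box P.good
  exact sep P hX hY h1 h2 h3 h0 hn hn' hm hp hq

/-- **SEP for the two corridors** with the gaps of the cells. -/
theorem sep_far_cells (P : PType) {X Y : ℤ → ℤ} {w : ℤ} (hX : StrictMono X)
    (hY : StrictMono Y) (hw : CGap P.Q X Y w)
    {n0 : ℕ} (h0 : FlatV P n0) {D : ℤ} (hD : 2 * D < w) {v : ℤ × ℤ}
    (hv : far (lv P X Y n0) v (D + 1)) :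
    (∀ g, CorF P X Y 0 n0 g → Far D v g) ∨ (∀ g, CorF P X Y n0 P.m g → Far D v g) := by
  obtain ⟨a0, a1, b0, b1, h1, h2, h3⟩ := hw.box P.good
  exact sep_far P hX hY h1 h2 h3 h0 hD hv

/-- Points of the wired arc are far from the points of the free arc which are not near the marks: two
sides without a common vertex are far from each other (any two sides of the walk). -/
theorem apart_cells (P : PType) {X Y : ℤ → ℤ} {w : ℤ} (hX : StrictMono X)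
    (hY : StrictMono Y) (hw : CGap P.Q X Y w) {n n' : ℕ} (hn : n + 1 < n') (hn' : n' + 1 < P.N)
    {p q : ℤ × ℤ} (hp : sV X Y (P.side n) p) (hq : sV X Y (P.side n') q) : Apt w p q := by
  obtain ⟨a0, a1, b0, b1, h1, h2, h3⟩ := hw.box P.good
  exact free_apart P hX hY h1 h2 h3 hn hn' hp hq

open Filter Topology in
/-- The gaps of the cells in an approximating sequence. -/
theorem cgap_ev {x y : ℤ → ℝ} (hx : StrictMono x) (hy : StrictMono y) (Q : Finset Cell) :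
    ∃ c : ℝ, 0 < c ∧ ∀ (R : ℕ → ℝ) (X Y : ℕ → ℤ → ℤ), Approx x y R X Y →
      ∀ᶠ j in atTop, ∀ w : ℤ, (w : ℝ) ≤ c * R j → CGap Q (X j) (Y j) w := by
  classical
  induction Q using Finset.induction_on with
  | empty => exact ⟨1, one_pos, fun R X Y _ => Eventually.of_forall fun j w _ c hc =>
      absurd hc (notMem_empty c)⟩
  | insert a Q _ ih =>
    obtain ⟨c, hc, ih⟩ := ih
    have g1 : 0 < x (a.1 + 1) - x a.1 := sub_pos.2 (hx (by omega))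
    have g2 : 0 < y (a.2 + 1) - y a.2 := sub_pos.2 (hy (by omega))
    refine ⟨min c (min ((x (a.1 + 1) - x a.1) / 2) ((y (a.2 + 1) - y a.2) / 2)), by positivity,
      fun R X Y hA => ?_⟩
    have t1 : Tendsto (fun j => ((X j (a.1 + 1) : ℝ) - X j a.1) / R j) atTop
        (𝓝 (x (a.1 + 1) - x a.1)) := by
      simp only [sub_div]
      exact (hA.X_lim _).sub (hA.X_lim _)
    have t2 : Tendsto (fun j => ((Y j (a.2 + 1) : ℝ) - Y j a.2) / R j) atTop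
        (𝓝 (y (a.2 + 1) - y a.2)) := by
      simp only [sub_div]
      exact (hA.Y_lim _).sub (hA.Y_lim _)
    filter_upwards [ih R X Y hA, t1.eventually (lt_mem_nhds (half_lt_self g1)),
      t2.eventually (lt_mem_nhds (half_lt_self g2)), hA.R_top.eventually_gt_atTop 0]
      with j e1 e2 e3 e4 w hw d hd
    have m1 : (w : ℝ) ≤ c * R j := hw.trans (mul_le_mul_of_nonneg_right (min_le_left _ _) e4.le)
    have m2 : (w : ℝ) ≤ (x (a.1 + 1) - x a.1) / 2 * R j := hw.trans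
      (mul_le_mul_of_nonneg_right ((min_le_right _ _).trans (min_le_left _ _)) e4.le)
    have m3 : (w : ℝ) ≤ (y (a.2 + 1) - y a.2) / 2 * R j := hw.trans
      (mul_le_mul_of_nonneg_right ((min_le_right _ _).trans (min_le_right _ _)) e4.le)
    rw [lt_div_iff₀ e4] at e2 e3
    rcases mem_insert.1 hd with rfl | hd
    · constructor
      · have : (w : ℝ) ≤ (X j (d.1 + 1) : ℝ) - X j d.1 := by linarith
        exact_mod_cast this
      · have : (w : ℝ) ≤ (Y j (d.2 + 1) : ℝ) - Y j d.2 := by linarith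
        exact_mod_cast this
    · exact e1 w m1 d hd

end Pool.Agent.H77.Q1
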