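import Mathlib
import Pool.Agent.H77.Q1.Approach

set_option autoImplicit false
open Finset

/-! Module M5 of Q1: the approach lemma (B3) with several points. -/

namespace Pool.Agent.H77.Q1

open Pool.Agent.H75.Perc Pool.Agent.H75.TwoArm Pool.Agent.H75.Four

/-- independence for finitely many disjoint sets -/
lemma Pr_prod {α ι : Type*} [DecidableEq α] [DecidableEq ι] (E : Finset α) (s : Finset ι)
    (H : ι → Finset α) (hH : ∀ i ∈ s, H i ⊆ E) (hd : ∀ i ∈ s, ∀ j ∈ s, i ≠ j → Disjoint (H i) (H j))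
    (A : ι → Finset α → Prop) :
    Pr E (fun ω => ∀ i ∈ s, A i (ω ∩ H i)) = ∏ i ∈ s, Pr E (fun ω => A i (ω ∩ H i)) := by
  classical
  induction s using Finset.induction_on with
  | empty =>
    rw [prod_empty, ← Pr_true E]
    exact Pr_congr fun ω _ => by simp
  | @insert i s hi ih =>
    rw [prod_insert hi, ← ih (fun j hj => hH j (mem_insert_of_mem hj))
      (fun j hj l hl => hd j (mem_insert_of_mem hj) l (mem_insert_of_mem hl))]
    have hsub : s.biUnion H ⊆ E := by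
      intro l hl
      obtain ⟨j, hj, h⟩ := mem_biUnion.1 hl
      exact hH j (mem_insert_of_mem hj) h
    have hdis : Disjoint (H i) (s.biUnion H) := by
      rw [disjoint_biUnion_right]
      intro j hj
      exact hd i (mem_insert_self _ _) j (mem_insert_of_mem hj) (fun h => hi (h ▸ hj))
    have h1 := Pr_indep (hH i (mem_insert_self _ _)) hsub hdis (A i)
      (fun η => ∀ j ∈ s, A j (η ∩ H j))
    have h2 : ∀ ω : Finset α, ∀ j ∈ s, ω ∩ s.biUnion H ∩ H j = ω ∩ H j := by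
      intro ω j hj
      ext l
      simp only [mem_inter, mem_biUnion]
      constructor
      · rintro ⟨⟨h3, -⟩, h4⟩; exact ⟨h3, h4⟩
      · rintro ⟨h3, h4⟩; exact ⟨⟨h3, j, hj, h4⟩, h4⟩
    have h3 : Pr E (fun ω => ∀ i_1 ∈ insert i s, A i_1 (ω ∩ H i_1)) =
        Pr E (fun ω => A i (ω ∩ H i) ∧ ∀ j ∈ s, A j (ω ∩ s.biUnion H ∩ H j)) := by
      refine Pr_congr fun ω _ => ?_
      rw [forall_mem_insert]
      refine and_congr_right fun _ => forall₂_congr fun j hj => ?_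
      rw [h2 ω j hj]
    rw [h3, h1, Pr_restrict (hH i (mem_insert_self _ _)) (A i)]
    congr 1
    rw [← Pr_restrict hsub]
    refine Pr_congr fun ω _ => forall₂_congr fun j hj => ?_
    rw [h2 ω j hj]

/-- **B3, APPROACH LEMMA with several points.** -/
theorem approach_kpoint : ∃ δ : ℝ, 0 < δ ∧ δ < 1 ∧ ∀ (ι : Type) [DecidableEq ι] (s : Finset ι)
    (M : ℤ) (E G W O : Finset (ℤ × ℤ)) (e fL fR y t : ι → ℤ × ℤ) (SL SR : ι → ℤ × ℤ → Prop)
    (H : ι → Finset (ℤ × ℤ)) (A : ι → Finset (ℤ × ℤ) → Prop) (r D : ℤ) (k : ℕ),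
    E ⊆ H75.TwoArm.BB (M - 1) → G ⊆ H75.TwoArm.BB (M - 1) → O ⊆ E → W ⊆ G → Disjoint E G →
    (∀ i ∈ s, ((e i).1 + (e i).2) % 2 = 1 ∧ e i ∈ H75.TwoArm.BB (M - 1) ∧ e i ∉ E ∧ e i ∉ G ∧
      Fac (e i) (fL i) (fR i) ∧ Ends (e i) (y i) (t i) ∧ ∀ w ∈ W, Co W (eu w) (t i)) →
    (∀ i ∈ s, SL i (fL i) ∧ ∀ g g', Dc M (e i) G (fL i) g → ¬ Dc M (e i) (E ∪ G) (fR i) g →
      IsUnit4 (g' - g) → lbf g g' ∉ E → lbf g g' ∉ G → lbf g g' ≠ e i → SL i g) →
    (∀ i ∈ s, SR i (fR i) ∧ ∀ g g', Dc M (e i) G (fR i) g → ¬ Dc M (e i) (E ∪ G) (fL i) g →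
      IsUnit4 (g' - g) → lbf g g' ∉ E → lbf g g' ∉ G → lbf g g' ≠ e i → SR i g) →
    (∀ i ∈ s, H i ⊆ E \ O) → (∀ i ∈ s, ∀ j ∈ s, i ≠ j → Disjoint (H i) (H j)) →
    (∀ i ∈ s, ∀ j ∈ s, i ≠ j → ∀ g g', IsUnit4 (g' - g) → lbf g g' ∈ H j → SL i g ∧ SR i g) →
    (∀ i ∈ s, ∀ ω, ω ⊆ E → Co (ω ∪ O ∪ G) (y i) (t i) → A i (ω ∩ H i)) →
    1 ≤ r → 4 ^ k * r ≤ D →
    (∀ i ∈ s, ∀ v, Exit E G W O (y i) v → ∃ T, IsTie O W (t i) r v T) →
    (∀ i ∈ s, ∀ v, Exit E G W O (y i) v →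
      (∀ g, SL i g → Far D v g) ∨ (∀ g, SR i g → Far D v g)) →
    Pr E (fun ω => (∀ i ∈ s, Co (ω ∪ O ∪ G) (y i) (t i)) ∧ ¬ ∀ i ∈ s, Co (ω ∪ G) (y i) (t i)) ≤
      s.card * (2 * (1 - δ) ^ k) * ∏ i ∈ s, Pr E (fun ω => A i (ω ∩ H i)) := by
  classical
  obtain ⟨δ, hδ0, hδ1, hδ⟩ := approach_lemma
  refine ⟨δ, hδ0, hδ1, ?_⟩
  intro ι _ s M E G W O e fL fR y t SL SR H A r D k hE hGM hO hWG hEG hroot hSL hSR hH hHd hHS hA
    hr hk hTie hsep
  have hq0 : (0 : ℝ) ≤ 2 * (1 - δ) ^ k := by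
    have : (0 : ℝ) ≤ (1 - δ) ^ k := pow_nonneg (by linarith) k
    linarith
  have hHE : ∀ i ∈ s, H i ⊆ E := fun i hi => (hH i hi).trans sdiff_subset
  -- one point
  have key : ∀ i ∈ s, Pr E (fun ω => (Co (ω ∪ O ∪ G) (y i) (t i) ∧ ¬ Co (ω ∪ G) (y i) (t i)) ∧
      ∀ j ∈ s.erase i, A j (ω ∩ H j)) ≤
      (2 * (1 - δ) ^ k) * ∏ j ∈ s, Pr E (fun ω => A j (ω ∩ H j)) := by
    intro i hi
    set HH := (s.erase i).biUnion H with hHH
    have hHHE : HH ⊆ E := by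
      intro l hl
      obtain ⟨j, hj, h⟩ := mem_biUnion.1 hl
      exact hHE j (mem_of_mem_erase hj) h
    have hHHO : ∀ l ∈ HH, l ∉ O := by
      intro l hl
      obtain ⟨j, hj, h⟩ := mem_biUnion.1 hl
      exact (mem_sdiff.1 (hH j (mem_of_mem_erase hj) h)).2
    have hHi : Disjoint (H i) HH := by
      rw [hHH, disjoint_biUnion_right]
      intro j hj
      exact hHd i hi j (mem_of_mem_erase hj) (ne_of_mem_erase hj).symm
    set E' := E \ HH with hE'
    have hE'E : E' ⊆ E := sdiff_subset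
    have hOE' : O ⊆ E' := fun l hl => mem_sdiff.2 ⟨hO hl, fun h => hHHO l h hl⟩
    have hcond : ∀ F, F ⊆ HH → Pr E (fun ω' => Co ((F ∪ (ω' ∩ E')) ∪ O ∪ G) (y i) (t i) ∧
        ¬ Co ((F ∪ (ω' ∩ E')) ∪ G) (y i) (t i)) ≤
        (2 * (1 - δ) ^ k) * Pr E (fun ω => A i (ω ∩ H i)) := by
      intro F hF
      rw [Pr_restrict hE'E (fun ω' => Co ((F ∪ ω') ∪ O ∪ G) (y i) (t i) ∧
        ¬ Co ((F ∪ ω') ∪ G) (y i) (t i))]
      obtain ⟨h1, h2, h3, h4, h5, h6, h7⟩ := hroot i hi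
      have hFE : F ⊆ E := hF.trans hHHE
      have hsubs : E' ∪ (G ∪ F) ⊆ E ∪ G := by
        refine union_subset (hE'E.trans subset_union_left) (union_subset subset_union_right
          (hFE.trans subset_union_left))
      have e1 : ∀ ω' : Finset (ℤ × ℤ), (F ∪ ω') ∪ O ∪ G = ω' ∪ O ∪ (G ∪ F) := by
        intro ω'; ext l; simp only [mem_union]; tauto
      have e2 : ∀ ω' : Finset (ℤ × ℤ), (F ∪ ω') ∪ G = ω' ∪ (G ∪ F) := by
        intro ω'; ext l; simp only [mem_union]; tauto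
      have hExit : ∀ v, Exit E' (G ∪ F) W O (y i) v → Exit E G W O (y i) v := fun v hv =>
        ⟨hv.1, hv.2.mono (sdiff_subset_sdiff hsubs subset_rfl)⟩
      have h8 := hδ M (e i) E' (G ∪ F) W O (fL i) (fR i) (y i) (t i) (SL i) (SR i) r D k h1 h2
        (hE'E.trans hE) (union_subset hGM (hFE.trans hE)) (fun h => h3 (hE'E h))
        (fun h => by
          rcases mem_union.1 h with h | h
          · exact h4 h
          · exact h3 (hFE h)) hOE' (hWG.trans subset_union_left) h5 h6 h7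
        ⟨(hSL i hi).1, by
          intro g g' a1 a2 a3 a4 a5 a6
          by_cases hin : lbf g g' ∈ HH
          · obtain ⟨j, hj, hjl⟩ := mem_biUnion.1 hin
            exact (hHS i hi j (mem_of_mem_erase hj) (ne_of_mem_erase hj).symm g g' a3 hjl).1
          · refine (hSL i hi).2 g g' (a1.anti subset_union_left) (fun h => a2 (h.anti hsubs)) a3
              (fun h => a4 (mem_sdiff.2 ⟨h, hin⟩)) (fun h => a5 (mem_union_left _ h)) a6⟩
        ⟨(hSR i hi).1, by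
          intro g g' a1 a2 a3 a4 a5 a6
          by_cases hin : lbf g g' ∈ HH
          · obtain ⟨j, hj, hjl⟩ := mem_biUnion.1 hin
            exact (hHS i hi j (mem_of_mem_erase hj) (ne_of_mem_erase hj).symm g g' a3 hjl).2
          · refine (hSR i hi).2 g g' (a1.anti subset_union_left) (fun h => a2 (h.anti hsubs)) a3
              (fun h => a4 (mem_sdiff.2 ⟨h, hin⟩)) (fun h => a5 (mem_union_left _ h)) a6⟩
        hr hk (fun v hv => hTie i hi v (hExit v hv)) (fun v hv => hsep i hi v (hExit v hv))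
      have h9 : Pr E' (fun ω => Co (ω ∪ O ∪ (G ∪ F)) (y i) (t i)) ≤
          Pr E (fun ω => A i (ω ∩ H i)) := by
        have h10 : H i ⊆ E' := fun l hl => mem_sdiff.2 ⟨hHE i hi hl, fun h =>
          (disjoint_left.1 hHi) hl h⟩
        rw [Pr_restrict (hHE i hi) (A i), ← Pr_restrict h10 (A i)]
        refine Pr_mono fun ω hω h => ?_
        rw [← e1] at h
        have h11 := hA i hi (F ∪ ω) (union_subset hFE (hω.trans hE'E)) h
        have h12 : (F ∪ ω) ∩ H i = ω ∩ H i := by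
          ext l
          simp only [mem_inter, mem_union]
          constructor
          · rintro ⟨h | h, h'⟩
            · exact absurd (hF h) ((disjoint_left.1 hHi) h')
            · exact ⟨h, h'⟩
          · rintro ⟨h, h'⟩; exact ⟨Or.inr h, h'⟩
        rwa [h12] at h11
      refine le_trans (le_of_eq (Pr_congr fun ω' _ => by rw [e1, e2])) (h8.trans ?_)
      exact mul_le_mul_of_nonneg_left h9 hq0
    have h1 := resample_le E (fun _ => HH) (fun _ _ _ _ => rfl)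
      (fun ω => Co (ω ∪ O ∪ G) (y i) (t i) ∧ ¬ Co (ω ∪ G) (y i) (t i))
      (fun ω => ∀ j ∈ s.erase i, A j (ω ∩ H j))
      (fun ω ω' => Co (((ω ∩ HH) ∪ (ω' ∩ E')) ∪ O ∪ G) (y i) (t i) ∧
        ¬ Co (((ω ∩ HH) ∪ (ω' ∩ E')) ∪ G) (y i) (t i))
      ((2 * (1 - δ) ^ k) * Pr E (fun ω => A i (ω ∩ H i))) ?_
      (fun ω _ _ => hcond (ω ∩ HH) inter_subset_right) ?_
    · refine h1.trans (le_of_eq ?_)
      rw [Pr_prod E (s.erase i) H (fun j hj => hHE j (mem_of_mem_erase hj))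
        (fun j hj l hl => hHd j (mem_of_mem_erase hj) l (mem_of_mem_erase hl)) A,
        ← mul_prod_erase s _ hi]
      ring
    · intro ω ω' _ _ h j hj
      have h2 := h j hj
      have h3 : mix HH ω ω' ∩ H j = ω ∩ H j := by
        ext l
        rw [mem_inter, mem_inter, mem_mix]
        constructor
        · rintro ⟨h4 | h4, h5⟩
          · exact ⟨h4.1, h5⟩
          · exact absurd (mem_biUnion.2 ⟨j, hj, h5⟩) h4.2
        · rintro ⟨h4, h5⟩
          exact ⟨Or.inl ⟨h4, mem_biUnion.2 ⟨j, hj, h5⟩⟩, h5⟩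
      rwa [h3] at h2
    · intro ω ω' _ hω' _ h
      have h3 : mix HH ω ω' = (ω ∩ HH) ∪ (ω' ∩ E') := by
        unfold mix
        congr 1
        ext l
        simp only [mem_sdiff, mem_inter, hE']
        constructor
        · rintro ⟨h4, h5⟩; exact ⟨h4, hω' h4, h5⟩
        · rintro ⟨h4, -, h5⟩; exact ⟨h4, h5⟩
      rw [h3] at h
      exact h
  -- union over the points
  have hun : Pr E (fun ω => (∀ i ∈ s, Co (ω ∪ O ∪ G) (y i) (t i)) ∧
      ¬ ∀ i ∈ s, Co (ω ∪ G) (y i) (t i)) ≤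
      ∑ i ∈ s, Pr E (fun ω => (Co (ω ∪ O ∪ G) (y i) (t i) ∧ ¬ Co (ω ∪ G) (y i) (t i)) ∧
        ∀ j ∈ s.erase i, A j (ω ∩ H j)) := by
    have hgen : ∀ (u : Finset ι) (B : ι → Finset (ℤ × ℤ) → Prop),
        Pr E (fun ω => ∃ i ∈ u, B i ω) ≤ ∑ i ∈ u, Pr E (B i) := by
      intro u B
      induction u using Finset.induction_on with
      | empty =>
        rw [sum_empty]
        refine le_of_eq ?_
        rw [Pr_eq]
        simp
      | @insert i u hi ih =>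
        rw [sum_insert hi]
        refine le_trans (Pr_mono ?_) ((Pr_or_le E (B i) (fun ω => ∃ i ∈ u, B i ω)).trans
          (add_le_add_right ih _))
        rintro ω - ⟨j, hj, h⟩
        rcases mem_insert.1 hj with rfl | hj
        · exact Or.inl h
        · exact Or.inr ⟨j, hj, h⟩
    refine le_trans (Pr_mono ?_) (hgen s _)
    rintro ω hω ⟨h1, h2⟩
    push Not at h2
    obtain ⟨i, hi, h3⟩ := h2
    exact ⟨i, hi, ⟨h1 i hi, h3⟩, fun j hj => hA j (mem_of_mem_erase hj) ω hω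
      (h1 j (mem_of_mem_erase hj))⟩
  refine hun.trans ((sum_le_sum key).trans (le_of_eq ?_))
  rw [sum_const, nsmul_eq_mul]
  ring

end Pool.Agent.H77.Q1
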