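import Mathlib
import Pool.Agent.H77.Q1.KApproach
import Pool.Agent.H77.Q1.Tie

set_option autoImplicit false
open Finset

/-! Module M5 of Q1: the approach lemma (B3) for a hull `A` and several points, in the environment after
the exploration of the dual cluster of the left face of the first root edge. -/

namespace Pool.Agent.H77.Q1

open Pool.Agent.H75.Perc Pool.Agent.H75.TwoArm Pool.Agent.H75.Four

section
variable {M : ℤ} {e0 : ℤ × ℤ} {E W ω A : Finset (ℤ × ℤ)} {f1 f2 x t : ℤ × ℤ}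

/-- explored labels -/
noncomputable def Ey (M : ℤ) (e0 : ℤ × ℤ) (E W : Finset (ℤ × ℤ)) (f1 : ℤ × ℤ)
    (ω : Finset (ℤ × ℤ)) : Finset (ℤ × ℤ) := Ex M e0 E W ∅ f1 ω

lemma mem_Ey {l : ℤ × ℤ} : l ∈ Ey M e0 E W f1 ω ↔ l ∈ E ∧ Tou (Dc M e0 (ω ∪ W) f1) l := by
  classical
  unfold Ey Ex
  rw [mem_filter, union_empty, sdiff_empty]

/-- open labels after the exploration -/
noncomputable def Gy (M : ℤ) (e0 : ℤ × ℤ) (E W : Finset (ℤ × ℤ)) (f1 : ℤ × ℤ)
    (ω : Finset (ℤ × ℤ)) : Finset (ℤ × ℤ) := insert e0 (W ∪ (ω ∩ Ey M e0 E W f1 ω))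

open Classical in
/-- open labels joined to `t` after the exploration -/
noncomputable def Wy (M : ℤ) (e0 : ℤ × ℤ) (E W : Finset (ℤ × ℤ)) (f1 t : ℤ × ℤ)
    (ω : Finset (ℤ × ℤ)) : Finset (ℤ × ℤ) :=
  (Gy M e0 E W f1 ω).filter (fun l => Co (Gy M e0 E W f1 ω) (eu l) t)

lemma co_filter {G : Finset (ℤ × ℤ)} {v t : ℤ × ℤ} (P : ℤ × ℤ → Prop) [DecidablePred P]
    (hP : ∀ l ∈ G, Co G (eu l) t → P l) (h : Co G v t) : Co (G.filter P) v t := by
  have h2 := co_strong (T := G) (W := ∅) (v := v) (t := t) (by rw [union_empty]; exact h) P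
    (fun l h1 h3 => by rw [union_empty] at h3; exact hP l h1 h3)
  rwa [union_empty] at h2

lemma co_wy {v : ℤ × ℤ} (h : Co (Gy M e0 E W f1 ω) v t) : Co (Wy M e0 E W f1 t ω) v t := by
  classical
  exact co_filter _ (fun l _ h1 => h1) h

/-- the other end -/
lemma end_co {G : Finset (ℤ × ℤ)} {l z t : ℤ × ℤ} (hl : l ∈ G) (hodd : (l.1 + l.2) % 2 = 1)
    (hz : z = eu l ∨ z = ev l) (h : Co G z t) : Co G (eu l) t := by
  have h4 := PivAux.eu_ev hodd
  rcases hz with rfl | rfl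
  · exact h
  · refine Co.trans (Relation.ReflTransGen.single ⟨h4.1, ?_⟩) h
    rw [h4.2]; exact hl

lemma end_co' {G : Finset (ℤ × ℤ)} {l z t : ℤ × ℤ} (hl : l ∈ G) (hodd : (l.1 + l.2) % 2 = 1)
    (hz : z = eu l ∨ z = ev l) (h : Co G (eu l) t) : Co G z t := by
  have h4 := PivAux.eu_ev hodd
  rcases hz with rfl | rfl
  · exact h
  · refine Co.trans (Co.symm (Relation.ReflTransGen.single ⟨h4.1, ?_⟩)) h
    rw [h4.2]; exact hl

/-- the ends of a step -/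
lemma step_ends {G : Finset (ℤ × ℤ)} {a b : ℤ × ℤ} (h : Ad G a b) :
    (a = eu (a + b) ∨ a = ev (a + b)) ∧ (b = eu (a + b) ∨ b = ev (a + b)) := by
  have := unit_cases h.1
  unfold eu ev
  simp only [Prod.ext_iff, Prod.fst_add, Prod.snd_add]
  omega

/-- an edge whose ends are joined can be left out -/
lemma co_drop {κ : Finset (ℤ × ℤ)} {u v : ℤ × ℤ} (_hodd : (e0.1 + e0.2) % 2 = 1)
    (he : Ends e0 x t) (h1 : Co κ x t) (h : Co (insert e0 κ) u v) : Co κ u v := by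
  have huv : Co κ (eu e0) (ev e0) := by
    rcases he with ⟨rfl, rfl⟩ | ⟨rfl, rfl⟩
    · exact h1
    · exact h1.symm
  induction h with
  | refl => exact Co.refl _ _
  | @tail b c hab hbc ih =>
    rcases mem_insert.1 hbc.2 with h2 | h2
    · have h3 := step_ends hbc
      rw [h2] at h3
      have hne : b ≠ c := by
        have := unit_cases hbc.1
        intro h4
        rw [Prod.ext_iff] at h4
        omega
      rcases h3.1 with h4 | h4 <;> rcases h3.2 with h5 | h5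
      · exact absurd (h4.trans h5.symm) hne
      · rw [h5]; exact ih.trans (h4 ▸ huv)
      · rw [h5]; exact ih.trans (h4 ▸ huv.symm)
      · exact absurd (h4.trans h5.symm) hne
    · exact Relation.ReflTransGen.tail ih ⟨hbc.1, h2⟩

lemma kc_gy (hωE : ω ⊆ E) : Kc M e0 W f1 ω ⊆ W ∪ (ω ∩ Ey M e0 E W f1 ω) := by
  intro l hl
  obtain ⟨h1, h2⟩ := mem_Kc.1 hl
  rcases mem_union.1 h1 with h3 | h3
  · exact mem_union_right _ (mem_inter.2 ⟨h3, mem_Ey.2 ⟨hωE h3, h2.tou⟩⟩)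
  · exact mem_union_left _ h3

/-- labels of a hull are not explored -/
lemma hull_fresh (h : Joined M e0 ω W f1 f2 x t) (hωE : ω ⊆ E) (hAE : A ⊆ E)
    (hA : RAtt M e0 E W f2 A) (hX : Co ((ω \ A) ∪ W) x t) :
    A ⊆ E \ Ey M e0 E W f1 ω := by
  intro a ha
  refine mem_sdiff.2 ⟨hAE ha, fun h1 => ?_⟩
  obtain ⟨g, g', h2, h3, h4⟩ := (mem_Ey.1 h1).2
  exact (hull_faces h hωE hA hX ha ⟨g', h2, h3⟩).1 h4

/-- faces reachable from a face outside the cluster, avoiding the open labels after the exploration, are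
outside the cluster -/
lemma reach_not (hωE : ω ⊆ E) {e f g : ℤ × ℤ} (hf : ¬ Dc M e0 (ω ∪ W) f1 f)
    (hg : Dc M e (Gy M e0 E W f1 ω) f g) : ¬ Dc M e0 (ω ∪ W) f1 g := by
  unfold Dc at hg
  induction hg with
  | refl => exact hf
  | @tail b c hab hbc ih =>
    intro hc
    have h1 := ad_dc.1 hbc
    have hG := h1.2.2.2
    unfold Gy at hG
    rw [mem_insert, mem_union, mem_inter, not_or, not_or, not_and] at hG
    apply ih
    refine Relation.ReflTransGen.tail hc (ad_dc.2 ⟨unit4_neg h1.1, ?_, ?_, ?_⟩)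
    · rw [lbf_comm]; exact h1.2.1
    · rw [lbf_comm]; exact hG.1
    · rw [lbf_comm]
      intro h2
      rcases mem_union.1 h2 with h3 | h3
      · exact hG.2.2 h3 (mem_Ey.2 ⟨hωE h3, c, b, unit4_neg h1.1, lbf_comm c b, hc⟩)
      · exact hG.2.1 h3

end

/-- **B3 for hulls.** -/
theorem hull_b3 : ∃ δ : ℝ, 0 < δ ∧ δ < 1 ∧ ∀ (ι : Type) [DecidableEq ι] (s : Finset ι)
    (M : ℤ) (E W A ω : Finset (ℤ × ℤ)) (e0 f1 f2 x t : ℤ × ℤ) (e fL fR y t' : ι → ℤ × ℤ)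
    (SL SR : ι → ℤ × ℤ → Prop) (H : ι → Finset (ℤ × ℤ)) (Arm : ι → Finset (ℤ × ℤ) → Prop)
    (r D : ℤ) (k : ℕ),
    E ⊆ H75.TwoArm.BB (M - 1) → W ⊆ H75.TwoArm.BB (M - 1) → Disjoint E W → A ⊆ E → ω ⊆ E →
    Joined M e0 ω W f1 f2 x t → e0 ∉ E →
    (∀ w ∈ W, Co W (eu w) t) →
    RAtt M e0 E W f2 A → Co ((ω \ A) ∪ W) x t →
    (∀ i ∈ s, ((e i).1 + (e i).2) % 2 = 1 ∧ e i ∈ H75.TwoArm.BB (M - 1) ∧ e i ∉ E ∧ e i ∉ W ∧
      e i ≠ e0 ∧ Fac (e i) (fL i) (fR i) ∧ Ends (e i) (y i) (t' i) ∧ Co W t (t' i) ∧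
      Dc M e0 (E ∪ W) f2 (fL i) ∧ Dc M e0 (E ∪ W) f2 (fR i) ∧
      ∃ a ∈ A, y i = eu a ∨ y i = ev a) →
    (∀ i ∈ s, SL i (fL i) ∧ ∀ g g', Dc M (e i) (insert e0 W) (fL i) g →
      ¬ Dc M e0 (E ∪ W) f1 g → ¬ Dc M (e i) (insert e0 (E ∪ W)) (fR i) g →
      IsUnit4 (g' - g) → lbf g g' ∉ E → lbf g g' ∉ W → lbf g g' ≠ e0 → lbf g g' ≠ e i → SL i g) →
    (∀ i ∈ s, SR i (fR i) ∧ ∀ g g', Dc M (e i) (insert e0 W) (fR i) g →
      ¬ Dc M e0 (E ∪ W) f1 g → ¬ Dc M (e i) (insert e0 (E ∪ W)) (fL i) g →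
      IsUnit4 (g' - g) → lbf g g' ∉ E → lbf g g' ∉ W → lbf g g' ≠ e0 → lbf g g' ≠ e i → SR i g) →
    (∀ i ∈ s, H i ⊆ A) → (∀ i ∈ s, ∀ j ∈ s, i ≠ j → Disjoint (H i) (H j)) →
    (∀ i ∈ s, ∀ j ∈ s, i ≠ j → ∀ g g', IsUnit4 (g' - g) → lbf g g' ∈ H j → SL i g ∧ SR i g) →
    (∀ i ∈ s, ∀ ω', ω' ⊆ E → Co ((ω' ∩ A) ∪ (E \ A) ∪ W) (y i) (t' i) → Arm i (ω' ∩ H i)) →
    1 ≤ r → 4 ^ k * r ≤ D →
    (∀ i ∈ s, ∀ v, Co A (y i) v → (∃ a ∈ A, v = eu a ∨ v = ev a) →
      (∃ o ∈ E \ A, v = eu o ∨ v = ev o) →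
      Co W v t ∨ ∃ Q : Finset (ℤ × ℤ), Q ⊆ E ∧
        (∀ m ∈ Q, |m.1 - 2 * v.1| ≤ 2 * r - 2 ∧ |m.2 - 2 * v.2| ≤ 2 * r - 2) ∧
        (Co (Q \ A) v x ∨ (∃ z, Co (Q \ A) v z ∧ Co W z t) ∨
          (¬ Co ((ω \ (A ∪ Q)) ∪ W) x t ∧ ∀ m ∈ Q \ A, Co (Q \ A) v (eu m)))) →
    (∀ i ∈ s, ∀ v, Co A (y i) v → (∃ a ∈ A, v = eu a ∨ v = ev a) →
      (∃ o ∈ E \ A, v = eu o ∨ v = ev o) →
      (∀ g, SL i g → Far D v g) ∨ (∀ g, SR i g → Far D v g)) →
    Pr E (fun ω' => (∀ i ∈ s, Co ((ω' ∩ A) ∪ (E \ A) ∪ W) (y i) (t' i)) ∧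
      ¬ ∀ i ∈ s, Co (mix (Ey M e0 E W f1 ω) ω ω' ∪ W) (y i) (t' i)) ≤
      s.card * (2 * (1 - δ) ^ k) * ∏ i ∈ s, Pr E (fun ω' => Arm i (ω' ∩ H i)) := by
  classical
  obtain ⟨δ, hδ0, hδ1, hδ⟩ := approach_kpoint
  refine ⟨δ, hδ0, hδ1, ?_⟩
  intro ι _ s M E W A ω e0 f1 f2 x t e fL fR y t' SL SR H Arm r D k hEM hWM hEW hAE hωE hJ he0E
    hW hRA hX hroot hSL hSR hHA hHd hHS hArm hr hk hTie hsep
  set E1 := E \ Ey M e0 E W f1 ω with hE1
  set G1 := Gy M e0 E W f1 ω with hG1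
  set W1 := Wy M e0 E W f1 t ω with hW1
  set O := E1 \ A with hO
  have hE1E : E1 ⊆ E := sdiff_subset
  have hAE1 : A ⊆ E1 := hull_fresh hJ hωE hAE hRA hX
  have hKG0 : Kc M e0 W f1 ω ⊆ W ∪ (ω ∩ Ey M e0 E W f1 ω) := kc_gy hωE
  have hKG : Kc M e0 W f1 ω ⊆ G1 := hKG0.trans (subset_insert _ _)
  have hWG : W ⊆ G1 := subset_union_left.trans (subset_insert _ _)
  have hmemG : ∀ l, l ∈ G1 ↔ l = e0 ∨ l ∈ W ∨ (l ∈ ω ∧ l ∈ Ey M e0 E W f1 ω) := by
    intro l
    rw [hG1]; unfold Gy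
    rw [mem_insert, mem_union, mem_inter]
  have hEyE : Ey M e0 E W f1 ω ⊆ E := fun l hl => (mem_Ey.1 hl).1
  have hG1M : G1 ⊆ H75.TwoArm.BB (M - 1) := by
    intro l hl
    rcases (hmemG l).1 hl with h | h | h
    · rw [h]; exact hJ.mem
    · exact hWM h
    · exact hEM (hωE h.1)
  have hoddE : ∀ l ∈ E, (l.1 + l.2) % 2 = 1 := fun l hl => (mem_Bx.1 (hEM hl)).2.2
  have hoddG : ∀ l ∈ G1, (l.1 + l.2) % 2 = 1 := fun l hl => (mem_Bx.1 (hG1M hl)).2.2
  have hW1G : W1 ⊆ G1 := filter_subset _ _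
  have hKt : Co G1 x t := hJ.kc.mono hKG
  have hW1t : ∀ w ∈ W1, Co W1 (eu w) t := fun w hw => co_wy (mem_filter.1 hw).2
  have hWW1 : W ⊆ W1 := fun l hl => mem_filter.2 ⟨hWG hl, (hW l hl).mono hWG⟩
  have hmemW1 : ∀ l ∈ G1, ∀ z, (z = eu l ∨ z = ev l) → Co G1 z t → l ∈ W1 := fun l hl z hz h =>
    mem_filter.2 ⟨hl, end_co hl (hoddG l hl) hz h⟩
  have he0W1 : e0 ∈ W1 := by
    refine hmemW1 e0 ((hmemG e0).2 (Or.inl rfl)) x ?_ hKt
    rcases hJ.ends with ⟨h1, -⟩ | ⟨-, h1⟩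
    · exact Or.inl h1
    · exact Or.inr h1
  have hP2 := hJ.f2_not
  have hfree : ∀ g, Dc M e0 (E ∪ W) f2 g → ¬ Dc M e0 (ω ∪ W) f1 g := fun g h1 h2 =>
    hP2 (h2.trans (h1.anti (union_subset_union hωE subset_rfl)).symm)
  have hsubG : E1 ∪ G1 ⊆ insert e0 (E ∪ W) := by
    intro l hl
    rw [mem_insert, mem_union]
    rcases mem_union.1 hl with h | h
    · exact Or.inr (Or.inl (hE1E h))
    · rcases (hmemG l).1 h with h | h | h
      · exact Or.inl h
      · exact Or.inr (Or.inr h)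
      · exact Or.inr (Or.inl (hωE h.1))
  have hinsW : insert e0 W ⊆ G1 := by
    intro l hl
    rcases mem_insert.1 hl with h | h
    · exact (hmemG l).2 (Or.inl h)
    · exact hWG h
  -- closure of the sets of free faces
  have hclos : ∀ (i : ι) (f f' : ℤ × ℤ) (S : ℤ × ℤ → Prop), e i ∉ E → e i ∉ W →
      Dc M e0 (E ∪ W) f2 f →
      (∀ g g', Dc M (e i) (insert e0 W) f g →
      ¬ Dc M e0 (E ∪ W) f1 g → ¬ Dc M (e i) (insert e0 (E ∪ W)) f' g →
      IsUnit4 (g' - g) → lbf g g' ∉ E → lbf g g' ∉ W → lbf g g' ≠ e0 → lbf g g' ≠ e i → S g) →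
      ∀ g g', Dc M (e i) G1 f g → ¬ Dc M (e i) (E1 ∪ G1) f' g → IsUnit4 (g' - g) →
        lbf g g' ∉ E1 → lbf g g' ∉ G1 → lbf g g' ≠ e i → S g := by
    intro i f f' S hi1 hi2 hf hS g g' h1 h2 h3 h4 h5 h6
    have hg := reach_not hωE (hfree f hf) h1
    have h7 : lbf g g' ∉ E := by
      intro h7
      have h8 : lbf g g' ∈ Ey M e0 E W f1 ω := by
        by_contra h8
        exact h4 (mem_sdiff.2 ⟨h7, h8⟩)
      obtain ⟨c, c', h9, h10, h11⟩ := (mem_Ey.1 h8).2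
      have h12 : c = g' := by
        rcases faces_unique h9 h3 h10 with h12 | h12
        · rw [h12] at h11; exact absurd h11 hg
        · exact h12
      rw [h12] at h11
      have h13 : lbf g g' ∈ H75.TwoArm.BB M := by
        have := hEM h7
        unfold H75.TwoArm.BB at this ⊢
        exact Bx_sub (by omega) (by omega) (by omega) (by omega) this
      apply hg
      refine Relation.ReflTransGen.tail h11 (ad_dc.2 ⟨unit4_neg h3, ?_, ?_, ?_⟩)
      · rw [lbf_comm]; exact h13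
      · rw [lbf_comm]
        intro h14
        exact he0E (h14 ▸ h7)
      · rw [lbf_comm]
        intro h14
        rcases mem_union.1 h14 with h14 | h14
        · exact h5 ((hmemG _).2 (Or.inr (Or.inr ⟨h14, h8⟩)))
        · exact h5 (hWG h14)
    refine hS g g' (h1.anti hinsW) (fun h8 => hg (h8.anti (union_subset_union hωE subset_rfl)))
      (fun h8 => h2 (h8.anti hsubG)) h3 h7 (fun h8 => h5 (hWG h8)) ?_ h6
    intro h8
    exact h5 ((hmemG _).2 (Or.inl h8))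
  -- vertices incident to the hull
  have hVB : ∀ a ∈ A, ∀ z, (z = eu a ∨ z = ev a) → VB (M - 1) z := by
    intro a ha z hz
    have hab := mem_Bx.1 (hEM (hAE ha))
    unfold VB
    rw [abs_le, abs_le]
    rcases hz with rfl | rfl
    · unfold eu; simp only; omega
    · unfold ev; simp only; omega
  have hAface : ∀ a ∈ A, ∀ z, (z = eu a ∨ z = ev a) →
      ∃ g, Ar z g ∧ RS M e0 (Dc M e0 (ω ∪ W) f1) f2 g := by
    intro a ha z hz
    have h3 := PivAux.fi_zu_zv (e := a) (hoddE a (hAE ha))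
    exact ⟨fi (zu a), around_of_label ⟨fi (zv a), h3.1, h3.2⟩ hz,
      (hull_faces hJ hωE hRA hX ha ⟨fi (zv a), h3.1, h3.2⟩).2⟩
  -- ties
  have hties : ∀ i ∈ s, ∀ v, Co A (y i) v → (∃ a ∈ A, v = eu a ∨ v = ev a) →
      (∃ o ∈ E \ A, v = eu o ∨ v = ev o) → ∃ T, IsTie O W1 (t' i) r v T := by
    intro i hi v hv1 hv2 hv3
    have hti : Co W1 t (t' i) := (hroot i hi).2.2.2.2.2.2.2.1.mono hWW1
    rcases hTie i hi v hv1 hv2 hv3 with h1 | ⟨Q, hQE, hQr, h1⟩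
    · refine ⟨∅, empty_subset _, fun m hm => absurd hm (notMem_empty m), ?_⟩
      rw [empty_union]
      exact (h1.mono hWW1).trans hti
    · have key : ∃ T z, T ⊆ Q \ A ∧ (∀ l ∈ T, ¬ Tou (Dc M e0 (ω ∪ W) f1) l) ∧ Co T v z ∧
          (Co (Kc M e0 W f1 ω) z t ∨ Co W z t) := by
        obtain ⟨a, ha, hva⟩ := hv2
        rcases h1 with h1 | ⟨z', h1, h2⟩ | ⟨h1, h2⟩
        · obtain ⟨T, z, k1, k2, k3, k4⟩ := tie hJ ((sdiff_subset.trans hQE).trans hEM)
            (hVB a ha v hva) (hAface a ha v hva) h1 ⟨f1, (by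
              have h3 := PivAux.fi_zu_zv (e := e0) hJ.odd
              have hx : x = eu e0 ∨ x = ev e0 := by
                rcases hJ.ends with ⟨h4, -⟩ | ⟨-, h4⟩
                · exact Or.inl h4
                · exact Or.inr h4
              rcases hJ.fac with ⟨h4, h5⟩ | ⟨h4, h5⟩
              · rw [h4]
                exact around_of_label ⟨fi (zv e0), h3.1, h3.2⟩ hx
              · rw [h5]
                exact around_of_label ⟨fi (zu e0), unit4_neg h3.1, by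
                  rw [lbf_comm]; exact h3.2⟩ hx), Dc.refl _⟩
          exact ⟨T, z, k1, k2, k3, Or.inl k4⟩
        · obtain ⟨T, z, k1, k2, k3, k4⟩ := tie' hJ ((sdiff_subset.trans hQE).trans hEM)
            (hVB a ha v hva) (hAface a ha v hva) h1
          rcases k4 with k4 | ⟨k4, -⟩
          · exact ⟨T, z, k1, k2, k3, Or.inl k4⟩
          · exact ⟨T, z, k1, k2, k3, Or.inr (k4 ▸ h2)⟩
        · obtain ⟨T, z, k1, k2, k3, k4⟩ := hull_tie hJ hωE hRA hX h1 (hAE.trans hEM)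
            (hQE.trans hEM) ⟨a, ha, hva⟩ h2
          exact ⟨T, z, k1, k2, k3, Or.inl k4⟩
      obtain ⟨T, z, hT1, hT2, hT3, hT4⟩ := key
      have hzt : Co W1 z t := by
        rcases hT4 with hT4 | hT4
        · exact co_wy (hT4.mono hKG)
        · exact hT4.mono hWW1
      refine ⟨T, ?_, fun m hm => hQr m (mem_sdiff.1 (hT1 hm)).1, ?_⟩
      · intro l hl
        have h3 := mem_sdiff.1 (hT1 hl)
        exact mem_sdiff.2 ⟨mem_sdiff.2 ⟨hQE h3.1, fun h4 => hT2 l hl (mem_Ey.1 h4).2⟩, h3.2⟩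
      · exact (hT3.mono subset_union_left).trans ((hzt.trans hti).mono subset_union_right)
  -- exit vertices
  have hexit : ∀ i ∈ s, ∀ v, Exit E1 G1 W1 O (y i) v → Co A (y i) v ∧
      (∃ a ∈ A, v = eu a ∨ v = ev a) ∧ ∃ o ∈ E \ A, v = eu o ∨ v = ev o := by
    intro i hi v hv
    have hpath : ∀ z, Co ((E1 ∪ G1) \ (O ∪ W1)) (y i) z →
        Co A (y i) z ∧ ∃ a ∈ A, z = eu a ∨ z = ev a := by
      intro z hz
      induction hz with
      | refl => exact ⟨Co.refl _ _, (hroot i hi).2.2.2.2.2.2.2.2.2.2⟩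
      | @tail b c hab hbc ih =>
        obtain ⟨ih1, a, ha, hba⟩ := ih
        have hends := step_ends hbc
        have hm := mem_sdiff.1 hbc.2
        rw [mem_union, mem_union, not_or] at hm
        have hA' : b + c ∈ A := by
          rcases hm.1 with h1 | h1
          · by_contra h2
            exact hm.2.1 (mem_sdiff.2 ⟨h1, h2⟩)
          · exfalso
            rcases (hmemG _).1 h1 with h2 | h2 | h2
            · exact hm.2.2 (h2 ▸ he0W1)
            · exact hm.2.2 (hWW1 h2)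
            · obtain ⟨g, g', h3, h4, h5⟩ := (mem_Ey.1 h2.2).2
              have h6 := around_of_label ⟨g', h3, h4⟩ hends.1
              rcases rot hJ (hVB a ha b hba) (hAface a ha b hba) with h7 | h7
              · exact (h7 g h6).not hP2 h5
              · exact hm.2.2 (hmemW1 _ h1 b hends.1 (h7.mono hKG))
        exact ⟨Relation.ReflTransGen.tail ih1 ⟨hbc.1, hA'⟩, b + c, hA', hends.2⟩
    obtain ⟨⟨o, ho, hov⟩, hvp⟩ := hv
    have h1 := hpath v hvp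
    refine ⟨h1.1, h1.2, o, ?_, hov⟩
    have h2 := mem_sdiff.1 ho
    exact mem_sdiff.2 ⟨hE1E h2.1, h2.2⟩
  -- the opened event
  have hopen : ∀ i ∈ s, ∀ η, Co ((η ∩ A) ∪ (E \ A) ∪ W) (y i) (t' i) →
      Co (η ∪ O ∪ G1) (y i) (t' i) := by
    intro i hi η hη
    by_cases hc : Co (η ∩ A) (y i) (t' i)
    · exact hc.mono (inter_subset_left.trans (subset_union_left.trans subset_union_left))
    · obtain ⟨z, z', hz, hz', hzz, -, -⟩ := exit_co (X := Co (η ∩ A) (y i)) hη (Co.refl _ _) hc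
      have hzA : ∃ a ∈ A, z = eu a ∨ z = ev a := by
        have : ∀ z, Co (η ∩ A) (y i) z → ∃ a ∈ A, z = eu a ∨ z = ev a := by
          intro z hz
          induction hz with
          | refl => exact (hroot i hi).2.2.2.2.2.2.2.2.2.2
          | @tail b c hab hbc ih =>
            exact ⟨b + c, (mem_inter.1 hbc.2).2, (step_ends hbc).2⟩
        exact this z hz
      have hends := step_ends hzz
      have hlab : z + z' ∈ E \ A ∨ z + z' ∈ W := by
        have h1 := hzz.2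
        rw [mem_union, mem_union] at h1
        rcases h1 with (h1 | h1) | h1
        · exact absurd (Co.trans hz (Relation.ReflTransGen.single ⟨hzz.1, h1⟩)) hz'
        · exact Or.inl h1
        · exact Or.inr h1
      have hz2 : Co (η ∪ O ∪ G1) (y i) z :=
        hz.mono (inter_subset_left.trans (subset_union_left.trans subset_union_left))
      refine hz2.trans ?_
      have hWsub : W1 ⊆ η ∪ O ∪ G1 := hW1G.trans subset_union_right
      rcases hlab with h1 | h1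
      · obtain ⟨T, h2, -, h3⟩ := hties i hi z (hz.mono inter_subset_right) hzA
          ⟨z + z', h1, hends.1⟩
        refine h3.mono (union_subset ?_ hWsub)
        exact h2.trans (subset_union_right.trans subset_union_left)
      · have h2 : Co W (eu (z + z')) t := hW _ h1
        have h3 : Co W z t := end_co' h1 (mem_Bx.1 (hWM h1)).2.2 hends.1 h2
        exact (h3.trans (hroot i hi).2.2.2.2.2.2.2.1).mono (hWG.trans subset_union_right)
  have hXE : Co ((E \ A) ∪ W) x t := hX.mono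
    (union_subset_union (sdiff_subset_sdiff hωE subset_rfl) subset_rfl)
  have hopen' : ∀ i ∈ s, ∀ η, η ⊆ E → Co (η ∪ O ∪ G1) (y i) (t' i) →
      Co ((η ∩ A) ∪ (E \ A) ∪ W) (y i) (t' i) := by
    intro i hi η hη hco
    refine co_drop (e0 := e0) (x := x) (t := t) hJ.odd hJ.ends (hXE.mono ?_) (hco.mono ?_)
    · intro l hl
      rw [mem_union] at hl
      rw [mem_union, mem_union]
      tauto
    · intro l hl
      rw [mem_insert, mem_union, mem_union, mem_inter, mem_sdiff]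
      rw [mem_union, mem_union] at hl
      by_cases hlA : l ∈ A
      · rcases hl with (hl | hl) | hl
        · exact Or.inr (Or.inl (Or.inl ⟨hl, hlA⟩))
        · exact absurd hlA (mem_sdiff.1 hl).2
        · rcases (hmemG l).1 hl with h | h | h
          · exact Or.inl h
          · exact Or.inr (Or.inr h)
          · exact absurd h.2 (mem_sdiff.1 (hAE1 hlA)).2
      · rcases hl with (hl | hl) | hl
        · exact Or.inr (Or.inl (Or.inr ⟨hη hl, hlA⟩))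
        · exact Or.inr (Or.inl (Or.inr ⟨hE1E (mem_sdiff.1 hl).1, hlA⟩))
        · rcases (hmemG l).1 hl with h | h | h
          · exact Or.inl h
          · exact Or.inr (Or.inr h)
          · exact Or.inr (Or.inl (Or.inr ⟨hωE h.1, hlA⟩))
  have hdis : Disjoint E1 G1 := by
    rw [disjoint_left]
    intro l h1 h2
    rcases (hmemG l).1 h2 with h | h | h
    · exact he0E (h ▸ hE1E h1)
    · exact (disjoint_left.1 hEW) (hE1E h1) h
    · exact (mem_sdiff.1 h1).2 h.2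
  have hmain := hδ ι s M E1 G1 W1 O e fL fR y t' SL SR H Arm r D k (hE1E.trans hEM) hG1M
    sdiff_subset hW1G hdis ?_ ?_ ?_ ?_ hHd hHS ?_ hr hk ?_ ?_
  · -- transfer to `Pr E`
    have e1 : Pr E1 (fun ω' => (∀ i ∈ s, Co (ω' ∪ O ∪ G1) (y i) (t' i)) ∧
        ¬ ∀ i ∈ s, Co (ω' ∪ G1) (y i) (t' i)) =
        Pr E (fun ω' => (∀ i ∈ s, Co ((ω' ∩ E1) ∪ O ∪ G1) (y i) (t' i)) ∧
        ¬ ∀ i ∈ s, Co ((ω' ∩ E1) ∪ G1) (y i) (t' i)) :=
      (Pr_restrict hE1E (fun ω' => (∀ i ∈ s, Co (ω' ∪ O ∪ G1) (y i) (t' i)) ∧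
        ¬ ∀ i ∈ s, Co (ω' ∪ G1) (y i) (t' i))).symm
    have e2 : ∏ i ∈ s, Pr E1 (fun ω' => Arm i (ω' ∩ H i)) =
        ∏ i ∈ s, Pr E (fun ω' => Arm i (ω' ∩ H i)) := by
      refine prod_congr rfl fun i hi => ?_
      rw [Pr_restrict ((hHA i hi).trans hAE1) (Arm i), Pr_restrict ((hHA i hi).trans hAE) (Arm i)]
    rw [e1, e2] at hmain
    refine le_trans (Pr_mono ?_) hmain
    rintro ω' hω' ⟨h1, h2⟩
    have hinter : (ω' ∩ E1) ∩ A = ω' ∩ A := by
      ext l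
      simp only [mem_inter]
      constructor
      · rintro ⟨⟨h3, -⟩, h4⟩; exact ⟨h3, h4⟩
      · rintro ⟨h3, h4⟩; exact ⟨⟨h3, hAE1 h4⟩, h4⟩
    refine ⟨fun i hi => hopen i hi (ω' ∩ E1) (by rw [hinter]; exact h1 i hi), fun h3 => h2 ?_⟩
    intro i hi
    have h4 := h3 i hi
    refine co_drop (e0 := e0) (x := x) (t := t) hJ.odd hJ.ends (hJ.kc.mono ?_) (h4.mono ?_)
    · intro l hl
      rw [mem_union, mem_mix]
      rcases mem_union.1 (hKG0 hl) with h5 | h5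
      · exact Or.inr h5
      · exact Or.inl (Or.inl (mem_inter.1 h5))
    · intro l hl
      rw [mem_insert, mem_union, mem_mix]
      rcases mem_union.1 hl with h5 | h5
      · have h6 := mem_inter.1 h5
        exact Or.inr (Or.inl (Or.inr ⟨h6.1, (mem_sdiff.1 h6.2).2⟩))
      · rcases (hmemG l).1 h5 with h6 | h6 | h6
        · exact Or.inl h6
        · exact Or.inr (Or.inr h6)
        · exact Or.inr (Or.inl (Or.inl h6))
  · intro i hi
    obtain ⟨h1, h2, h3, h4, h5, h6, h7, h8, h9, h10, h11⟩ := hroot i hi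
    refine ⟨h1, h2, fun h => h3 (hE1E h), ?_, h6, h7, fun w hw => ?_⟩
    · intro h
      rcases (hmemG _).1 h with h | h | h
      · exact h5 h
      · exact h4 h
      · exact h3 (hωE h.1)
    · exact (hW1t w hw).trans (h8.mono hWW1)
  · intro i hi
    obtain ⟨h1, h2, h3, h4, h5, h6, h7, h8, h9, h10, h11⟩ := hroot i hi
    exact ⟨(hSL i hi).1, hclos i (fL i) (fR i) (SL i) h3 h4 h9 (hSL i hi).2⟩
  · intro i hi
    obtain ⟨h1, h2, h3, h4, h5, h6, h7, h8, h9, h10, h11⟩ := hroot i hi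
    exact ⟨(hSR i hi).1, hclos i (fR i) (fL i) (SR i) h3 h4 h10 (hSR i hi).2⟩
  · intro i hi l hl
    refine mem_sdiff.2 ⟨hAE1 (hHA i hi hl), fun h => (mem_sdiff.1 h).2 (hHA i hi hl)⟩
  · intro i hi ω' hω' h
    exact hArm i hi ω' (hω'.trans hE1E) (hopen' i hi ω' (hω'.trans hE1E) h)
  · intro i hi v hv
    obtain ⟨h1, h2, h3⟩ := hexit i hi v hv
    exact hties i hi v h1 h2 h3
  · intro i hi v hv
    obtain ⟨h1, h2, h3⟩ := hexit i hi v hv
    exact hsep i hi v h1 h2 h3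

end Pool.Agent.H77.Q1
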