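import Mathlib
import Pool.Agent.H77.Q1.Hull

set_option autoImplicit false
open Finset

/-! Module M5 of Q1: summation of the approach lemma for hulls over the explored dual cluster. -/

namespace Pool.Agent.H77.Q1

open Pool.Agent.H75.Perc Pool.Agent.H75.TwoArm Pool.Agent.H75.Four

/-- Avoidance of an attached set is a function of the dual cluster. -/
lemma avoid_iff {M : ℤ} {e0 : ℤ × ℤ} {E W ω A : Finset (ℤ × ℤ)} {f1 f2 x t : ℤ × ℤ}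
    (h : Joined M e0 ω W f1 f2 x t) (hωE : ω ⊆ E) (hA : RAtt M e0 E W f2 A) :
    Co ((ω \ A) ∪ W) x t ↔ ∀ a ∈ A, ¬ Tou (Dc M e0 (ω ∪ W) f1) a := by
  constructor
  · rintro hX a ha ⟨g, g', h1, h2, h3⟩
    exact (hull_faces h hωE hA hX ha ⟨g', h1, h2⟩).1 h3
  · intro h1
    by_contra hX
    obtain ⟨m, hm, -, h2⟩ := hull_max (A := ∅) (Q := A) h hωE (fun a ha => absurd ha
      (notMem_empty a)) (by rw [sdiff_empty]; exact h.co) (by rw [empty_union]; exact hX)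
    exact h1 m (mem_sdiff.1 hm).1 h2

/-- **B3 for hulls, summed over the explored dual cluster.** `B a` = event 'the hull is `a`', with
labels `L a`. -/
theorem hull_b3_sum : ∃ δ : ℝ, 0 < δ ∧ δ < 1 ∧ ∀ (ι κ : Type) [DecidableEq ι] (s : Finset ι)
    (AA : Finset κ) (L : κ → Finset (ℤ × ℤ)) (B : κ → Finset (ℤ × ℤ) → Prop)
    (M : ℤ) (E W : Finset (ℤ × ℤ)) (e0 f1 f2 x t : ℤ × ℤ) (e fL fR y t' : ι → ℤ × ℤ)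
    (SL SR : ι → ℤ × ℤ → Prop) (H : ι → Finset (ℤ × ℤ)) (Arm : ι → Finset (ℤ × ℤ) → Prop)
    (r D : ℤ) (k : ℕ),
    E ⊆ H75.TwoArm.BB (M - 1) → W ⊆ H75.TwoArm.BB (M - 1) → Disjoint E W →
    (e0.1 + e0.2) % 2 = 1 → e0 ∈ H75.TwoArm.BB (M - 1) → e0 ∉ E → e0 ∉ W →
    Fac e0 f1 f2 → Ends e0 x t → (∀ w ∈ W, Co W (eu w) t) →
    (∀ a ∈ AA, L a ⊆ E) →
    (∀ a ∈ AA, ∀ ω, ω ⊆ E → B a ω → Co (ω ∪ W) x t ∧ RAtt M e0 E W f2 (L a) ∧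
      Co ((ω \ L a) ∪ W) x t) →
    (∀ a ∈ AA, ∀ ω ω1, ω ⊆ E → ω1 ⊆ E →
      (∀ g, Dc M e0 (ω1 ∪ W) f1 g ↔ Dc M e0 (ω ∪ W) f1 g) → B a ω1 → B a ω) →
    (∀ a ∈ AA, ∀ b ∈ AA, ∀ ω, ω ⊆ E → B a ω → B b ω → a = b) →
    (∀ i ∈ s, ((e i).1 + (e i).2) % 2 = 1 ∧ e i ∈ H75.TwoArm.BB (M - 1) ∧ e i ∉ E ∧ e i ∉ W ∧
      e i ≠ e0 ∧ Fac (e i) (fL i) (fR i) ∧ Ends (e i) (y i) (t' i) ∧ Co W t (t' i) ∧
      Dc M e0 (E ∪ W) f2 (fL i) ∧ Dc M e0 (E ∪ W) f2 (fR i)) →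
    (∀ i ∈ s, SL i (fL i) ∧ ∀ g g', Dc M (e i) (insert e0 W) (fL i) g →
      ¬ Dc M e0 (E ∪ W) f1 g → ¬ Dc M (e i) (insert e0 (E ∪ W)) (fR i) g →
      IsUnit4 (g' - g) → lbf g g' ∉ E → lbf g g' ∉ W → lbf g g' ≠ e0 → lbf g g' ≠ e i → SL i g) →
    (∀ i ∈ s, SR i (fR i) ∧ ∀ g g', Dc M (e i) (insert e0 W) (fR i) g →
      ¬ Dc M e0 (E ∪ W) f1 g → ¬ Dc M (e i) (insert e0 (E ∪ W)) (fL i) g →
      IsUnit4 (g' - g) → lbf g g' ∉ E → lbf g g' ∉ W → lbf g g' ≠ e0 → lbf g g' ≠ e i → SR i g) →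
    (∀ i ∈ s, ∀ j ∈ s, i ≠ j → Disjoint (H i) (H j)) →
    (∀ i ∈ s, ∀ j ∈ s, i ≠ j → ∀ g g', IsUnit4 (g' - g) → lbf g g' ∈ H j → SL i g ∧ SR i g) →
    (∀ a ∈ AA, ∀ ω, ω ⊆ E → B a ω → ∀ i ∈ s, H i ⊆ L a ∧ (∃ l ∈ L a, y i = eu l ∨ y i = ev l) ∧
      (∀ ω', ω' ⊆ E → Co ((ω' ∩ L a) ∪ (E \ L a) ∪ W) (y i) (t' i) → Arm i (ω' ∩ H i))) →
    1 ≤ r → 4 ^ k * r ≤ D →
    (∀ a ∈ AA, ∀ ω, ω ⊆ E → B a ω → ∀ i ∈ s, ∀ v, Co (L a) (y i) v →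
      (∃ l ∈ L a, v = eu l ∨ v = ev l) → (∃ o ∈ E \ L a, v = eu o ∨ v = ev o) →
      (Co W v t ∨ ∃ Q : Finset (ℤ × ℤ), Q ⊆ E ∧
        (∀ m ∈ Q, |m.1 - 2 * v.1| ≤ 2 * r - 2 ∧ |m.2 - 2 * v.2| ≤ 2 * r - 2) ∧
        (Co (Q \ L a) v x ∨ (∃ z, Co (Q \ L a) v z ∧ Co W z t) ∨
          (¬ Co ((ω \ (L a ∪ Q)) ∪ W) x t ∧ ∀ m ∈ Q \ L a, Co (Q \ L a) v (eu m)))) ∧
      ((∀ g, SL i g → Far D v g) ∨ (∀ g, SR i g → Far D v g))) →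
    Pr E (fun ω => ∃ a ∈ AA, B a ω ∧ (∀ i ∈ s, Co ((ω ∩ L a) ∪ (E \ L a) ∪ W) (y i) (t' i)) ∧
      ¬ ∀ i ∈ s, Co (ω ∪ W) (y i) (t' i)) ≤
      Pr E (fun ω => Co (ω ∪ W) x t) *
        (s.card * (2 * (1 - δ) ^ k) * ∏ i ∈ s, Pr E (fun ω' => Arm i (ω' ∩ H i))) := by
  classical
  obtain ⟨δ, hδ0, hδ1, hδ⟩ := hull_b3
  refine ⟨δ, hδ0, hδ1, ?_⟩
  intro ι κ _ s AA L B M E W e0 f1 f2 x t e fL fR y t' SL SR H Arm r D k hEM hWM hEW he0 he0M he0E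
    he0W hf hx hW hLE hB hinv hexcl hroot hSL hSR hHd hHS hgeo hr hk htie
  have hJ : ∀ a ∈ AA, ∀ ω, ω ⊆ E → B a ω → Joined M e0 ω W f1 f2 x t := by
    intro a ha ω hω h
    refine ⟨he0, he0M, union_subset (hω.trans hEM) hWM, ?_, hf, hx, (hB a ha ω hω h).1⟩
    intro h1
    rcases mem_union.1 h1 with h1 | h1
    · exact he0E (hω h1)
    · exact he0W h1
  set q : ℝ := s.card * (2 * (1 - δ) ^ k) * ∏ i ∈ s, Pr E (fun ω' => Arm i (ω' ∩ H i)) with hq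
  have hq0 : 0 ≤ q := by
    rw [hq]
    have h1 : (0 : ℝ) ≤ (1 - δ) ^ k := pow_nonneg (by linarith) k
    have h2 : (0 : ℝ) ≤ ∏ i ∈ s, Pr E (fun ω' => Arm i (ω' ∩ H i)) :=
      prod_nonneg fun i _ => Pr_nonneg _ _
    positivity
  have hone : ∀ a ∈ AA, ∀ ω, ω ⊆ E → B a ω →
      Pr E (fun ω' => (∀ i ∈ s, Co ((ω' ∩ L a) ∪ (E \ L a) ∪ W) (y i) (t' i)) ∧
      ¬ ∀ i ∈ s, Co (mix (Ey M e0 E W f1 ω) ω ω' ∪ W) (y i) (t' i)) ≤ q := by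
    intro a ha ω hω hBa
    obtain ⟨h1, h2, h3⟩ := hB a ha ω hω hBa
    refine hδ ι s M E W (L a) ω e0 f1 f2 x t e fL fR y t' SL SR H Arm r D k hEM hWM hEW (hLE a ha)
      hω (hJ a ha ω hω hBa) he0E hW h2 h3 ?_ hSL hSR (fun i hi => (hgeo a ha ω hω hBa i hi).1) hHd
      hHS (fun i hi => (hgeo a ha ω hω hBa i hi).2.2) hr hk ?_ ?_
    · intro i hi
      obtain ⟨a1, a2, a3, a4, a5, a6, a7, a8, a9, a10⟩ := hroot i hi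
      exact ⟨a1, a2, a3, a4, a5, a6, a7, a8, a9, a10, (hgeo a ha ω hω hBa i hi).2.1⟩
    · intro i hi v b1 b2 b3
      exact (htie a ha ω hω hBa i hi v b1 b2 b3).1
    · intro i hi v b1 b2 b3
      exact (htie a ha ω hω hBa i hi v b1 b2 b3).2
  have hdc : ∀ ω ω', ω ⊆ E → ω' ⊆ E → ∀ g,
      Dc M e0 (mix (Ey M e0 E W f1 ω) ω ω' ∪ W) f1 g ↔ Dc M e0 (ω ∪ W) f1 g := by
    intro ω ω' h1 h2 g
    have h3 := dc_local (M := M) (e0 := e0) (E := E) (W := W) (O := ∅) (f1 := f1) h1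
      (mix_sub (U := Ey M e0 E W f1 ω) h1 h2) mix_agree g
    rwa [union_empty, union_empty] at h3
  have hEy : ∀ ω ω', ω ⊆ E → ω' ⊆ E →
      Ey M e0 E W f1 (mix (Ey M e0 E W f1 ω) ω ω') = Ey M e0 E W f1 ω := fun ω ω' h1 h2 =>
    ex_mix h1 h2
  have hmain := resample_le E (Ey M e0 E W f1) hEy
    (fun ω => ∃ a ∈ AA, B a ω ∧ (∀ i ∈ s, Co ((ω ∩ L a) ∪ (E \ L a) ∪ W) (y i) (t' i)) ∧
      ¬ ∀ i ∈ s, Co (ω ∪ W) (y i) (t' i))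
    (fun ω => ∃ a ∈ AA, B a ω)
    (fun ω ω' => ∃ a ∈ AA, B a ω ∧
      (∀ i ∈ s, Co ((ω' ∩ L a) ∪ (E \ L a) ∪ W) (y i) (t' i)) ∧
      ¬ ∀ i ∈ s, Co (mix (Ey M e0 E W f1 ω) ω ω' ∪ W) (y i) (t' i)) q ?_ ?_ ?_
  · refine le_trans (Pr_mono ?_) (hmain.trans (mul_le_mul_of_nonneg_right (Pr_mono ?_) hq0))
    · rintro ω _ ⟨a, ha, h1, h2⟩
      exact ⟨⟨a, ha, h1, h2⟩, a, ha, h1⟩
    · rintro ω hω ⟨a, ha, h1⟩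
      exact (hB a ha ω hω h1).1
  · rintro ω ω' h1 h2 ⟨a, ha, h3⟩
    exact ⟨a, ha, hinv a ha ω _ h1 (mix_sub h1 h2) (hdc ω ω' h1 h2) h3⟩
  · rintro ω hω ⟨a, ha, h1⟩
    refine le_trans (Pr_mono ?_) (hone a ha ω hω h1)
    rintro ω' - ⟨b, hb, h2, h3⟩
    have h4 := hexcl b hb a ha ω hω h2 h1
    rw [h4] at h3
    exact h3
  · rintro ω ω' h1 h2 - ⟨a, ha, h3, h4, h5⟩
    have h6 := hinv a ha ω _ h1 (mix_sub h1 h2) (hdc ω ω' h1 h2) h3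
    refine ⟨a, ha, h6, ?_, h5⟩
    have h7 := hull_fresh (hJ a ha ω h1 h6) h1 (hLE a ha) (hB a ha ω h1 h6).2.1
      (hB a ha ω h1 h6).2.2
    have h8 : mix (Ey M e0 E W f1 ω) ω ω' ∩ L a = ω' ∩ L a := by
      ext l
      rw [mem_inter, mem_inter, mem_mix]
      constructor
      · rintro ⟨h9 | h9, h10⟩
        · exact absurd h9.2 (mem_sdiff.1 (h7 h10)).2
        · exact ⟨h9.1, h10⟩
      · rintro ⟨h9, h10⟩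
        exact ⟨Or.inr ⟨h9, (mem_sdiff.1 (h7 h10)).2⟩, h10⟩
    rw [h8] at h4
    exact h4

end Pool.Agent.H77.Q1
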